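import Mathlib

/-! # The root system `D_4` with its automorphism of order three: definitions

Roots: the integral vectors `(c; m_0, m_1, m_2)` with `c ^ 2 + ∑ m_i ^ 2 - c ∑ m_i = 1` (24 roots); `(1; 0, 0, 0)` is the central simple root, `(0; e_i)` are the three others.
Signs: `ep r s = (-1) ^ (c c' + ∑ m_i m_i' + c ∑ m_i')` (bimultiplicative, `ep r r = -1`, `ep r s * ep s r = (-1) ^ (r, s)`, invariant under the rotation `sg` of the `m_i`).
-/

namespace ThT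

/-- integral vectors `(c; m_0, m_1, m_2)` -/
abbrev Vec : Type := ℤ × (Fin 3 → ℤ)

/-- the root vectors -/
def IsR (v : Vec) : Prop := v.1 ^ 2 + ∑ i, v.2 i ^ 2 - v.1 * ∑ i, v.2 i = 1

instance : DecidablePred IsR := fun v => inferInstanceAs (Decidable (v.1 ^ 2 + ∑ i, v.2 i ^ 2 - v.1 * ∑ i, v.2 i = 1))

/-- the roots of `D_4` -/
abbrev Root : Type := {v : Vec // IsR v}

instance rootNeg : Neg Root := ⟨fun r => ⟨-r.1, by
  have h := r.2
  unfold IsR at h ⊢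
  simp only [Prod.snd_neg, Prod.fst_neg, Pi.neg_apply, Fin.sum_univ_three] at h ⊢
  linarith⟩⟩

@[simp] theorem neg_val (r : Root) : (-r).1 = -r.1 := rfl

@[simp] theorem neg_neg' (r : Root) : -(-r) = r := Subtype.ext (neg_neg r.1)

/-- the multiple `c v` -/
def sv (c : ℤ) (v : Vec) : Vec := (c * v.1, fun i => c * v.2 i)

/-- the bilinear form -/
def bf (v w : Vec) : ℤ := 2 * (v.1 * w.1) + 2 * ∑ i, v.2 i * w.2 i - v.1 * ∑ i, w.2 i - w.1 * ∑ i, v.2 i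

/-- the height -/
def ht (v : Vec) : ℤ := v.1 + ∑ i, v.2 i

/-- the exponent of the sign -/
def bl (v w : Vec) : ℤ := v.1 * w.1 + ∑ i, v.2 i * w.2 i + v.1 * ∑ i, w.2 i

/-- the sign -/
def ep (K : Type*) [Field K] (v w : Vec) : Kˣ := (-1) ^ bl v w

/-- the rotation of the three outer nodes: `e_i ↦ e_(i+1)` -/
def sg (v : Vec) : Vec := (v.1, fun i => v.2 (i + 2))

theorem bf_eq (v w : Vec) : bf v w = 2 * (v.1 * w.1) + 2 * (v.2 0 * w.2 0 + v.2 1 * w.2 1 + v.2 2 * w.2 2) - v.1 * (w.2 0 + w.2 1 + w.2 2) - w.1 * (v.2 0 + v.2 1 + v.2 2) := by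
  unfold bf
  simp only [Fin.sum_univ_three]

theorem bl_eq (v w : Vec) : bl v w = v.1 * w.1 + (v.2 0 * w.2 0 + v.2 1 * w.2 1 + v.2 2 * w.2 2) + v.1 * (w.2 0 + w.2 1 + w.2 2) := by
  unfold bl
  simp only [Fin.sum_univ_three]

theorem ht_eq (v : Vec) : ht v = v.1 + (v.2 0 + v.2 1 + v.2 2) := by
  unfold ht
  simp only [Fin.sum_univ_three]

theorem isR_eq (v : Vec) : IsR v ↔ v.1 ^ 2 + (v.2 0 ^ 2 + v.2 1 ^ 2 + v.2 2 ^ 2) - v.1 * (v.2 0 + v.2 1 + v.2 2) = 1 := by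
  unfold IsR
  simp only [Fin.sum_univ_three]

theorem bf_add_left (u v w : Vec) : bf (u + v) w = bf u w + bf v w := by
  simp only [bf_eq, Prod.snd_add, Prod.fst_add, Pi.add_apply]
  ring

theorem bf_comm (v w : Vec) : bf v w = bf w v := by
  simp only [bf_eq]
  ring

theorem bf_sv_left (c : ℤ) (v w : Vec) : bf (sv c v) w = c * bf v w := by
  simp only [bf_eq, sv]
  ring

theorem bf_neg_left (v w : Vec) : bf (-v) w = - bf v w := by
  simp only [bf_eq, Prod.snd_neg, Prod.fst_neg, Pi.neg_apply]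
  ring

theorem bf_add_right (u v w : Vec) : bf u (v + w) = bf u v + bf u w := by
  rw [bf_comm, bf_add_left, bf_comm v, bf_comm w]

theorem bf_sv_right (c : ℤ) (v w : Vec) : bf v (sv c w) = c * bf v w := by
  rw [bf_comm, bf_sv_left, bf_comm]

theorem bf_neg_right (v w : Vec) : bf v (-w) = - bf v w := by
  rw [bf_comm, bf_neg_left, bf_comm]

theorem bf_sub_left (u v w : Vec) : bf (u - v) w = bf u w - bf v w := by
  rw [sub_eq_add_neg, bf_add_left, bf_neg_left, ← sub_eq_add_neg]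

theorem bf_sub_right (u v w : Vec) : bf u (v - w) = bf u v - bf u w := by
  rw [sub_eq_add_neg, bf_add_right, bf_neg_right, ← sub_eq_add_neg]

/-- a vector is a root iff `bf v v = 2` -/
theorem isR_iff (v : Vec) : IsR v ↔ bf v v = 2 := by
  rw [isR_eq, bf_eq]
  constructor <;> intro h <;> linarith

theorem bf_root (r : Root) : bf r.1 r.1 = 2 := (isR_iff r.1).1 r.2

theorem mk_root (v : Vec) (h2 : bf v v = 2) : ∃ t : Root, t.1 = v := ⟨⟨v, (isR_iff v).2 h2⟩, rfl⟩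

theorem ht_add (v w : Vec) : ht (v + w) = ht v + ht w := by
  simp only [ht_eq, Prod.snd_add, Prod.fst_add, Pi.add_apply]
  ring

theorem ht_neg (v : Vec) : ht (-v) = - ht v := by
  simp only [ht_eq, Prod.snd_neg, Prod.fst_neg, Pi.neg_apply]
  ring

theorem ht_sv (c : ℤ) (v : Vec) : ht (sv c v) = c * ht v := by
  simp only [ht_eq, sv]
  ring

theorem ht_sub (v w : Vec) : ht (v - w) = ht v - ht w := by
  rw [sub_eq_add_neg, ht_add, ht_neg, ← sub_eq_add_neg]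

/-- the form is positive definite -/
theorem bf_pos (v : Vec) : 0 ≤ bf v v ∧ (bf v v = 0 → v = 0) := by
  have h : 2 * bf v v = v.1 ^ 2 + (2 * v.2 0 - v.1) ^ 2 + (2 * v.2 1 - v.1) ^ 2 + (2 * v.2 2 - v.1) ^ 2 := by
    rw [bf_eq]
    ring
  constructor
  · nlinarith [sq_nonneg v.1, sq_nonneg (2 * v.2 0 - v.1), sq_nonneg (2 * v.2 1 - v.1), sq_nonneg (2 * v.2 2 - v.1)]
  · intro h0
    rw [h0] at h
    have h1 := sq_nonneg v.1
    have h2 := sq_nonneg (2 * v.2 0 - v.1)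
    have h3 := sq_nonneg (2 * v.2 1 - v.1)
    have h4 := sq_nonneg (2 * v.2 2 - v.1)
    have e1 : v.1 = 0 := pow_eq_zero_iff (two_ne_zero) |>.1 (by linarith : v.1 ^ 2 = 0)
    have e2 : 2 * v.2 0 - v.1 = 0 := pow_eq_zero_iff (two_ne_zero) |>.1 (by linarith : (2 * v.2 0 - v.1) ^ 2 = 0)
    have e3 : 2 * v.2 1 - v.1 = 0 := pow_eq_zero_iff (two_ne_zero) |>.1 (by linarith : (2 * v.2 1 - v.1) ^ 2 = 0)
    have e4 : 2 * v.2 2 - v.1 = 0 := pow_eq_zero_iff (two_ne_zero) |>.1 (by linarith : (2 * v.2 2 - v.1) ^ 2 = 0)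
    refine Prod.ext e1 (funext fun i => ?_)
    fin_cases i
    · show v.2 0 = 0
      omega
    · show v.2 1 = 0
      omega
    · show v.2 2 = 0
      omega

private theorem ad_bf_add (r s : Root) : bf (r.1 + s.1) (r.1 + s.1) = 4 + 2 * bf r.1 s.1 := by
  rw [bf_add_left, bf_add_right, bf_add_right, bf_root, bf_root, bf_comm s.1 r.1]
  ring

private theorem ad_neg_eq {r s : Root} (h : r.1 + s.1 = 0) : s = -r := by
  apply Subtype.ext
  rw [neg_val]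
  exact (neg_eq_of_add_eq_zero_right h).symm

theorem bf_ge (r s : Root) : -2 ≤ bf r.1 s.1 ∧ (bf r.1 s.1 = -2 → s = -r) := by
  have h1 := bf_pos (r.1 + s.1)
  rw [ad_bf_add] at h1
  refine ⟨by linarith [h1.1], fun h2 => ad_neg_eq (h1.2 (by rw [h2]; norm_num))⟩

theorem bf_le (r s : Root) : bf r.1 s.1 ≤ 2 ∧ (bf r.1 s.1 = 2 → s = r) := by
  have h1 := bf_ge r (-s)
  rw [neg_val, bf_neg_right] at h1
  refine ⟨by linarith [h1.1], fun h2 => ?_⟩
  have h3 := h1.2 (by rw [h2])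
  have h4 := congrArg (fun t : Root => -t) h3
  simpa using h4

theorem bf_cases {r s : Root} (h1 : s ≠ r) (h2 : s ≠ -r) : bf r.1 s.1 = -1 ∨ bf r.1 s.1 = 0 ∨ bf r.1 s.1 = 1 := by
  have h3 := bf_ge r s
  have h4 := bf_le r s
  have h5 : bf r.1 s.1 ≠ -2 := fun h => h2 (h3.2 h)
  have h6 : bf r.1 s.1 ≠ 2 := fun h => h1 (h4.2 h)
  omega

theorem root_add {r s : Root} (h : bf r.1 s.1 = -1) : ∃ t : Root, t.1 = r.1 + s.1 :=
  mk_root _ (by rw [ad_bf_add, h]; norm_num)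

theorem root_sub {r s : Root} (h : bf r.1 s.1 = 1) : ∃ t : Root, t.1 = s.1 - r.1 := by
  obtain ⟨t, ht⟩ := root_add (r := -r) (s := s) (by rw [neg_val, bf_neg_left, h])
  exact ⟨t, by rw [ht, neg_val]; abel⟩

theorem bf_of_add {r s t : Root} (h : t.1 = r.1 + s.1) : bf r.1 s.1 = -1 := by
  have h1 := bf_root t
  rw [h, ad_bf_add] at h1
  linarith

theorem add_ne_zero' {r s : Root} (h : bf r.1 s.1 ≠ -2) : r.1 + s.1 ≠ 0 := by
  intro h0
  apply h
  rw [ad_neg_eq h0, neg_val, bf_neg_right, bf_root]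

/-- the reflection -/
def rf (r s : Root) : Root := ⟨s.1 - sv (bf r.1 s.1) r.1, (isR_iff _).2 (by
  rw [bf_sub_left, bf_sub_right, bf_sub_right, bf_sv_left, bf_sv_right, bf_sv_left, bf_sv_right, bf_root, bf_root, bf_comm s.1 r.1]
  ring)⟩

theorem rf_val (r s : Root) : (rf r s).1 = s.1 - sv (bf r.1 s.1) r.1 := rfl

theorem rf_rf (r s : Root) : rf r (rf r s) = s := by
  apply Subtype.ext
  rw [rf_val, rf_val, bf_sub_right, bf_sv_right, bf_root]
  refine Prod.ext ?_ (funext fun i => ?_)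
  · simp only [sv, Prod.fst_sub]
    ring
  · simp only [sv, Prod.snd_sub, Pi.sub_apply]
    ring

theorem rf_neg (r s : Root) : rf r (-s) = -rf r s := by
  apply Subtype.ext
  rw [rf_val, neg_val, neg_val, rf_val, bf_neg_right]
  refine Prod.ext ?_ (funext fun i => ?_)
  · simp only [sv, Prod.fst_sub, Prod.fst_neg]
    ring
  · simp only [sv, Prod.snd_sub, Pi.sub_apply, Prod.snd_neg, Pi.neg_apply]
    ring

theorem rf_self (r : Root) : rf r r = -r := by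
  apply Subtype.ext
  rw [rf_val, neg_val, bf_root]
  refine Prod.ext ?_ (funext fun i => ?_)
  · simp only [sv, Prod.fst_sub, Prod.fst_neg]
    ring
  · simp only [sv, Prod.snd_sub, Pi.sub_apply, Prod.snd_neg, Pi.neg_apply]
    ring

/-! ## the list of the roots -/

/-- the roots -/
def rts : List Vec := [(0, ![1, 0, 0]), (0, ![0, 1, 0]), (0, ![0, 0, 1]), (1, ![0, 0, 0]), (1, ![1, 0, 0]), (1, ![0, 1, 0]), (1, ![0, 0, 1]), (1, ![0, 1, 1]), (1, ![1, 0, 1]), (1, ![1, 1, 0]), (1, ![1, 1, 1]), (2, ![1, 1, 1]),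
  (0, ![-1, 0, 0]), (0, ![0, -1, 0]), (0, ![0, 0, -1]), (-1, ![0, 0, 0]), (-1, ![-1, 0, 0]), (-1, ![0, -1, 0]), (-1, ![0, 0, -1]), (-1, ![0, -1, -1]), (-1, ![-1, 0, -1]), (-1, ![-1, -1, 0]), (-1, ![-1, -1, -1]), (-2, ![-1, -1, -1])]

theorem mem_rts (r : Root) : r.1 ∈ rts := by
  obtain ⟨⟨c, m⟩, h⟩ := r
  rw [isR_eq] at h
  have h1 : c ^ 2 + (2 * m 0 - c) ^ 2 + (2 * m 1 - c) ^ 2 + (2 * m 2 - c) ^ 2 = 4 := by
    simp only at h
    nlinarith [h]
  have s0 := sq_nonneg c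
  have s1 := sq_nonneg (2 * m 0 - c)
  have s2 := sq_nonneg (2 * m 1 - c)
  have s3 := sq_nonneg (2 * m 2 - c)
  have hc : -2 ≤ c ∧ c ≤ 2 := ⟨by nlinarith, by nlinarith⟩
  have b0 : -2 ≤ 2 * m 0 - c ∧ 2 * m 0 - c ≤ 2 := ⟨by nlinarith, by nlinarith⟩
  have b1 : -2 ≤ 2 * m 1 - c ∧ 2 * m 1 - c ≤ 2 := ⟨by nlinarith, by nlinarith⟩
  have b2 : -2 ≤ 2 * m 2 - c ∧ 2 * m 2 - c ≤ 2 := ⟨by nlinarith, by nlinarith⟩
  have hm : m = ![m 0, m 1, m 2] := by
    funext i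
    fin_cases i <;> rfl
  show (c, m) ∈ rts
  rw [hm]
  generalize m 0 = x at *
  generalize m 1 = y at *
  generalize m 2 = z at *
  have kx : -2 ≤ x ∧ x ≤ 2 := by omega
  have ky : -2 ≤ y ∧ y ≤ 2 := by omega
  have kz : -2 ≤ z ∧ z ≤ 2 := by omega
  obtain ⟨hc1, hc2⟩ := hc
  obtain ⟨kx1, kx2⟩ := kx
  obtain ⟨ky1, ky2⟩ := ky
  obtain ⟨kz1, kz2⟩ := kz
  have key : ∀ c ∈ Finset.Icc (-2 : ℤ) 2, ∀ x ∈ Finset.Icc (-2 : ℤ) 2, ∀ y ∈ Finset.Icc (-2 : ℤ) 2, ∀ z ∈ Finset.Icc (-2 : ℤ) 2,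
      c ^ 2 + (2 * x - c) ^ 2 + (2 * y - c) ^ 2 + (2 * z - c) ^ 2 = 4 → (c, ![x, y, z]) ∈ rts := by
    decide
  exact key c (Finset.mem_Icc.2 ⟨hc1, hc2⟩) x (Finset.mem_Icc.2 ⟨kx1, kx2⟩) y (Finset.mem_Icc.2 ⟨ky1, ky2⟩) z (Finset.mem_Icc.2 ⟨kz1, kz2⟩) h1

/-- properties of roots can be checked on the list -/
theorem all_rts {p : Vec → Prop} (h : ∀ v ∈ rts, p v) (r : Root) : p r.1 := h r.1 (mem_rts r)

/-! ## the rotation -/

theorem sg_add (v w : Vec) : sg (v + w) = sg v + sg w := rfl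

theorem sg_neg (v : Vec) : sg (-v) = -sg v := rfl

theorem sg_sub (v w : Vec) : sg (v - w) = sg v - sg w := rfl

theorem sg_sv (c : ℤ) (v : Vec) : sg (sv c v) = sv c (sg v) := rfl

theorem sg_sg_sg (v : Vec) : sg (sg (sg v)) = v := by
  refine Prod.ext rfl (funext fun i => ?_)
  show v.2 (i + 2 + 2 + 2) = v.2 i
  congr 1
  fin_cases i <;> rfl

theorem bf_sg (v w : Vec) : bf (sg v) (sg w) = bf v w := by
  rw [bf_eq, bf_eq]
  show 2 * (v.1 * w.1) + 2 * (v.2 2 * w.2 2 + v.2 0 * w.2 0 + v.2 1 * w.2 1) - v.1 * (w.2 2 + w.2 0 + w.2 1) - w.1 * (v.2 2 + v.2 0 + v.2 1) = _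
  ring

theorem bl_sg (v w : Vec) : bl (sg v) (sg w) = bl v w := by
  rw [bl_eq, bl_eq]
  show v.1 * w.1 + (v.2 2 * w.2 2 + v.2 0 * w.2 0 + v.2 1 * w.2 1) + v.1 * (w.2 2 + w.2 0 + w.2 1) = _
  ring

theorem ht_sg (v : Vec) : ht (sg v) = ht v := by
  rw [ht_eq, ht_eq]
  show v.1 + (v.2 2 + v.2 0 + v.2 1) = _
  ring

theorem ep_sg (K : Type*) [Field K] (v w : Vec) : ep K (sg v) (sg w) = ep K v w := by
  unfold ep
  rw [bl_sg]

theorem isR_sg {v : Vec} (h : IsR v) : IsR (sg v) := by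
  rw [isR_iff, bf_sg]
  exact (isR_iff v).1 h

/-- the rotation of the roots -/
def sr (r : Root) : Root := ⟨sg r.1, isR_sg r.2⟩

theorem sr_val (r : Root) : (sr r).1 = sg r.1 := rfl

theorem sr_sr_sr (r : Root) : sr (sr (sr r)) = r := Subtype.ext (sg_sg_sg r.1)

theorem sr_neg (r : Root) : sr (-r) = -sr r := Subtype.ext (sg_neg r.1)

theorem ht_sr (r : Root) : ht (sr r).1 = ht r.1 := ht_sg r.1

theorem bf_sr (r s : Root) : bf (sr r).1 (sr s).1 = bf r.1 s.1 := bf_sg r.1 s.1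

theorem ep_sr (K : Type*) [Field K] (r s : Root) : ep K (sr r).1 (sr s).1 = ep K r.1 s.1 := ep_sg K r.1 s.1

theorem bf_sr_left (r s : Root) : bf (sr r).1 s.1 = bf r.1 (sr (sr s)).1 := by
  rw [← bf_sr r, sr_sr_sr]

theorem ht_ne (r : Root) : ht r.1 ≠ 0 := all_rts (p := fun v => ht v ≠ 0) (by decide) r

/-- a root is fixed or orthogonal to its image -/
theorem bf_self_sr (r : Root) : sr r = r ∨ bf r.1 (sr r).1 = 0 := by
  have h := all_rts (p := fun v => sg v = v ∨ bf v (sg v) = 0) (by decide) r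
  rcases h with h | h
  · exact Or.inl (Subtype.ext h)
  · exact Or.inr h

theorem sr_ne_neg (r : Root) : sr r ≠ -r ∧ sr (sr r) ≠ -r := by
  have h := all_rts (p := fun v => sg v ≠ -v ∧ sg (sg v) ≠ -v) (by decide) r
  exact ⟨fun h1 => h.1 (congrArg Subtype.val h1), fun h1 => h.2 (congrArg Subtype.val h1)⟩

/-- `n_r(a)` -/
def nn {K G : Type*} [Field K] [Group G] (x : Root → K → G) (r : Root) (a : K) : G := x r a * x (-r) a⁻¹ * x r a

/-- `h_r(a) = n_r(a) n_r(1)⁻¹` -/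
def hh {K G : Type*} [Field K] [Group G] (x : Root → K → G) (r : Root) (a : K) : G := nn x r a * nn x r (-1)

/-- Steinberg's relations over `K` (`G` generated by the `x r a`) -/
structure Stb (K : Type*) [Field K] {G : Type*} [Group G] (x : Root → K → G) : Prop where
  add : ∀ r a b, x r (a + b) = x r a * x r b
  sum : ∀ r s t : Root, t.1 = r.1 + s.1 → ∀ a b, x r a * x s b * (x r a)⁻¹ * (x s b)⁻¹ = x t (ep K r.1 s.1 * a * b)
  comm : ∀ r s : Root, r.1 + s.1 ≠ 0 → (∀ t : Root, t.1 ≠ r.1 + s.1) → ∀ a b, x r a * x s b * (x r a)⁻¹ * (x s b)⁻¹ = 1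
  tor : ∀ r a b, a ≠ 0 → b ≠ 0 → hh x r (a * b) = hh x r a * hh x r b
  gen : Subgroup.closure {g | ∃ r a, g = x r a} = ⊤

/-- the opposite system: roots `r ↦ -r` (it satisfies the same relations) -/
def op {K G : Type*} (x : Root → K → G) : Root → K → G := fun r a => x (-r) a

end ThT
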