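import Pool.Agent.ThT.Gin

/-! # Filtrations with one root subgroup per step -/

namespace ThT

section
variable {G : Type*} [Group G]

/-- one step: modulo `Q`, every element of `P` is `t * (w * t * w⁻¹)⁻¹` -/
def Stp (w : G) (P Q : Subgroup G) : Prop := ∀ g ∈ P, ∃ t ∈ P, t⁻¹ * g * (w * t * w⁻¹) ∈ Q

-- BEGIN ba
/-- MODULE ba. `t`, `s` with `s` for `t⁻¹ * g * (w * t * w⁻¹)`: the element `t * s`. -/
theorem Stp.trans {w : G} {P Q R : Subgroup G} (hQ : Q ≤ P) (h1 : Stp w P Q) (h2 : Stp w Q R) : Stp w P R := by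
  intro g hg
  obtain ⟨t, ht, h⟩ := h1 g hg
  obtain ⟨s, hs, h'⟩ := h2 _ h
  refine ⟨t * s, P.mul_mem ht (hQ hs), ?_⟩
  have e : (t * s)⁻¹ * g * (w * (t * s) * w⁻¹) = s⁻¹ * (t⁻¹ * g * (w * t * w⁻¹)) * (w * s * w⁻¹) := by
    group
  rw [e]
  exact h'

theorem Stp.left {w : G} {P : Subgroup G} (h : Stp w P ⊥) {v : G} (hv : v ∈ P) : ∃ t ∈ P, v * w = t * w * t⁻¹ := by
  obtain ⟨t, ht, h'⟩ := h v hv
  refine ⟨t, ht, ?_⟩
  rw [Subgroup.mem_bot] at h'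
  have e : v = t * (t⁻¹ * v * (w * t * w⁻¹)) * (w * t * w⁻¹)⁻¹ := by group
  rw [e, h']
  group

theorem Stp.right {w : G} {P : Subgroup G} (h : Stp w P ⊥) (hn : ∀ v ∈ P, w * v * w⁻¹ ∈ P) {v : G} (hv : v ∈ P) : ∃ t ∈ P, w * v = t * w * t⁻¹ := by
  obtain ⟨t, ht, h'⟩ := h.left (hn v hv)
  exact ⟨t, ht, by rw [← h']; group⟩

theorem Stp.conj {w c : G} {P Q : Subgroup G} (h1 : ∀ v ∈ P, c * v * c⁻¹ ∈ P) (h2 : ∀ v ∈ P, c⁻¹ * v * c ∈ P) (h3 : ∀ v ∈ Q, c * v * c⁻¹ ∈ Q) (h : Stp w P Q) : Stp (c * w * c⁻¹) P Q := by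
  intro g hg
  obtain ⟨t, ht, h'⟩ := h _ (h2 g hg)
  refine ⟨c * t * c⁻¹, h1 t ht, ?_⟩
  have e : (c * t * c⁻¹)⁻¹ * g * (c * w * c⁻¹ * (c * t * c⁻¹) * (c * w * c⁻¹)⁻¹) = c * (t⁻¹ * (c⁻¹ * g * c) * (w * t * w⁻¹)) * c⁻¹ := by
    group
  rw [e]
  exact h3 _ h'
-- END ba

-- BEGIN bb
/-- MODULE bb. `P / Q` is abelian (`hab`; `Q` is normal in `P` by `hab` and `hQ`) and `w` acts on it: `s` for `w ^ 4` and `g`; `t = s * (w s w⁻¹) * (w² s w⁻²) * (w³ s w⁻³)`: `t⁻¹ * (w t w⁻¹) = s⁻¹ * (w⁴ s w⁻⁴)` modulo `Q`.  (`QuotientGroup` of `P` by `Q.subgroupOf P` with `mul_comm`, or by hand.) -/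
theorem Stp.pow4 {w : G} {P Q : Subgroup G} (hQ : Q ≤ P) (h1 : ∀ v ∈ P, w * v * w⁻¹ ∈ P) (hab : ∀ a ∈ P, ∀ b ∈ P, a * b * a⁻¹ * b⁻¹ ∈ Q) (h : Stp (w ^ 4) P Q) : Stp w P Q := by
  intro g hg
  obtain ⟨s, hs, hq⟩ := h g hg
  have hs1 := h1 s hs
  have hs2 := h1 _ hs1
  have hs3 := h1 _ hs2
  have hs4 := h1 _ hs3
  -- modulo `Q` the elements of `P` commute
  have hx : (w * s * w⁻¹) * (w * (w * s * w⁻¹) * w⁻¹) * (w * (w * (w * s * w⁻¹) * w⁻¹) * w⁻¹) ∈ P :=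
    P.mul_mem (P.mul_mem hs1 hs2) hs3
  obtain ⟨X, hX⟩ : ∃ X, X = (w * s * w⁻¹) * (w * (w * s * w⁻¹) * w⁻¹) * (w * (w * (w * s * w⁻¹) * w⁻¹) * w⁻¹) := ⟨_, rfl⟩
  rw [← hX] at hx
  refine ⟨s * X, P.mul_mem hs hx, ?_⟩
  have e1 : w * (s * X) * w⁻¹ = X * (w * (w * (w * (w * s * w⁻¹) * w⁻¹) * w⁻¹) * w⁻¹) := by
    rw [hX]; group
  have e4 : w ^ 4 * s * (w ^ 4)⁻¹ = w * (w * (w * (w * s * w⁻¹) * w⁻¹) * w⁻¹) * w⁻¹ := by
    have e5 : w ^ 4 = w * w * w * w := by rw [pow_succ, pow_succ, pow_succ, pow_one]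
    rw [e5]; group
  rw [e4] at hq
  rw [e1]
  obtain ⟨s4, hs4'⟩ : ∃ y, y = w * (w * (w * (w * s * w⁻¹) * w⁻¹) * w⁻¹) * w⁻¹ := ⟨_, rfl⟩
  rw [← hs4'] at hq hs4 ⊢
  have hy : s⁻¹ * g ∈ P := P.mul_mem (P.inv_mem hs) hg
  have hc := hab X⁻¹ (P.inv_mem hx) (s⁻¹ * g) hy
  have e2 : (s * X)⁻¹ * g * (X * s4) = (X⁻¹ * (s⁻¹ * g) * X⁻¹⁻¹ * (s⁻¹ * g)⁻¹) * (s⁻¹ * g * s4) := by group
  rw [e2]
  exact Q.mul_mem hc hq
-- END bb
end

variable {K : Type*} [Field K] {G : Type*} [Group G] {x : Root → K → G} {τ : K →+* K}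

/-- the roots with `0 < l` of level at least `k` -/
def Lv (l f : Vec → ℤ) (k : ℤ) (r : Root) : Prop := 0 < l r.1 ∧ k ≤ f r.1

/-- additive functions, invariant under the rotation, `f` separates the orbits of the roots with `0 < l` -/
structure Lf (l f : Vec → ℤ) : Prop where
  la : ∀ v w, l (v + w) = l v + l w
  fa : ∀ v w, f (v + w) = f v + f w
  ls : ∀ v, l (sg v) = l v
  fs : ∀ v, f (sg v) = f v
  pos : ∀ r : Root, 0 < l r.1 → 0 < f r.1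
  inj : ∀ r s : Root, 0 < l r.1 → 0 < l s.1 → f r.1 = f s.1 → s = r ∨ s = sr r ∨ s = sr (sr r)
  top : ∀ r : Root, f r.1 < 9

variable {l f : Vec → ℤ}

-- BEGIN bc
private theorem bc_l0 (L : Lf l f) : l 0 = 0 := by
  have h := L.la 0 0
  rw [add_zero] at h
  omega

private theorem bc_neg (L : Lf l f) (v : Vec) : l (-v) = -l v := by
  have h := L.la v (-v)
  rw [add_neg_cancel, bc_l0 L] at h
  omega

private theorem bc_li (L : Lf l f) (i : ℕ) (v : Vec) : l (sg^[i] v) = l v := by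
  induction i with
  | zero => rfl
  | succ n ih => rw [Function.iterate_succ_apply', L.ls, ih]

private theorem bc_fi (L : Lf l f) (i : ℕ) (v : Vec) : f (sg^[i] v) = f v := by
  induction i with
  | zero => rfl
  | succ n ih => rw [Function.iterate_succ_apply', L.fs, ih]

private theorem bc_cm (L : Lf l f) {r s : Root} (h1 : 0 ≤ l r.1) (h2 : 0 < f r.1) (h3 : 0 < l s.1) {t : Root} (ht : Cm r s t) : 0 < l t.1 ∧ f s.1 + 1 ≤ f t.1 := by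
  have h5 := L.pos s h3
  induction ht with
  | base i j t h =>
    have e1 := congrArg l h
    have e2 := congrArg f h
    rw [L.la, bc_li L, bc_li L] at e1
    rw [L.fa, bc_fi L, bc_fi L] at e2
    constructor <;> omega
  | left i t u h _ ih =>
    have e1 := congrArg l h
    have e2 := congrArg f h
    rw [L.la, bc_li L] at e1
    rw [L.fa, bc_fi L] at e2
    obtain ⟨k1, k2⟩ := ih
    constructor <;> omega
  | right i t u h _ ih =>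
    have e1 := congrArg l h
    have e2 := congrArg f h
    rw [L.la, bc_li L] at e1
    rw [L.fa, bc_fi L] at e2
    obtain ⟨k1, k2⟩ := ih
    constructor <;> omega

private theorem bc_ne (L : Lf l f) {r s : Root} (h1 : 0 ≤ l r.1) (h3 : 0 < l s.1) : s ≠ -r := by
  intro h
  have e := congrArg (fun t : Root => l t.1) h
  simp only [neg_val] at e
  rw [bc_neg L] at e
  omega

/-- MODULE bc. `Sy.conj`: `s ≠ -r` because `l (-r) = -l r ≤ 0 < l s`. -/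
theorem Lv_conj (h : Stb K x) (hτ : ∀ a, τ (τ (τ a)) = a) (L : Lf l f) {k : ℤ} {r : Root} (h1 : 0 ≤ l r.1) (h2 : 0 ≤ f r.1) {a : K} (ha : Ok τ r a) {g : G} (hg : g ∈ Sy x τ (Lv l f k)) :
    yt x τ r a * g * (yt x τ r a)⁻¹ ∈ Sy x τ (Lv l f k) := by
  refine Sy.conj h hτ (p := Lv l f k) ?_ ?_ ?_ ?_ ha hg
  · intro s hs
    refine ⟨?_, ?_⟩
    · rw [sr_val, L.ls]
      exact hs.1
    · rw [sr_val, L.fs]
      exact hs.2
  · intro s t u hs ht hu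
    have e1 := congrArg l hu
    have e2 := congrArg f hu
    rw [L.la] at e1
    rw [L.fa] at e2
    have h5 := L.pos t ht.1
    have h6 := hs.1
    have h7 := ht.1
    have h8 := hs.2
    exact ⟨by omega, by omega⟩
  · intro s hs
    exact bc_ne L h1 hs.1
  · intro s t hs hu
    have e1 := congrArg l hu
    have e2 := congrArg f hu
    rw [L.la] at e1
    rw [L.fa] at e2
    have h6 := hs.1
    have h8 := hs.2
    exact ⟨by omega, by omega⟩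

/-- `Sy.comm_gen`; `Cm r s t` implies `0 < l t ∧ f s + 1 ≤ f t` (induction) -/
theorem Lv_comm (h : Stb K x) (hτ : ∀ a, τ (τ (τ a)) = a) (L : Lf l f) {k : ℤ} {r s : Root} (h1 : 0 ≤ l r.1) (h2 : 0 < f r.1) (h3 : 0 < l s.1) (h4 : k ≤ f s.1) {a b : K} (ha : Ok τ r a) (hb : Ok τ s b) :
    yt x τ r a * yt x τ s b * (yt x τ r a)⁻¹ * (yt x τ s b)⁻¹ ∈ Sy x τ (Lv l f (k + 1)) := by
  refine Sy.comm_gen h hτ ⟨bc_ne L h1 h3, bc_ne L ?_ h3, bc_ne L ?_ h3⟩ ?_ ha hb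
  · rw [sr_val, L.ls]
    exact h1
  · rw [sr_val, L.ls, sr_val, L.ls]
    exact h1
  · intro t ht
    obtain ⟨k1, k2⟩ := bc_cm L h1 h2 h3 ht
    exact ⟨k1, by omega⟩

/-- `Sy_split`, `L.inj`, `Lv_conj` -/
theorem Lv_split (h : Stb K x) (hτ : ∀ a, τ (τ (τ a)) = a) (L : Lf l f) {k : ℤ} {ρ : Root} (h1 : 0 < l ρ.1) (h2 : f ρ.1 = k) {g : G} (hg : g ∈ Sy x τ (Lv l f k)) :
    ∃ a, Ok τ ρ a ∧ ∃ g' ∈ Sy x τ (Lv l f (k + 1)), g = yt x τ ρ a * g' := by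
  refine Sy_split h hτ (p := Lv l f k) (q := Lv l f (k + 1)) (ρ := ρ) ?_ ?_ hg
  · intro r hr
    rcases eq_or_ne (f r.1) k with h3 | h3
    · exact Or.inr (L.inj ρ r h1 hr.1 (h2.trans h3.symm))
    · refine Or.inl ⟨hr.1, ?_⟩
      have h4 := hr.2
      omega
  · intro a ha u hu
    exact Lv_conj h hτ L h1.le (L.pos ρ h1).le ha hu
-- END bc

theorem Lv_anti (x : Root → K → G) (τ : K →+* K) (l f : Vec → ℤ) {i j : ℤ} (h : i ≤ j) : Sy x τ (Lv l f j) ≤ Sy x τ (Lv l f i) :=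
  Sy.mono x τ fun _ hr => ⟨hr.1, h.trans hr.2⟩

-- BEGIN bd
/-- MODULE bd. If there is no root `ρ` with `0 < l ρ`, `f ρ = k`, the two groups are equal (`Sy.mono`), take `t = 1`.  Otherwise `g = y_ρ(a) g'` (`Lv_split`), `t = y_ρ(c)`, `c = a / (1 - e)` (`Ok`: `τ c = c` if `ρ` is fixed):
`t⁻¹ g (w t w⁻¹) = y_ρ(a - c) g' y_ρ(e c) u = (y_ρ(e c))⁻¹ g' y_ρ(e c) u` because `a - c = -(e c)` (`Lv_conj` for `ρ`). -/
theorem Lv_step (h : Stb K x) (hτ : ∀ a, τ (τ (τ a)) = a) (L : Lf l f) {k : ℤ} {w : G}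
    (he : ∀ ρ : Root, 0 < l ρ.1 → f ρ.1 = k → ∃ e : K, e ≠ 1 ∧ (sr ρ = ρ → τ e = e) ∧ ∀ c, Ok τ ρ c → ∃ u ∈ Sy x τ (Lv l f (k + 1)), w * yt x τ ρ c * w⁻¹ = yt x τ ρ (e * c) * u) :
    Stp w (Sy x τ (Lv l f k)) (Sy x τ (Lv l f (k + 1))) := by
  intro g hg
  by_cases hρ : ∃ ρ : Root, 0 < l ρ.1 ∧ f ρ.1 = k
  · obtain ⟨ρ, h1, h2⟩ := hρ
    obtain ⟨e, e1, e2, e3⟩ := he ρ h1 h2
    obtain ⟨a, ha, g', hg', rfl⟩ := Lv_split h hτ L h1 h2 hg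
    have n1 : (1 - e) ≠ 0 := sub_ne_zero.2 (Ne.symm e1)
    obtain ⟨c, hc0⟩ : ∃ c, c = a / (1 - e) := ⟨_, rfl⟩
    have hc : Ok τ ρ c := fun hr => by rw [hc0, map_div₀, map_sub, map_one, ha hr, e2 hr]
    have hac : a = c * (1 - e) := by rw [hc0, div_mul_cancel₀ a n1]
    have hec : Ok τ ρ (e * c) := fun hr => by rw [map_mul, e2 hr, hc hr]
    obtain ⟨u, hu, hwu⟩ := e3 c hc
    refine ⟨yt x τ ρ c, Sy.mem ⟨h1, h2.ge⟩ hc, ?_⟩
    have k1 : yt x τ ρ (-(e * c)) * g' * (yt x τ ρ (-(e * c)))⁻¹ ∈ Sy x τ (Lv l f (k + 1)) :=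
      Lv_conj h hτ L h1.le (L.pos ρ h1).le hec.neg hg'
    have k2 : (yt x τ ρ c)⁻¹ * yt x τ ρ a = yt x τ ρ (-(e * c)) := by
      rw [yt_inv h, ← yt_add h]
      congr 1
      rw [hac]
      ring
    have k3 : (yt x τ ρ (-(e * c)))⁻¹ = yt x τ ρ (e * c) := by
      rw [yt_inv h, neg_neg]
    have k4 : (yt x τ ρ c)⁻¹ * (yt x τ ρ a * g') * (w * yt x τ ρ c * w⁻¹) = yt x τ ρ (-(e * c)) * g' * (yt x τ ρ (-(e * c)))⁻¹ * u := by
      rw [hwu, k3, ← k2]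
      simp only [mul_assoc]
    rw [k4]
    exact mul_mem k1 hu
  · refine ⟨1, one_mem _, ?_⟩
    have k1 : (1 : G)⁻¹ * g * (w * 1 * w⁻¹) = g := by group
    rw [k1]
    refine Sy.mono x τ (fun r hr => ⟨hr.1, ?_⟩) hg
    have k2 : f r.1 ≠ k := fun h0 => hρ ⟨r, hr.1, h0⟩
    have k3 := hr.2
    omega

/-- induction on `j - i` with `Stp.trans` (`Lv_anti`); `i = j`: `t = 1`. -/
theorem Lv_chain {i j : ℤ} (hij : i ≤ j) {w : G} (hs : ∀ k, i ≤ k → k < j → Stp w (Sy x τ (Lv l f k)) (Sy x τ (Lv l f (k + 1)))) : Stp w (Sy x τ (Lv l f i)) (Sy x τ (Lv l f j)) := by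
  obtain ⟨n, hn⟩ := Int.le.dest hij
  induction n generalizing j with
  | zero =>
    have e : j = i := by rw [← hn]; simp
    subst e
    intro g hg
    refine ⟨1, one_mem _, ?_⟩
    have k1 : (1 : G)⁻¹ * g * (w * 1 * w⁻¹) = g := by group
    rw [k1]
    exact hg
  | succ n ih =>
    have e : i + (n : ℤ) + 1 = j := by rw [← hn]; push_cast; ring
    have h1 : Stp w (Sy x τ (Lv l f i)) (Sy x τ (Lv l f (i + (n : ℤ)))) :=
      ih (by omega) (fun k hk1 hk2 => hs k hk1 (by omega)) rfl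
    have h2 := hs (i + (n : ℤ)) (by omega) (by omega)
    rw [e] at h2
    exact Stp.trans (Lv_anti x τ l f (by omega)) h1 h2

theorem Lv_top (x : Root → K → G) (τ : K →+* K) (L : Lf l f) : Sy x τ (Lv l f 9) = ⊥ := by
  rw [eq_bot_iff]
  unfold Sy
  rw [Subgroup.closure_le]
  rintro g ⟨r, a, hr, ha, rfl⟩
  have h1 := hr.2
  have h2 := L.top r
  omega
-- END bd

/-- the coordinate which is positive on the unipotent radical -/
def lw (j : Fin 2) (v : Vec) : ℤ := if j = 0 then v.2 0 + v.2 1 + v.2 2 else v.1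

/-- the level on the unipotent radical -/
def fu (j : Fin 2) (v : Vec) : ℤ := if j = 0 then v.1 + 2 * (v.2 0 + v.2 1 + v.2 2) else v.1 + (v.2 0 + v.2 1 + v.2 2)

/-- the coordinate which is positive on the opposite radical -/
def lx (j : Fin 2) (v : Vec) : ℤ := if j = 0 then -(v.2 0 + v.2 1 + v.2 2) else -v.1

/-- the level on the opposite radical -/
def fv (j : Fin 2) (v : Vec) : ℤ := if j = 0 then v.1 - 2 * (v.2 0 + v.2 1 + v.2 2) else (v.2 0 + v.2 1 + v.2 2) - 4 * v.1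

-- BEGIN be
private theorem be_ls (j : Fin 2) (v : Vec) : lw j (sg v) = lw j v ∧ fu j (sg v) = fu j v ∧ lx j (sg v) = lx j v ∧ fv j (sg v) = fv j v := by
  have e0 : (sg v).1 = v.1 := rfl
  have e1 : (sg v).2 0 + (sg v).2 1 + (sg v).2 2 = v.2 0 + v.2 1 + v.2 2 := by
    show v.2 2 + v.2 0 + v.2 1 = _
    ring
  refine ⟨?_, ?_, ?_, ?_⟩
  · unfold lw
    rw [e0, e1]
  · unfold fu
    rw [e0, e1]
  · unfold lx
    rw [e0, e1]
  · unfold fv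
    rw [e0, e1]

private theorem be_u0 : ∀ v ∈ rts, (0 < lw 0 v → 0 < fu 0 v) ∧ fu 0 v < 9 ∧ ∀ w ∈ rts, 0 < lw 0 v → 0 < lw 0 w → fu 0 v = fu 0 w → w = v ∨ w = sg v ∨ w = sg (sg v) := by
  decide

private theorem be_u1 : ∀ v ∈ rts, (0 < lw 1 v → 0 < fu 1 v) ∧ fu 1 v < 9 ∧ ∀ w ∈ rts, 0 < lw 1 v → 0 < lw 1 w → fu 1 v = fu 1 w → w = v ∨ w = sg v ∨ w = sg (sg v) := by
  decide

private theorem be_v0 : ∀ v ∈ rts, (0 < lx 0 v → 0 < fv 0 v) ∧ fv 0 v < 9 ∧ ∀ w ∈ rts, 0 < lx 0 v → 0 < lx 0 w → fv 0 v = fv 0 w → w = v ∨ w = sg v ∨ w = sg (sg v) := by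
  decide

private theorem be_v1 : ∀ v ∈ rts, (0 < lx 1 v → 0 < fv 1 v) ∧ fv 1 v < 9 ∧ ∀ w ∈ rts, 0 < lx 1 v → 0 < lx 1 w → fv 1 v = fv 1 w → w = v ∨ w = sg v ∨ w = sg (sg v) := by
  decide

private theorem be_mk {l f : Vec → ℤ} (la : ∀ v w, l (v + w) = l v + l w) (fa : ∀ v w, f (v + w) = f v + f w) (ls : ∀ v, l (sg v) = l v) (fs : ∀ v, f (sg v) = f v)
    (H : ∀ v ∈ rts, (0 < l v → 0 < f v) ∧ f v < 9 ∧ ∀ w ∈ rts, 0 < l v → 0 < l w → f v = f w → w = v ∨ w = sg v ∨ w = sg (sg v)) : Lf l f where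
  la := la
  fa := fa
  ls := ls
  fs := fs
  pos := fun r => (H r.1 (mem_rts r)).1
  inj := fun r s h1 h2 h3 => by
    rcases (H r.1 (mem_rts r)).2.2 s.1 (mem_rts s) h1 h2 h3 with h | h | h
    · exact Or.inl (Subtype.ext h)
    · exact Or.inr (Or.inl (Subtype.ext h))
    · exact Or.inr (Or.inr (Subtype.ext h))
  top := fun r => (H r.1 (mem_rts r)).2.1

/-- MODULE be. `pos`, `inj`, `top`: `all_rts` (twice for `inj`) and `decide` on the list of roots, for `j = 0` and `j = 1` (`Subtype.ext`); the others: `sg` permutes the three coordinates. -/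
theorem Lf_U (j : Fin 2) : Lf (lw j) (fu j) := by
  refine be_mk (fun v w => ?_) (fun v w => ?_) (fun v => (be_ls j v).1) (fun v => (be_ls j v).2.1) ?_
  · unfold lw
    simp only [Prod.snd_add, Prod.fst_add, Pi.add_apply]
    split_ifs <;> ring
  · unfold fu
    simp only [Prod.snd_add, Prod.fst_add, Pi.add_apply]
    split_ifs <;> ring
  · fin_cases j
    · exact be_u0
    · exact be_u1

theorem Lf_V (j : Fin 2) : Lf (lx j) (fv j) := by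
  refine be_mk (fun v w => ?_) (fun v w => ?_) (fun v => (be_ls j v).2.2.1) (fun v => (be_ls j v).2.2.2) ?_
  · unfold lx
    simp only [Prod.snd_add, Prod.fst_add, Pi.add_apply]
    split_ifs <;> ring
  · unfold fv
    simp only [Prod.snd_add, Prod.fst_add, Pi.add_apply]
    split_ifs <;> ring
  · fin_cases j
    · exact be_v0
    · exact be_v1

theorem fu_sn (j : Fin 2) : lw j (sn j).1 = 0 ∧ fu j (sn j).1 = 1 := by
  fin_cases j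
  · exact ⟨by decide, by decide⟩
  · exact ⟨by decide, by decide⟩

theorem fv_sn (j : Fin 2) : lx j (sn j).1 = 0 ∧ fv j (sn j).1 = 1 := by
  fin_cases j
  · exact ⟨by decide, by decide⟩
  · exact ⟨by decide, by decide⟩

private theorem be_p0 : ∀ v ∈ rts, (0 < ht v ∧ v ≠ ra.1 ∧ v ≠ sg ra.1 ∧ v ≠ sg (sg ra.1)) ↔ 0 < lw 0 v := by
  decide

private theorem be_p1 : ∀ v ∈ rts, (0 < ht v ∧ v ≠ rb.1 ∧ v ≠ sg rb.1 ∧ v ≠ sg (sg rb.1)) ↔ 0 < lw 1 v := by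
  decide

/-- `Pi' j r ↔ 0 < lw j r` -/
theorem Pi_iff (j : Fin 2) (r : Root) : Pi' j r ↔ 0 < lw j r.1 := by
  have k : Pi' j r ↔ (0 < ht r.1 ∧ r.1 ≠ (sn j).1 ∧ r.1 ≠ sg (sn j).1 ∧ r.1 ≠ sg (sg (sn j).1)) := by
    unfold Pi'
    refine and_congr Iff.rfl (and_congr ?_ (and_congr ?_ ?_))
    · exact not_congr (Subtype.ext_iff)
    · exact not_congr (Subtype.ext_iff)
    · exact not_congr (Subtype.ext_iff)
  rw [k]
  fin_cases j
  · exact be_p0 r.1 (mem_rts r)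
  · exact be_p1 r.1 (mem_rts r)

theorem U_eq (x : Root → K → G) (τ : K →+* K) (j : Fin 2) : Sy x τ (Pi' j) = Sy x τ (Lv (lw j) (fu j) 1) := by
  refine le_antisymm (Sy.mono x τ fun r hr => ?_) (Sy.mono x τ fun r hr => ?_)
  · have h := (Pi_iff j r).1 hr
    exact ⟨h, (Lf_U j).pos r h⟩
  · exact (Pi_iff j r).2 hr.1

private theorem be_neg (j : Fin 2) (v : Vec) : lw j (-v) = lx j v := by
  unfold lw lx
  simp only [Prod.snd_neg, Prod.fst_neg, Pi.neg_apply]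
  split_ifs <;> ring

/-- `Sy_op` -/
theorem V_eq (x : Root → K → G) (τ : K →+* K) (j : Fin 2) : Sy (op x) τ (Pi' j) = Sy x τ (Lv (lx j) (fv j) 1) := by
  rw [Sy_op]
  refine le_antisymm (Sy.mono x τ fun r hr => ?_) (Sy.mono x τ fun r hr => ?_)
  · have h := (Pi_iff j (-r)).1 hr
    rw [neg_val, be_neg] at h
    exact ⟨h, (Lf_V j).pos r h⟩
  · refine (Pi_iff j (-r)).2 ?_
    rw [neg_val, be_neg]
    exact hr.1
-- END be

-- BEGIN bf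
private theorem bf_hz (h : Stb K x) (hτ : ∀ a, τ (τ (τ a)) = a) (z : ∀ i : Fin 2, (Sf τ i)ˣ) {p : Root → Prop} {g : G} (hg : g ∈ Sy x τ p) :
    hz x τ z * g * (hz x τ z)⁻¹ ∈ Sy x τ p := by
  unfold Sy at hg
  induction hg using Subgroup.closure_induction with
  | mem g hg =>
    obtain ⟨r, a, hr, ha, rfl⟩ := hg
    rw [hzY_conj h hτ]
    exact Sy.mem hr (fun hs => by rw [map_mul, ha hs, ← chY_sg hτ, ← sr_val, hs])
  | one =>
    rw [mul_one, mul_inv_cancel]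
    exact one_mem _
  | mul a b _ _ iha ihb =>
    have e : hz x τ z * (a * b) * (hz x τ z)⁻¹ = (hz x τ z * a * (hz x τ z)⁻¹) * (hz x τ z * b * (hz x τ z)⁻¹) := by group
    rw [e]
    exact mul_mem iha ihb
  | inv a _ iha =>
    have e : hz x τ z * a⁻¹ * (hz x τ z)⁻¹ = (hz x τ z * a * (hz x τ z)⁻¹)⁻¹ := by group
    rw [e]
    exact inv_mem iha

/-- MODULE bf. `Lv_step` with `e = chY τ ρ.1 z` (`chY_sg`), `w = hz z * y_(sn j)(b)`: `y_(sn j)(b) y_ρ(c) y_(sn j)(b)⁻¹ = u1 * y_ρ(c)` (`Lv_comm`, `fu_sn`), move `u1` to the right (`Lv_conj`), `hzY_conj`, and `hz z` normalizes `Sy x τ (Lv ..)` (`hzY_conj` on the generators, `Ok` by `chY_sg`); `Lv_chain`, `Lv_top`. -/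
theorem Lv_sur (h : Stb K x) (hτ : ∀ a, τ (τ (τ a)) = a) (L : Lf l f) {s : Root} (hs : l s.1 = 0 ∧ f s.1 = 1) {z : ∀ i : Fin 2, (Sf τ i)ˣ} (hz1 : ∀ r : Root, 0 < l r.1 → chY τ r.1 z ≠ 1) {b : K} (hb : Ok τ s b) :
    Stp (hz x τ z * yt x τ s b) (Sy x τ (Lv l f 1)) ⊥ := by
  rw [← Lv_top x τ L]
  refine Lv_chain (by norm_num) fun k hk1 hk2 => ?_
  refine Lv_step h hτ L fun ρ h1 h2 => ⟨chY τ ρ.1 z, hz1 ρ h1, fun hr => ?_, fun c hc => ?_⟩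
  · rw [← chY_sg hτ, ← sr_val, hr]
  · have k1 := Lv_comm h hτ L (k := k) (r := s) (s := ρ) hs.1.ge (by rw [hs.2]; norm_num) h1 h2.ge hb hc
    have k2 := Lv_conj h hτ L (k := k + 1) (r := ρ) h1.le (L.pos ρ h1).le hc.neg k1
    have k3 := bf_hz h hτ z k2
    refine ⟨_, k3, ?_⟩
    have k4 : yt x τ ρ (-c) = (yt x τ ρ c)⁻¹ := (yt_inv h τ ρ c).symm
    rw [k4, ← hzY_conj h hτ z ρ c]
    group

theorem surU (h : Stb K x) (hτ : ∀ a, τ (τ (τ a)) = a) (j : Fin 2) {z : ∀ i : Fin 2, (Sf τ i)ˣ} (hz1 : ∀ r : Root, 0 < lw j r.1 → chY τ r.1 z ≠ 1) {b : K} (hb : Ok τ (sn j) b) :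
    Stp (hz x τ z * yt x τ (sn j) b) (Sy x τ (Pi' j)) ⊥ := by
  rw [U_eq]
  exact Lv_sur h hτ (Lf_U j) (fu_sn j) hz1 hb

/-- `hz1` for `-r` and `chY_neg` -/
theorem surV (h : Stb K x) (hτ : ∀ a, τ (τ (τ a)) = a) (j : Fin 2) {z : ∀ i : Fin 2, (Sf τ i)ˣ} (hz1 : ∀ r : Root, 0 < lw j r.1 → chY τ r.1 z ≠ 1) {b : K} (hb : Ok τ (sn j) b) :
    Stp (hz x τ z * yt x τ (sn j) b) (Sy (op x) τ (Pi' j)) ⊥ := by
  rw [V_eq]
  refine Lv_sur h hτ (Lf_V j) (fv_sn j) (fun r hr h1 => ?_) hb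
  have k1 : lw j (-r).1 = lx j r.1 := by
    rw [neg_val]
    unfold lw lx
    split_ifs
    · show -r.1.2 0 + -r.1.2 1 + -r.1.2 2 = _
      ring
    · rfl
  refine hz1 (-r) (by rw [k1]; exact hr) ?_
  rw [neg_val, chY_neg, h1, inv_one]
-- END bf

end ThT
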