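import Pool.Agent.ThT.Fil

/-! # Products of two conjugates in the twisted group: `³D_4(q)` and `G_2(q)` with `q > 3` -/

namespace ThT

variable {K : Type*} [Field K] {G : Type*} [Group G] {x : Root → K → G} {τ : K →+* K}

/-- the conclusion -/
def Good (x : Root → K → G) (τ : K →+* K) : Prop :=
  ∃ w ∈ Hh x τ, (∀ g ∈ Hh x τ, (∃ u ∈ Hh x τ, u * g ≠ g * u) → ∃ a ∈ Hh x τ, ∃ c ∈ Hh x τ, g = a * w * a⁻¹ * (c * w * c⁻¹)) ∧ ∃ c ∈ Hh x τ, c * w * c⁻¹ = w⁻¹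

/-- the norm -/
def nm (τ : K →+* K) (a : K) : K := a * τ a * τ (τ a)

/-- the torus element with the coordinates `a`, `b`: `hz x τ z = hk x τ (z 0) (z 1)` by `rfl` -/
def hk (x : Root → K → G) (τ : K →+* K) (a b : K) : G := hy x τ ra a * hy x τ rb b

-- BEGIN da
/-- MODULE da. Elementary facts: `Sf τ 0 = Fx τ`, `Sf τ 1 = ⊤`, `hy_mul`, `hy_comm`, `hy_one`, `hy_mem`. -/
theorem exists_z {a b : K} (ha : a ≠ 0) (hb : b ≠ 0) (h : τ a = a) : ∃ z : ∀ i : Fin 2, (Sf τ i)ˣ, ((z 0 : Sf τ 0) : K) = a ∧ ((z 1 : Sf τ 1) : K) = b := by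
  obtain ⟨a', ha'⟩ := Sf_of (τ := τ) (i := 0) (a := a) (fun _ => h)
  obtain ⟨b', hb'⟩ := Sf_of (τ := τ) (i := 1) (a := b) (fun h1 => absurd ((sn_fix 1).1 h1) (by decide))
  have ha0 : a' ≠ 0 := by
    rintro rfl
    exact ha ha'.symm
  have hb0 : b' ≠ 0 := by
    rintro rfl
    exact hb hb'.symm
  let z : ∀ i : Fin 2, (Sf τ i)ˣ := fun i => match i with
    | 0 => Units.mk0 a' ha0
    | 1 => Units.mk0 b' hb0
  exact ⟨z, ha', hb'⟩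

theorem hk_mul (h : Stb K x) (τ : K →+* K) {a b c d : K} (ha : a ≠ 0) (hb : b ≠ 0) (hc : c ≠ 0) (hd : d ≠ 0) : hk x τ (a * c) (b * d) = hk x τ a b * hk x τ c d := by
  unfold hk
  rw [hy_mul h ra ha hc, hy_mul h rb hb hd]
  have e := hy_comm h (τ := τ) ra rb hc hb
  calc hy x τ ra a * hy x τ ra c * (hy x τ rb b * hy x τ rb d) = hy x τ ra a * (hy x τ ra c * hy x τ rb b) * hy x τ rb d := by group
    _ = hy x τ ra a * (hy x τ rb b * hy x τ ra c) * hy x τ rb d := by rw [e]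
    _ = _ := by group

theorem hk_one (h : Stb K x) (τ : K →+* K) : hk x τ 1 1 = 1 := by
  unfold hk
  rw [hy_one h, hy_one h, mul_one]

theorem hk_inv (h : Stb K x) (τ : K →+* K) {a b : K} (ha : a ≠ 0) (hb : b ≠ 0) : (hk x τ a b)⁻¹ = hk x τ a⁻¹ b⁻¹ := by
  apply inv_eq_of_mul_eq_one_right
  rw [← hk_mul h τ ha hb (inv_ne_zero ha) (inv_ne_zero hb), mul_inv_cancel₀ ha, mul_inv_cancel₀ hb, hk_one h]

theorem hk_mem (h : Stb K x) {a b : K} (ha : a ≠ 0) (hb : b ≠ 0) (h1 : τ a = a) : hk x τ a b ∈ Hh x τ :=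
  Subgroup.mul_mem _ (hy_mem h ra ha fun _ => h1) (hy_mem h rb hb fun h2 => absurd ((sn_fix 1).1 h2) (by decide))

theorem nm_fix (hτ : ∀ a, τ (τ (τ a)) = a) (a : K) : τ (nm τ a) = nm τ a := by
  unfold nm
  rw [map_mul, map_mul, hτ]
  ring

theorem nm_mul (τ : K →+* K) (a b : K) : nm τ (a * b) = nm τ a * nm τ b := by
  unfold nm
  rw [map_mul, map_mul]
  ring

theorem nm_ne (τ : K →+* K) {a : K} (ha : a ≠ 0) : nm τ a ≠ 0 :=
  mul_ne_zero (mul_ne_zero ha ((map_ne_zero τ).2 ha)) ((map_ne_zero τ).2 ((map_ne_zero τ).2 ha))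
-- END da

-- BEGIN db
private theorem db_ext {F : Type*} [Field F] {M N : ThG.SL2 F} (h0 : M.1 0 0 = N.1 0 0) (h1 : M.1 0 1 = N.1 0 1) (h2 : M.1 1 0 = N.1 1 0) (h3 : M.1 1 1 = N.1 1 1) : M = N := by
  apply Subtype.ext
  ext i j
  fin_cases i <;> fin_cases j
  · exact h0
  · exact h1
  · exact h2
  · exact h3

private theorem db_mat {F : Type*} [Field F] (c : Fˣ) : (ThG.up 1 * ThG.lo (-1) * ThG.up 1 : ThG.SL2 F) * (ThG.up (-(c : F)) * (ThG.lo ((c⁻¹ : Fˣ) : F) * ThG.up (-(c : F)))) = ThG.dg c⁻¹ := by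
  have hc : (c : F) ≠ 0 := c.ne_zero
  apply db_ext <;> simp only [Matrix.SpecialLinearGroup.coe_mul, Matrix.mul_apply, Fin.sum_univ_two] <;> simp [ThG.up, ThG.lo, ThG.dg]

private theorem db_conj (h : Stb K x) (hτ : ∀ a, τ (τ (τ a)) = a) (j : Fin 2) (z : ∀ i : Fin 2, (Sf τ i)ˣ) {t : ThG.SL2 (Sf τ j) →* G} (ht : IsY x τ (sn j) (Sf τ j) t)
    (c : (Sf τ j)ˣ) (hc : ((c : Sf τ j) : K) = chY τ (sn j).1 z) (M : ThG.SL2 (Sf τ j)) : hz x τ z * t M * (hz x τ z)⁻¹ = t (ThG.cj c M) := by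
  have hM : M ∈ Subgroup.closure {g : ThG.SL2 (Sf τ j) | ∃ a, g = ThG.up a ∨ g = ThG.lo a} := by
    rw [ThG.sl2_gen]
    exact Subgroup.mem_top M
  have key : Set.EqOn ((MulAut.conj (hz x τ z)).toMonoidHom.comp t) (t.comp (ThG.cj c)) {g : ThG.SL2 (Sf τ j) | ∃ a, g = ThG.up a ∨ g = ThG.lo a} := by
    rintro g ⟨a, rfl | rfl⟩
    · show hz x τ z * t (ThG.up a) * (hz x τ z)⁻¹ = t (ThG.cj c (ThG.up a))
      rw [ThG.cj_up, ht.up, ht.up, hzY_conj h hτ]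
      congr 1
      push_cast
      rw [hc]
    · show hz x τ z * t (ThG.lo a) * (hz x τ z)⁻¹ = t (ThG.cj c (ThG.lo a))
      rw [ThG.cj_lo, ht.lo, ht.lo, hzY_conj h hτ, neg_val, chY_neg, ← hc]
      congr 1
      push_cast
      ring
  exact MonoidHom.eqOn_closure key hM

/-- MODULE db. REFLECTIONS ON THE TORUS.  `exists_isY h (sn j) (Sf τ j)` (`Sf_fix`) gives `t : SL_2 →* G`; `ny x (sn j) = t (up 1 * lo (-1) * up 1)` (`ny_eq`) `= t n`, `n = [[0, 1], [-1, 0]]`; `hz z * t M * (hz z)⁻¹ = t (cj χ M)` for all `M`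
(`ThG.sl2_gen`, `hzY_conj`, `χ` the unit of `Sf τ j` with value `chY τ (sn j).1 z`: `exists_ch`), so `n_j hz n_j⁻¹ = t n * (hz * t n⁻¹ * hz⁻¹) * hz = t (n * cj χ n⁻¹) * hz = t (dg χ⁻¹) * hz`. -/
theorem ny_hzx (h : Stb K x) (hτ : ∀ a, τ (τ (τ a)) = a) (j : Fin 2) (z : ∀ i : Fin 2, (Sf τ i)ˣ) :
    ny x (sn j) * hz x τ z * (ny x (sn j))⁻¹ = hy x τ (sn j) (chY τ (sn j).1 z)⁻¹ * hz x τ z := by
  obtain ⟨t, ht⟩ := exists_isY h (sn j) (Sf τ j) fun hs a ha => Sf_ok j ⟨a, ha⟩ hs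
  obtain ⟨χ, hχ⟩ := exists_ch (τ := τ) hτ
  have hn : ny x (sn j) = t (ThG.up 1 * ThG.lo (-1) * ThG.up 1) := by
    rw [map_mul, map_mul, ht.up, ht.lo, ny_eq (τ := τ) h j]
    congr 3
    all_goals push_cast
    rw [neg_neg]
  have hm : ThG.up 1 * ThG.lo (-1) * ThG.up 1 * ThG.cj (χ j z) (ThG.up 1 * ThG.lo (-1) * ThG.up 1)⁻¹ = ThG.dg (χ j z)⁻¹ := by
    rw [map_inv, map_mul, map_mul, ThG.cj_up, ThG.cj_lo, mul_one, mul_neg_one, mul_inv_rev, mul_inv_rev, ThG.up_inv, ThG.lo_inv, neg_neg]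
    exact db_mat (χ j z)
  have hd : hy x τ (sn j) (chY τ (sn j).1 z)⁻¹ = t (ThG.dg (χ j z)⁻¹) := by
    rw [ht.dg, ← hχ j z]
    congr 1
    push_cast
    rfl
  rw [hd, ← hm, map_mul, ← db_conj h hτ j z ht (χ j z) (hχ j z), map_inv, ← hn]
  group

private theorem db_ne {a b : K} (ha : a ≠ 0) (hb : b ≠ 0) : nm τ b / (a * a) ≠ 0 := div_ne_zero (nm_ne τ hb) (mul_ne_zero ha ha)

/-- `exists_z`, `chY_zero`, `hy_mul` -/
theorem ny0_hk (h : Stb K x) (hτ : ∀ a, τ (τ (τ a)) = a) {a b : K} (ha : a ≠ 0) (hb : b ≠ 0) (h1 : τ a = a) : ny x ra * hk x τ a b * (ny x ra)⁻¹ = hk x τ (nm τ b / a) b := by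
  obtain ⟨z, h0, h2⟩ := exists_z (τ := τ) ha hb h1
  have e := ny_hzx h hτ 0 z
  rw [chY_zero] at e
  unfold hz at e
  rw [h0, h2] at e
  have e1 : (a ^ 2 * (b * τ b * τ (τ b))⁻¹)⁻¹ = nm τ b / (a * a) := by
    unfold nm
    rw [mul_inv, inv_inv, pow_two, div_eq_mul_inv, mul_comm]
  have e2 : nm τ b / (a * a) * a = nm τ b / a := by
    field_simp
  refine e.trans ?_
  rw [e1, ← mul_assoc, ← hy_mul h _ (db_ne ha hb) ha, e2]
  rfl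

/-- `chY_one`; note `hy_comm` -/
theorem ny1_hk (h : Stb K x) (hτ : ∀ a, τ (τ (τ a)) = a) {a b : K} (ha : a ≠ 0) (hb : b ≠ 0) (h1 : τ a = a) : ny x rb * hk x τ a b * (ny x rb)⁻¹ = hk x τ a (a / b) := by
  obtain ⟨z, h0, h2⟩ := exists_z (τ := τ) ha hb h1
  have e := ny_hzx h hτ 1 z
  rw [chY_one] at e
  unfold hz at e
  rw [h0, h2] at e
  have e1 : (b ^ 2 * a⁻¹)⁻¹ = a / (b * b) := by
    rw [mul_inv, inv_inv, pow_two, div_eq_mul_inv, mul_comm]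
  have hne : a / (b * b) ≠ 0 := div_ne_zero ha (mul_ne_zero hb hb)
  have e2 : a / (b * b) * b = a / b := by
    field_simp
  refine e.trans ?_
  rw [e1, ← mul_assoc, hy_comm h _ _ hne ha, mul_assoc, ← hy_mul h _ hne hb, e2]
  rfl
-- END db

/-- the reflection in the root orthogonal to the node `j` -/
def mm (x : Root → K → G) (j : Fin 2) : G :=
  if j = 0 then ny x rb * ny x ra * ny x rb * (ny x ra)⁻¹ * (ny x rb)⁻¹ else ny x ra * ny x rb * ny x ra * (ny x rb)⁻¹ * (ny x ra)⁻¹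

-- BEGIN dc
private theorem dc_orth : ∀ j : Fin 2, bf (sn (1 - j)).1 (wf (sn j) (wf (sn (1 - j)) (sn j))).1 = 0 ∧ bf (sn (1 - j)).1 (sr (wf (sn j) (wf (sn (1 - j)) (sn j)))).1 = 0 ∧
    bf (sn (1 - j)).1 (sr (sr (wf (sn j) (wf (sn (1 - j)) (sn j))))).1 = 0 := by
  decide

private theorem dc_fix (h : Stb K x) (i j : Fin 2) (s ρ : Root) (hρ : ρ = wf (sn j) (wf (sn i) s)) (h0 : bf (sn i).1 ρ.1 = 0) (h1 : bf (sn i).1 (sr ρ).1 = 0) (h2 : bf (sn i).1 (sr (sr ρ)).1 = 0) (a : K) :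
    (ny x (sn i) * ny x (sn j) * ny x (sn i) * (ny x (sn j))⁻¹ * (ny x (sn i))⁻¹) * yt x τ s a * (ny x (sn i) * ny x (sn j) * ny x (sn i) * (ny x (sn j))⁻¹ * (ny x (sn i))⁻¹)⁻¹ = yt x τ s a := by
  obtain ⟨c1, hc1, -, e1⟩ := ny_conj (τ := τ) h j ρ
  obtain ⟨c2, hc2, -, e2⟩ := ny_conj (τ := τ) h i (wf (sn j) ρ)
  have hw : wf (sn i) (wf (sn j) ρ) = s := by rw [hρ, wf_wf, wf_wf]
  rw [hw] at e2
  have hb : c2 * (c1 * (c1 * (c2 * a))) = a := by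
    calc c2 * (c1 * (c1 * (c2 * a))) = (c2 * c2) * (c1 * c1) * a := by ring
      _ = a := by rw [hc1, hc2, one_mul, one_mul]
  have hs : yt x τ s a = ny x (sn i) * (ny x (sn j) * yt x τ ρ (c1 * (c2 * a)) * (ny x (sn j))⁻¹) * (ny x (sn i))⁻¹ := by rw [e1, e2, hb]
  have k1 : ∀ b, yt x τ (sn i) 1 * yt x τ ρ b = yt x τ ρ b * yt x τ (sn i) 1 := fun b =>
    yt_comm h τ (by rw [h0]) (by rw [h1]) (by rw [h2]) 1 b
  have k2 : ∀ b, yt x τ (-sn i) 1 * yt x τ ρ b = yt x τ ρ b * yt x τ (-sn i) 1 := fun b =>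
    yt_comm h τ (by rw [neg_val, bf_neg_left, h0, neg_zero]) (by rw [neg_val, bf_neg_left, h1, neg_zero]) (by rw [neg_val, bf_neg_left, h2, neg_zero]) 1 b
  have hc : ∀ b, ny x (sn i) * yt x τ ρ b = yt x τ ρ b * ny x (sn i) := by
    intro b
    rw [ny_eq (τ := τ) h i]
    have c1 : Commute (yt x τ (sn i) 1) (yt x τ ρ b) := k1 b
    have c2 : Commute (yt x τ (-sn i) 1) (yt x τ ρ b) := k2 b
    exact ((c1.mul_left c2).mul_left c1).eq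
  rw [hs]
  generalize hY : yt x τ ρ (c1 * (c2 * a)) = Y
  have hcY : ny x (sn i) * Y = Y * ny x (sn i) := by rw [← hY]; exact hc _
  calc _ = ny x (sn i) * ny x (sn j) * (ny x (sn i) * Y * (ny x (sn i))⁻¹) * (ny x (sn j))⁻¹ * (ny x (sn i))⁻¹ := by group
    _ = ny x (sn i) * ny x (sn j) * Y * (ny x (sn j))⁻¹ * (ny x (sn i))⁻¹ := by rw [hcY, mul_inv_cancel_right]
    _ = _ := by group

private theorem dc_mm (x : Root → K → G) (j : Fin 2) : mm x j = ny x (sn (1 - j)) * ny x (sn j) * ny x (sn (1 - j)) * (ny x (sn j))⁻¹ * (ny x (sn (1 - j)))⁻¹ := by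
  rcases Fin.exists_fin_two.1 ⟨j, rfl⟩ with h | h
  · rw [h]
    rfl
  · rw [h]
    rfl

/-- MODULE dc. `i = 1 - j`, `g = n_i n_j`, `mm = g n_i g⁻¹`.  The root `ρ = wf (sn j) (wf (sn i) (sn j))` (`j = 0`: `(2; 1, 1, 1)`, `j = 1`: `(1; 0, 1, 1)`) is orthogonal to `sn i` and its images, so `n_i` (`ny_eq`) commutes with `y_(±ρ)(b)` (`yt_comm`), and
`g y_ρ(b) g⁻¹ = y_(sn j)(± b)` (`ny_conj` twice, `wf_wf`, `wf_neg`), where the sign is fixed by `τ`. -/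
theorem mm_mem (h : Stb K x) (τ : K →+* K) (j : Fin 2) : mm x j ∈ Hh x τ := by
  have e : ∀ i, ny x (sn i) ∈ Hh x τ := fun i => ny_mem h τ i
  rw [dc_mm x j]
  exact mul_mem (mul_mem (mul_mem (mul_mem (e _) (e _)) (e _)) (inv_mem (e _))) (inv_mem (e _))

theorem mm_yt (h : Stb K x) (hτ : ∀ a, τ (τ (τ a)) = a) (j : Fin 2) {a : K} (ha : Ok τ (sn j) a) :
    mm x j * yt x τ (sn j) a * (mm x j)⁻¹ = yt x τ (sn j) a ∧ mm x j * yt x τ (-sn j) a * (mm x j)⁻¹ = yt x τ (-sn j) a := by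
  obtain ⟨h0, h1, h2⟩ := dc_orth j
  rw [dc_mm x j]
  constructor
  · exact dc_fix h (1 - j) j (sn j) _ rfl h0 h1 h2 a
  · refine dc_fix h (1 - j) j (-sn j) _ rfl ?_ ?_ ?_ a
    · rw [wf_neg, wf_neg, neg_val, bf_neg_right, h0, neg_zero]
    · rw [wf_neg, wf_neg, sr_neg, neg_val, bf_neg_right, h1, neg_zero]
    · rw [wf_neg, wf_neg, sr_neg, sr_neg, neg_val, bf_neg_right, h2, neg_zero]
-- END dc

-- BEGIN dd
private theorem dd_c (p q g g1 g2 g3 g4 g5 : G) (e1 : q⁻¹ * g * q = g1) (e2 : p⁻¹ * g1 * p = g2) (e3 : q * g2 * q⁻¹ = g3) (e4 : p * g3 * p⁻¹ = g4) (e5 : q * g4 * q⁻¹ = g5) :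
    (q * p * q * p⁻¹ * q⁻¹) * g * (q * p * q * p⁻¹ * q⁻¹)⁻¹ = g5 := by
  rw [← e5, ← e4, ← e3, ← e2, ← e1]
  group

private theorem dd_0 (h : Stb K x) (hτ : ∀ a, τ (τ (τ a)) = a) {a b c : K} (ha : a ≠ 0) (hb : b ≠ 0) (h1 : τ a = a) (hc : nm τ b / a = c) : ny x ra * hk x τ a b * (ny x ra)⁻¹ = hk x τ c b := by
  rw [← hc]
  exact ny0_hk h hτ ha hb h1

private theorem dd_1 (h : Stb K x) (hτ : ∀ a, τ (τ (τ a)) = a) {a b c : K} (ha : a ≠ 0) (hb : b ≠ 0) (h1 : τ a = a) (hc : a / b = c) : ny x rb * hk x τ a b * (ny x rb)⁻¹ = hk x τ a c := by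
  rw [← hc]
  exact ny1_hk h hτ ha hb h1

private theorem dd_0i (h : Stb K x) (hτ : ∀ a, τ (τ (τ a)) = a) {a b c : K} (ha : a ≠ 0) (hb : b ≠ 0) (h1 : τ a = a) (hc : nm τ b / a = c) : (ny x ra)⁻¹ * hk x τ a b * ny x ra = hk x τ c b := by
  have hn : nm τ b ≠ 0 := nm_ne τ hb
  have hc0 : c ≠ 0 := by
    rw [← hc]
    exact div_ne_zero hn ha
  have hcf : τ c = c := by
    rw [← hc, map_div₀, nm_fix hτ, h1]
  have e2 : nm τ b / c = a := by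
    rw [← hc, div_div_cancel₀ hn]
  have e : ny x ra * hk x τ c b * (ny x ra)⁻¹ = hk x τ a b := dd_0 h hτ hc0 hb hcf e2
  rw [← e]
  group

private theorem dd_1i (h : Stb K x) (hτ : ∀ a, τ (τ (τ a)) = a) {a b c : K} (ha : a ≠ 0) (hb : b ≠ 0) (h1 : τ a = a) (hc : a / b = c) : (ny x rb)⁻¹ * hk x τ a b * ny x rb = hk x τ a c := by
  have hc0 : c ≠ 0 := by
    rw [← hc]
    exact div_ne_zero ha hb
  have e2 : a / c = b := by
    rw [← hc, div_div_cancel₀ ha]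
  have e : ny x rb * hk x τ a c * (ny x rb)⁻¹ = hk x τ a b := dd_1 h hτ ha hc0 h1 e2
  rw [← e]
  group

/-- MODULE dd. `s0 (a, b) = (nm b / a, b)`, `s1 (a, b) = (a, a / b)` (`ny0_hk`, `ny1_hk`; the same for the inverses: `n⁻¹ hk (a, b) n = hk (s (a, b))` because `s` is an involution).  `(nm u, τ u τ² u) ↦ s1 (nm u, u) ↦ s0 (1, u) ↦ s1 (1, u⁻¹) ↦ s0 ((nm u)⁻¹, u⁻¹) ↦ s1 ((nm u)⁻¹, u (nm u)⁻¹)`. -/
theorem mm0_hk (h : Stb K x) (hτ : ∀ a, τ (τ (τ a)) = a) {u : K} (hu : u ≠ 0) :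
    mm x 0 * hk x τ (nm τ u) (τ u * τ (τ u)) * (mm x 0)⁻¹ = (hk x τ (nm τ u) (τ u * τ (τ u)))⁻¹ := by
  have hn : nm τ u ≠ 0 := nm_ne τ hu
  have h1 : τ u ≠ 0 := (map_ne_zero τ).mpr hu
  have h2 : τ (τ u) ≠ 0 := (map_ne_zero τ).mpr h1
  have h12 : τ u * τ (τ u) ≠ 0 := mul_ne_zero h1 h2
  have hf : τ (nm τ u) = nm τ u := nm_fix hτ u
  have hnu : nm τ u = u * (τ u * τ (τ u)) := by
    unfold nm
    ring
  have hi : nm τ u⁻¹ = (nm τ u)⁻¹ := by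
    unfold nm
    rw [map_inv₀, map_inv₀, mul_inv, mul_inv]
  rw [hk_inv h τ hn h12]
  have e0 : mm x 0 = ny x rb * ny x ra * ny x rb * (ny x ra)⁻¹ * (ny x rb)⁻¹ := by
    unfold mm
    rw [if_pos rfl]
  rw [e0]
  refine dd_c (ny x ra) (ny x rb) _ (hk x τ (nm τ u) u) (hk x τ 1 u) (hk x τ 1 u⁻¹) (hk x τ (nm τ u)⁻¹ u⁻¹) _ ?_ ?_ ?_ ?_ ?_
  · refine dd_1i h hτ hn h12 hf ?_
    rw [hnu]
    exact mul_div_cancel_right₀ u h12
  · exact dd_0i h hτ hn hu hf (div_self hn)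
  · exact dd_1 h hτ one_ne_zero hu (map_one τ) (one_div u)
  · refine dd_0 h hτ one_ne_zero (inv_ne_zero hu) (map_one τ) ?_
    rw [div_one, hi]
  · refine dd_1 h hτ (inv_ne_zero hn) (inv_ne_zero hu) (by rw [map_inv₀, hf]) ?_
    rw [hnu]
    field_simp

/-- `(u², u) ↦ (u, u) ↦ (u, 1) ↦ (u⁻¹, 1) ↦ (u⁻¹, u⁻¹) ↦ (u⁻², u⁻¹)` -/
theorem mm1_hk (h : Stb K x) (ht : ∀ a, τ a = a) {u : K} (hu : u ≠ 0) : mm x 1 * hk x τ (u * u) u * (mm x 1)⁻¹ = (hk x τ (u * u) u)⁻¹ := by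
  have hτ : ∀ a, τ (τ (τ a)) = a := fun a => by rw [ht, ht, ht]
  have hn : ∀ v : K, nm τ v = v * v * v := fun v => by
    unfold nm
    rw [ht, ht]
  rw [hk_inv h τ (mul_ne_zero hu hu) hu]
  have e0 : mm x 1 = ny x ra * ny x rb * ny x ra * (ny x rb)⁻¹ * (ny x ra)⁻¹ := by
    unfold mm
    rw [if_neg (by decide)]
  rw [e0]
  refine dd_c (ny x rb) (ny x ra) _ (hk x τ u u) (hk x τ u 1) (hk x τ u⁻¹ 1) (hk x τ u⁻¹ u⁻¹) _ ?_ ?_ ?_ ?_ ?_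
  · refine dd_0i h hτ (mul_ne_zero hu hu) hu (ht _) ?_
    rw [hn]
    field_simp
  · exact dd_1i h hτ hu hu (ht _) (div_self hu)
  · refine dd_0 h hτ hu one_ne_zero (ht _) ?_
    rw [hn]
    field_simp
  · exact dd_1 h hτ (inv_ne_zero hu) one_ne_zero (ht _) (div_one _)
  · refine dd_0 h hτ (inv_ne_zero hu) (inv_ne_zero hu) (ht _) ?_
    rw [hn]
    field_simp

/-- `(1, -1) ↦ (1, -1) ↦ (-1, -1) ↦ (-1, 1) ↦ (-1, 1) ↦ (-1, -1)` -/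
theorem mm0_three (h : Stb K x) (hτ : ∀ a, τ (τ (τ a)) = a) : mm x 0 * hk x τ 1 (-1) * (mm x 0)⁻¹ = hk x τ (-1) (-1) := by
  have hm : (-1 : K) ≠ 0 := neg_ne_zero.mpr one_ne_zero
  have hf : τ (-1) = -1 := by rw [map_neg, map_one]
  have e0 : mm x 0 = ny x rb * ny x ra * ny x rb * (ny x ra)⁻¹ * (ny x rb)⁻¹ := by
    unfold mm
    rw [if_pos rfl]
  rw [e0]
  refine dd_c (ny x ra) (ny x rb) _ (hk x τ 1 (-1)) (hk x τ (-1) (-1)) (hk x τ (-1) 1) (hk x τ (-1) 1) _ ?_ ?_ ?_ ?_ ?_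
  · exact dd_1i h hτ one_ne_zero hm (map_one τ) (by rw [div_neg, div_one])
  · refine dd_0i h hτ one_ne_zero hm (map_one τ) ?_
    unfold nm
    rw [hf, hf]
    norm_num
  · exact dd_1 h hτ hm hm hf (div_self hm)
  · refine dd_0 h hτ hm one_ne_zero hf ?_
    unfold nm
    rw [map_one, map_one]
    norm_num
  · exact dd_1 h hτ hm one_ne_zero hf (div_one _)
-- END dd

-- BEGIN de
private theorem de_roots0 (r : Root) (h : 0 < lw 0 r.1) :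
    r.1 = (sn 1).1 ∨ r.1 = sg (sn 1).1 ∨ r.1 = sg (sg (sn 1).1) ∨
    r.1 = (sn 0).1 + (sn 1).1 ∨ r.1 = (sn 0).1 + sg (sn 1).1 ∨ r.1 = (sn 0).1 + sg (sg (sn 1).1) ∨
    r.1 = (sn 0).1 + (sg (sn 1).1 + sg (sg (sn 1).1)) ∨ r.1 = (sn 0).1 + ((sn 1).1 + sg (sg (sn 1).1)) ∨ r.1 = (sn 0).1 + ((sn 1).1 + sg (sn 1).1) ∨
    r.1 = (sn 0).1 + ((sn 1).1 + sg (sn 1).1 + sg (sg (sn 1).1)) ∨ r.1 = (sn 0).1 + ((sn 0).1 + ((sn 1).1 + sg (sn 1).1 + sg (sg (sn 1).1))) :=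
  all_rts (p := fun v => 0 < lw 0 v →
    (v = (sn 1).1 ∨ v = sg (sn 1).1 ∨ v = sg (sg (sn 1).1) ∨
    v = (sn 0).1 + (sn 1).1 ∨ v = (sn 0).1 + sg (sn 1).1 ∨ v = (sn 0).1 + sg (sg (sn 1).1) ∨
    v = (sn 0).1 + (sg (sn 1).1 + sg (sg (sn 1).1)) ∨ v = (sn 0).1 + ((sn 1).1 + sg (sg (sn 1).1)) ∨ v = (sn 0).1 + ((sn 1).1 + sg (sn 1).1) ∨
    v = (sn 0).1 + ((sn 1).1 + sg (sn 1).1 + sg (sg (sn 1).1)) ∨ v = (sn 0).1 + ((sn 0).1 + ((sn 1).1 + sg (sn 1).1 + sg (sg (sn 1).1))))) (by decide) r h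

private theorem de_roots1 (r : Root) (h : 0 < lw 1 r.1) :
    r.1 = (sn 0).1 ∨
    r.1 = (sn 0).1 + (sn 1).1 ∨ r.1 = (sn 0).1 + sg (sn 1).1 ∨ r.1 = (sn 0).1 + sg (sg (sn 1).1) ∨
    r.1 = (sn 0).1 + (sg (sn 1).1 + sg (sg (sn 1).1)) ∨ r.1 = (sn 0).1 + ((sn 1).1 + sg (sg (sn 1).1)) ∨ r.1 = (sn 0).1 + ((sn 1).1 + sg (sn 1).1) ∨
    r.1 = (sn 0).1 + ((sn 1).1 + sg (sn 1).1 + sg (sg (sn 1).1)) ∨ r.1 = (sn 0).1 + ((sn 0).1 + ((sn 1).1 + sg (sn 1).1 + sg (sg (sn 1).1))) :=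
  all_rts (p := fun v => 0 < lw 1 v →
    (v = (sn 0).1 ∨
    v = (sn 0).1 + (sn 1).1 ∨ v = (sn 0).1 + sg (sn 1).1 ∨ v = (sn 0).1 + sg (sg (sn 1).1) ∨
    v = (sn 0).1 + (sg (sn 1).1 + sg (sg (sn 1).1)) ∨ v = (sn 0).1 + ((sn 1).1 + sg (sg (sn 1).1)) ∨ v = (sn 0).1 + ((sn 1).1 + sg (sn 1).1) ∨
    v = (sn 0).1 + ((sn 1).1 + sg (sn 1).1 + sg (sg (sn 1).1)) ∨ v = (sn 0).1 + ((sn 0).1 + ((sn 1).1 + sg (sn 1).1 + sg (sg (sn 1).1))))) (by decide) r h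

private theorem de_ne {a b : K} (hb : b ≠ 0) (h : a ≠ b) : a / b ≠ 1 := fun h1 => h ((div_eq_one_iff_eq hb).1 h1)

private theorem de_sq (τ : K →+* K) {u : K} (h2 : u * u ≠ 1) : τ u * τ u ≠ 1 := by
  intro h
  apply h2
  apply τ.injective
  rw [map_mul, map_one]
  exact h

/-- MODULE de. VALUES OF THE CHARACTERS.  A root `v` with `m = m_0 + m_1 + m_2 > 0` is `(0; e_i)`, `(1; e_i)`, `(1; e_i + e_j)`, `(1; 1, 1, 1)` or `(2; 1, 1, 1)` (`mem_rts`, decide); `chY` is multiplicative (`chY_add`), `1` at `(1; 0, 0, 0)` (`chY_zero`), `χ = τ u τ² u / u` at `e_0` (`chY_one`),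
`τ χ`, `τ² χ` at `e_1`, `e_2` (`chY_sg`); `χ * τ χ = (τ² u)²`, `χ * τ χ * τ² χ = nm u`.  `χ = 1` iff `nm u = u u`. -/
theorem ch_all0 (hτ : ∀ a, τ (τ (τ a)) = a) {u : K} (hu : u ≠ 0) (h1 : nm τ u ≠ 1) (h2 : u * u ≠ 1) (h3 : nm τ u ≠ u * u) {z : ∀ i : Fin 2, (Sf τ i)ˣ}
    (e0 : ((z 0 : Sf τ 0) : K) = nm τ u) (e1 : ((z 1 : Sf τ 1) : K) = τ u * τ (τ u)) : chY τ (sn 0).1 z = 1 ∧ ∀ r : Root, 0 < lw 0 r.1 → chY τ r.1 z ≠ 1 := by
  have hu1 : τ u ≠ 0 := (map_ne_zero τ).2 hu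
  have hu2 : τ (τ u) ≠ 0 := (map_ne_zero τ).2 hu1
  have c0 : chY τ (sn 0).1 z = 1 := by
    rw [chY_zero, e0, e1, map_mul, map_mul, hτ u]
    unfold nm
    field_simp
  have c1 : chY τ (sn 1).1 z = τ u * τ (τ u) / u := by
    rw [chY_one, e0, e1]
    unfold nm
    field_simp
  have c2 : chY τ (sg (sn 1).1) z = τ (τ u) * u / τ u := by
    rw [chY_sg hτ, c1, map_div₀, map_mul, hτ u]
  have c3 : chY τ (sg (sg (sn 1).1)) z = u * τ u / τ (τ u) := by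
    rw [chY_sg hτ, c2, map_div₀, map_mul, hτ u]
  have k1 : τ u * τ (τ u) / u ≠ 1 := by
    refine de_ne hu fun h => h3 ?_
    unfold nm
    rw [mul_assoc, h]
  have k2 : τ (τ u) * u / τ u ≠ 1 := by
    have e : τ (τ u * τ (τ u) / u) = τ (τ u) * u / τ u := by rw [map_div₀, map_mul, hτ u]
    rw [← e]
    intro h
    apply k1
    apply τ.injective
    rw [h, map_one]
  have k3 : u * τ u / τ (τ u) ≠ 1 := by
    have e : τ (τ (τ u) * u / τ u) = u * τ u / τ (τ u) := by rw [map_div₀, map_mul, hτ u]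
    rw [← e]
    intro h
    apply k2
    apply τ.injective
    rw [h, map_one]
  have m12 : τ u * τ (τ u) / u * (τ (τ u) * u / τ u) = τ (τ u) * τ (τ u) := by
    field_simp
  have m13 : τ u * τ (τ u) / u * (u * τ u / τ (τ u)) = τ u * τ u := by
    field_simp
  have m23 : τ (τ u) * u / τ u * (u * τ u / τ (τ u)) = u * u := by
    field_simp
  have m123 : τ (τ u) * τ (τ u) * (u * τ u / τ (τ u)) = nm τ u := by
    unfold nm
    field_simp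
  have q1 := de_sq τ h2
  have q2 := de_sq τ q1
  refine ⟨c0, fun r hr => ?_⟩
  rcases de_roots0 r hr with e | e | e | e | e | e | e | e | e | e | e <;> rw [e]
  · rw [c1]
    exact k1
  · rw [c2]
    exact k2
  · rw [c3]
    exact k3
  · rw [chY_add, c0, c1, one_mul]
    exact k1
  · rw [chY_add, c0, c2, one_mul]
    exact k2
  · rw [chY_add, c0, c3, one_mul]
    exact k3
  · rw [chY_add, chY_add, c0, c2, c3, one_mul, m23]
    exact h2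
  · rw [chY_add, chY_add, c0, c1, c3, one_mul, m13]
    exact q1
  · rw [chY_add, chY_add, c0, c1, c2, one_mul, m12]
    exact q2
  · rw [chY_add, chY_add, chY_add, c0, c1, c2, c3, one_mul, m12, m123]
    exact h1
  · rw [chY_add, chY_add, chY_add, chY_add, c0, c1, c2, c3, one_mul, one_mul, m12, m123]
    exact h1

/-- `(c; ..)` with `c = 1` or `2`: the value is `u ^ c` -/
theorem ch_all1 (ht : ∀ a, τ a = a) {u : K} (hu : u ≠ 0) (h2 : u * u ≠ 1) {z : ∀ i : Fin 2, (Sf τ i)ˣ}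
    (e0 : ((z 0 : Sf τ 0) : K) = u * u) (e1 : ((z 1 : Sf τ 1) : K) = u) : chY τ (sn 1).1 z = 1 ∧ ∀ r : Root, 0 < lw 1 r.1 → chY τ r.1 z ≠ 1 := by
  have hτ : ∀ a, τ (τ (τ a)) = a := fun a => by rw [ht, ht, ht]
  have c0 : chY τ (sn 0).1 z = u := by
    rw [chY_zero, e0, e1, ht u, ht u]
    field_simp
  have c1 : chY τ (sn 1).1 z = 1 := by
    rw [chY_one, e0, e1]
    field_simp
  have c2 : chY τ (sg (sn 1).1) z = 1 := by
    rw [chY_sg hτ, c1, map_one]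
  have c3 : chY τ (sg (sg (sn 1).1)) z = 1 := by
    rw [chY_sg hτ, c2, map_one]
  have k : u ≠ 1 := fun h => h2 (by rw [h, mul_one])
  refine ⟨c1, fun r hr => ?_⟩
  rcases de_roots1 r hr with e | e | e | e | e | e | e | e | e <;> rw [e]
  · rw [c0]
    exact k
  · rw [chY_add, c0, c1, mul_one]
    exact k
  · rw [chY_add, c0, c2, mul_one]
    exact k
  · rw [chY_add, c0, c3, mul_one]
    exact k
  · rw [chY_add, chY_add, c0, c2, c3, mul_one, mul_one]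
    exact k
  · rw [chY_add, chY_add, c0, c1, c3, mul_one, mul_one]
    exact k
  · rw [chY_add, chY_add, c0, c1, c2, mul_one, mul_one]
    exact k
  · rw [chY_add, chY_add, chY_add, c0, c1, c2, c3, mul_one, mul_one, mul_one]
    exact k
  · rw [chY_add, chY_add, chY_add, chY_add, c0, c1, c2, c3, mul_one, mul_one, mul_one]
    exact h2

/-- `j = 0`: `(c², c)`, `j = 1`: `(c, c)` -/
theorem exists_sc (j : Fin 2) {c : K} (hc : c ≠ 0) (h1 : τ c = c) : ∃ z : ∀ i : Fin 2, (Sf τ i)ˣ, chY τ (sn j).1 z = c := by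
  have hj : j = 0 ∨ j = 1 := by omega
  rcases hj with rfl | rfl
  · obtain ⟨z, e0, e1⟩ := exists_z (τ := τ) (a := c * c) (b := c) (mul_ne_zero hc hc) hc (by rw [map_mul, h1])
    refine ⟨z, ?_⟩
    rw [chY_zero, e0, e1, h1, h1]
    field_simp
  · obtain ⟨z, e0, e1⟩ := exists_z (τ := τ) (a := c) (b := c) hc hc h1
    refine ⟨z, ?_⟩
    rw [chY_one, e0, e1]
    field_simp
-- END de

/-- `g` is conjugate to `w` in the twisted group, `U g` and `g V` consist of conjugates of `g` for the node `j` -/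
def Nice (x : Root → K → G) (τ : K →+* K) (j : Fin 2) (w g : G) : Prop :=
  (∃ a ∈ Hh x τ, g = a * w * a⁻¹) ∧ Stp g (Sy x τ (Pi' j)) ⊥ ∧ Stp g (Sy (op x) τ (Pi' j)) ⊥ ∧ ∀ u ∈ Sy x τ (Pi' j), g * u * g⁻¹ ∈ Sy x τ (Pi' j)

-- BEGIN df
private theorem df_gen {y : Root → K → G} {p : Root → Prop} {c : G} (h : ∀ (r : Root) (a : K), p r → Ok τ r a → c * yt y τ r a * c⁻¹ ∈ Sy y τ p) {u : G} (hu : u ∈ Sy y τ p) : c * u * c⁻¹ ∈ Sy y τ p := by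
  unfold Sy at hu
  induction hu using Subgroup.closure_induction with
  | mem g hg =>
    obtain ⟨r, a, hr, ha, rfl⟩ := hg
    exact h r a hr ha
  | one =>
    rw [mul_one, mul_inv_cancel]
    exact Subgroup.one_mem _
  | mul g g' _ _ ih ih' =>
    have e : c * (g * g') * c⁻¹ = (c * g * c⁻¹) * (c * g' * c⁻¹) := by group
    rw [e]
    exact Subgroup.mul_mem _ ih ih'
  | inv g _ ih =>
    have e : c * g⁻¹ * c⁻¹ = (c * g * c⁻¹)⁻¹ := by group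
    rw [e]
    exact Subgroup.inv_mem _ ih

private theorem df_comp {P : Subgroup G} {c d : G} (h1 : ∀ u ∈ P, c * u * c⁻¹ ∈ P) (h2 : ∀ u ∈ P, d * u * d⁻¹ ∈ P) : ∀ u ∈ P, c * d * u * (c * d)⁻¹ ∈ P := by
  intro u hu
  have e : c * d * u * (c * d)⁻¹ = c * (d * u * d⁻¹) * c⁻¹ := by group
  rw [e]
  exact h1 _ (h2 u hu)

/-- MODULE df. `Stp.left` for `g1` on `Sy (op x)`, `Stp.right` for `g2` on `Sy x`; `Sy_le_Hh`, `Sy_op_le_Hh`. -/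
theorem Nice.prod {j : Fin 2} {w g1 g2 v u : G} (h1 : Nice x τ j w g1) (h2 : Nice x τ j w g2) (hv : v ∈ Sy (op x) τ (Pi' j)) (hu : u ∈ Sy x τ (Pi' j)) :
    ∃ a ∈ Hh x τ, ∃ c ∈ Hh x τ, v * (g1 * g2) * u = a * w * a⁻¹ * (c * w * c⁻¹) := by
  obtain ⟨⟨a, ha, e1⟩, -, h3, -⟩ := h1
  obtain ⟨⟨b, hb, e2⟩, h4, -, h5⟩ := h2
  obtain ⟨t, ht, e3⟩ := Stp.left h3 hv
  obtain ⟨s, hs, e4⟩ := Stp.right h4 h5 hu
  refine ⟨t * a, Subgroup.mul_mem _ (Sy_op_le_Hh x τ _ ht) ha, s * b, Subgroup.mul_mem _ (Sy_le_Hh x τ _ hs) hb, ?_⟩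
  calc v * (g1 * g2) * u = (v * g1) * (g2 * u) := by group
    _ = (t * g1 * t⁻¹) * (s * g2 * s⁻¹) := by rw [e3, e4]
    _ = t * a * w * (t * a)⁻¹ * (s * b * w * (s * b)⁻¹) := by
      rw [e1, e2]
      group

/-- `Stp.conj` -/
theorem Nice.conj {j : Fin 2} {w g c : G} (h1 : Nice x τ j w g) (hc : c ∈ Hh x τ) (hU : ∀ u ∈ Sy x τ (Pi' j), c * u * c⁻¹ ∈ Sy x τ (Pi' j)) (hU' : ∀ u ∈ Sy x τ (Pi' j), c⁻¹ * u * c ∈ Sy x τ (Pi' j))
    (hV : ∀ u ∈ Sy (op x) τ (Pi' j), c * u * c⁻¹ ∈ Sy (op x) τ (Pi' j)) (hV' : ∀ u ∈ Sy (op x) τ (Pi' j), c⁻¹ * u * c ∈ Sy (op x) τ (Pi' j)) : Nice x τ j w (c * g * c⁻¹) := by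
  obtain ⟨⟨a, ha, e1⟩, h2, h3, h4⟩ := h1
  have hb : ∀ v ∈ (⊥ : Subgroup G), c * v * c⁻¹ ∈ (⊥ : Subgroup G) := by
    intro v hv
    rw [Subgroup.mem_bot] at hv ⊢
    rw [hv, mul_one, mul_inv_cancel]
  refine ⟨⟨c * a, Subgroup.mul_mem _ hc ha, ?_⟩, Stp.conj hU hU' hb h2, Stp.conj hV hV' hb h3, fun u hu => ?_⟩
  · rw [e1]
    group
  · have e : c * g * c⁻¹ * u * (c * g * c⁻¹)⁻¹ = c * (g * (c⁻¹ * u * c) * g⁻¹) * c⁻¹ := by group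
    rw [e]
    exact hU _ (h4 _ (hU' u hu))

/-- the elements of the Levi subgroup normalize both radicals: `Pi_up`, `Pi_lo` for `x` and `op x` (`Stb.op`, `yt_op`), `yt_inv` -/
theorem yt_nrm (h : Stb K x) (hτ : ∀ a, τ (τ (τ a)) = a) (j : Fin 2) {a : K} (ha : Ok τ (sn j) a) :
    (∀ u ∈ Sy x τ (Pi' j), yt x τ (sn j) a * u * (yt x τ (sn j) a)⁻¹ ∈ Sy x τ (Pi' j)) ∧ (∀ u ∈ Sy x τ (Pi' j), yt x τ (-sn j) a * u * (yt x τ (-sn j) a)⁻¹ ∈ Sy x τ (Pi' j)) ∧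
    (∀ u ∈ Sy (op x) τ (Pi' j), yt x τ (sn j) a * u * (yt x τ (sn j) a)⁻¹ ∈ Sy (op x) τ (Pi' j)) ∧ ∀ u ∈ Sy (op x) τ (Pi' j), yt x τ (-sn j) a * u * (yt x τ (-sn j) a)⁻¹ ∈ Sy (op x) τ (Pi' j) := by
  refine ⟨fun u hu => Pi_up h hτ j ha hu, fun u hu => Pi_lo h hτ j ha hu, fun u hu => ?_, fun u hu => ?_⟩
  · have h1 := Pi_lo h.op hτ j ha hu
    rw [yt_op, neg_neg'] at h1
    exact h1
  · have h1 := Pi_up h.op hτ j ha hu
    rw [yt_op] at h1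
    exact h1

/-- `hzY_conj` on the generators (`Ok` by `chY_sg`), `yt_op` -/
theorem hz_nrm (h : Stb K x) (hτ : ∀ a, τ (τ (τ a)) = a) (z : ∀ i : Fin 2, (Sf τ i)ˣ) (p : Root → Prop) :
    (∀ u ∈ Sy x τ p, hz x τ z * u * (hz x τ z)⁻¹ ∈ Sy x τ p) ∧ ∀ u ∈ Sy (op x) τ p, hz x τ z * u * (hz x τ z)⁻¹ ∈ Sy (op x) τ p := by
  refine ⟨fun u hu => df_gen (fun r a hr ha => ?_) hu, fun u hu => df_gen (fun r a hr ha => ?_) hu⟩
  · rw [hzY_conj h hτ]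
    refine Sy.mem hr fun h1 => ?_
    rw [map_mul, ha h1, ← chY_sg hτ, ← sr_val, h1]
  · rw [yt_op, hzY_conj h hτ, ← yt_op]
    refine Sy.mem hr fun h1 => ?_
    rw [map_mul, ha h1, ← chY_sg hτ, ← sr_val, sr_neg, h1]

/-- `ny_eq`, `yt_nrm`, `yt_inv` -/
theorem ny_nrm (h : Stb K x) (hτ : ∀ a, τ (τ (τ a)) = a) (j : Fin 2) :
    (∀ u ∈ Sy x τ (Pi' j), ny x (sn j) * u * (ny x (sn j))⁻¹ ∈ Sy x τ (Pi' j)) ∧ (∀ u ∈ Sy x τ (Pi' j), (ny x (sn j))⁻¹ * u * ny x (sn j) ∈ Sy x τ (Pi' j)) ∧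
    (∀ u ∈ Sy (op x) τ (Pi' j), ny x (sn j) * u * (ny x (sn j))⁻¹ ∈ Sy (op x) τ (Pi' j)) ∧ ∀ u ∈ Sy (op x) τ (Pi' j), (ny x (sn j))⁻¹ * u * ny x (sn j) ∈ Sy (op x) τ (Pi' j) := by
  have o1 : Ok τ (sn j) (1 : K) := fun _ => map_one τ
  obtain ⟨a1, a2, a3, a4⟩ := yt_nrm h hτ j o1
  obtain ⟨b1, b2, b3, b4⟩ := yt_nrm h hτ j o1.neg
  have e : ny x (sn j) = yt x τ (sn j) 1 * yt x τ (-sn j) 1 * yt x τ (sn j) 1 := ny_eq h j
  have e' : (ny x (sn j))⁻¹ = yt x τ (sn j) (-1) * yt x τ (-sn j) (-1) * yt x τ (sn j) (-1) := by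
    rw [e, ← yt_inv h τ (sn j) 1, ← yt_inv h τ (-sn j) 1]
    group
  have c1 : ∀ u ∈ Sy x τ (Pi' j), (ny x (sn j))⁻¹ * u * ((ny x (sn j))⁻¹)⁻¹ ∈ Sy x τ (Pi' j) := by
    rw [e']
    exact df_comp (df_comp b1 b2) b1
  have c2 : ∀ u ∈ Sy (op x) τ (Pi' j), (ny x (sn j))⁻¹ * u * ((ny x (sn j))⁻¹)⁻¹ ∈ Sy (op x) τ (Pi' j) := by
    rw [e']
    exact df_comp (df_comp b3 b4) b3
  rw [inv_inv] at c1 c2
  refine ⟨?_, c1, ?_, c2⟩
  · rw [e]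
    exact df_comp (df_comp a1 a2) a1
  · rw [e]
    exact df_comp (df_comp a3 a4) a3
-- END df

-- BEGIN dg
/-- MODULE dg. `hs` gives a torus element `c` with `c y_(sn j)(1) c⁻¹ = y_(sn j)(b)` which commutes with `hz z` (`hzY_mul`): `hz z * y(b) = c (hz z * y(1)) c⁻¹`; `surU`, `surV`, `hz_nrm`, `yt_nrm`. -/
theorem nice_up (h : Stb K x) (hτ : ∀ a, τ (τ (τ a)) = a) (j : Fin 2) {w : G} {z : ∀ i : Fin 2, (Sf τ i)ˣ} (h2 : ∀ r : Root, 0 < lw j r.1 → chY τ r.1 z ≠ 1)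
    (hs : ∀ c : K, c ≠ 0 → Ok τ (sn j) c → ∃ t : ∀ i : Fin 2, (Sf τ i)ˣ, chY τ (sn j).1 t = c) (hw : ∃ a ∈ Hh x τ, hz x τ z * yt x τ (sn j) 1 = a * w * a⁻¹) {b : K} (hb : b ≠ 0) (ok : Ok τ (sn j) b) :
    Nice x τ j w (hz x τ z * yt x τ (sn j) b) := by
  obtain ⟨t, ht⟩ := hs b hb ok
  obtain ⟨a, ha, e1⟩ := hw
  have e2 := hzY_conj h hτ t (sn j) 1
  rw [ht, mul_one] at e2
  have e3 : hz x τ t * hz x τ z = hz x τ z * hz x τ t := by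
    rw [← hzY_mul h, ← hzY_mul h, mul_comm]
  refine ⟨⟨hz x τ t * a, (Hh x τ).mul_mem (hz_mem h t) ha, ?_⟩, surU h hτ j h2 ok, surV h hτ j h2 ok, ?_⟩
  · calc hz x τ z * yt x τ (sn j) b = (hz x τ z * hz x τ t) * yt x τ (sn j) 1 * (hz x τ t)⁻¹ := by
          rw [← e2]
          group
      _ = hz x τ t * (hz x τ z * yt x τ (sn j) 1) * (hz x τ t)⁻¹ := by
          rw [← e3]
          group
      _ = hz x τ t * a * w * (hz x τ t * a)⁻¹ := by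
          rw [e1]
          group
  · intro u hu
    have e4 : hz x τ z * yt x τ (sn j) b * u * (hz x τ z * yt x τ (sn j) b)⁻¹ =
        hz x τ z * (yt x τ (sn j) b * u * (yt x τ (sn j) b)⁻¹) * (hz x τ z)⁻¹ := by
      group
    rw [e4]
    exact (hz_nrm h hτ z (Pi' j)).1 _ ((yt_nrm h hτ j ok).1 u hu)

private theorem dg_wf (j : Fin 2) : wf (sn j) (-sn j) = sn j := by
  revert j
  decide

/-- `n = ny x (sn j)` commutes with `hz z` (`hzY_conj`, `h1`, `chY_neg`: `hz z` commutes with `y_(±sn j)(a)`; `ny_eq`) and `n y_(-sn j)(c) n⁻¹ = y_(sn j)(± c)` (`ny_conj`, `wf (sn j) (-sn j) = sn j`), so `y_(-sn j)(c) * hz z = n⁻¹ * (hz z * y_(sn j)(± c)) * n`: `nice_up`, `Nice.conj`, `ny_nrm`. -/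
theorem nice_lo (h : Stb K x) (hτ : ∀ a, τ (τ (τ a)) = a) (j : Fin 2) {w : G} {z : ∀ i : Fin 2, (Sf τ i)ˣ} (h1 : chY τ (sn j).1 z = 1) (h2 : ∀ r : Root, 0 < lw j r.1 → chY τ r.1 z ≠ 1)
    (hs : ∀ c : K, c ≠ 0 → Ok τ (sn j) c → ∃ t : ∀ i : Fin 2, (Sf τ i)ˣ, chY τ (sn j).1 t = c) (hw : ∃ a ∈ Hh x τ, hz x τ z * yt x τ (sn j) 1 = a * w * a⁻¹) {c : K} (hc : c ≠ 0) (ok : Ok τ (sn j) c) :
    Nice x τ j w (yt x τ (-sn j) c * hz x τ z) := by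
  have k1 : ∀ b : K, hz x τ z * yt x τ (sn j) b = yt x τ (sn j) b * hz x τ z := fun b => by
    have e := hzY_conj h hτ z (sn j) b
    rw [h1, one_mul] at e
    exact mul_inv_eq_iff_eq_mul.1 e
  have k2 : ∀ b : K, hz x τ z * yt x τ (-sn j) b = yt x τ (-sn j) b * hz x τ z := fun b => by
    have e := hzY_conj h hτ z (-sn j) b
    rw [neg_val, chY_neg, h1, inv_one, one_mul] at e
    exact mul_inv_eq_iff_eq_mul.1 e
  have k3 : ny x (sn j) * hz x τ z = hz x τ z * ny x (sn j) := by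
    rw [ny_eq h j]
    calc yt x τ (sn j) 1 * yt x τ (-sn j) 1 * yt x τ (sn j) 1 * hz x τ z
        = yt x τ (sn j) 1 * yt x τ (-sn j) 1 * (yt x τ (sn j) 1 * hz x τ z) := by group
      _ = yt x τ (sn j) 1 * (yt x τ (-sn j) 1 * hz x τ z) * yt x τ (sn j) 1 := by
          rw [← k1]
          group
      _ = yt x τ (sn j) 1 * hz x τ z * yt x τ (-sn j) 1 * yt x τ (sn j) 1 := by
          rw [← k2]
          group
      _ = hz x τ z * (yt x τ (sn j) 1 * yt x τ (-sn j) 1 * yt x τ (sn j) 1) := by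
          rw [← k1]
          group
  obtain ⟨e, he1, he2, he3⟩ := ny_conj h (τ := τ) j (-sn j)
  have he0 : e ≠ 0 := fun h0 => by
    rw [h0, mul_zero] at he1
    exact zero_ne_one he1
  have k4 := he3 c
  rw [dg_wf] at k4
  have k5 : yt x τ (-sn j) c * hz x τ z = (ny x (sn j))⁻¹ * (hz x τ z * yt x τ (sn j) (e * c)) * ((ny x (sn j))⁻¹)⁻¹ := by
    rw [k1, ← k4, inv_inv]
    calc yt x τ (-sn j) c * hz x τ z = yt x τ (-sn j) c * (ny x (sn j))⁻¹ * (ny x (sn j) * hz x τ z) := by group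
      _ = yt x τ (-sn j) c * (ny x (sn j))⁻¹ * (hz x τ z * ny x (sn j)) := by rw [k3]
      _ = _ := by group
  have ok' : Ok τ (sn j) (e * c) := fun hr => by
    rw [map_mul, he2, ok hr]
  obtain ⟨n1, n2, n3, n4⟩ := ny_nrm h hτ j
  rw [k5]
  refine Nice.conj (nice_up h hτ j h2 hs hw (mul_ne_zero he0 hc) ok') ((Hh x τ).inv_mem (ny_mem h τ j)) ?_ ?_ ?_ ?_
  · intro u hu
    rw [inv_inv]
    exact n2 u hu
  · intro u hu
    rw [inv_inv]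
    exact n1 u hu
  · intro u hu
    rw [inv_inv]
    exact n4 u hu
  · intro u hu
    rw [inv_inv]
    exact n3 u hu
-- END dg

-- BEGIN dh
private theorem dh_inv (h : Stb K x) (z : ∀ i : Fin 2, (Sf τ i)ˣ) : hz x τ z⁻¹ = (hz x τ z)⁻¹ := by
  have h1 : hz x τ (1 : ∀ i : Fin 2, (Sf τ i)ˣ) = 1 := by
    show hy x τ (sn 0) 1 * hy x τ (sn 1) 1 = 1
    rw [hy_one h, hy_one h, mul_one]
  have h2 := hzY_mul h z z⁻¹
  rw [mul_inv_cancel, h1] at h2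
  exact (inv_eq_of_mul_eq_one_right h2.symm).symm

private theorem dh_ch (s : Vec) (z : ∀ i : Fin 2, (Sf τ i)ˣ) : chY τ s z⁻¹ = (chY τ s z)⁻¹ := by
  have key : ∀ (r : Root) (c : K), cy τ r s c⁻¹ = (cy τ r s c)⁻¹ := by
    intro r c
    unfold cy
    split_ifs
    · rw [inv_zpow]
    · rw [map_inv₀, map_inv₀, inv_zpow, inv_zpow, inv_zpow, mul_inv, mul_inv]
  have e0 : ((z⁻¹ 0 : Sf τ 0) : K) = (((z 0 : Sf τ 0)) : K)⁻¹ := by
    rw [Pi.inv_apply, Units.val_inv_eq_inv_val]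
    rfl
  have e1 : ((z⁻¹ 1 : Sf τ 1) : K) = (((z 1 : Sf τ 1)) : K)⁻¹ := by
    rw [Pi.inv_apply, Units.val_inv_eq_inv_val]
    rfl
  unfold chY
  rw [e0, e1, key, key, mul_inv]

private theorem dh_cm {z : ∀ i : Fin 2, (Sf τ i)ˣ} (h : Stb K x) (hτ : ∀ a, τ (τ (τ a)) = a) {s : Root} (h1 : chY τ s.1 z = 1) (a : K) : hz x τ z * yt x τ s a * (hz x τ z)⁻¹ = yt x τ s a := by
  rw [hzY_conj h hτ, h1, one_mul]

private theorem dh_t {r : Root} (h4 : ∃ t : K, t ≠ 0 ∧ t ≠ 1 ∧ τ t = t) {b : K} (hb : Ok τ r b) : ∃ t : K, t ≠ 0 ∧ Ok τ r t ∧ b - t ≠ 0 ∧ Ok τ r (b - t) := by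
  by_cases h0 : b = 0
  · subst h0
    have ok : Ok τ r (1 : K) := fun _ => map_one τ
    exact ⟨1, one_ne_zero, ok, by rw [zero_sub]; exact neg_ne_zero.2 one_ne_zero, by rw [zero_sub]; exact ok.neg⟩
  · obtain ⟨t, t0, t1, ht⟩ := h4
    have ok : Ok τ r (t * b) := fun hr => by rw [map_mul, ht, hb hr]
    refine ⟨t * b, mul_ne_zero t0 h0, ok, ?_, ?_⟩
    · intro hh
      apply t1
      have : (1 - t) * b = 0 := by rw [← hh]; ring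
      rcases mul_eq_zero.1 this with h5 | h5
      · exact (sub_eq_zero.1 h5).symm
      · exact absurd h5 h0
    · rw [sub_eq_add_neg]
      exact hb.add ok.neg

/-- MODULE dh. THE PRODUCTS.  `w = hz z * y(1)`, `w' = (hz z)⁻¹ * y(1) = hz z⁻¹ * y(1)` (`hzY_mul`) is conjugate to `w`: `m w⁻¹ m⁻¹ = (y(-1) hz z⁻¹)⁻¹ ..`; exactly: `m * w * m⁻¹ = (hz z)⁻¹ * y(1)` by `hm1`, `hm2`.
`v = v' * y_(-sn j)(c)` (`Pi_split` for `op x`, `Pi_up` ..), `u = y_(sn j)(b) * u'` (`Pi_split`).  `D = hz z` commutes with `y_(±sn j)(a)`.  If `c ≠ 0`, `b ≠ 0`: `g1 = y_(-sn j)(c) * D`, `g2 = D⁻¹ * y_(sn j)(b)`.  If `c = 0`: `t ≠ 0, b` (`h4`; `t = 1` or the element of `h4` times `b`), `g1 = D * y(t)`, `g2 = D⁻¹ * y(b - t)`.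
If `b = 0`, `c ≠ 0`: `g1 = y_(-sn j)(t) * D`, `g2 = y_(-sn j)(c - t) * D⁻¹`, `t ≠ 0, c`.  `nice_up`, `nice_lo` for `z` and `z⁻¹`, `Nice.prod`. -/
theorem typeI (h : Stb K x) (hτ : ∀ a, τ (τ (τ a)) = a) (j : Fin 2) {z : ∀ i : Fin 2, (Sf τ i)ˣ} (h1 : chY τ (sn j).1 z = 1) (h2 : ∀ r : Root, 0 < lw j r.1 → chY τ r.1 z ≠ 1)
    (hs : ∀ c : K, c ≠ 0 → Ok τ (sn j) c → ∃ t : ∀ i : Fin 2, (Sf τ i)ˣ, chY τ (sn j).1 t = c) {m : G} (hm : m ∈ Hh x τ) (hm1 : m * hz x τ z * m⁻¹ = (hz x τ z)⁻¹)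
    (hm2 : m * yt x τ (sn j) 1 * m⁻¹ = yt x τ (sn j) 1) (h4 : ∃ t : K, t ≠ 0 ∧ t ≠ 1 ∧ τ t = t) {v u : G} (hv : v ∈ Sy (op x) τ fun r => 0 < ht r.1) (hu : u ∈ Sy x τ fun r => 0 < ht r.1) :
    ∃ a ∈ Hh x τ, ∃ c ∈ Hh x τ, v * u = a * (hz x τ z * yt x τ (sn j) 1) * a⁻¹ * (c * (hz x τ z * yt x τ (sn j) 1) * c⁻¹) := by
  have hi := dh_inv h z
  have h1' : chY τ (sn j).1 z⁻¹ = 1 := by rw [dh_ch, h1, inv_one]
  have h2' : ∀ r : Root, 0 < lw j r.1 → chY τ r.1 z⁻¹ ≠ 1 := by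
    intro r hr hh
    rw [dh_ch, inv_eq_one] at hh
    exact h2 r hr hh
  have hn : chY τ (-sn j).1 z = 1 := by rw [neg_val, chY_neg, h1, inv_one]
  set w : G := hz x τ z * yt x τ (sn j) 1 with hw
  have hw1 : ∃ a ∈ Hh x τ, hz x τ z * yt x τ (sn j) 1 = a * w * a⁻¹ := ⟨1, one_mem _, by rw [one_mul, inv_one, mul_one]⟩
  have hw2 : ∃ a ∈ Hh x τ, hz x τ z⁻¹ * yt x τ (sn j) 1 = a * w * a⁻¹ := by
    refine ⟨m, hm, ?_⟩
    calc hz x τ z⁻¹ * yt x τ (sn j) 1 = (m * hz x τ z * m⁻¹) * (m * yt x τ (sn j) 1 * m⁻¹) := by rw [hm1, hm2, hi]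
      _ = m * w * m⁻¹ := by rw [hw]; group
  have up1 : ∀ {b : K}, b ≠ 0 → Ok τ (sn j) b → Nice x τ j w (hz x τ z * yt x τ (sn j) b) := fun hb ok => nice_up h hτ j h2 hs hw1 hb ok
  have up2 : ∀ {b : K}, b ≠ 0 → Ok τ (sn j) b → Nice x τ j w (hz x τ z⁻¹ * yt x τ (sn j) b) := fun hb ok => nice_up h hτ j h2' hs hw2 hb ok
  have lo1 : ∀ {b : K}, b ≠ 0 → Ok τ (sn j) b → Nice x τ j w (yt x τ (-sn j) b * hz x τ z) := fun hb ok => nice_lo h hτ j h1 h2 hs hw1 hb ok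
  have lo2 : ∀ {b : K}, b ≠ 0 → Ok τ (sn j) b → Nice x τ j w (yt x τ (-sn j) b * hz x τ z⁻¹) := fun hb ok => nice_lo h hτ j h1' h2' hs hw2 hb ok
  obtain ⟨c, okc, v', hv', rfl⟩ := Pi_split h.op hτ j hv
  obtain ⟨b, okb, u', hu', rfl⟩ := Pi_split h hτ j hu
  have hv'' := Pi_up h.op hτ j okc hv'
  rw [yt_op] at hv'' ⊢
  have e : yt x τ (-sn j) c * v' * (yt x τ (sn j) b * u') = (yt x τ (-sn j) c * v' * (yt x τ (-sn j) c)⁻¹) * (yt x τ (-sn j) c * yt x τ (sn j) b) * u' := by group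
  have fin : ∀ {g1 g2 : G}, Nice x τ j w g1 → Nice x τ j w g2 → g1 * g2 = yt x τ (-sn j) c * yt x τ (sn j) b →
      ∃ a ∈ Hh x τ, ∃ c' ∈ Hh x τ, yt x τ (-sn j) c * v' * (yt x τ (sn j) b * u') = a * w * a⁻¹ * (c' * w * c'⁻¹) := by
    intro g1 g2 n1 n2 hg
    rw [e, ← hg]
    exact Nice.prod n1 n2 hv'' hu'
  by_cases hc : c = 0
  · obtain ⟨t, t0, okt, t1, okt'⟩ := dh_t h4 okb
    refine fin (up1 t0 okt) (up2 t1 okt') ?_
    rw [hi, hc, yt_zero h, one_mul]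
    calc hz x τ z * yt x τ (sn j) t * ((hz x τ z)⁻¹ * yt x τ (sn j) (b - t)) = (hz x τ z * yt x τ (sn j) t * (hz x τ z)⁻¹) * yt x τ (sn j) (b - t) := by group
      _ = yt x τ (sn j) b := by rw [dh_cm h hτ h1, ← yt_add h, add_sub_cancel]
  · by_cases hb : b = 0
    · obtain ⟨t, t0, okt, t1, okt'⟩ := dh_t h4 okc
      refine fin (lo1 t0 okt) (lo2 t1 okt') ?_
      rw [hi, hb, yt_zero h, mul_one]
      calc yt x τ (-sn j) t * hz x τ z * (yt x τ (-sn j) (c - t) * (hz x τ z)⁻¹) = yt x τ (-sn j) t * (hz x τ z * yt x τ (-sn j) (c - t) * (hz x τ z)⁻¹) := by group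
        _ = yt x τ (-sn j) c := by rw [dh_cm h hτ hn, ← yt_add h, add_sub_cancel]
    · refine fin (lo1 hc okc) (up2 hb okb) ?_
      rw [hi]
      group

/-- `w = hz z * y(1) = y(1) * hz z`, `w⁻¹ = hz z⁻¹ * y(-1)`; `m w m⁻¹ = (hz z)⁻¹ * y(1)`, and a torus element maps `y(1)` to `y(-1)` (`hs` for `c = -1`) -/
theorem realI (h : Stb K x) (hτ : ∀ a, τ (τ (τ a)) = a) (j : Fin 2) {z : ∀ i : Fin 2, (Sf τ i)ˣ} (h1 : chY τ (sn j).1 z = 1)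
    (hs : ∀ c : K, c ≠ 0 → Ok τ (sn j) c → ∃ t : ∀ i : Fin 2, (Sf τ i)ˣ, chY τ (sn j).1 t = c) {m : G} (hm : m ∈ Hh x τ) (hm1 : m * hz x τ z * m⁻¹ = (hz x τ z)⁻¹)
    (hm2 : m * yt x τ (sn j) 1 * m⁻¹ = yt x τ (sn j) 1) : ∃ c ∈ Hh x τ, c * (hz x τ z * yt x τ (sn j) 1) * c⁻¹ = (hz x τ z * yt x τ (sn j) 1)⁻¹ := by
  have ok1 : Ok τ (sn j) (-1 : K) := Ok.neg fun _ => map_one τ
  obtain ⟨t, ht⟩ := hs (-1) (neg_ne_zero.2 one_ne_zero) ok1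
  have hcomm : hz x τ t * hz x τ z = hz x τ z * hz x τ t := by rw [← hzY_mul h, ← hzY_mul h, mul_comm]
  have hty : hz x τ t * yt x τ (sn j) 1 * (hz x τ t)⁻¹ = yt x τ (sn j) (-1) := by rw [hzY_conj h hτ, ht, mul_one]
  have hD : hz x τ t * (hz x τ z)⁻¹ * (hz x τ t)⁻¹ = (hz x τ z)⁻¹ := by
    have h3 : hz x τ t * hz x τ z * (hz x τ t)⁻¹ = hz x τ z := by rw [hcomm]; group
    calc hz x τ t * (hz x τ z)⁻¹ * (hz x τ t)⁻¹ = (hz x τ t * hz x τ z * (hz x τ t)⁻¹)⁻¹ := by group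
      _ = (hz x τ z)⁻¹ := by rw [h3]
  refine ⟨hz x τ t * m, mul_mem (hz_mem h t) hm, ?_⟩
  calc hz x τ t * m * (hz x τ z * yt x τ (sn j) 1) * (hz x τ t * m)⁻¹
      = hz x τ t * ((m * hz x τ z * m⁻¹) * (m * yt x τ (sn j) 1 * m⁻¹)) * (hz x τ t)⁻¹ := by group
    _ = (hz x τ t * (hz x τ z)⁻¹ * (hz x τ t)⁻¹) * (hz x τ t * yt x τ (sn j) 1 * (hz x τ t)⁻¹) := by rw [hm1, hm2]; group
    _ = (hz x τ z)⁻¹ * yt x τ (sn j) (-1) := by rw [hD, hty]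
    _ = (hz x τ z * yt x τ (sn j) 1)⁻¹ := by
      rw [← yt_inv h, ← mul_inv_rev]
      congr 1
      calc yt x τ (sn j) 1 * hz x τ z = (hz x τ z * yt x τ (sn j) 1 * (hz x τ z)⁻¹) * hz x τ z := by rw [dh_cm h hτ h1]
        _ = hz x τ z * yt x τ (sn j) 1 := by group
-- END dh

-- BEGIN di
private theorem di_unit {i : Fin 2} {a : K} (ha : a ≠ 0) (h : Ok τ (sn i) a) : ∃ u : (Sf τ i)ˣ, ((u : Sf τ i) : K) = a := by
  obtain ⟨b, hb⟩ := Sf_of h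
  have hb0 : b ≠ 0 := fun e => ha (by rw [← hb, e]; rfl)
  exact ⟨Units.mk0 b hb0, hb⟩

private theorem di_ok1 (a : K) : Ok τ (sn 1) a := fun h => by
  have h1 := (sn_fix 1).1 h
  simp at h1

private theorem di_val {i : Fin 2} (u : (Sf τ i)ˣ) : ((u : Sf τ i) : K) ≠ 0 := fun h => u.ne_zero (Subtype.ext h)

private theorem di_upd0 (z : ∀ i : Fin 2, (Sf τ i)ˣ) (t : (Sf τ 0)ˣ) : Function.update z 0 t 0 = t ∧ Function.update z 0 t 1 = z 1 :=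
  ⟨Function.update_self _ _ _, Function.update_of_ne (by decide) _ _⟩

private theorem di_upd1 (z : ∀ i : Fin 2, (Sf τ i)ˣ) (t : (Sf τ 1)ˣ) : Function.update z 1 t 1 = t ∧ Function.update z 1 t 0 = z 0 :=
  ⟨Function.update_self _ _ _, Function.update_of_ne (by decide) _ _⟩

private theorem di_ch0 {z : ∀ i : Fin 2, (Sf τ i)ˣ} {a b : K} (h0 : ((z 0 : Sf τ 0) : K) = a) (h1 : ((z 1 : Sf τ 1) : K) = b) (h : nm τ b ≠ a * a) :
    chY τ (sn 0).1 z ≠ 1 := by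
  have hb : b ≠ 0 := h1 ▸ di_val (z 1)
  have hn : b * τ b * τ (τ b) ≠ 0 := mul_ne_zero (mul_ne_zero hb ((map_ne_zero τ).2 hb)) ((map_ne_zero τ).2 ((map_ne_zero τ).2 hb))
  rw [chY_zero, h0, h1]
  intro e
  rw [mul_inv_eq_one₀ hn] at e
  exact h (by unfold nm; rw [← e]; ring)

private theorem di_ch1 {z : ∀ i : Fin 2, (Sf τ i)ˣ} {a b : K} (h0 : ((z 0 : Sf τ 0) : K) = a) (h1 : ((z 1 : Sf τ 1) : K) = b) (h : b * b ≠ a) :
    chY τ (sn 1).1 z ≠ 1 := by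
  have ha : a ≠ 0 := h0 ▸ di_val (z 0)
  rw [chY_one, h0, h1]
  intro e
  rw [mul_inv_eq_one₀ ha] at e
  exact h (by rw [← e]; ring)

/-- MODULE di. THE TORUS ELEMENT `1`.  From `S 1 z`: if `z_0 = 1` update `z_1 := 1`; otherwise some `y` with `z_0² ≠ nm y` (`y = 1`, or `y = -1` if `z_0² = 1`, then `z_0 = -1 ≠ 1`), update `z_1 := y`, `chY_zero`: `S 0`.  From `S 0 z` with `y = z_1`, `t`, `s` from `hH`: `z_0 := t`, `S 1` (`chY_one`: `y² / t ≠ 1`), `z_1 := s`, `S 0`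
(`t² / nm s ≠ 1`), `z_0 := 1`, `S 1` (`s² ≠ 1`), `z_1 := 1`. -/
theorem comb_one (hH : ∀ y : K, y ≠ 0 → ∃ t s : K, t ≠ 0 ∧ τ t = t ∧ y * y ≠ t ∧ s ≠ 0 ∧ s * s ≠ 1 ∧ nm τ s ≠ t * t) {S : Fin 2 → (∀ i : Fin 2, (Sf τ i)ˣ) → Prop}
    (h1 : ∀ i z t, S i z → S i (Function.update z i t)) (h2 : ∀ i j z, S i z → chY τ (sn j).1 z ≠ 1 → S j z) (i : Fin 2) (z : ∀ i : Fin 2, (Sf τ i)ˣ) (hS : S i z) :
    ∃ j z', S j z' ∧ ((z' 0 : Sf τ 0) : K) = 1 ∧ ((z' 1 : Sf τ 1) : K) = 1 := by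
  have o1 : ((((1 : (Sf τ 0)ˣ)) : Sf τ 0) : K) = 1 := rfl
  have o2 : ((((1 : (Sf τ 1)ˣ)) : Sf τ 1) : K) = 1 := rfl
  have key : ∀ z : ∀ i : Fin 2, (Sf τ i)ˣ, S 0 z → ∃ j z', S j z' ∧ ((z' 0 : Sf τ 0) : K) = 1 ∧ ((z' 1 : Sf τ 1) : K) = 1 := by
    intro z hS
    obtain ⟨t, s, ht0, ht1, ht2, hs0, hs1, hs2⟩ := hH ((z 1 : Sf τ 1) : K) (di_val (z 1))
    obtain ⟨T, hT⟩ := di_unit (τ := τ) (i := 0) ht0 (fun _ => ht1)
    obtain ⟨W, hW⟩ := di_unit (τ := τ) (i := 1) hs0 (di_ok1 s)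
    have a1 := h1 0 z T hS
    obtain ⟨u1, u2⟩ := di_upd0 z T
    have a2 := h2 0 1 _ a1 (di_ch1 (by rw [u1, hT]) (by rw [u2]) ht2)
    have a3 := h1 1 _ W a2
    obtain ⟨v1, v2⟩ := di_upd1 (Function.update z 0 T) W
    have a4 := h2 1 0 _ a3 (di_ch0 (by rw [v2, u1, hT]) (by rw [v1, hW]) hs2)
    have a5 := h1 0 _ 1 a4
    obtain ⟨w1, w2⟩ := di_upd0 (Function.update (Function.update z 0 T) 1 W) 1
    have a6 := h2 0 1 _ a5 (di_ch1 (by rw [w1, o1]) (by rw [w2, v1, hW]) hs1)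
    have a7 := h1 1 _ 1 a6
    obtain ⟨q1, q2⟩ := di_upd1 (Function.update (Function.update (Function.update z 0 T) 1 W) 0 1) 1
    exact ⟨1, _, a7, by rw [q2, w1, o1], by rw [q1, o2]⟩
  have hi : i = 0 ∨ i = 1 := by
    fin_cases i
    · exact Or.inl rfl
    · exact Or.inr rfl
  rcases hi with rfl | rfl
  · exact key z hS
  · by_cases hz0 : ((z 0 : Sf τ 0) : K) = 1
    · obtain ⟨q1, q2⟩ := di_upd1 z 1
      exact ⟨1, _, h1 1 z 1 hS, by rw [q2, hz0], by rw [q1, o2]⟩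
    · have hy : ∃ y : K, y ≠ 0 ∧ nm τ y ≠ ((z 0 : Sf τ 0) : K) * ((z 0 : Sf τ 0) : K) := by
        by_cases hz1 : ((z 0 : Sf τ 0) : K) * ((z 0 : Sf τ 0) : K) = 1
        · refine ⟨-1, neg_ne_zero.2 one_ne_zero, ?_⟩
          rw [hz1]
          intro e
          have e1 : nm τ (-1) = -1 := by
            unfold nm
            simp only [map_neg, map_one]
            ring
          rw [e1] at e
          rcases mul_self_eq_one_iff.1 hz1 with e2 | e2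
          · exact hz0 e2
          · exact hz0 (e2.trans e)
        · refine ⟨1, one_ne_zero, ?_⟩
          intro e
          apply hz1
          rw [← e]
          unfold nm
          simp only [map_one, mul_one]
      obtain ⟨y, hy0, hy1⟩ := hy
      obtain ⟨W, hW⟩ := di_unit (τ := τ) (i := 1) hy0 (di_ok1 y)
      have a1 := h1 1 z W hS
      obtain ⟨v1, v2⟩ := di_upd1 z W
      exact key _ (h2 1 0 _ a1 (di_ch0 (by rw [v2]) (by rw [v1, hW]) hy1))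

/-- `reachY` with `P j z := z_0 = 1 ∧ z_1 = 1`, `comb_one`; `NY`: `hz z = 1` (`hy_one`), `Sy.mono`, `Sy_op` -/
theorem reach_one (h : Stb K x) (hτ : ∀ a, τ (τ (τ a)) = a) (hH : ∀ y : K, y ≠ 0 → ∃ t s : K, t ≠ 0 ∧ τ t = t ∧ y * y ≠ t ∧ s ≠ 0 ∧ s * s ≠ 1 ∧ nm τ s ≠ t * t)
    {g : G} (hg : g ∈ Hh x τ) (hc : ∃ u ∈ Hh x τ, u * g ≠ g * u) : ∃ c ∈ Hh x τ, ∃ v ∈ Sy (op x) τ (fun r => 0 < ht r.1), ∃ u ∈ Sy x τ (fun r => 0 < ht r.1), c * g * c⁻¹ = v * u := by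
  obtain ⟨c, hc1, j, z, ⟨e0, e1⟩, v, hv, u, hu, c', b, e2, -⟩ := reachY h hτ hg hc
    (P := fun _ z => ((z 0 : Sf τ 0) : K) = 1 ∧ ((z 1 : Sf τ 1) : K) = 1)
    (fun S h1 h2 i z hS => comb_one hH h1 h2 i z hS)
  have e3 : hz x τ z = 1 := by
    unfold hz
    rw [e0, e1, hy_one h, hy_one h, one_mul]
  have p1 : 0 < ht (sn j).1 := by
    rw [sn_ht]
    exact one_pos
  refine ⟨c, hc1, v * yt x τ (-sn j) (c' : K), ?_, yt x τ (sn j) (b : K) * u, ?_, ?_⟩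
  · refine mul_mem (Sy.mono (op x) τ (fun r hr => hr.1) hv) ?_
    rw [← yt_op]
    exact Sy.mem (p := fun r => 0 < ht r.1) p1 (Sf_ok j c')
  · exact mul_mem (Sy.mem (p := fun r => 0 < ht r.1) p1 (Sf_ok j b)) (Sy.mono x τ (fun r hr => hr.1) hu)
  · rw [e2, e3, mul_one]
    group
-- END di

-- BEGIN dj
private theorem dj_ne0 {v : K} (hv : τ v ≠ v) : v ≠ 0 := by
  rintro rfl
  exact hv (map_zero τ)

private theorem dj_sq {v : K} (hv : τ v ≠ v) : v * v ≠ 1 := by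
  intro h
  rcases mul_self_eq_one_iff.1 h with h | h
  · exact hv (by rw [h, map_one])
  · exact hv (by rw [h, map_neg, map_one])

private theorem dj_nm {v : K} (hv : v ≠ 0) : nm τ v ≠ 0 :=
  mul_ne_zero (mul_ne_zero hv ((map_ne_zero τ).2 hv)) ((map_ne_zero τ).2 ((map_ne_zero τ).2 hv))

/-- MODULE dj. NUMBERS.  Assume `nm u = m` for all `u` with `τ u ≠ u`; fix such a `u`, `T1 = u + τ u + τ² u`, `T2 = ..`.  For `c ≠ 0` with `τ c = c`: `nm (c u) = c³ m`, so `c³ = 1`; `nm (u + c) = m` gives `T2 + c T1 + c² = 0`.  With `c = 1` and with some `c ≠ 0, 1`: `T1 = -(c + 1)`; the same for `c²` (`≠ 0, 1, c`): `c = c²`: contradiction.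
(The fixed field has more than two elements: there is such a `c`.) -/
theorem exists_norm (hτ : ∀ a, τ (τ (τ a)) = a) {v : K} (hv : τ v ≠ v) {c : K} (hc : c ≠ 0 ∧ c ≠ 1 ∧ τ c = c) (m : K) : ∃ u : K, τ u ≠ u ∧ nm τ u ≠ m := by
  by_contra hcon
  push Not at hcon
  obtain ⟨c0, c1, hcc⟩ := hc
  have key : ∀ d : K, d ≠ 0 → τ d = d → (v * τ v + v * τ (τ v) + τ v * τ (τ v)) + (v + τ v + τ (τ v)) * d + d * d = 0 := by
    intro d hd0 hd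
    have h1 : nm τ (v + d) = m := hcon _ (by
      rw [map_add, hd]
      exact fun h => hv (add_right_cancel h))
    have h2 : nm τ v = m := hcon _ hv
    have h3 : d * ((v * τ v + v * τ (τ v) + τ v * τ (τ v)) + (v + τ v + τ (τ v)) * d + d * d) = 0 := by
      unfold nm at h1 h2
      rw [map_add, hd, map_add, hd] at h1
      linear_combination h1 - h2
    exact (mul_eq_zero.1 h3).resolve_left hd0
  have hc3 : c * c * c = 1 := by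
    have h1 : nm τ (c * v) = m := hcon _ (by
      rw [map_mul, hcc]
      exact fun h => hv (mul_left_cancel₀ c0 h))
    have h2 : nm τ v = m := hcon _ hv
    have hm : nm τ v ≠ 0 := dj_nm (dj_ne0 hv)
    have h3 : (c * c * c - 1) * nm τ v = 0 := by
      unfold nm at h1 h2 ⊢
      rw [map_mul, hcc, map_mul, hcc] at h1
      linear_combination h1 - h2
    exact sub_eq_zero.1 ((mul_eq_zero.1 h3).resolve_right hm)
  have hcsq : c * c ≠ 1 := by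
    intro h
    rw [h, one_mul] at hc3
    exact c1 hc3
  have e1 := key 1 one_ne_zero (map_one τ)
  have e2 := key c c0 hcc
  have e3 := key (c * c) (mul_ne_zero c0 c0) (by rw [map_mul, hcc])
  have f1 : (v + τ v + τ (τ v)) = -(c + 1) := by
    have h : (c - 1) * ((v + τ v + τ (τ v)) + (c + 1)) = 0 := by linear_combination e2 - e1
    have h' := (mul_eq_zero.1 h).resolve_left (sub_ne_zero.2 c1)
    linear_combination h'
  have f2 : (v + τ v + τ (τ v)) = -(c * c + 1) := by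
    have h : (c * c - 1) * ((v + τ v + τ (τ v)) + (c * c + 1)) = 0 := by linear_combination e3 - e1
    have h' := (mul_eq_zero.1 h).resolve_left (sub_ne_zero.2 hcsq)
    linear_combination h'
  have f3 : c * (c - 1) = 0 := by linear_combination f2 - f1
  rcases mul_eq_zero.1 f3 with h | h
  · exact c0 h
  · exact c1 (sub_eq_zero.1 h)

/-- `u` of `exists_norm` (`m = 1`): `u * u = 1` gives `u = ± 1`, `nm u = u u` gives `u u` fixed, `τ u = ± u`, `τ u = -u` gives `u = τ³ u = -u`, `2 = 0` -/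
theorem exists_u (hτ : ∀ a, τ (τ (τ a)) = a) {v : K} (hv : τ v ≠ v) {c : K} (hc : c ≠ 0 ∧ c ≠ 1 ∧ τ c = c) : ∃ u : K, u ≠ 0 ∧ nm τ u ≠ 1 ∧ u * u ≠ 1 ∧ nm τ u ≠ u * u := by
  obtain ⟨u, hu, hn⟩ := exists_norm hτ hv hc 1
  refine ⟨u, dj_ne0 hu, hn, dj_sq hu, fun h => ?_⟩
  have h1 : τ (nm τ u) = nm τ u := by
    unfold nm
    rw [map_mul, map_mul, hτ]
    ring
  rw [h, map_mul] at h1
  rcases mul_self_eq_mul_self_iff.1 h1 with h2 | h2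
  · exact hu h2
  · have h3 := hτ u
    rw [h2, map_neg, h2, neg_neg, h2] at h3
    exact hu (by rw [h2, h3])

/-- `t = 1` or `t = c`, `s` from `exists_norm` for `m = t t` -/
theorem exists_ts (hτ : ∀ a, τ (τ (τ a)) = a) {v : K} (hv : τ v ≠ v) {c : K} (hc : c ≠ 0 ∧ c ≠ 1 ∧ τ c = c) (y : K) (hy : y ≠ 0) :
    ∃ t s : K, t ≠ 0 ∧ τ t = t ∧ y * y ≠ t ∧ s ≠ 0 ∧ s * s ≠ 1 ∧ nm τ s ≠ t * t := by
  obtain ⟨t, ht0, ht, hyt⟩ : ∃ t : K, t ≠ 0 ∧ τ t = t ∧ y * y ≠ t := by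
    by_cases h : y * y = 1
    · exact ⟨c, hc.1, hc.2.2, fun h' => hc.2.1 (by rw [← h', h])⟩
    · exact ⟨1, one_ne_zero, map_one τ, h⟩
  obtain ⟨s, hs, hn⟩ := exists_norm hτ hv hc (t * t)
  exact ⟨t, s, ht0, ht, hyt, dj_ne0 hs, dj_sq hs, hn⟩

/-- `τ = 1`, at least four elements: `s` with `s ≠ 0`, `s s ≠ 1` (exists: `X² - 1` has at most two zeros, in characteristic 2 only one); `t` is not `0`, `y y` and no root of `X² - s³` (at most two, in characteristic 2 at most one). -/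
theorem exists_ts' [Finite K] (ht : ∀ a, τ a = a) (hK : 4 ≤ Nat.card K) (y : K) (hy : y ≠ 0) : ∃ t s : K, t ≠ 0 ∧ τ t = t ∧ y * y ≠ t ∧ s ≠ 0 ∧ s * s ≠ 1 ∧ nm τ s ≠ t * t := by
  classical
  have := Fintype.ofFinite K
  rw [Nat.card_eq_fintype_card] at hK
  obtain ⟨s, -, hs⟩ : ∃ s ∈ (Finset.univ : Finset K), s ∉ ({0, 1, -1} : Finset K) := by
    refine Finset.exists_mem_notMem_of_card_lt_card (lt_of_le_of_lt Finset.card_le_three ?_)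
    rw [Finset.card_univ]
    omega
  simp only [Finset.mem_insert, Finset.mem_singleton, not_or] at hs
  have hs1 : s * s ≠ 1 := by
    intro h
    rcases mul_self_eq_one_iff.1 h with h | h
    · exact hs.2.1 h
    · exact hs.2.2 h
  have hnm : nm τ s = s * s * s := by
    unfold nm
    rw [ht, ht]
  suffices h : ∃ t : K, t ≠ 0 ∧ y * y ≠ t ∧ s * s * s ≠ t * t by
    obtain ⟨t, h0, h1, h2⟩ := h
    exact ⟨t, s, h0, ht t, h1, hs.1, hs1, by rw [hnm]; exact h2⟩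
  by_cases hr : ∃ r : K, r * r = s * s * s
  · obtain ⟨r, hr⟩ := hr
    have hE : ({0, y * y, r, -r} : Finset K).card < Fintype.card K := by
      by_contra hlt
      have h4 : ({0, y * y, r, -r} : Finset K).card ≤ 4 := Finset.card_le_four
      have hK4 : Fintype.card K = 4 := by omega
      have h5 : (4 : K) = 0 := by
        have := FiniteField.cast_card_eq_zero K
        rw [hK4] at this
        exact_mod_cast this
      have h6 : (2 : K) = 0 := by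
        have h7 : (2 : K) * 2 = 0 := by rw [← h5]; norm_num
        exact mul_self_eq_zero.1 h7
      have h8 : -r = r := by linear_combination (-r) * h6
      rw [h8, Finset.pair_eq_singleton] at hlt
      have h9 : ({0, y * y, r} : Finset K).card ≤ 3 := Finset.card_le_three
      omega
    rw [← Finset.card_univ] at hE
    obtain ⟨t, -, htE⟩ := Finset.exists_mem_notMem_of_card_lt_card hE
    simp only [Finset.mem_insert, Finset.mem_singleton, not_or] at htE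
    refine ⟨t, htE.1, fun h => htE.2.1 h.symm, fun h => ?_⟩
    rw [← hr] at h
    rcases mul_self_eq_mul_self_iff.1 h with h | h
    · exact htE.2.2.1 h.symm
    · exact htE.2.2.2 (by rw [h, neg_neg])
  · push Not at hr
    have hE : ({0, y * y} : Finset K).card < Fintype.card K :=
      lt_of_le_of_lt Finset.card_le_two (by omega)
    rw [← Finset.card_univ] at hE
    obtain ⟨t, -, htE⟩ := Finset.exists_mem_notMem_of_card_lt_card hE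
    simp only [Finset.mem_insert, Finset.mem_singleton, not_or] at htE
    exact ⟨t, htE.1, fun h => htE.2 h.symm, fun h => hr t h.symm⟩
-- END dj

-- BEGIN dk
private theorem dk_main (h : Stb K x) (hτ : ∀ a, τ (τ (τ a)) = a) (j : Fin 2) {z : ∀ i : Fin 2, (Sf τ i)ˣ} (h1 : chY τ (sn j).1 z = 1) (h2 : ∀ r : Root, 0 < lw j r.1 → chY τ r.1 z ≠ 1)
    (hs : ∀ c : K, c ≠ 0 → Ok τ (sn j) c → ∃ t : ∀ i : Fin 2, (Sf τ i)ˣ, chY τ (sn j).1 t = c) (hm1 : mm x j * hz x τ z * (mm x j)⁻¹ = (hz x τ z)⁻¹)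
    (h4 : ∃ t : K, t ≠ 0 ∧ t ≠ 1 ∧ τ t = t) (hH : ∀ y : K, y ≠ 0 → ∃ t s : K, t ≠ 0 ∧ τ t = t ∧ y * y ≠ t ∧ s ≠ 0 ∧ s * s ≠ 1 ∧ nm τ s ≠ t * t)
    (hw : hz x τ z * yt x τ (sn j) 1 ∈ Hh x τ) : Good x τ := by
  have hm := mm_mem h τ j
  have hm2 : mm x j * yt x τ (sn j) 1 * (mm x j)⁻¹ = yt x τ (sn j) 1 := (mm_yt h hτ j (a := 1) (fun _ => map_one τ)).1
  refine ⟨hz x τ z * yt x τ (sn j) 1, hw, ?_, realI h hτ j h1 hs hm hm1 hm2⟩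
  intro g hg hc
  obtain ⟨c, hc1, v, hv, u, hu, e⟩ := reach_one h hτ hH hg hc
  obtain ⟨a, ha, b, hb, e2⟩ := typeI h hτ j h1 h2 hs hm hm1 hm2 h4 hv hu
  refine ⟨c⁻¹ * a, mul_mem (inv_mem hc1) ha, c⁻¹ * b, mul_mem (inv_mem hc1) hb, ?_⟩
  rw [e2] at e
  have e3 : g = c⁻¹ * (a * (hz x τ z * yt x τ (sn j) 1) * a⁻¹ * (b * (hz x τ z * yt x τ (sn j) 1) * b⁻¹)) * c := by
    rw [← e]
    group
  rw [e3]
  group

/-- MODULE dk. `³D_4(q)`, `q ≥ 3`: `exists_u`, `exists_z`, `ch_all0`, `exists_sc`, `mm x 0` (`mm_mem`, `mm_yt`, `mm0_hk`), `typeI`, `realI` for `j = 0`, `reach_one`; `w = hz z * y_(sn 0)(1)`. -/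
theorem good_tri (h : Stb K x) (hτ : ∀ a, τ (τ (τ a)) = a) {v : K} (hv : τ v ≠ v) {c : K} (hc : c ≠ 0 ∧ c ≠ 1 ∧ τ c = c) : Good x τ := by
  obtain ⟨u, hu, hn1, hu1, hn2⟩ := exists_u hτ hv hc
  have hτu : τ u ≠ 0 := (map_ne_zero τ).2 hu
  have hττu : τ (τ u) ≠ 0 := (map_ne_zero τ).2 hτu
  obtain ⟨z, e0, e1⟩ := exists_z (nm_ne τ hu) (mul_ne_zero hτu hττu) (nm_fix hτ u)
  obtain ⟨k1, k2⟩ := ch_all0 hτ hu hn1 hu1 hn2 e0 e1
  have hz_eq : hz x τ z = hk x τ (nm τ u) (τ u * τ (τ u)) := by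
    show hk x τ ((z 0 : Sf τ 0) : K) ((z 1 : Sf τ 1) : K) = _
    rw [e0, e1]
  refine dk_main h hτ 0 k1 k2 (fun c hc0 ok => exists_sc 0 hc0 (ok ((sn_fix 0).2 (by decide)))) ?_ ⟨c, hc⟩ (exists_ts hτ hv hc) ?_
  · rw [hz_eq]
    exact mm0_hk h hτ hu
  · exact mul_mem (hz_mem h z) (yt_mem x τ (fun _ => map_one τ))

/-- `G_2(q)`, `q ≥ 4`: `u` with `u ≠ 0`, `u u ≠ 1`, `ch_all1`, `mm x 1`, `j = 1` -/
theorem good_two [Finite K] (h : Stb K x) (ht : ∀ a, τ a = a) (hK : 4 ≤ Nat.card K) : Good x τ := by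
  obtain ⟨_, u, _, _, _, hu, hu1, _⟩ := exists_ts' ht hK 1 one_ne_zero
  have hτ : ∀ a, τ (τ (τ a)) = a := fun a => by rw [ht, ht, ht]
  obtain ⟨z, e0, e1⟩ := exists_z (τ := τ) (mul_ne_zero hu hu) hu (ht _)
  obtain ⟨k1, k2⟩ := ch_all1 ht hu hu1 e0 e1
  have hz_eq : hz x τ z = hk x τ (u * u) u := by
    show hk x τ ((z 0 : Sf τ 0) : K) ((z 1 : Sf τ 1) : K) = _
    rw [e0, e1]
  refine dk_main h hτ 1 k1 k2 (fun c hc0 _ => exists_sc 1 hc0 (ht c)) ?_ ⟨u, hu, fun e => hu1 (by rw [e, one_mul]), ht u⟩ (exists_ts' ht hK) ?_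
  · rw [hz_eq]
    exact mm1_hk h ht hu
  · exact mul_mem (hz_mem h z) (yt_mem x τ (fun _ => map_one τ))
-- END dk

end ThT
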