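import Pool.Agent.ThT.Grt

/-! # The twisted group as an instance of the abstract systems of `Pool.Agent.ThK.Gau` (port of `Pool.Agent.ThF.Gin`) -/

namespace ThT

variable {K : Type*} [Field K] {G : Type*} [Group G] {x : Root → K → G} {τ : K →+* K}

/-- the twisted group -/
def Hh (x : Root → K → G) (τ : K →+* K) : Subgroup G := Sy x τ fun _ => True

-- BEGIN ja
/-- MODULE ja. Port of row `ja` of `Pool.Agent.ThF.Gin`. -/
theorem yt_mem (x : Root → K → G) (τ : K →+* K) {r : Root} {a : K} (ha : Ok τ r a) : yt x τ r a ∈ Hh x τ :=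
  Sy.mem (p := fun _ => True) trivial ha

private theorem ja_im {r : Root} {S : Subfield K} {t : ThG.SL2 S →* G} (ht : IsY x τ r S t) (hS : ∀ a : S, Ok τ r (a : K)) (M : ThG.SL2 S) : t M ∈ Hh x τ := by
  have hM : M ∈ Subgroup.closure {g : ThG.SL2 S | ∃ a, g = ThG.up a ∨ g = ThG.lo a} := by
    rw [ThG.sl2_gen]
    exact Subgroup.mem_top M
  induction hM using Subgroup.closure_induction with
  | mem g hg =>
    obtain ⟨a, rfl | rfl⟩ := hg
    · rw [ht.up]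
      exact yt_mem x τ (hS a)
    · rw [ht.lo]
      refine yt_mem x τ fun h => ?_
      rw [sr_neg] at h
      have h2 : -(sr r).1 = -r.1 := congrArg Subtype.val h
      rw [map_neg, hS a (Subtype.ext (neg_injective h2))]
  | one =>
    rw [map_one]
    exact Subgroup.one_mem _
  | mul a b _ _ iha ihb =>
    rw [map_mul]
    exact Subgroup.mul_mem _ iha ihb
  | inv a _ iha =>
    rw [map_inv]
    exact Subgroup.inv_mem _ iha

theorem hy_mem (h : Stb K x) (r : Root) {c : K} (hc : c ≠ 0) (ho : Ok τ r c) : hy x τ r c ∈ Hh x τ := by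
  by_cases hr : sr r = r
  · obtain ⟨t, ht⟩ := exists_isY (τ := τ) h r (Fx τ) fun _ a ha => mem_Fx.1 ha
    have hc' : (⟨c, mem_Fx.2 (ho hr)⟩ : Fx τ) ≠ 0 := fun e => hc (congrArg Subtype.val e)
    have := ja_im ht (fun a _ => mem_Fx.1 a.2) (ThG.dg (Units.mk0 _ hc'))
    rw [ht.dg] at this
    exact this
  · obtain ⟨t, ht⟩ := exists_isY (τ := τ) h r ⊤ fun e => absurd e hr
    have hc' : (⟨c, Subfield.mem_top c⟩ : (⊤ : Subfield K)) ≠ 0 := fun e => hc (congrArg Subtype.val e)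
    have := ja_im ht (fun a => Ok.of_ne hr _) (ThG.dg (Units.mk0 _ hc'))
    rw [ht.dg] at this
    exact this

theorem hz_mem (h : Stb K x) (z : ∀ i : Fin 2, (Sf τ i)ˣ) : hz x τ z ∈ Hh x τ := by
  have key : ∀ i : Fin 2, hy x τ (sn i) ((z i : Sf τ i) : K) ∈ Hh x τ := fun i =>
    hy_mem h (sn i) (fun e => (z i).ne_zero (Subtype.ext e)) (Sf_ok i _)
  exact Subgroup.mul_mem _ (key 0) (key 1)

theorem ny_mem (h : Stb K x) (τ : K →+* K) (i : Fin 2) : ny x (sn i) ∈ Hh x τ := by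
  have h1 : ∀ r : Root, yt x τ r 1 ∈ Hh x τ := fun r => yt_mem x τ fun _ => map_one τ
  rw [ny_eq (τ := τ) h i]
  exact Subgroup.mul_mem _ (Subgroup.mul_mem _ (h1 _) (h1 _)) (h1 _)

theorem Sy_le_Hh (x : Root → K → G) (τ : K →+* K) (p : Root → Prop) : Sy x τ p ≤ Hh x τ :=
  Sy.mono x τ fun _ _ => trivial

theorem Sy_op_le_Hh (x : Root → K → G) (τ : K →+* K) (p : Root → Prop) : Sy (op x) τ p ≤ Hh x τ := by
  rw [Sy_op]
  exact Sy_le_Hh x τ _

theorem exists_thH (h : Stb K x) : ∃ th : ∀ i : Fin 2, ThG.SL2 (Sf τ i) →* Hh x τ, ∀ i, IsY x τ (sn i) (Sf τ i) ((Hh x τ).subtype.comp (th i)) := by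
  have key : ∀ i : Fin 2, ∃ t : ThG.SL2 (Sf τ i) →* G, IsY x τ (sn i) (Sf τ i) t := fun i =>
    exists_isY h (sn i) (Sf τ i) fun e a ha => Sf_fix ((sn_fix i).1 e) ⟨a, ha⟩
  choose t ht using key
  exact ⟨fun i => (t i).codRestrict (Hh x τ) fun M => ja_im (ht i) (Sf_ok i) M, fun i => ⟨(ht i).up, (ht i).lo, (ht i).dg⟩⟩
-- END ja

/-- the torus element in `Hh` -/
def hzH (h : Stb K x) (τ : K →+* K) (z : ∀ i : Fin 2, (Sf τ i)ˣ) : Hh x τ := ⟨hz x τ z, hz_mem h z⟩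

-- BEGIN jb
private theorem jb_cy_ok (hτ : ∀ a, τ (τ (τ a)) = a) {r s : Root} {c b : K} (hc : Ok τ r c) (hb : Ok τ s b) : Ok τ s (cy τ r s.1 c * b) := by
  intro hs
  rw [map_mul, hb hs]
  congr 1
  unfold cy
  split_ifs with h1
  · rw [map_zpow₀, hc h1]
  · have e1 : bf (sr r).1 s.1 = bf r.1 s.1 := by rw [bf_sr_left, hs, hs]
    have e2 : bf (sr (sr r)).1 s.1 = bf r.1 s.1 := by rw [bf_sr_left, hs, hs, e1]
    rw [e1, e2, map_mul, map_mul, map_zpow₀, map_zpow₀, map_zpow₀, hτ]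
    ring

private theorem jb_ok (hτ : ∀ a, τ (τ (τ a)) = a) (z : ∀ i : Fin 2, (Sf τ i)ˣ) {s : Root} {b : K} (hb : Ok τ s b) : Ok τ s (chY τ s.1 z * b) := by
  unfold chY
  rw [mul_assoc]
  exact jb_cy_ok hτ (Sf_ok 0 _) (jb_cy_ok hτ (Sf_ok 1 _) hb)

private theorem jb_hz (h : Stb K x) (hτ : ∀ a, τ (τ (τ a)) = a) (z : ∀ i : Fin 2, (Sf τ i)ˣ) (p : Root → Prop) {u : G} (hu : u ∈ Sy x τ p) : hz x τ z * u * (hz x τ z)⁻¹ ∈ Sy x τ p := by
  unfold Sy at hu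
  induction hu using Subgroup.closure_induction with
  | mem g hg =>
    obtain ⟨r, a, h1, h2, rfl⟩ := hg
    rw [hzY_conj h hτ]
    exact Sy.mem h1 (jb_ok hτ z h2)
  | one =>
    rw [mul_one, mul_inv_cancel]
    exact Subgroup.one_mem _
  | mul a b _ _ ha hb =>
    have h1 : hz x τ z * (a * b) * (hz x τ z)⁻¹ = (hz x τ z * a * (hz x τ z)⁻¹) * (hz x τ z * b * (hz x τ z)⁻¹) := by group
    rw [h1]
    exact Subgroup.mul_mem _ ha hb
  | inv a _ ha =>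
    have h1 : hz x τ z * a⁻¹ * (hz x τ z)⁻¹ = (hz x τ z * a * (hz x τ z)⁻¹)⁻¹ := by group
    rw [h1]
    exact Subgroup.inv_mem _ ha

private theorem jb_cy (r : Root) (c : K) : cy τ r r.1 c = c * c := by
  unfold cy
  split_ifs with h1
  · rw [bf_root, zpow_ofNat, pow_two]
  · obtain ⟨e1, e2, -⟩ := bf_sr_sr h1
    rw [bf_comm (sr r).1, bf_comm (sr (sr r)).1, e1, e2, bf_root, zpow_zero, zpow_zero, mul_one, mul_one, zpow_ofNat, pow_two]

private theorem jb_cy_mul (r : Root) (s : Vec) (a b : K) : cy τ r s (a * b) = cy τ r s a * cy τ r s b := by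
  unfold cy
  split_ifs with h1
  · rw [mul_zpow]
  · rw [map_mul, map_mul, mul_zpow, mul_zpow, mul_zpow]
    ring

private theorem jb_upd0 (s : Vec) (t : (Sf τ 0)ˣ) (z : ∀ i : Fin 2, (Sf τ i)ˣ) : chY τ s (Function.update z 0 (t * z 0)) = cy τ (sn 0) s ((t : Sf τ 0) : K) * chY τ s z := by
  unfold chY
  show cy τ (sn 0) s (((t * z 0 : (Sf τ 0)ˣ) : Sf τ 0) : K) * cy τ (sn 1) s ((z 1 : Sf τ 1) : K) = _
  rw [Units.val_mul, Subfield.coe_mul, jb_cy_mul]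
  ring

private theorem jb_upd1 (s : Vec) (t : (Sf τ 1)ˣ) (z : ∀ i : Fin 2, (Sf τ i)ˣ) : chY τ s (Function.update z 1 (t * z 1)) = cy τ (sn 1) s ((t : Sf τ 1) : K) * chY τ s z := by
  unfold chY
  show cy τ (sn 0) s ((z 0 : Sf τ 0) : K) * cy τ (sn 1) s (((t * z 1 : (Sf τ 1)ˣ) : Sf τ 1) : K) = _
  rw [Units.val_mul, Subfield.coe_mul, jb_cy_mul]
  ring

private theorem jb_upd (i : Fin 2) (s : Vec) (t : (Sf τ i)ˣ) (z : ∀ i : Fin 2, (Sf τ i)ˣ) : chY τ s (Function.update z i (t * z i)) = cy τ (sn i) s ((t : Sf τ i) : K) * chY τ s z :=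
  match i, t with
  | 0, t => jb_upd0 s t z
  | 1, t => jb_upd1 s t z

/-- MODULE jb. The axioms of `ThG.Dat` for the twisted group: port of row `jb` of `Pool.Agent.ThF.Gin`. -/
theorem datY (h : Stb K x) (hτ : ∀ a, τ (τ (τ a)) = a) {th : ∀ i : Fin 2, ThG.SL2 (Sf τ i) →* Hh x τ} (hth : ∀ i, IsY x τ (sn i) (Sf τ i) ((Hh x τ).subtype.comp (th i)))
    {χ : ∀ j : Fin 2, (∀ i : Fin 2, (Sf τ i)ˣ) → (Sf τ j)ˣ} (hχ : ∀ j z, ((χ j z : Sf τ j) : K) = chY τ (sn j).1 z) :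
    ThG.Dat (ι := Fin 2) (F := fun i => Sf τ i) th (hzH h τ) χ ((Sy x τ fun r => 0 < ht r.1).subgroupOf (Hh x τ)) ((Sy (op x) τ fun r => 0 < ht r.1).subgroupOf (Hh x τ))
      (fun i => (Sy x τ (Pi' i)).subgroupOf (Hh x τ)) (fun i => (Sy (op x) τ (Pi' i)).subgroupOf (Hh x τ)) := by
  have eup : ∀ i (a : Sf τ i), ((th i (ThG.up a) : Hh x τ) : G) = yt x τ (sn i) (a : K) := fun i a => (hth i).up a
  have elo : ∀ i (a : Sf τ i), ((th i (ThG.lo a) : Hh x τ) : G) = yt x τ (-sn i) (-(a : K)) := fun i a => (hth i).lo a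
  have edg : ∀ i (c : (Sf τ i)ˣ), ((th i (ThG.dg c) : Hh x τ) : G) = hy x τ (sn i) ((c : Sf τ i) : K) := fun i c => (hth i).dg c
  have eup' : ∀ i (a : K), yt x τ (sn i) a = yt (op x) τ (-sn i) a := fun i a => by
    rw [yt_op]
    exact congrArg (fun r => yt x τ r a) (neg_neg' (sn i)).symm
  have elo' : ∀ i (a : K), yt x τ (-sn i) a = yt (op x) τ (sn i) a := fun i a => by rw [yt_op]
  have hpos : ∀ i, 0 < ht (sn i).1 := fun i => by rw [sn_ht]; exact one_pos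
  refine
    { gen := ?_
      Uup := fun i a u hu => ?_
      Ulo := fun i a u hu => ?_
      Vup := fun i a v hv => ?_
      Vlo := fun i a v hv => ?_
      Uh := fun i z u hu => ?_
      Vh := fun i z v hv => ?_
      UiU := fun i => ?_
      ViV := fun i => ?_
      upU := fun i a => ?_
      loV := fun i a => ?_
      sU := fun i u hu => ?_
      sV := fun i v hv => ?_
      mul := fun z w => Subtype.ext (hzY_mul h z w)
      aup := fun i z a => Subtype.ext ?_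
      alo := fun i z a => Subtype.ext ?_
      upd := fun i z t => Subtype.ext ?_
      cup := fun i z t => ?_ }
  · apply Subgroup.map_injective (Hh x τ).subtype_injective
    rw [← MonoidHom.range_eq_map, Subgroup.range_subtype, MonoidHom.map_closure]
    refine Eq.trans ?_ (gen_Sy h hτ).symm
    refine congrArg Subgroup.closure (Set.ext fun g => ⟨?_, ?_⟩)
    · rintro ⟨_, ⟨i, a, rfl | rfl⟩, rfl⟩
      · exact ⟨i, a, Sf_ok i a, Or.inl (eup i a)⟩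
      · exact ⟨i, -a, Ok.neg (Sf_ok i a), Or.inr (elo i a)⟩
    · rintro ⟨i, a, ha, rfl | rfl⟩
      · obtain ⟨b, rfl⟩ := Sf_of ha
        exact ⟨_, ⟨i, b, Or.inl rfl⟩, eup i b⟩
      · obtain ⟨b, rfl⟩ := Sf_of ha
        refine ⟨_, ⟨i, -b, Or.inr rfl⟩, ?_⟩
        refine (elo i (-b)).trans ?_
        rw [Subfield.coe_neg, neg_neg]
  · rw [Subgroup.mem_subgroupOf] at hu ⊢
    have h1 := Pi_up h hτ i (Sf_ok i a) hu
    rw [← eup] at h1
    exact h1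
  · rw [Subgroup.mem_subgroupOf] at hu ⊢
    have h1 := Pi_lo h hτ i (Ok.neg (Sf_ok i a)) hu
    rw [← elo] at h1
    exact h1
  · rw [Subgroup.mem_subgroupOf] at hv ⊢
    have h1 := Pi_lo h.op hτ i (Sf_ok i a) hv
    rw [← eup', ← eup] at h1
    exact h1
  · rw [Subgroup.mem_subgroupOf] at hv ⊢
    have h1 := Pi_up h.op hτ i (Ok.neg (Sf_ok i a)) hv
    rw [← elo', ← elo] at h1
    exact h1
  · rw [Subgroup.mem_subgroupOf] at hu ⊢
    exact jb_hz h hτ z _ hu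
  · rw [Subgroup.mem_subgroupOf, Sy_op] at hv ⊢
    exact jb_hz h hτ z _ hv
  · exact fun g hg => Sy.mono x τ (fun r hr => hr.1) hg
  · exact fun g hg => Sy.mono (op x) τ (fun r hr => hr.1) hg
  · rw [Subgroup.mem_subgroupOf, eup]
    exact Sy.mem (hpos i) (Sf_ok i a)
  · rw [Subgroup.mem_subgroupOf, elo, elo']
    exact Sy.mem (hpos i) (Ok.neg (Sf_ok i a))
  · rw [Subgroup.mem_subgroupOf] at hu
    obtain ⟨a, ha, u', hu', h1⟩ := Pi_split h hτ i hu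
    obtain ⟨b, rfl⟩ := Sf_of ha
    refine ⟨b, ⟨u', Sy_le_Hh x τ _ hu'⟩, hu', Subtype.ext ?_⟩
    show (u : G) = (th i (ThG.up b) : G) * u'
    rw [eup, h1]
  · rw [Subgroup.mem_subgroupOf] at hv
    obtain ⟨a, ha, u', hu', h1⟩ := Pi_split h.op hτ i hv
    obtain ⟨b, rfl⟩ := Sf_of ha
    refine ⟨-b, ⟨u', Sy_op_le_Hh x τ _ hu'⟩, hu', Subtype.ext ?_⟩
    show (v : G) = (th i (ThG.lo (-b)) : G) * u'
    rw [elo, h1, Subfield.coe_neg, neg_neg, elo']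
  · show hz x τ z * (th i (ThG.up a) : G) * (hz x τ z)⁻¹ = (th i (ThG.up ((χ i z : Sf τ i) * a)) : G)
    rw [eup, eup, hzY_conj h hτ, Subfield.coe_mul, hχ]
  · show hz x τ z * (th i (ThG.lo a) : G) * (hz x τ z)⁻¹ = (th i (ThG.lo ((((χ i z)⁻¹ : (Sf τ i)ˣ) : Sf τ i) * a)) : G)
    have h1 : ((((χ i z)⁻¹ : (Sf τ i)ˣ) : Sf τ i) : K) = (chY τ (sn i).1 z)⁻¹ := by
      rw [← hχ, Units.val_inv_eq_inv_val, Subfield.coe_inv]
    rw [elo, elo, hzY_conj h hτ, Subfield.coe_mul, h1]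
    have h2 : chY τ (-sn i : Root).1 z = (chY τ (sn i).1 z)⁻¹ := chY_neg (sn i).1 z
    rw [h2, mul_neg]
  · show (th i (ThG.dg t) : G) * hz x τ z = hz x τ (Function.update z i (t * z i))
    rw [edg, hzY_upd h]
  · apply Units.ext
    apply Subtype.ext
    rw [hχ, jb_upd, Units.val_mul, Units.val_mul, Subfield.coe_mul, Subfield.coe_mul, hχ, jb_cy]
-- END jb

/-- the root elements `≠ 1` -/
def XY (x y : Root → K → G) (τ : K →+* K) (r : Root) : Set (Hh x τ) := {g | ∃ b : K, b ≠ 0 ∧ Ok τ r b ∧ (g : G) = yt y τ r b}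

-- BEGIN jc
private theorem jc_ok_neg {r : Root} {a : K} (ha : Ok τ r a) : Ok τ (-r) a := by
  intro hr
  refine ha ?_
  rw [sr_neg] at hr
  have h1 := congrArg Subtype.val hr
  rw [neg_val, neg_val] at h1
  exact Subtype.ext (neg_injective h1)

private theorem jc_op_mem (x : Root → K → G) (τ : K →+* K) (r : Root) (a : K) (ha : Ok τ r a) : yt (op x) τ r a ∈ Hh x τ := by
  rw [yt_op]
  exact yt_mem x τ (jc_ok_neg ha)

private theorem jc_map_ne {b : K} (hτ : ∀ a, τ (τ (τ a)) = a) (hb : b ≠ 0) : τ b ≠ 0 ∧ τ (τ b) ≠ 0 := by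
  constructor
  · intro h
    refine hb ?_
    rw [← hτ b, h, map_zero, map_zero]
  · intro h
    refine hb ?_
    rw [← hτ b, h, map_zero]

private theorem jc_move {y : Root → K → G} (hy : Stb K y) (hτ : ∀ a, τ (τ (τ a)) = a) {t s : Root} (hts : t = s ∨ t = sr s ∨ t = sr (sr s)) {b : K} (hb : b ≠ 0)
    (ho : Ok τ t b) : ∃ c : K, c ≠ 0 ∧ Ok τ s c ∧ yt y τ t b = yt y τ s c := by
  by_cases hs : sr s = s
  · have h1 : t = s := by
      rcases hts with h | h | h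
      · exact h
      · rw [h, hs]
      · rw [h, hs, hs]
    subst h1
    exact ⟨b, hb, ho, rfl⟩
  · rcases hts with h | h | h
    · subst h
      exact ⟨b, hb, ho, rfl⟩
    · refine ⟨τ (τ b), (jc_map_ne hτ hb).2, Ok.of_ne hs _, ?_⟩
      rw [← yt_sr hy hτ hs, hτ, h]
    · refine ⟨τ b, (jc_map_ne hτ hb).1, Ok.of_ne hs _, ?_⟩
      rw [← yt_sr hy hτ hs, ← yt_sr hy hτ (sr_ne hs), hτ, h]

private theorem jc_rr_or (s : Root) : s = rr s ∨ s = sr (rr s) ∨ s = sr (sr (rr s)) := by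
  rcases rr_or s with h1 | h1 | h1
  · exact Or.inl h1.symm
  · right
    right
    rw [h1, sr_sr_sr]
  · right
    left
    rw [h1, sr_sr_sr]

private theorem jc_nf {y : Root → K → G} (hy : Stb K y) (hτ : ∀ a, τ (τ (τ a)) = a) (hm : ∀ r a, Ok τ r a → yt y τ r a ∈ Hh x τ) {u : Hh x τ}
    (hu : (u : G) ∈ Sy y τ fun r => 0 < ht r.1) :
    ∃ L : List (Root × Hh x τ), (L.map Prod.fst).Nodup ∧ (∀ p ∈ L, (0 < ht p.1.1 ∧ rp p.1.1) ∧ p.2 ∈ XY x y τ p.1) ∧ u = (L.map Prod.snd).prod := by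
  classical
  obtain ⟨L, h1, h2, h3⟩ := Up_listY hy hτ hu
  let f : Root × K → Hh x τ := fun p => if hp : yt y τ p.1 p.2 ∈ Hh x τ then ⟨yt y τ p.1 p.2, hp⟩ else 1
  have hf : ∀ p ∈ L, (f p : G) = yt y τ p.1 p.2 := by
    intro p hp
    have h4 : yt y τ p.1 p.2 ∈ Hh x τ := hm _ _ (h2 p hp).2.2
    show ((if hp : yt y τ p.1 p.2 ∈ Hh x τ then (⟨yt y τ p.1 p.2, hp⟩ : Hh x τ) else 1 : Hh x τ) : G) = _
    rw [dif_pos h4]
  refine ⟨L.map fun p => (p.1, f p), ?_, ?_, ?_⟩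
  · rw [List.map_map]
    exact h1
  · intro q hq
    obtain ⟨p, hp, rfl⟩ := List.mem_map.1 hq
    exact ⟨(h2 p hp).1, p.2, (h2 p hp).2.1, (h2 p hp).2.2, hf p hp⟩
  · refine Subtype.ext ?_
    have h5 : (((L.map fun p => (p.1, f p)).map Prod.snd).prod : G) = (Hh x τ).subtype ((L.map fun p => (p.1, f p)).map Prod.snd).prod := rfl
    rw [h5, map_list_prod, List.map_map, List.map_map, h3]
    congr 1
    exact List.map_congr_left fun p hp => (hf p hp).symm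

private theorem jc_ne {i : Fin 2} {r : Root} (hr : rp r.1) (h : r ≠ rr (sn i)) : r ≠ sn i ∧ r ≠ sr (sn i) ∧ r ≠ sr (sr (sn i)) := by
  have key : ¬(r = sn i ∨ r = sr (sn i) ∨ r = sr (sr (sn i))) := by
    intro h1
    have h2 := (rr_iff r (sn i)).2 h1
    have h3 : rr r = r := rr_eq (rr_rp r) hr (rr_or r)
    exact h (h3.symm.trans h2)
  exact ⟨fun h1 => key (Or.inl h1), fun h1 => key (Or.inr (Or.inl h1)), fun h1 => key (Or.inr (Or.inr h1))⟩

private theorem jc_conj {y : Root → K → G} (hy : Stb K y) (hτ : ∀ a, τ (τ (τ a)) = a) {i : Fin 2} {n : Hh x τ}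
    (hn : ∀ s : Root, ∃ c : K, c * c = 1 ∧ τ c = c ∧ ∀ b, (n : G) * yt y τ s b * (n : G)⁻¹ = yt y τ (wf (sn i) s) (c * b))
    (r : Root) {g : Hh x τ} (hg : g ∈ XY x y τ r) : n * g * n⁻¹ ∈ XY x y τ (rr (wf (sn i) r)) := by
  obtain ⟨b, hb, ho, h1⟩ := hg
  obtain ⟨c, hc, hc', h2⟩ := hn r
  have hc0 : c ≠ 0 := by
    rintro rfl
    rw [mul_zero] at hc
    exact zero_ne_one hc
  have ho' : Ok τ (wf (sn i) r) (c * b) := by
    intro h3
    rw [← wf_sr] at h3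
    have h4 := congrArg (wf (sn i)) h3
    rw [wf_wf, wf_wf] at h4
    rw [map_mul, hc', ho h4]
  obtain ⟨b', hb', ho2, h5⟩ := jc_move hy hτ (jc_rr_or (wf (sn i) r)) (mul_ne_zero hc0 hb) ho'
  refine ⟨b', hb', ho2, ?_⟩
  rw [← h5, ← h2 b, ← h1]
  rfl

/-- MODULE jc. Port of row `jc` of `Pool.Agent.ThF.Gin`. -/
theorem letY (h : Stb K x) (hτ : ∀ a, τ (τ (τ a)) = a) {th : ∀ i : Fin 2, ThG.SL2 (Sf τ i) →* Hh x τ} (hth : ∀ i, IsY x τ (sn i) (Sf τ i) ((Hh x τ).subtype.comp (th i))) :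
    ThG.Let (ι := Fin 2) (F := fun i => Sf τ i) (R := Root) th (hzH h τ) ((Sy x τ fun r => 0 < ht r.1).subgroupOf (Hh x τ)) ((Sy (op x) τ fun r => 0 < ht r.1).subgroupOf (Hh x τ))
      (fun i => (Sy x τ (Pi' i)).subgroupOf (Hh x τ)) (fun i => (Sy (op x) τ (Pi' i)).subgroupOf (Hh x τ)) (fun r => 0 < ht r.1 ∧ rp r.1) (fun r => (ht r.1).toNat) (fun i => rr (sn i))
      (fun i r => rr (wf (sn i) r)) (fun i => ⟨ny x (sn i), ny_mem h τ i⟩) (XY x x τ) (XY x (op x) τ) where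
  nfU := fun u hu => jc_nf h hτ (fun r a ha => yt_mem x τ ha) (Subgroup.mem_subgroupOf.1 hu)
  nfV := fun u hu => jc_nf h.op hτ (jc_op_mem x τ) (Subgroup.mem_subgroupOf.1 hu)
  nX := fun i r _ _ g hg => jc_conj h hτ (fun s => ny_conj h i s) r hg
  nY := fun i r _ _ g hg => jc_conj h.op hτ (fun s => by
    obtain ⟨c, hc, hc', h1⟩ := ny_conj (τ := τ) h i (-s)
    refine ⟨c, hc, hc', fun b => ?_⟩
    rw [yt_op, yt_op, ← wf_neg]
    exact h1 b) r hg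
  wp := by
    intro i r h1 h2
    have h3 := jc_ne h1.2 h2
    refine ⟨?_, rr_rp _⟩
    rw [rr_ht]
    exact (wf_pos i h1.1 h3).1
  wi := by
    intro i r s hr hs _ _ h1
    have h2 : r = s ∨ r = sr s ∨ r = sr (sr s) := by
      rcases (rr_iff _ _).1 h1 with h2 | h2 | h2
      · have h3 := congrArg (wf (sn i)) h2
        rw [wf_wf, wf_wf] at h3
        exact Or.inl h3
      · rw [← wf_sr] at h2
        have h3 := congrArg (wf (sn i)) h2
        rw [wf_wf, wf_wf] at h3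
        exact Or.inr (Or.inl h3)
      · rw [← wf_sr, ← wf_sr] at h2
        have h3 := congrArg (wf (sn i)) h2
        rw [wf_wf, wf_wf] at h3
        exact Or.inr (Or.inr h3)
    exact rr_eq hr.2 hs.2 h2
  wh := by
    intro r hr
    right
    obtain ⟨i, hi⟩ := exists_desc hr.1
    refine ⟨i, ?_⟩
    show (ht (rr (wf (sn i) r)).1).toNat < (ht r.1).toNat
    rw [rr_ht]
    have h1 := hr.1
    omega
  XU := by
    rintro i r h1 h2 g ⟨b, _, ho, h3⟩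
    rw [Subgroup.mem_subgroupOf, h3]
    exact Sy.mem (p := Pi' i) ⟨h1.1, jc_ne h1.2 h2⟩ ho
  YV := by
    rintro i r h1 h2 g ⟨b, _, ho, h3⟩
    rw [Subgroup.mem_subgroupOf, h3]
    exact Sy.mem (p := Pi' i) ⟨h1.1, jc_ne h1.2 h2⟩ ho
  Xa := by
    rintro i g ⟨b, hb, ho, h1⟩
    obtain ⟨c, hc, ho', h2⟩ := jc_move h hτ (rr_or (sn i)) hb ho
    obtain ⟨d, hd⟩ := Sf_of ho'
    refine ⟨d, ?_, ?_⟩
    · rintro rfl
      exact hc hd.symm
    · refine Subtype.ext ?_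
      rw [h1, h2, ← hd]
      exact ((hth i).up d).symm
  Ya := by
    rintro i g ⟨b, hb, ho, h1⟩
    obtain ⟨c, hc, ho', h2⟩ := jc_move h.op hτ (rr_or (sn i)) hb ho
    obtain ⟨d, hd⟩ := Sf_of ho'
    refine ⟨-d, ?_, ?_⟩
    · rw [neg_ne_zero]
      rintro rfl
      exact hc hd.symm
    · refine Subtype.ext ?_
      rw [h1, h2, ← hd, yt_op]
      have h3 := (hth i).lo (-d)
      rw [NegMemClass.coe_neg, neg_neg] at h3
      exact h3.symm
  nh := by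
    intro i z
    obtain ⟨z', hz'⟩ := ny_hz h hτ i z
    exact ⟨z', Subtype.ext hz'⟩
-- END jc

/-- not scalar at the node `j` -/
def NY (x : Root → K → G) (τ : K →+* K) (j : Fin 2) (g : G) (z : ∀ i : Fin 2, (Sf τ i)ˣ) : Prop :=
  ∃ v ∈ Sy (op x) τ (Pi' j), ∃ u ∈ Sy x τ (Pi' j), ∃ c b : Sf τ j, g = v * yt x τ (-sn j) (c : K) * hz x τ z * yt x τ (sn j) (b : K) * u ∧ ¬ (c = 0 ∧ b = 0 ∧ chY τ (sn j).1 z = 1)

-- BEGIN jd
/-- MODULE jd. Port of row `jd` of `Pool.Agent.ThF.Gin`: `exists_thH`, `exists_ch`, `datY`, `letY`, `ThG.reach` for `⟨g, hg⟩ : Hh x τ` (`Subgroup.mem_center_iff`); `ThG.NS` gives `NY` (`hth i`: `lo c ↦ yt x τ (-sn i) (-c)`). -/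
theorem reachY (h : Stb K x) (hτ : ∀ a, τ (τ (τ a)) = a) {g : G} (hg : g ∈ Hh x τ) (hc : ∃ u ∈ Hh x τ, u * g ≠ g * u) {P : Fin 2 → (∀ i : Fin 2, (Sf τ i)ˣ) → Prop}
    (hP : ∀ S : Fin 2 → (∀ i : Fin 2, (Sf τ i)ˣ) → Prop, (∀ i z t, S i z → S i (Function.update z i t)) → (∀ i j z, S i z → chY τ (sn j).1 z ≠ 1 → S j z) →
      ∀ i z, S i z → ∃ j z', S j z' ∧ P j z') : ∃ c ∈ Hh x τ, ∃ (j : Fin 2) (z : ∀ i : Fin 2, (Sf τ i)ˣ), P j z ∧ NY x τ j (c * g * c⁻¹) z := by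
  obtain ⟨th, hth⟩ := exists_thH (τ := τ) h
  obtain ⟨χ, hχ⟩ := exists_ch hτ
  have hone : ∀ j z, χ j z = 1 ↔ chY τ (sn j).1 z = 1 := by
    intro j z
    rw [← hχ j z]
    constructor
    · intro e
      rw [e]
      rfl
    · intro e
      exact Units.ext (Subtype.ext e)
  have hgc : (⟨g, hg⟩ : Hh x τ) ∉ Subgroup.center (Hh x τ) := by
    rw [Subgroup.mem_center_iff]
    intro hcen
    obtain ⟨u, hu, hne⟩ := hc
    exact hne (congrArg Subtype.val (hcen ⟨u, hu⟩))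
  obtain ⟨c, j, z, hp, v, hv, u, hu, c', b, e, hne⟩ := ThG.reach (datY h hτ hth hχ) (letY h hτ hth) hgc (P := P)
    (fun S h1 h2 => hP S h1 fun i j z hS hz => h2 i j z hS fun e => hz ((hone j z).1 e))
  refine ⟨c.1, c.2, j, z, hp, v.1, hv, u.1, hu, -c', b, ?_, fun hh => hne ⟨neg_eq_zero.mp hh.1, hh.2.1, (hone j z).2 hh.2.2⟩⟩
  have e1 := congrArg Subtype.val e
  have e2 : ((th j (ThG.lo c') : Hh x τ) : G) = yt x τ (-sn j) (-(c' : K)) := (hth j).lo c'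
  have e3 : ((th j (ThG.up b) : Hh x τ) : G) = yt x τ (sn j) (b : K) := (hth j).up b
  have e4 : c.1 * g * c.1⁻¹ = v.1 * ((th j (ThG.lo c') : Hh x τ) : G) * hz x τ z * ((th j (ThG.up b) : Hh x τ) : G) * u.1 := e1
  rw [e4, e2, e3]
  rfl
-- END jd

end ThT
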