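import Pool.Agent.ThT.Tw
import Pool.Agent.ThK.Gau

/-! # The nodes, the torus and the unipotent subgroups of the twisted group (port of `Pool.Agent.ThF.Grt`)

Nodes: `0 ↦ (1; 0, 0, 0)` (the long simple root of `G_2`, fixed by the rotation, field `K_0 = Fx τ`), `1 ↦ (0; 1, 0, 0)` (the short simple root, moved, field `K`).
-/

namespace ThT

variable {K : Type*} [Field K] {G : Type*} [Group G] {x : Root → K → G} {τ : K →+* K}

/-- the fixed field -/
def Fx (τ : K →+* K) : Subfield K := RingHom.eqLocusField τ (RingHom.id K)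

theorem mem_Fx {a : K} : a ∈ Fx τ ↔ τ a = a := Iff.rfl

/-- the long simple root -/
def ra : Root := ⟨(1, ![0, 0, 0]), by decide⟩

/-- the short simple root (representative) -/
def rb : Root := ⟨(0, ![1, 0, 0]), by decide⟩

/-- the nodes -/
def sn : Fin 2 → Root := ![ra, rb]

/-- the field of a node -/
def Sf (τ : K →+* K) (i : Fin 2) : Subfield K := if (i : ℕ) < 1 then Fx τ else ⊤

/-- the twisted reflection -/
def wf (r s : Root) : Root := if sr r = r then rf r s else rf r (rf (sr r) (rf (sr (sr r)) s))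

/-- representatives of the orbits: `m_1 = m_2` -/
def rp (v : Vec) : Prop := v.2 1 = v.2 2

instance : DecidablePred rp := fun v => inferInstanceAs (Decidable (v.2 1 = v.2 2))

/-- the representative of the orbit -/
def rr (r : Root) : Root := if rp r.1 then r else if rp (sr r).1 then sr r else sr (sr r)

/-- positive roots without the node `i` -/
def Pi' (i : Fin 2) (r : Root) : Prop := 0 < ht r.1 ∧ r ≠ sn i ∧ r ≠ sr (sn i) ∧ r ≠ sr (sr (sn i))

/-- `h_r(c)` of the twisted group -/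
def hy (x : Root → K → G) (τ : K →+* K) (r : Root) (c : K) : G := if sr r = r then hh x r c else hh x r c * hh x (sr r) (τ c) * hh x (sr (sr r)) (τ (τ c))

/-- the representative of the reflection of a simple root -/
def ny (x : Root → K → G) (r : Root) : G := if sr r = r then nn x r 1 else nn x r 1 * nn x (sr r) 1 * nn x (sr (sr r)) 1

-- BEGIN ga
/-- the reflection on vectors -/
private def ga_rf (v w : Vec) : Vec := w - sv (bf v w) v

/-- the twisted reflection on vectors -/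
private def ga_wf (v w : Vec) : Vec := if sg v = v then ga_rf v w else ga_rf v (ga_rf (sg v) (ga_rf (sg (sg v)) w))

private theorem ga_val (r s : Root) : (wf r s).1 = ga_wf r.1 s.1 := by
  unfold wf ga_wf
  by_cases h : sr r = r
  · have h' : sg r.1 = r.1 := congrArg Subtype.val h
    rw [if_pos h, if_pos h']
    rfl
  · rw [if_neg h, if_neg (fun h' : sg r.1 = r.1 => h (Subtype.ext h'))]
    rfl

/-- MODULE ga. Explicit vectors, `decide`; statements about all roots: `all_rts` with a decidable property of vectors (write the property with `sv`, `bf`, `sg`; `Subtype.ext`). -/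
theorem sn_ht (i : Fin 2) : ht (sn i).1 = 1 := by
  revert i
  decide

theorem sn_fix (i : Fin 2) : sr (sn i) = sn i ↔ (i : ℕ) < 1 := by
  revert i
  decide

theorem sn_simple {r : Root} (h : ht r.1 = 1) : ∃ i, r = sn i ∨ r = sr (sn i) ∨ r = sr (sr (sn i)) := by
  obtain ⟨i, hi⟩ := all_rts (p := fun v => ht v = 1 → ∃ i : Fin 2, v = (sn i).1 ∨ v = sg (sn i).1 ∨ v = sg (sg (sn i).1)) (by decide +kernel) r h
  refine ⟨i, ?_⟩
  rcases hi with hi | hi | hi
  · exact Or.inl (Subtype.ext hi)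
  · exact Or.inr (Or.inl (Subtype.ext hi))
  · exact Or.inr (Or.inr (Subtype.ext hi))

theorem wf_wf (r s : Root) : wf r (wf r s) = s := by
  apply Subtype.ext
  rw [ga_val, ga_val]
  exact all_rts (p := fun v => ∀ w ∈ rts, ga_wf v (ga_wf v w) = w) (by decide +kernel) r s.1 (mem_rts s)

theorem wf_neg (r s : Root) : wf r (-s) = -wf r s := by
  unfold wf
  split_ifs
  · exact rf_neg r s
  · rw [rf_neg, rf_neg, rf_neg]

theorem wf_sr (r s : Root) : wf r (sr s) = sr (wf r s) := by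
  apply Subtype.ext
  rw [sr_val, ga_val, ga_val, sr_val]
  exact all_rts (p := fun v => ∀ w ∈ rts, ga_wf v (sg w) = sg (ga_wf v w)) (by decide +kernel) r s.1 (mem_rts s)

theorem wf_pos (i : Fin 2) {s : Root} (h : 0 < ht s.1) (h1 : s ≠ sn i ∧ s ≠ sr (sn i) ∧ s ≠ sr (sr (sn i))) :
    0 < ht (wf (sn i) s).1 ∧ wf (sn i) s ≠ sn i ∧ wf (sn i) s ≠ sr (sn i) ∧ wf (sn i) s ≠ sr (sr (sn i)) := by
  have key : ∀ i : Fin 2, ∀ w ∈ rts, 0 < ht w → (w ≠ (sn i).1 ∧ w ≠ sg (sn i).1 ∧ w ≠ sg (sg (sn i).1)) →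
      0 < ht (ga_wf (sn i).1 w) ∧ ga_wf (sn i).1 w ≠ (sn i).1 ∧ ga_wf (sn i).1 w ≠ sg (sn i).1 ∧ ga_wf (sn i).1 w ≠ sg (sg (sn i).1) := by
    decide +kernel
  obtain ⟨k1, k2, k3, k4⟩ := key i s.1 (mem_rts s) h ⟨fun e => h1.1 (Subtype.ext e), fun e => h1.2.1 (Subtype.ext e), fun e => h1.2.2 (Subtype.ext e)⟩
  rw [← ga_val] at k1 k2 k3 k4
  exact ⟨k1, fun e => k2 (congrArg Subtype.val e), fun e => k3 (congrArg Subtype.val e), fun e => k4 (congrArg Subtype.val e)⟩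

theorem exists_desc {r : Root} (h : 0 < ht r.1) : ∃ i, ht (wf (sn i) r).1 < ht r.1 := by
  obtain ⟨i, hi⟩ := all_rts (p := fun v => 0 < ht v → ∃ i : Fin 2, ht (ga_wf (sn i).1 v) < ht v) (by decide +kernel) r h
  exact ⟨i, by rw [ga_val]; exact hi⟩
-- END ga

-- BEGIN gb
/-- the representative on vectors -/
private def gb_rr (v : Vec) : Vec := if rp v then v else if rp (sg v) then sg v else sg (sg v)

private theorem gb_val (r : Root) : (rr r).1 = gb_rr r.1 := by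
  unfold rr gb_rr
  rw [sr_val]
  split_ifs <;> rfl

/-- MODULE gb. Representatives (port of row `gh` of `Pool.Agent.ThF.Grt`); the orbits have one element with `m_1 = m_2` (`all_rts`, `decide`). -/
theorem rr_rp (r : Root) : rp (rr r).1 := by
  rw [gb_val]
  exact all_rts (p := fun v => rp (gb_rr v)) (by decide +kernel) r

theorem rr_or (r : Root) : rr r = r ∨ rr r = sr r ∨ rr r = sr (sr r) := by
  unfold rr
  split_ifs
  · exact Or.inl rfl
  · exact Or.inr (Or.inl rfl)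
  · exact Or.inr (Or.inr rfl)

theorem rr_eq {r s : Root} (hr : rp r.1) (hs : rp s.1) (h : r = s ∨ r = sr s ∨ r = sr (sr s)) : r = s := by
  have key := all_rts (p := fun v => rp v → (rp (sg v) → sg v = v) ∧ (rp (sg (sg v)) → sg (sg v) = v)) (by decide +kernel) s hs
  rcases h with h | h | h
  · exact h
  · subst h
    exact Subtype.ext (key.1 hr)
  · subst h
    exact Subtype.ext (key.2 hr)

theorem rr_iff (r s : Root) : rr r = rr s ↔ r = s ∨ r = sr s ∨ r = sr (sr s) := by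
  have key := all_rts (p := fun v => ∀ w ∈ rts, gb_rr v = gb_rr w ↔ v = w ∨ v = sg w ∨ v = sg (sg w)) (by decide +kernel) r s.1 (mem_rts s)
  constructor
  · intro h
    have h1 := congrArg Subtype.val h
    rw [gb_val, gb_val] at h1
    rcases key.1 h1 with h2 | h2 | h2
    · exact Or.inl (Subtype.ext h2)
    · exact Or.inr (Or.inl (Subtype.ext h2))
    · exact Or.inr (Or.inr (Subtype.ext h2))
  · intro h
    apply Subtype.ext
    rw [gb_val, gb_val]
    apply key.2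
    rcases h with h2 | h2 | h2
    · exact Or.inl (congrArg Subtype.val h2)
    · exact Or.inr (Or.inl (congrArg Subtype.val h2))
    · exact Or.inr (Or.inr (congrArg Subtype.val h2))

theorem rr_ht (r : Root) : ht (rr r).1 = ht r.1 := by
  rcases rr_or r with h | h | h
  · rw [h]
  · rw [h, ht_sr]
  · rw [h, ht_sr, ht_sr]

theorem finite_root : Finite Root :=
  Finite.of_injective (fun r : Root => (⟨r.1, mem_rts r⟩ : {v : Vec // v ∈ rts})) fun _ _ h => Subtype.ext (congrArg (fun t : {v : Vec // v ∈ rts} => t.1) h)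
-- END gb

/-- the homomorphism `SL_2(S) → G` of the root `r` -/
structure IsY (x : Root → K → G) (τ : K →+* K) (r : Root) (S : Subfield K) (t : ThG.SL2 S →* G) : Prop where
  up : ∀ a : S, t (ThG.up a) = yt x τ r (a : K)
  lo : ∀ a : S, t (ThG.lo a) = yt x τ (-r) (-(a : K))
  dg : ∀ c : Sˣ, t (ThG.dg c) = hy x τ r ((c : S) : K)

-- BEGIN gd
private theorem gd_map_up {F L : Type*} [Field F] [Field L] (f : F →+* L) (a : F) : Matrix.SpecialLinearGroup.map f (ThG.up a) = ThG.up (f a) := by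
  apply Subtype.ext
  ext i j
  fin_cases i <;> fin_cases j <;> simp [ThG.up]

private theorem gd_map_lo {F L : Type*} [Field F] [Field L] (f : F →+* L) (a : F) : Matrix.SpecialLinearGroup.map f (ThG.lo a) = ThG.lo (f a) := by
  apply Subtype.ext
  ext i j
  fin_cases i <;> fin_cases j <;> simp [ThG.lo]

private theorem gd_map_dg {F L : Type*} [Field F] [Field L] (f : F →+* L) (c : Fˣ) :
    Matrix.SpecialLinearGroup.map f (ThG.dg c) = ThG.dg (Units.map (f : F →* L) c) := by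
  apply Subtype.ext
  ext i j
  fin_cases i <;> fin_cases j <;> simp [ThG.dg]

private theorem gd_comm (h : Stb K x) {r s : Root} (hb : bf r.1 s.1 = 0) {t1 t2 : ThG.SL2 K →* G} (h1 : IsTh x r t1) (h2 : IsTh x s t2)
    (M N : ThG.SL2 K) : Commute (t1 M) (t2 N) := by
  have hg : ∀ X : ThG.SL2 K, X ∈ Subgroup.closure {g : ThG.SL2 K | ∃ a, g = ThG.up a ∨ g = ThG.lo a} := by
    intro X
    rw [ThG.sl2_gen]
    exact Subgroup.mem_top X
  have key : ∀ a, ∀ Y : ThG.SL2 K, Commute (t1 (ThG.up a)) (t2 Y) ∧ Commute (t1 (ThG.lo a)) (t2 Y) := by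
    intro a Y
    refine Subgroup.closure_induction (p := fun Y _ => Commute (t1 (ThG.up a)) (t2 Y) ∧ Commute (t1 (ThG.lo a)) (t2 Y)) ?_ ?_ ?_ ?_ (hg Y)
    · rintro g ⟨b, rfl | rfl⟩
      · rw [h1.up, h1.lo, h2.up]
        exact ⟨h.commute (by rw [hb]) _ _, h.commute (by rw [neg_val, bf_neg_left, hb]; norm_num) _ _⟩
      · rw [h1.up, h1.lo, h2.lo]
        exact ⟨h.commute (by rw [neg_val, bf_neg_right, hb]; norm_num) _ _,
          h.commute (by rw [neg_val, neg_val, bf_neg_left, bf_neg_right, hb]; norm_num) _ _⟩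
    · rw [map_one]
      exact ⟨Commute.one_right _, Commute.one_right _⟩
    · rintro X Z _ _ ⟨hX, hX'⟩ ⟨hZ, hZ'⟩
      rw [map_mul]
      exact ⟨hX.mul_right hZ, hX'.mul_right hZ'⟩
    · rintro X _ ⟨hX, hX'⟩
      rw [map_inv]
      exact ⟨hX.inv_right, hX'.inv_right⟩
  refine Subgroup.closure_induction (p := fun M _ => Commute (t1 M) (t2 N)) ?_ ?_ ?_ ?_ (hg M)
  · rintro g ⟨a, rfl | rfl⟩
    · exact (key a N).1
    · exact (key a N).2
  · rw [map_one]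
    exact Commute.one_left _
  · intro X Z _ _ hX hZ
    rw [map_mul]
    exact hX.mul_left hZ
  · intro X _ hX
    rw [map_inv]
    exact hX.inv_left

/-- MODULE gd. Port of row `gd` of `Pool.Agent.ThF.Grt` (there two factors, here three; no signs `et`, so `t M = t1 M * t2 (map τ M) * t3 (map (τ ∘ τ) M)`), with `exists_th` of `Pool.Agent.ThT.Rel`. -/
theorem exists_isY (h : Stb K x) (r : Root) (S : Subfield K) (hS : sr r = r → ∀ a ∈ S, τ a = a) : ∃ t : ThG.SL2 S →* G, IsY x τ r S t := by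
  obtain ⟨t1, h1⟩ := exists_th h r
  by_cases hr : sr r = r
  · refine ⟨t1.comp (Matrix.SpecialLinearGroup.map S.subtype), ⟨?_, ?_, ?_⟩⟩
    · intro a
      rw [MonoidHom.comp_apply, gd_map_up, h1.up, yt_fix x τ hr]
      rfl
    · intro a
      have hr' : sr (-r) = -r := by rw [sr_neg, hr]
      rw [MonoidHom.comp_apply, gd_map_lo, h1.lo, yt_fix x τ hr']
      rfl
    · intro c
      rw [MonoidHom.comp_apply, gd_map_dg, h1.dg, hy, if_pos hr]
      rfl
  · obtain ⟨t2, h2⟩ := exists_th h (sr r)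
    obtain ⟨t3, h3⟩ := exists_th h (sr (sr r))
    obtain ⟨b12, b13, b23⟩ := bf_sr_sr hr
    have c12 := gd_comm h b12 h1 h2
    have c13 := gd_comm h b13 h1 h3
    have c23 := gd_comm h b23 h2 h3
    refine ⟨{ toFun := fun M => t1 (Matrix.SpecialLinearGroup.map S.subtype M) *
                t2 (Matrix.SpecialLinearGroup.map (τ.comp S.subtype) M) *
                t3 (Matrix.SpecialLinearGroup.map (τ.comp (τ.comp S.subtype)) M)
              map_one' := by rw [map_one, map_one, map_one, map_one, map_one, map_one, mul_one, mul_one]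
              map_mul' := fun M N => by
                rw [map_mul, map_mul, map_mul, map_mul, map_mul, map_mul, (c12 _ _).mul_mul_mul_comm]
                exact ((c13 _ _).mul_left (c23 _ _)).mul_mul_mul_comm _ _ }, ⟨?_, ?_, ?_⟩⟩
    · intro a
      change t1 (Matrix.SpecialLinearGroup.map S.subtype (ThG.up a)) *
        t2 (Matrix.SpecialLinearGroup.map (τ.comp S.subtype) (ThG.up a)) *
        t3 (Matrix.SpecialLinearGroup.map (τ.comp (τ.comp S.subtype)) (ThG.up a)) = yt x τ r (a : K)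
      rw [gd_map_up, gd_map_up, gd_map_up, h1.up, h2.up, h3.up, yt_mov x τ hr]
      rfl
    · intro a
      change t1 (Matrix.SpecialLinearGroup.map S.subtype (ThG.lo a)) *
        t2 (Matrix.SpecialLinearGroup.map (τ.comp S.subtype) (ThG.lo a)) *
        t3 (Matrix.SpecialLinearGroup.map (τ.comp (τ.comp S.subtype)) (ThG.lo a)) = yt x τ (-r) (-(a : K))
      have hr' : sr (-r) ≠ -r := by
        rw [sr_neg]
        intro e
        have e2 := congrArg (fun s : Root => -s) e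
        simp only [neg_neg'] at e2
        exact hr e2
      rw [gd_map_lo, gd_map_lo, gd_map_lo, h1.lo, h2.lo, h3.lo, yt_mov x τ hr', sr_neg, sr_neg, map_neg, map_neg]
      rfl
    · intro c
      change t1 (Matrix.SpecialLinearGroup.map S.subtype (ThG.dg c)) *
        t2 (Matrix.SpecialLinearGroup.map (τ.comp S.subtype) (ThG.dg c)) *
        t3 (Matrix.SpecialLinearGroup.map (τ.comp (τ.comp S.subtype)) (ThG.dg c)) = hy x τ r ((c : S) : K)
      rw [gd_map_dg, gd_map_dg, gd_map_dg, h1.dg, h2.dg, h3.dg, hy, if_neg hr]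
      rfl
-- END gd

-- BEGIN ge
private theorem ge_rf (r s : Root) : rf (sr r) (sr s) = sr (rf r s) := by
  apply Subtype.ext
  rw [rf_val, sr_val (rf r s), rf_val, bf_sr, sg_sub, sg_sv, sr_val, sr_val]

private theorem ge_sq (r s : Root) : (ep K r.1 s.1 : K) ^ bf r.1 s.1 * (ep K r.1 s.1 : K) ^ bf r.1 s.1 = 1 := by
  have h1 : (ep K r.1 s.1 : K) * (ep K r.1 s.1 : K) = 1 := eps_sq r.1 s.1
  rw [← mul_zpow, h1, one_zpow]

private theorem ge_fx (τ : K →+* K) (r s : Root) : τ ((ep K r.1 s.1 : K) ^ bf r.1 s.1) = (ep K r.1 s.1 : K) ^ bf r.1 s.1 := by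
  have h1 : τ (ep K r.1 s.1 : K) = (ep K r.1 s.1 : K) := eps_map τ r.1 s.1
  rw [map_zpow₀, h1]

private theorem ge_nn (h : Stb K x) (r s : Root) (b : K) : nn x r 1 * x s b * (nn x r 1)⁻¹ = x (rf r s) ((ep K r.1 s.1 : K) ^ bf r.1 s.1 * b) := by
  rw [nn_conj h r s one_ne_zero, one_zpow, mul_one]

private theorem ge_cm (h : Stb K x) {r s : Root} (h0 : bf r.1 s.1 = 0) : Commute (nn x r 1) (nn x s 1) := by
  have c : ∀ p q : Root, bf p.1 q.1 = 0 → ∀ a b, Commute (x p a) (x q b) := fun p q hpq a b => h.commute (by rw [hpq]) a b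
  have h1 : bf r.1 (-s).1 = 0 := by rw [neg_val, bf_neg_right, h0, neg_zero]
  have h2 : bf (-r).1 s.1 = 0 := by rw [neg_val, bf_neg_left, h0, neg_zero]
  have h3 : bf (-r).1 (-s).1 = 0 := by rw [neg_val, bf_neg_left, h1, neg_zero]
  unfold nn
  refine Commute.mul_left (Commute.mul_left ?_ ?_) ?_
  · exact Commute.mul_right (Commute.mul_right (c _ _ h0 _ _) (c _ _ h1 _ _)) (c _ _ h0 _ _)
  · exact Commute.mul_right (Commute.mul_right (c _ _ h2 _ _) (c _ _ h3 _ _)) (c _ _ h2 _ _)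
  · exact Commute.mul_right (Commute.mul_right (c _ _ h0 _ _) (c _ _ h1 _ _)) (c _ _ h0 _ _)

private theorem ge_yt {y : G} {s s' : Root} {c : K} (hc : τ c = c) (h0 : ∀ b, y * x s b * y⁻¹ = x s' (c * b)) (h1 : ∀ b, y * x (sr s) b * y⁻¹ = x (sr s') (c * b))
    (h2 : ∀ b, y * x (sr (sr s)) b * y⁻¹ = x (sr (sr s')) (c * b)) (hs : sr s' = s' ↔ sr s = s) (b : K) : y * yt x τ s b * y⁻¹ = yt x τ s' (c * b) := by
  by_cases h : sr s = s
  · rw [yt_fix x τ h, yt_fix x τ (hs.2 h), h0]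
  · rw [yt_mov x τ h, yt_mov x τ (fun h3 => h (hs.1 h3)), map_mul, map_mul, hc, hc, ← h0, ← h1, ← h2]
    group

/-- MODULE ge. As row `ge` of `Pool.Agent.ThF.Grt`: `nn_conj` (one factor: for any root `β`: `nn x β 1 * x s b * (nn x β 1)⁻¹ = x (rf β s) (ep β s ^ bf β s * b)`).  Moved simple root `β`, `β_i = sr^i β`: the sign of `nn β_0 nn β_1 nn β_2` at `s` is `∏ ep(β_i, s_i') ^ ..`; because of
`ep (sg v) (sg w) = ep v w` and because the `nn β_i` commute, the sign at `sr s` is the same as at `s`; `wf_sr`, `wf (sn i)` of a fixed root is fixed. -/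
theorem ny_conj (h : Stb K x) (i : Fin 2) (s : Root) : ∃ c : K, c * c = 1 ∧ τ c = c ∧ ∀ b, ny x (sn i) * yt x τ s b * (ny x (sn i))⁻¹ = yt x τ (wf (sn i) s) (c * b) := by
  obtain ⟨β, hβ⟩ : ∃ β, β = sn i := ⟨_, rfl⟩
  rw [← hβ]
  have hw : sr (wf β s) = wf β s ↔ sr s = s := by
    rw [← wf_sr]
    constructor
    · intro h1
      rw [← wf_wf β (sr s), h1, wf_wf]
    · intro h1
      rw [h1]
  by_cases hb : sr β = β
  · have hn : ny x β = nn x β 1 := if_pos hb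
    have hwf : wf β s = rf β s := if_pos hb
    have r1 : sr (rf β s) = rf β (sr s) := by rw [← ge_rf, hb]
    have r2 : sr (sr (rf β s)) = rf β (sr (sr s)) := by rw [r1, ← ge_rf, hb]
    have e1 : (ep K β.1 (sr s).1 : K) ^ bf β.1 (sr s).1 = (ep K β.1 s.1 : K) ^ bf β.1 s.1 := by
      have e2 := ep_sr K β s
      have e3 := bf_sr β s
      rw [hb] at e2 e3
      rw [e2, e3]
    have e2 : (ep K β.1 (sr (sr s)).1 : K) ^ bf β.1 (sr (sr s)).1 = (ep K β.1 s.1 : K) ^ bf β.1 s.1 := by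
      have e2 := ep_sr K β (sr s)
      have e3 := bf_sr β (sr s)
      rw [hb] at e2 e3
      rw [e2, e3, e1]
    refine ⟨(ep K β.1 s.1 : K) ^ bf β.1 s.1, ge_sq β s, ge_fx τ β s, ?_⟩
    rw [hwf] at hw
    rw [hn, hwf]
    refine ge_yt (ge_fx τ β s) (ge_nn h β s) (fun b => ?_) (fun b => ?_) hw
    · rw [ge_nn h, e1, r1]
    · rw [ge_nn h, e2, r2]
  · have hn : ny x β = nn x β 1 * nn x (sr β) 1 * nn x (sr (sr β)) 1 := if_neg hb
    have hwf : wf β s = rf β (rf (sr β) (rf (sr (sr β)) s)) := if_neg hb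
    obtain ⟨o1, o2, o3⟩ := bf_sr_sr hb
    have c1 := ge_cm h o1
    have c2 := ge_cm h o2
    have c3 := ge_cm h o3
    -- the conjugation with three factors
    have key : ∀ (β₀ β₁ β₂ s : Root) (b : K), (nn x β₀ 1 * nn x β₁ 1 * nn x β₂ 1) * x s b * (nn x β₀ 1 * nn x β₁ 1 * nn x β₂ 1)⁻¹ =
        x (rf β₀ (rf β₁ (rf β₂ s))) ((ep K β₀.1 (rf β₁ (rf β₂ s)).1 : K) ^ bf β₀.1 (rf β₁ (rf β₂ s)).1 * ((ep K β₁.1 (rf β₂ s).1 : K) ^ bf β₁.1 (rf β₂ s).1 *
          ((ep K β₂.1 s.1 : K) ^ bf β₂.1 s.1)) * b) := by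
      intro β₀ β₁ β₂ s b
      have e1 : (nn x β₀ 1 * nn x β₁ 1 * nn x β₂ 1) * x s b * (nn x β₀ 1 * nn x β₁ 1 * nn x β₂ 1)⁻¹ =
          nn x β₀ 1 * (nn x β₁ 1 * (nn x β₂ 1 * x s b * (nn x β₂ 1)⁻¹) * (nn x β₁ 1)⁻¹) * (nn x β₀ 1)⁻¹ := by group
      rw [e1, ge_nn h, ge_nn h, ge_nn h, mul_assoc, mul_assoc]
    have hc1 : nn x β 1 * nn x (sr β) 1 * nn x (sr (sr β)) 1 = nn x (sr β) 1 * nn x (sr (sr β)) 1 * nn x (sr (sr (sr β))) 1 := by
      rw [sr_sr_sr, mul_assoc]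
      exact (c1.mul_right c2).eq
    have hc2 : nn x β 1 * nn x (sr β) 1 * nn x (sr (sr β)) 1 = nn x (sr (sr β)) 1 * nn x (sr (sr (sr β))) 1 * nn x (sr (sr (sr (sr β)))) 1 := by
      rw [sr_sr_sr, mul_assoc (nn x (sr (sr β)) 1)]
      exact (c2.mul_left c3).eq
    obtain ⟨c, hc⟩ : ∃ c, c = (ep K β.1 (rf (sr β) (rf (sr (sr β)) s)).1 : K) ^ bf β.1 (rf (sr β) (rf (sr (sr β)) s)).1 *
        ((ep K (sr β).1 (rf (sr (sr β)) s).1 : K) ^ bf (sr β).1 (rf (sr (sr β)) s).1 * ((ep K (sr (sr β)).1 s.1 : K) ^ bf (sr (sr β)).1 s.1)) := ⟨_, rfl⟩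
    have q1 : c * c = 1 := by
      have s1 := ge_sq (K := K) β (rf (sr β) (rf (sr (sr β)) s))
      have s2 := ge_sq (K := K) (sr β) (rf (sr (sr β)) s)
      have s3 := ge_sq (K := K) (sr (sr β)) s
      obtain ⟨A, hA⟩ : ∃ A, A = (ep K β.1 (rf (sr β) (rf (sr (sr β)) s)).1 : K) ^ bf β.1 (rf (sr β) (rf (sr (sr β)) s)).1 := ⟨_, rfl⟩
      obtain ⟨B, hB⟩ : ∃ A, A = (ep K (sr β).1 (rf (sr (sr β)) s).1 : K) ^ bf (sr β).1 (rf (sr (sr β)) s).1 := ⟨_, rfl⟩
      obtain ⟨C, hC⟩ : ∃ A, A = (ep K (sr (sr β)).1 s.1 : K) ^ bf (sr (sr β)).1 s.1 := ⟨_, rfl⟩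
      rw [← hA] at s1
      rw [← hB] at s2
      rw [← hC] at s3
      rw [hc, ← hA, ← hB, ← hC]
      linear_combination s1 + A * A * s2 + A * A * B * B * s3
    have q2 : τ c = c := by rw [hc, map_mul, map_mul, ge_fx, ge_fx, ge_fx]
    refine ⟨c, q1, q2, ?_⟩
    rw [hn]
    refine ge_yt q2 (fun b => ?_) (fun b => ?_) (fun b => ?_) hw
    · rw [hwf, key, hc]
    · rw [hc1, key, hwf, hc]
      simp only [ge_rf, ep_sr, bf_sr]
    · rw [hc2, key, hwf, hc]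
      simp only [ge_rf, ep_sr, bf_sr]
-- END ge

-- BEGIN gf
/-- MODULE gf. `ny x a = y_a(1) y_(-a)(1) y_a(1)` (the factors of different `x_(±β_i)` commute). -/
theorem ny_eq (h : Stb K x) (i : Fin 2) : ny x (sn i) = yt x τ (sn i) 1 * yt x τ (-sn i) 1 * yt x τ (sn i) 1 := by
  generalize sn i = a
  by_cases h1 : sr a = a
  · have h2 : sr (-a) = -a := by rw [sr_neg, h1]
    rw [ny, if_pos h1, yt_fix x τ h1, yt_fix x τ h2, nn, inv_one]
  · have h2 : sr (-a) ≠ -a := by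
      rw [sr_neg]
      intro h3
      apply h1
      rw [← neg_neg' (sr a), h3, neg_neg']
    obtain ⟨g1, g2, g3⟩ := bf_sr_sr h1
    rw [ny, if_neg h1, yt_mov x τ h1, yt_mov x τ h2, nn, nn, nn, inv_one, sr_neg, sr_neg, map_one, map_one]
    have q : ∀ r s : Root, bf r.1 s.1 = 0 → Commute (x r 1) (x s 1) ∧ Commute (x (-r) 1) (x s 1) ∧ Commute (x r 1) (x (-s) 1) ∧ Commute (x (-r) 1) (x (-s) 1) := fun r s hb =>
      ⟨h.commute (by rw [hb]) 1 1, h.commute (by rw [neg_val, bf_neg_left, hb, neg_zero]) 1 1, h.commute (by rw [neg_val, bf_neg_right, hb, neg_zero]) 1 1,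
        h.commute (by rw [neg_val, neg_val, bf_neg_left, bf_neg_right, hb, neg_zero, neg_zero]) 1 1⟩
    obtain ⟨a1, a2, a3, a4⟩ := q a (sr a) g1
    obtain ⟨b1, b2, b3, b4⟩ := q a (sr (sr a)) g2
    obtain ⟨c1, c2, c3, c4⟩ := q (sr a) (sr (sr a)) g3
    have key : ∀ {A A' B B' C C' : G}, Commute A B → Commute A' B → Commute A B' → Commute A C → Commute A' C → Commute A C' → Commute B C → Commute B' C → Commute B C' →
        A * A' * A * (B * B' * B) * (C * C' * C) = A * B * C * (A' * B' * C') * (A * B * C) := by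
      intro A A' B B' C C' k1 k2 k3 l1 l2 l3 m1 m2 m3
      have e1 : A * A' * A * (B * B' * B) = A * B * (A' * B') * (A * B) := by
        calc A * A' * A * (B * B' * B) = A * A' * (A * B) * B' * B := by group
          _ = A * (A' * B) * (A * B') * B := by rw [k1.eq]; group
          _ = A * B * (A' * B') * (A * B) := by rw [k2.eq, k3.eq]; group
      have d1 : Commute (A * B) C := Commute.mul_left l1 m1
      have d3 : Commute (A * B) C' := Commute.mul_left l3 m3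
      have d2 : Commute (A' * B') C := Commute.mul_left l2 m2
      rw [e1]
      calc A * B * (A' * B') * (A * B) * (C * C' * C) = A * B * (A' * B') * ((A * B) * C) * C' * C := by group
        _ = A * B * ((A' * B') * C) * ((A * B) * C') * C := by rw [d1.eq]; group
        _ = A * B * C * (A' * B' * C') * (A * B * C) := by rw [d2.eq, d3.eq]; group
    exact key a1 a2 a3 b1 b2 b3 c1 c2 c3

private theorem gf_ok {r : Root} {a : K} (h : Ok τ r a) : Ok τ (-r) a := by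
  intro h1
  apply h
  rw [sr_neg] at h1
  rw [← neg_neg' (sr r), h1, neg_neg']

private theorem gf_ne {r : Root} (h : sr r ≠ r) : sr (-r) ≠ -r := by
  intro h1
  apply h
  rw [sr_neg] at h1
  rw [← neg_neg' (sr r), h1, neg_neg']

/-- GENERATION, port of `gen_Sy` (row `gf` of `Pool.Agent.ThF.Grt`). -/
theorem gen_Sy (h : Stb K x) (hτ : ∀ a, τ (τ (τ a)) = a) : (Sy x τ fun _ => True) = Subgroup.closure {g : G | ∃ (i : Fin 2) (a : K), Ok τ (sn i) a ∧ (g = yt x τ (sn i) a ∨ g = yt x τ (-sn i) a)} := by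
  set S : Subgroup G := Subgroup.closure {g : G | ∃ (i : Fin 2) (a : K), Ok τ (sn i) a ∧ (g = yt x τ (sn i) a ∨ g = yt x τ (-sn i) a)} with hS
  have p1 : ∀ i a, Ok τ (sn i) a → yt x τ (sn i) a ∈ S := fun i a ha => Subgroup.subset_closure ⟨i, a, ha, Or.inl rfl⟩
  have p2 : ∀ i a, Ok τ (sn i) a → yt x τ (-sn i) a ∈ S := fun i a ha => Subgroup.subset_closure ⟨i, a, ha, Or.inr rfl⟩
  have hn : ∀ i, ny x (sn i) ∈ S := by
    intro i
    rw [ny_eq (τ := τ) h i]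
    exact S.mul_mem (S.mul_mem (p1 i 1 fun _ => map_one τ) (p2 i 1 fun _ => map_one τ)) (p1 i 1 fun _ => map_one τ)
  have key : ∀ N : ℕ, ∀ r : Root, 0 < ht r.1 → ht r.1 ≤ N → ∀ b, Ok τ r b → yt x τ r b ∈ S ∧ yt x τ (-r) b ∈ S := by
    intro N
    induction N with
    | zero =>
      intro r h1 h2
      exfalso
      push_cast at h2
      omega
    | succ N ih =>
      intro r h1 h2 b hb
      by_cases h3 : ∃ i, r = sn i
      · obtain ⟨i, rfl⟩ := h3
        exact ⟨p1 i b hb, p2 i b hb⟩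
      by_cases h4 : ∃ i, r = sr (sn i)
      · obtain ⟨i, rfl⟩ := h4
        have h5 : sr (sn i) ≠ sn i := fun h6 => h3 ⟨i, h6⟩
        have h7 := yt_sr h hτ h5 (τ (τ b))
        rw [hτ] at h7
        have h8 := yt_sr h hτ (gf_ne h5) (τ (τ b))
        rw [hτ, sr_neg] at h8
        rw [h7, h8]
        exact ⟨p1 i _ (Ok.of_ne h5 _), p2 i _ (Ok.of_ne h5 _)⟩
      by_cases h4' : ∃ i, r = sr (sr (sn i))
      · obtain ⟨i, rfl⟩ := h4'
        have h5 : sr (sn i) ≠ sn i := by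
          intro h6
          exact h3 ⟨i, by rw [h6, h6]⟩
        have h5' := gf_ne h5
        have e1 : yt x τ (sr (sr (sn i))) b = yt x τ (sn i) (τ b) := by
          have h9 := yt_sr h hτ (sr_ne h5) (τ (τ b))
          rw [hτ] at h9
          have h10 := yt_sr h hτ h5 (τ b)
          rw [h9, h10]
        have e2 : yt x τ (-sr (sr (sn i))) b = yt x τ (-sn i) (τ b) := by
          have h9 := yt_sr h hτ (sr_ne h5') (τ (τ b))
          rw [hτ] at h9
          have h10 := yt_sr h hτ h5' (τ b)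
          rw [← sr_neg, ← sr_neg, h9, h10]
        rw [e1, e2]
        exact ⟨p1 i _ (Ok.of_ne h5 _), p2 i _ (Ok.of_ne h5 _)⟩
      obtain ⟨i, hi⟩ := exists_desc h1
      have h5 := wf_pos i h1 ⟨fun h6 => h3 ⟨i, h6⟩, fun h6 => h4 ⟨i, h6⟩, fun h6 => h4' ⟨i, h6⟩⟩
      have h6 : ht (wf (sn i) r).1 ≤ N := by
        push_cast at h2
        omega
      have h7 : sr (wf (sn i) r) = wf (sn i) r → sr r = r := by
        intro h8
        rw [← wf_sr] at h8
        rw [← wf_wf (sn i) (sr r), h8, wf_wf]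
      have h9 : ∀ c, c * c = 1 → τ c = c → Ok τ (wf (sn i) r) (c * b) := by
        intro c _ hc h8
        rw [map_mul, hc, hb (h7 h8)]
      constructor
      · obtain ⟨c, hc1, hc2, hc3⟩ := ny_conj (τ := τ) h i (wf (sn i) r)
        have h10 := hc3 (c * b)
        rw [wf_wf, ← mul_assoc, hc1, one_mul] at h10
        rw [← h10]
        exact S.mul_mem (S.mul_mem (hn i) (ih _ h5.1 h6 _ (h9 c hc1 hc2)).1) (S.inv_mem (hn i))
      · obtain ⟨c, hc1, hc2, hc3⟩ := ny_conj (τ := τ) h i (-wf (sn i) r)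
        have h10 := hc3 (c * b)
        rw [wf_neg, wf_wf, ← mul_assoc, hc1, one_mul] at h10
        rw [← h10]
        exact S.mul_mem (S.mul_mem (hn i) (ih _ h5.1 h6 _ (h9 c hc1 hc2)).2) (S.inv_mem (hn i))
  apply le_antisymm
  · unfold Sy
    rw [Subgroup.closure_le]
    rintro g ⟨r, a, -, ha, rfl⟩
    show yt x τ r a ∈ S
    rcases lt_or_gt_of_ne (ht_ne r) with h1 | h1
    · have h2 : 0 < ht (-r : Root).1 := by
        rw [neg_val, ht_neg]
        omega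
      have h3 := (key (ht (-r : Root).1).toNat (-r) h2 (by rw [Int.toNat_of_nonneg h2.le]) a (gf_ok ha)).2
      rwa [neg_neg'] at h3
    · exact (key (ht r.1).toNat r h1 (by rw [Int.toNat_of_nonneg h1.le]) a ha).1
  · rw [hS, Subgroup.closure_le]
    rintro g ⟨i, a, ha, rfl | rfl⟩
    · exact Sy.mem trivial ha
    · exact Sy.mem trivial (gf_ok ha)
-- END gf

theorem yt_op (x : Root → K → G) (τ : K →+* K) (r : Root) (a : K) : yt (op x) τ r a = yt x τ (-r) a := by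
  unfold yt op
  have e : sr (-r) = -r ↔ sr r = r := by
    rw [sr_neg]
    constructor
    · intro h
      rw [← neg_neg' (sr r), h, neg_neg']
    · intro h
      rw [h]
  by_cases h : sr r = r
  · rw [if_pos h, if_pos (e.2 h)]
  · rw [if_neg h, if_neg fun h1 => h (e.1 h1), sr_neg, sr_neg]

theorem Sy_op (x : Root → K → G) (τ : K →+* K) (p : Root → Prop) : Sy (op x) τ p = Sy x τ fun r => p (-r) := by
  have e : ∀ r a, Ok τ (-r) a ↔ Ok τ r a := by
    intro r a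
    unfold Ok
    rw [sr_neg]
    have e1 : -sr r = -r ↔ sr r = r := by
      constructor
      · intro h
        rw [← neg_neg' (sr r), h, neg_neg']
      · intro h
        rw [h]
    rw [e1]
  unfold Sy
  refine congrArg Subgroup.closure (Set.ext fun g => ⟨?_, ?_⟩)
  · rintro ⟨r, a, h1, h2, rfl⟩
    exact ⟨-r, a, by show p (- -r); rw [neg_neg']; exact h1, (e r a).2 h2, by rw [yt_op]⟩
  · rintro ⟨r, a, h1, h2, rfl⟩
    exact ⟨-r, a, h1, (e r a).2 h2, by rw [yt_op, neg_neg']⟩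

-- BEGIN gg
private theorem gg_ht1 (i : Fin 2) : ht (sr (sn i)).1 = 1 := by rw [ht_sr, sn_ht]

private theorem gg_ht2 (i : Fin 2) : ht (sr (sr (sn i))).1 = 1 := by rw [ht_sr, gg_ht1]

private theorem gg_hne {r : Root} {i : Fin 2} (h : ht r.1 ≠ 1) : r ≠ sn i ∧ r ≠ sr (sn i) ∧ r ≠ sr (sr (sn i)) := by
  refine ⟨?_, ?_, ?_⟩
  · rintro rfl
    exact h (sn_ht i)
  · rintro rfl
    exact h (gg_ht1 i)
  · rintro rfl
    exact h (gg_ht2 i)

private theorem gg_srp {i : Fin 2} {s : Root} (h : Pi' i s) : Pi' i (sr s) := by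
  refine ⟨by rw [ht_sr]; exact h.1, fun h1 => h.2.2.2 ?_, fun h1 => h.2.1 ?_, fun h1 => h.2.2.1 ?_⟩
  · rw [← h1, sr_sr_sr]
  · rw [← sr_sr_sr s, h1, sr_sr_sr]
  · rw [← sr_sr_sr s, h1, sr_sr_sr]

private theorem gg_padd {i : Fin 2} {s t u : Root} (hs : Pi' i s) (ht' : Pi' i t) (h : u.1 = s.1 + t.1) : Pi' i u := by
  have h1 : ht u.1 = ht s.1 + ht t.1 := by rw [h, ht_add]
  have h2 := hs.1
  have h3 := ht'.1
  exact ⟨by omega, gg_hne (by omega)⟩

private theorem gg_pup {i : Fin 2} {s t : Root} (hs : Pi' i s) (h : t.1 = (sn i).1 + s.1) : Pi' i t := by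
  have h1 : ht t.1 = 1 + ht s.1 := by rw [h, ht_add, sn_ht]
  have h2 := hs.1
  exact ⟨by omega, gg_hne (by omega)⟩

private theorem gg_pno {a b s : Root} (h1 : b = a ∨ b = sr a ∨ b = sr (sr a)) (h : s.1 = a.1 + b.1) : False := by
  have h2 := bf_of_add h
  have h0 := bf_root a
  have h3 := bf_self_sr a
  rcases h1 with h1 | h1 | h1
  · rw [h1] at h2
    omega
  · rw [h1] at h2
    rcases h3 with h3 | h3
    · rw [h3] at h2
      omega
    · omega
  · rw [h1, ← bf_sr_left, bf_comm] at h2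
    rcases h3 with h3 | h3
    · rw [h3] at h2
      omega
    · omega

private theorem gg_plo {i : Fin 2} {s t : Root} (hs : Pi' i s) (h : t.1 = (-sn i).1 + s.1) : Pi' i t := by
  have h1 : ht t.1 = ht s.1 - 1 := by
    rw [h, ht_add, neg_val, ht_neg, sn_ht]
    ring
  have h2 := hs.1
  have h3 := ht_ne t
  have h4 : s.1 = (sn i).1 + t.1 := by
    rw [h, neg_val]
    abel
  refine ⟨by omega, fun h5 => ?_, fun h5 => ?_, fun h5 => ?_⟩
  · exact gg_pno (Or.inl h5) h4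
  · exact gg_pno (Or.inr (Or.inl h5)) h4
  · exact gg_pno (Or.inr (Or.inr h5)) h4

/-- MODULE gg. Port of row `gg` of `Pool.Agent.ThF.Grt` (`Sy.conj` with `p = Pi' i`; the hypotheses about roots: heights, or `all_rts` and `decide`). -/
theorem Pi_up (h : Stb K x) (hτ : ∀ a, τ (τ (τ a)) = a) (i : Fin 2) {a : K} (ha : Ok τ (sn i) a) {u : G} (hu : u ∈ Sy x τ (Pi' i)) :
    yt x τ (sn i) a * u * (yt x τ (sn i) a)⁻¹ ∈ Sy x τ (Pi' i) := by
  refine Sy.conj h hτ (fun s hs => gg_srp hs) (fun s t u hs ht' h1 => gg_padd hs ht' h1) (fun s hs h1 => ?_)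
    (fun s t hs h1 => gg_pup hs h1) ha hu
  have h2 := hs.1
  rw [h1, neg_val, ht_neg, sn_ht] at h2
  omega

theorem Pi_lo (h : Stb K x) (hτ : ∀ a, τ (τ (τ a)) = a) (i : Fin 2) {a : K} (ha : Ok τ (sn i) a) {u : G} (hu : u ∈ Sy x τ (Pi' i)) :
    yt x τ (-sn i) a * u * (yt x τ (-sn i) a)⁻¹ ∈ Sy x τ (Pi' i) := by
  have ha' : Ok τ (-sn i) a := by
    intro h1
    apply ha
    rw [sr_neg] at h1
    rw [← neg_neg' (sr (sn i)), h1, neg_neg']
  refine Sy.conj h hτ (fun s hs => gg_srp hs) (fun s t u hs ht' h1 => gg_padd hs ht' h1) (fun s hs h1 => ?_)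
    (fun s t hs h1 => gg_plo hs h1) ha' hu
  rw [neg_neg'] at h1
  exact hs.2.1 h1

theorem Pi_split (h : Stb K x) (hτ : ∀ a, τ (τ (τ a)) = a) (i : Fin 2) {u : G} (hu : u ∈ Sy x τ fun r => 0 < ht r.1) :
    ∃ a, Ok τ (sn i) a ∧ ∃ u' ∈ Sy x τ (Pi' i), u = yt x τ (sn i) a * u' := by
  unfold Sy at hu
  induction hu using Subgroup.closure_induction with
  | mem g hg =>
    obtain ⟨r, a, hr, ha, rfl⟩ := hg
    by_cases h1 : r = sn i
    · subst h1
      exact ⟨a, ha, 1, Subgroup.one_mem _, (mul_one _).symm⟩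
    · by_cases h2 : r = sr (sn i)
      · have h3 : sr (sn i) ≠ sn i := fun h4 => h1 (h2.trans h4)
        have h6 := yt_sr h hτ h3 (τ (τ a))
        rw [hτ] at h6
        exact ⟨_, Ok.of_ne h3 _, 1, Subgroup.one_mem _, by rw [mul_one, h2, h6]⟩
      · by_cases h7 : r = sr (sr (sn i))
        · have h3 : sr (sn i) ≠ sn i := fun h4 => h1 (by rw [h7, h4, h4])
          have h6 := yt_sr h hτ h3 (τ a)
          have h8 := yt_sr h hτ (sr_ne h3) (τ (τ a))
          rw [hτ] at h8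
          exact ⟨_, Ok.of_ne h3 _, 1, Subgroup.one_mem _, by rw [mul_one, h7, h8, h6]⟩
        · refine ⟨0, fun _ => map_zero τ, _, Sy.mem (p := Pi' i) ⟨hr, h1, h2, h7⟩ ha, ?_⟩
          rw [yt_zero h, one_mul]
  | one => exact ⟨0, fun _ => map_zero τ, 1, Subgroup.one_mem _, by rw [yt_zero h, mul_one]⟩
  | mul g g' _ _ ih ih' =>
    obtain ⟨a, ha, u, hu, rfl⟩ := ih
    obtain ⟨b, hb, u', hu', rfl⟩ := ih'
    refine ⟨a + b, ha.add hb, _, Subgroup.mul_mem _ (Pi_up h hτ i hb.neg hu) hu', ?_⟩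
    rw [yt_add h, ← yt_inv h τ (sn i) b]
    group
  | inv g _ ih =>
    obtain ⟨a, ha, u, hu, rfl⟩ := ih
    refine ⟨-a, ha.neg, _, Pi_up h hτ i ha (Subgroup.inv_mem _ hu), ?_⟩
    rw [← yt_inv h τ (sn i) a]
    group
-- END gg

-- BEGIN gi
private theorem gi_rot (h : Stb K x) (hτ : ∀ a, τ (τ (τ a)) = a) {r : Root} (hr : sr r ≠ r) (a : K) : yt x τ (sr r) a = yt x τ r (τ (τ a)) := by
  rw [← yt_sr h hτ hr, hτ]

/-- MODULE gi. SPLITTING.  `q` and `p` are stable under `sr`, `p r ↔ q r ∨ (r in the orbit of ρ)`, `Sy x τ q` is normalized by the `y_ρ(a)`: every element of `Sy x τ p` is `y_ρ(a) * u'` (closure induction, as `Pi_split`). -/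
theorem Sy_split (h : Stb K x) (hτ : ∀ a, τ (τ (τ a)) = a) {p q : Root → Prop} {ρ : Root} (hpq : ∀ r, p r → q r ∨ r = ρ ∨ r = sr ρ ∨ r = sr (sr ρ))
    (hn : ∀ a, Ok τ ρ a → ∀ u ∈ Sy x τ q, yt x τ ρ a * u * (yt x τ ρ a)⁻¹ ∈ Sy x τ q) {u : G} (hu : u ∈ Sy x τ p) :
    ∃ a, Ok τ ρ a ∧ ∃ u' ∈ Sy x τ q, u = yt x τ ρ a * u' := by
  have key0 : ∀ a : K, Ok τ ρ a → ∀ y : G, (∃ b, Ok τ ρ b ∧ ∃ u' ∈ Sy x τ q, y = yt x τ ρ b * u') →
      ∃ b, Ok τ ρ b ∧ ∃ u' ∈ Sy x τ q, yt x τ ρ a * y = yt x τ ρ b * u' := by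
    rintro a ha y ⟨b, hb, u', hu', rfl⟩
    exact ⟨a + b, ha.add hb, u', hu', by rw [yt_add h, mul_assoc]⟩
  have key : ∀ (s : Root) (a : K), p s → Ok τ s a → ∀ y : G, (∃ b, Ok τ ρ b ∧ ∃ u' ∈ Sy x τ q, y = yt x τ ρ b * u') →
      ∃ b, Ok τ ρ b ∧ ∃ u' ∈ Sy x τ q, yt x τ s a * y = yt x τ ρ b * u' := by
    intro s a hps hoa y hy
    rcases hpq s hps with hqs | hs
    · obtain ⟨b, hb, u', hu', rfl⟩ := hy
      refine ⟨b, hb, (yt x τ ρ (-b) * yt x τ s a * (yt x τ ρ (-b))⁻¹) * u', (Sy x τ q).mul_mem (hn _ hb.neg _ (Sy.mem hqs hoa)) hu', ?_⟩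
      have h9 : yt x τ ρ (-b) = (yt x τ ρ b)⁻¹ := (yt_inv h τ ρ b).symm
      rw [h9]
      group
    · by_cases h7 : sr ρ = ρ
      · have h8 : s = ρ := by
          rcases hs with h8 | h8 | h8
          · exact h8
          · rw [h8, h7]
          · rw [h8, h7, h7]
        subst h8
        exact key0 a hoa y hy
      · rcases hs with rfl | rfl | rfl
        · exact key0 a hoa y hy
        · rw [gi_rot h hτ h7]
          exact key0 _ (Ok.of_ne h7 _) y hy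
        · rw [gi_rot h hτ (sr_ne h7), gi_rot h hτ h7]
          exact key0 _ (Ok.of_ne h7 _) y hy
  unfold Sy at hu
  induction hu using Subgroup.closure_induction_left with
  | one => exact ⟨0, fun _ => map_zero τ, 1, (Sy x τ q).one_mem, by rw [yt_zero h, mul_one]⟩
  | mul_left g hg y hy ih =>
    obtain ⟨s, a, hps, ha, rfl⟩ := hg
    exact key s a hps ha y ih
  | inv_mul_cancel g hg y hy ih =>
    obtain ⟨s, a, hps, ha, rfl⟩ := hg
    rw [yt_inv h]
    exact key s (-a) hps ha.neg y ih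

private theorem gi_aux (h : Stb K x) (hτ : ∀ a, τ (τ (τ a)) = a) (m : ℕ) : ∀ F : Finset Root, F.card = m → (∀ r ∈ F, 0 < ht r.1 ∧ rp r.1) →
    (∀ r s t : Root, rr r ∈ F → rr s ∈ F → t.1 = r.1 + s.1 → rr t ∈ F) → ∀ u ∈ Sy x τ (fun r => rr r ∈ F),
      ∃ L : List (Root × K), (L.map Prod.fst).Nodup ∧ (∀ p ∈ L, p.1 ∈ F ∧ p.2 ≠ 0 ∧ Ok τ p.1 p.2) ∧ u = (L.map fun p => yt x τ p.1 p.2).prod := by
  classical
  induction m with
  | zero =>
    intro F hF _ _ u hu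
    rw [Finset.card_eq_zero] at hF
    subst hF
    have h3 : Sy x τ (fun r => rr r ∈ (∅ : Finset Root)) = ⊥ := by
      unfold Sy
      rw [Subgroup.closure_eq_bot_iff]
      rintro g ⟨r, a, hr, -⟩
      exact absurd hr (Finset.notMem_empty _)
    rw [h3, Subgroup.mem_bot] at hu
    exact ⟨[], List.nodup_nil, fun p hp => absurd hp List.not_mem_nil, by rw [hu, List.map_nil, List.prod_nil]⟩
  | succ m IH =>
    intro F hF h1 h2 u hu
    have hne : F.Nonempty := by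
      rw [← Finset.card_pos, hF]
      exact Nat.succ_pos m
    obtain ⟨r, hr, hmin⟩ := Finset.exists_min_image F (fun r => ht r.1) hne
    have hrr : rr r = r := if_pos (h1 r hr).2
    have hrs : ∀ s, rr (sr s) = rr s := fun s => (rr_iff (sr s) s).2 (Or.inr (Or.inl rfl))
    have hge : ∀ s, rr s ∈ F → ht r.1 ≤ ht s.1 := by
      intro s hs
      rw [← rr_ht s]
      exact hmin _ hs
    have hr0 : 0 < ht r.1 := (h1 r hr).1
    have h3 : ∀ t : Root, rr t ∈ F → ht r.1 < ht t.1 → rr t ∈ F.erase r := by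
      intro t ht1 ht2
      refine Finset.mem_erase.2 ⟨?_, ht1⟩
      intro e
      rw [← rr_ht t, e] at ht2
      exact lt_irrefl _ ht2
    have h4 : ∀ s t w : Root, rr s ∈ F.erase r → rr t ∈ F.erase r → w.1 = s.1 + t.1 → rr w ∈ F.erase r := by
      intro s t w hs ht1 hw
      have hs' := (Finset.mem_erase.1 hs).2
      have ht' := (Finset.mem_erase.1 ht1).2
      refine h3 w (h2 s t w hs' ht' hw) ?_
      rw [hw, ht_add]
      have := hge s hs'
      have := hge t ht'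
      omega
    have h5 : ∀ a, Ok τ r a → ∀ g ∈ Sy x τ (fun s => rr s ∈ F.erase r), yt x τ r a * g * (yt x τ r a)⁻¹ ∈ Sy x τ (fun s => rr s ∈ F.erase r) := by
      intro a ha g hg
      refine Sy.conj h hτ (fun s hs => ?_) h4 (fun s hs => ?_) (fun s t hs ht1 => ?_) ha hg
      · show rr (sr s) ∈ F.erase r
        rw [hrs]
        exact hs
      · have h6 := hge s (Finset.mem_erase.1 hs).2
        intro e
        rw [e, neg_val, ht_neg] at h6
        omega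
      · have hs' := (Finset.mem_erase.1 hs).2
        have h6 := hge s hs'
        refine h3 t (h2 r s t (by rw [hrr]; exact hr) hs' ht1) ?_
        rw [ht1, ht_add]
        omega
    obtain ⟨b, hob, u', hu', rfl⟩ := Sy_split h hτ (p := fun s => rr s ∈ F) (q := fun s => rr s ∈ F.erase r) (ρ := r)
      (fun s hs => by
        by_cases hsr : rr s = r
        · right
          rcases rr_or s with h6 | h6 | h6
          · exact Or.inl (h6.symm.trans hsr)
          · right; right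
            rw [← hsr, h6, sr_sr_sr]
          · right; left
            rw [← hsr, h6, sr_sr_sr]
        · exact Or.inl (Finset.mem_erase.2 ⟨hsr, hs⟩))
      h5 hu
    obtain ⟨L, hL1, hL2, rfl⟩ := IH (F.erase r) (by rw [Finset.card_erase_of_mem hr, hF]; rfl)
      (fun s hs => h1 s (Finset.mem_erase.1 hs).2) h4 u' hu'
    by_cases hb : b = 0
    · refine ⟨L, hL1, fun p hp => ⟨(Finset.mem_erase.1 (hL2 p hp).1).2, (hL2 p hp).2⟩, ?_⟩
      rw [hb, yt_zero h, one_mul]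
    · refine ⟨(r, b) :: L, ?_, ?_, ?_⟩
      · rw [List.map_cons, List.nodup_cons]
        refine ⟨?_, hL1⟩
        intro hm
        obtain ⟨p, hp, hpr⟩ := List.mem_map.1 hm
        exact (Finset.mem_erase.1 (hL2 p hp).1).1 hpr
      · intro p hp
        rcases List.mem_cons.1 hp with rfl | hp
        · exact ⟨hr, hb, hob⟩
        · exact ⟨(Finset.mem_erase.1 (hL2 p hp).1).2, (hL2 p hp).2⟩
      · rw [List.map_cons, List.prod_cons]

/-- NORMAL FORM, port of `Sy_list`, `Up_listY` (row `gi` of `Pool.Agent.ThF.Grt`). -/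
theorem Sy_list (h : Stb K x) (hτ : ∀ a, τ (τ (τ a)) = a) (F : Finset Root) (h1 : ∀ r ∈ F, 0 < ht r.1 ∧ rp r.1) (h2 : ∀ r s t : Root, rr r ∈ F → rr s ∈ F → t.1 = r.1 + s.1 → rr t ∈ F) {u : G}
    (hu : u ∈ Sy x τ fun r => rr r ∈ F) : ∃ L : List (Root × K), (L.map Prod.fst).Nodup ∧ (∀ p ∈ L, p.1 ∈ F ∧ p.2 ≠ 0 ∧ Ok τ p.1 p.2) ∧ u = (L.map fun p => yt x τ p.1 p.2).prod :=
  gi_aux h hτ F.card F rfl h1 h2 u hu

theorem Up_listY (h : Stb K x) (hτ : ∀ a, τ (τ (τ a)) = a) {u : G} (hu : u ∈ Sy x τ fun r => 0 < ht r.1) :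
    ∃ L : List (Root × K), (L.map Prod.fst).Nodup ∧ (∀ p ∈ L, (0 < ht p.1.1 ∧ rp p.1.1) ∧ p.2 ≠ 0 ∧ Ok τ p.1 p.2) ∧ u = (L.map fun p => yt x τ p.1 p.2).prod := by
  classical
  have hfin : Finite Root := finite_root
  have hf : Set.Finite {r : Root | 0 < ht r.1 ∧ rp r.1} := Set.toFinite _
  have hm : ∀ r : Root, r ∈ hf.toFinset ↔ 0 < ht r.1 ∧ rp r.1 := fun r => hf.mem_toFinset
  have hm2 : ∀ r : Root, rr r ∈ hf.toFinset ↔ 0 < ht r.1 := by
    intro r
    rw [hm, rr_ht]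
    exact ⟨fun h => h.1, fun h => ⟨h, rr_rp r⟩⟩
  obtain ⟨L, h3, h4, h5⟩ := Sy_list h hτ hf.toFinset (fun r hr => (hm r).1 hr) (fun r s t hr hs ht1 => by
    rw [hm2] at hr hs ⊢
    rw [ht1, ht_add]
    omega) (Sy.mono x τ (fun r hr => (hm2 r).2 hr) hu)
  exact ⟨L, h3, fun p hp => ⟨(hm p.1).1 (h4 p hp).1, (h4 p hp).2⟩, h5⟩
-- END gi

/-- the torus element -/
def hz (x : Root → K → G) (τ : K →+* K) (z : ∀ i : Fin 2, (Sf τ i)ˣ) : G :=
  hy x τ (sn 0) ((z 0 : Sf τ 0) : K) * hy x τ (sn 1) ((z 1 : Sf τ 1) : K)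

/-- the factor of `hy x τ r c` in the character of `s` -/
def cy (τ : K →+* K) (r : Root) (s : Vec) (c : K) : K := if sr r = r then c ^ bf r.1 s else c ^ bf r.1 s * (τ c) ^ bf (sr r).1 s * (τ (τ c)) ^ bf (sr (sr r)).1 s

/-- the character of `s` on the torus -/
def chY (τ : K →+* K) (s : Vec) (z : ∀ i : Fin 2, (Sf τ i)ˣ) : K := cy τ (sn 0) s ((z 0 : Sf τ 0) : K) * cy τ (sn 1) s ((z 1 : Sf τ 1) : K)

-- BEGIN gj
private theorem gj_ne {S : Subfield K} (z : Sˣ) : ((z : S) : K) ≠ 0 := by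
  intro h
  apply z.ne_zero
  exact Subtype.ext h

private theorem gj_bf (r s : Root) : bf (sr (sr r)).1 s.1 = bf r.1 (sr s).1 := by
  rw [bf_sr_left, bf_sr_left, sr_sr_sr]

private theorem gj_cy_sr (hτ : ∀ a, τ (τ (τ a)) = a) (r s : Root) {c : K} (hr : Ok τ r c) : cy τ r (sr s).1 c = τ (cy τ r s.1 c) := by
  unfold cy
  by_cases h : sr r = r
  · have h1 := bf_sr r s
    rw [h] at h1
    rw [if_pos h, if_pos h, map_zpow₀, hr h, h1]
  · have e1 : bf (sr r).1 (sr s).1 = bf r.1 s.1 := bf_sr r s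
    have e2 : bf (sr (sr r)).1 (sr s).1 = bf (sr r).1 s.1 := bf_sr (sr r) s
    have e3 : bf r.1 (sr s).1 = bf (sr (sr r)).1 s.1 := (gj_bf r s).symm
    rw [if_neg h, if_neg h, map_mul, map_mul, map_zpow₀, map_zpow₀, map_zpow₀, hτ, e1, e2, e3]
    ring

private theorem gj_x (h : Stb K x) (τ : K →+* K) (r s : Root) {c : K} (hc : c ≠ 0) (b : K) :
    hy x τ r c * x s b * (hy x τ r c)⁻¹ = x s (cy τ r s.1 c * b) := by
  unfold hy cy
  by_cases hf : sr r = r
  · rw [if_pos hf, if_pos hf]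
    exact hh_conj h r s hc b
  · rw [if_neg hf, if_neg hf]
    have h1 := hh_conj h (sr (sr r)) s ((map_ne_zero τ).2 ((map_ne_zero τ).2 hc)) b
    have h2 := hh_conj h (sr r) s ((map_ne_zero τ).2 hc) (τ (τ c) ^ bf (sr (sr r)).1 s.1 * b)
    have h3 := hh_conj h r s hc (τ c ^ bf (sr r).1 s.1 * (τ (τ c) ^ bf (sr (sr r)).1 s.1 * b))
    calc hh x r c * hh x (sr r) (τ c) * hh x (sr (sr r)) (τ (τ c)) * x s b * (hh x r c * hh x (sr r) (τ c) * hh x (sr (sr r)) (τ (τ c)))⁻¹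
        = hh x r c * (hh x (sr r) (τ c) * (hh x (sr (sr r)) (τ (τ c)) * x s b * (hh x (sr (sr r)) (τ (τ c)))⁻¹) * (hh x (sr r) (τ c))⁻¹) * (hh x r c)⁻¹ := by group
      _ = x s (c ^ bf r.1 s.1 * τ c ^ bf (sr r).1 s.1 * τ (τ c) ^ bf (sr (sr r)).1 s.1 * b) := by
        rw [h1, h2, h3]
        congr 1
        ring

private theorem gj_key (h : Stb K x) (r s : Root) {a b : K} (ha : a ≠ 0) (hb : b ≠ 0) : Commute (hh x r a) (hh x s b) := hh_comm h r s ha hb

private theorem gj_half (h : Stb K x) (r s : Root) {a b : K} (ha : a ≠ 0) (hb : b ≠ 0) : Commute (hh x r a) (hy x τ s b) := by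
  have h1 : τ b ≠ 0 := (map_ne_zero τ).2 hb
  have h2 : τ (τ b) ≠ 0 := (map_ne_zero τ).2 h1
  unfold hy
  split_ifs
  · exact gj_key h r s ha hb
  · exact ((gj_key h r s ha hb).mul_right (gj_key h r (sr s) ha h1)).mul_right (gj_key h r (sr (sr s)) ha h2)

/-- MODULE gj. Port of row `gj` of `Pool.Agent.ThF.Grt` (two nodes instead of four; `hh_conj`, `hh_comm`, `Stb.tor`; `cy` at `sg s` is `τ` of `cy` at `s`: `bf_sr`). -/
theorem Sf_fix {i : Fin 2} (hi : (i : ℕ) < 1) (a : Sf τ i) : τ (a : K) = a := by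
  have h2 : Sf τ i = Fx τ := if_pos hi
  have h3 : Sf τ i ≤ Fx τ := le_of_eq h2
  exact mem_Fx.1 (h3 a.2)

theorem Sf_ok (i : Fin 2) (a : Sf τ i) : Ok τ (sn i) (a : K) := by
  intro h
  exact Sf_fix ((sn_fix i).1 h) a

theorem Sf_of {i : Fin 2} {a : K} (h : Ok τ (sn i) a) : ∃ b : Sf τ i, (b : K) = a := by
  by_cases hi : (i : ℕ) < 1
  · have h1 : τ a = a := h ((sn_fix i).2 hi)
    have h2 : Sf τ i = Fx τ := if_pos hi
    have h3 : a ∈ Sf τ i := by
      rw [h2]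
      exact mem_Fx.2 h1
    exact ⟨⟨a, h3⟩, rfl⟩
  · have h2 : Sf τ i = ⊤ := if_neg hi
    have h3 : a ∈ Sf τ i := by
      rw [h2]
      exact Subfield.mem_top a
    exact ⟨⟨a, h3⟩, rfl⟩

theorem hy_mul (h : Stb K x) (r : Root) {a b : K} (ha : a ≠ 0) (hb : b ≠ 0) : hy x τ r (a * b) = hy x τ r a * hy x τ r b := by
  have ha1 : τ a ≠ 0 := (map_ne_zero τ).2 ha
  have hb1 : τ b ≠ 0 := (map_ne_zero τ).2 hb
  have ha2 : τ (τ a) ≠ 0 := (map_ne_zero τ).2 ha1
  have hb2 : τ (τ b) ≠ 0 := (map_ne_zero τ).2 hb1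
  unfold hy
  split_ifs with h1
  · exact h.tor r a b ha hb
  · rw [h.tor r a b ha hb, map_mul, h.tor (sr r) (τ a) (τ b) ha1 hb1, map_mul, h.tor (sr (sr r)) (τ (τ a)) (τ (τ b)) ha2 hb2]
    have c1 := hh_comm h r (sr r) hb ha1
    have c2 := hh_comm h r (sr (sr r)) hb ha2
    have c3 := hh_comm h (sr r) (sr (sr r)) hb1 ha2
    calc hh x r a * hh x r b * (hh x (sr r) (τ a) * hh x (sr r) (τ b)) * (hh x (sr (sr r)) (τ (τ a)) * hh x (sr (sr r)) (τ (τ b)))
        = hh x r a * (hh x r b * hh x (sr r) (τ a)) * (hh x (sr r) (τ b) * hh x (sr (sr r)) (τ (τ a))) * hh x (sr (sr r)) (τ (τ b)) := by group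
      _ = hh x r a * hh x (sr r) (τ a) * (hh x r b * hh x (sr (sr r)) (τ (τ a))) * hh x (sr r) (τ b) * hh x (sr (sr r)) (τ (τ b)) := by rw [c1, c3]; group
      _ = _ := by rw [c2]; group

theorem hy_comm (h : Stb K x) (r s : Root) {a b : K} (ha : a ≠ 0) (hb : b ≠ 0) : hy x τ r a * hy x τ s b = hy x τ s b * hy x τ r a := by
  have ha1 : τ a ≠ 0 := (map_ne_zero τ).2 ha
  have ha2 : τ (τ a) ≠ 0 := (map_ne_zero τ).2 ha1
  have h1 : Commute (hy x τ r a) (hy x τ s b) := by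
    by_cases hr : sr r = r
    · have e : hy x τ r a = hh x r a := if_pos hr
      rw [e]
      exact gj_half h r s ha hb
    · have e : hy x τ r a = hh x r a * hh x (sr r) (τ a) * hh x (sr (sr r)) (τ (τ a)) := if_neg hr
      rw [e]
      exact ((gj_half h r s ha hb).mul_left (gj_half h (sr r) s ha1 hb)).mul_left (gj_half h (sr (sr r)) s ha2 hb)
  exact h1

theorem hy_one (h : Stb K x) (r : Root) : hy x τ r 1 = 1 := by
  unfold hy
  split_ifs
  · exact hh_one h r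
  · rw [map_one, map_one, hh_one h r, hh_one h (sr r), hh_one h (sr (sr r)), one_mul, one_mul]

/-- `h_r(c) y_s(b) h_r(c)⁻¹ = y_s(cy b)` -/
theorem hy_conj (h : Stb K x) (hτ : ∀ a, τ (τ (τ a)) = a) (r s : Root) {c : K} (hc : c ≠ 0) (ho : Ok τ r c) (b : K) : hy x τ r c * yt x τ s b * (hy x τ r c)⁻¹ = yt x τ s (cy τ r s.1 c * b) := by
  by_cases hs : sr s = s
  · rw [yt_fix x τ hs, yt_fix x τ hs]
    exact gj_x h τ r s hc b
  · rw [yt_mov x τ hs, yt_mov x τ hs]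
    have h1 := gj_x h τ r s hc b
    have h2 := gj_x h τ r (sr s) hc (τ b)
    have h3 := gj_x h τ r (sr (sr s)) hc (τ (τ b))
    rw [gj_cy_sr hτ r s ho, ← map_mul] at h2
    rw [gj_cy_sr hτ r (sr s) ho, gj_cy_sr hτ r s ho, ← map_mul, ← map_mul] at h3
    calc hy x τ r c * (x s b * x (sr s) (τ b) * x (sr (sr s)) (τ (τ b))) * (hy x τ r c)⁻¹
        = (hy x τ r c * x s b * (hy x τ r c)⁻¹) * (hy x τ r c * x (sr s) (τ b) * (hy x τ r c)⁻¹) * (hy x τ r c * x (sr (sr s)) (τ (τ b)) * (hy x τ r c)⁻¹) := by group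
      _ = _ := by rw [h1, h2, h3]

theorem hzY_mul (h : Stb K x) (z w : ∀ i : Fin 2, (Sf τ i)ˣ) : hz x τ (z * w) = hz x τ z * hz x τ w := by
  have hm : ∀ i : Fin 2, hy x τ (sn i) (((z * w) i : Sf τ i) : K) = hy x τ (sn i) ((z i : Sf τ i) : K) * hy x τ (sn i) ((w i : Sf τ i) : K) := by
    intro i
    rw [← hy_mul h (sn i) (gj_ne (z i)) (gj_ne (w i))]
    rfl
  have hc : hy x τ (sn 0) ((w 0 : Sf τ 0) : K) * hy x τ (sn 1) ((z 1 : Sf τ 1) : K) = hy x τ (sn 1) ((z 1 : Sf τ 1) : K) * hy x τ (sn 0) ((w 0 : Sf τ 0) : K) :=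
    hy_comm h (sn 0) (sn 1) (gj_ne (w 0)) (gj_ne (z 1))
  unfold hz
  rw [hm 0, hm 1]
  calc _ = hy x τ (sn 0) ((z 0 : Sf τ 0) : K) * (hy x τ (sn 0) ((w 0 : Sf τ 0) : K) * hy x τ (sn 1) ((z 1 : Sf τ 1) : K)) * hy x τ (sn 1) ((w 1 : Sf τ 1) : K) := by group
    _ = _ := by rw [hc]; group

theorem hzY_conj (h : Stb K x) (hτ : ∀ a, τ (τ (τ a)) = a) (z : ∀ i : Fin 2, (Sf τ i)ˣ) (s : Root) (b : K) : hz x τ z * yt x τ s b * (hz x τ z)⁻¹ = yt x τ s (chY τ s.1 z * b) := by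
  have hc : ∀ (i : Fin 2) (b : K), hy x τ (sn i) ((z i : Sf τ i) : K) * yt x τ s b * (hy x τ (sn i) ((z i : Sf τ i) : K))⁻¹ = yt x τ s (cy τ (sn i) s.1 ((z i : Sf τ i) : K) * b) :=
    fun i b => hy_conj h hτ (sn i) s (gj_ne (z i)) (Sf_ok i (z i : Sf τ i)) b
  unfold hz chY
  calc _ = hy x τ (sn 0) ((z 0 : Sf τ 0) : K) * (hy x τ (sn 1) ((z 1 : Sf τ 1) : K) * yt x τ s b * (hy x τ (sn 1) ((z 1 : Sf τ 1) : K))⁻¹) * (hy x τ (sn 0) ((z 0 : Sf τ 0) : K))⁻¹ := by group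
    _ = _ := by
      rw [hc 1, hc 0]
      congr 1
      ring

theorem hzY_upd (h : Stb K x) (i : Fin 2) (t : (Sf τ i)ˣ) (z : ∀ i : Fin 2, (Sf τ i)ˣ) :
    hy x τ (sn i) ((t : Sf τ i) : K) * hz x τ z = hz x τ (Function.update z i (t * z i)) := by
  have hc : ∀ j : Fin 2, hy x τ (sn i) ((t : Sf τ i) : K) * hy x τ (sn j) ((z j : Sf τ j) : K) = hy x τ (sn j) ((z j : Sf τ j) : K) * hy x τ (sn i) ((t : Sf τ i) : K) :=
    fun j => hy_comm h (sn i) (sn j) (gj_ne t) (gj_ne (z j))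
  have hm : hy x τ (sn i) (((t * z i : (Sf τ i)ˣ) : Sf τ i) : K) = hy x τ (sn i) ((t : Sf τ i) : K) * hy x τ (sn i) ((z i : Sf τ i) : K) := by
    rw [← hy_mul h (sn i) (gj_ne t) (gj_ne (z i))]
    rfl
  have hs : ∀ j : Fin 2, hy x τ (sn j) ((Function.update z i (t * z i) j : Sf τ j) : K) =
      if j = i then hy x τ (sn i) ((t : Sf τ i) : K) * hy x τ (sn j) ((z j : Sf τ j) : K) else hy x τ (sn j) ((z j : Sf τ j) : K) := by
    intro j
    by_cases hj : j = i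
    · subst hj
      rw [if_pos rfl, Function.update_self, hm]
    · rw [if_neg hj, Function.update_of_ne hj]
  unfold hz
  rw [hs 0, hs 1]
  have h0 := hc 0
  have hi : i = 0 ∨ i = 1 := by
    fin_cases i
    · exact Or.inl rfl
    · exact Or.inr rfl
  rcases hi with hi | hi
  · rw [if_pos hi.symm, if_neg (by rw [hi]; decide), mul_assoc]
  · rw [if_neg (by rw [hi]; decide), if_pos hi.symm, ← mul_assoc, h0, mul_assoc]
-- END gj

-- BEGIN gk
private theorem gk_ne {S : Subfield K} (z : Sˣ) : ((z : S) : K) ≠ 0 := by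
  intro h
  apply z.ne_zero
  exact Subtype.ext h

private theorem gk_zero (s : Vec) (c : K) : cy τ (sn 0) s c = c ^ bf (sn 0).1 s := if_pos (by decide)

private theorem gk_one (s : Vec) (c : K) : cy τ (sn 1) s c = c ^ bf (sn 1).1 s * τ c ^ bf (sr (sn 1)).1 s * τ (τ c) ^ bf (sr (sr (sn 1))).1 s := if_neg (by decide)

private theorem gk_cy_ne (r : Root) (s : Vec) {c : K} (hc : c ≠ 0) : cy τ r s c ≠ 0 := by
  have h1 : τ c ≠ 0 := (map_ne_zero τ).2 hc
  have h2 : τ (τ c) ≠ 0 := (map_ne_zero τ).2 h1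
  unfold cy
  split_ifs
  · exact zpow_ne_zero _ hc
  · exact mul_ne_zero (mul_ne_zero (zpow_ne_zero _ hc) (zpow_ne_zero _ h1)) (zpow_ne_zero _ h2)

private theorem gk_cy_add (r : Root) (s t : Vec) {c : K} (hc : c ≠ 0) : cy τ r (s + t) c = cy τ r s c * cy τ r t c := by
  have h1 : τ c ≠ 0 := (map_ne_zero τ).2 hc
  have h2 : τ (τ c) ≠ 0 := (map_ne_zero τ).2 h1
  unfold cy
  split_ifs
  · rw [bf_add_right, zpow_add₀ hc]
  · rw [bf_add_right, bf_add_right, bf_add_right, zpow_add₀ hc, zpow_add₀ h1, zpow_add₀ h2]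
    ring

private theorem gk_cy_neg (r : Root) (s : Vec) (c : K) : cy τ r (-s) c = (cy τ r s c)⁻¹ := by
  unfold cy
  split_ifs
  · rw [bf_neg_right, zpow_neg]
  · rw [bf_neg_right, bf_neg_right, bf_neg_right, zpow_neg, zpow_neg, zpow_neg, mul_inv, mul_inv]

/-- MODULE gk. VALUES OF THE CHARACTERS: `(α, α) = 2`, `(β_i, α) = -1`; `(α, β_0) = -1`, `(β_0, β_0) = 2`, `(β_1, β_0) = (β_2, β_0) = 0`. -/
theorem chY_zero (z : ∀ i : Fin 2, (Sf τ i)ˣ) : chY τ (sn 0).1 z = ((z 0 : Sf τ 0) : K) ^ 2 * (((z 1 : Sf τ 1) : K) * τ ((z 1 : Sf τ 1) : K) * τ (τ ((z 1 : Sf τ 1) : K)))⁻¹ := by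
  have b0 : bf (sn 0).1 (sn 0).1 = 2 := by decide
  have b1 : bf (sn 1).1 (sn 0).1 = -1 := by decide
  have b2 : bf (sr (sn 1)).1 (sn 0).1 = -1 := by decide
  have b3 : bf (sr (sr (sn 1))).1 (sn 0).1 = -1 := by decide
  unfold chY
  rw [gk_zero, gk_one, b0, b1, b2, b3, mul_inv, mul_inv]
  simp only [zpow_neg_one, zpow_ofNat]

theorem chY_one (z : ∀ i : Fin 2, (Sf τ i)ˣ) : chY τ (sn 1).1 z = ((z 1 : Sf τ 1) : K) ^ 2 * (((z 0 : Sf τ 0) : K))⁻¹ := by
  have b0 : bf (sn 0).1 (sn 1).1 = -1 := by decide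
  have b1 : bf (sn 1).1 (sn 1).1 = 2 := by decide
  have b2 : bf (sr (sn 1)).1 (sn 1).1 = 0 := by decide
  have b3 : bf (sr (sr (sn 1))).1 (sn 1).1 = 0 := by decide
  unfold chY
  rw [gk_zero, gk_one, b0, b1, b2, b3]
  simp only [zpow_neg_one, zpow_ofNat]
  ring

/-- multiplicativity in the root -/
theorem chY_add (s t : Vec) (z : ∀ i : Fin 2, (Sf τ i)ˣ) : chY τ (s + t) z = chY τ s z * chY τ t z := by
  unfold chY
  rw [gk_cy_add _ s t (gk_ne (z 0)), gk_cy_add _ s t (gk_ne (z 1))]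
  ring

theorem chY_neg (s : Vec) (z : ∀ i : Fin 2, (Sf τ i)ˣ) : chY τ (-s) z = (chY τ s z)⁻¹ := by
  unfold chY
  rw [gk_cy_neg, gk_cy_neg, mul_inv]

theorem chY_sg (hτ : ∀ a, τ (τ (τ a)) = a) (s : Vec) (z : ∀ i : Fin 2, (Sf τ i)ˣ) : chY τ (sg s) z = τ (chY τ s z) := by
  have e0 : bf (sn 0).1 (sg s) = bf (sn 0).1 s := by
    have h1 := bf_sg (sn 0).1 s
    have h2 : sg (sn 0).1 = (sn 0).1 := by decide
    rw [h2] at h1
    exact h1
  have e1 : bf (sn 1).1 (sg s) = bf (sr (sr (sn 1))).1 s := by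
    have h1 := bf_sg (sr (sr (sn 1))).1 s
    have h2 : sg (sr (sr (sn 1))).1 = (sn 1).1 := by decide
    rw [h2] at h1
    exact h1
  have e2 : bf (sr (sn 1)).1 (sg s) = bf (sn 1).1 s := bf_sg (sn 1).1 s
  have e3 : bf (sr (sr (sn 1))).1 (sg s) = bf (sr (sn 1)).1 s := bf_sg (sr (sn 1)).1 s
  have h0 : τ ((z 0 : Sf τ 0) : K) = ((z 0 : Sf τ 0) : K) := Sf_fix (by decide) (z 0 : Sf τ 0)
  unfold chY
  rw [gk_zero, gk_zero, gk_one, gk_one, map_mul, map_mul, map_mul, map_zpow₀, map_zpow₀, map_zpow₀, map_zpow₀, hτ, h0, e0, e1, e2, e3]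
  ring

theorem exists_ch (hτ : ∀ a, τ (τ (τ a)) = a) : ∃ χ : ∀ j : Fin 2, (∀ i : Fin 2, (Sf τ i)ˣ) → (Sf τ j)ˣ, ∀ j z, ((χ j z : Sf τ j) : K) = chY τ (sn j).1 z := by
  have key : ∀ (j : Fin 2) (z : ∀ i : Fin 2, (Sf τ i)ˣ), ∃ u : (Sf τ j)ˣ, ((u : Sf τ j) : K) = chY τ (sn j).1 z := by
    intro j z
    have h2 : Ok τ (sn j) (chY τ (sn j).1 z) := by
      intro hj
      have h3 := chY_sg hτ (sn j).1 z
      have h4 : sg (sn j).1 = (sn j).1 := congrArg Subtype.val hj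
      rw [h4] at h3
      exact h3.symm
    obtain ⟨b, hb⟩ := Sf_of h2
    have h4 : chY τ (sn j).1 z ≠ 0 := by
      unfold chY
      exact mul_ne_zero (gk_cy_ne _ _ (gk_ne (z 0))) (gk_cy_ne _ _ (gk_ne (z 1)))
    have h5 : b ≠ 0 := by
      rintro rfl
      exact h4 hb.symm
    exact ⟨Units.mk0 b h5, hb⟩
  choose χ hχ using key
  exact ⟨χ, hχ⟩
-- END gk

-- BEGIN gl
private theorem gl_val00 : wf (sn 0) (sn 0) = -sn 0 := by decide

private theorem gl_val11 : wf (sn 1) (sn 1) = -sn 1 := by decide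

private theorem gl_val01 : (wf (sn 0) (sn 1)).1 = (sn 1).1 + (sn 0).1 := by decide

private theorem gl_val10 : ∃ u v : Root, u.1 = (sn 0).1 + (sn 1).1 ∧ v.1 = u.1 + (sr (sn 1)).1 ∧
    (wf (sn 1) (sn 0)).1 = v.1 + (sr (sr (sn 1))).1 :=
  ⟨rf (sn 1) (sn 0), rf (sr (sn 1)) (rf (sn 1) (sn 0)), by decide, by decide, by decide⟩

private theorem gl_one (h : Stb K x) : hz x τ (1 : ∀ i : Fin 2, (Sf τ i)ˣ) = 1 := by
  have h1 : ∀ j : Fin 2, hy x τ (sn j) (((1 : ∀ i : Fin 2, (Sf τ i)ˣ) j : Sf τ j) : K) = 1 := fun j => hy_one h (sn j)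
  unfold hz
  rw [h1 0, h1 1, mul_one]

private theorem gl_ok (h : Stb K x) (j : Fin 2) {c : K} (hc : c ≠ 0) (ho : Ok τ (sn j) c) : ∃ z' : ∀ i : Fin 2, (Sf τ i)ˣ, hy x τ (sn j) c = hz x τ z' := by
  obtain ⟨b, hb⟩ := Sf_of ho
  have hb0 : b ≠ 0 := by
    rintro rfl
    exact hc hb.symm
  refine ⟨Function.update (1 : ∀ i : Fin 2, (Sf τ i)ˣ) j (Units.mk0 b hb0 * (1 : ∀ i : Fin 2, (Sf τ i)ˣ) j), ?_⟩
  rw [← hzY_upd h j (Units.mk0 b hb0) 1, gl_one h, mul_one, ← hb]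
  rfl

private theorem gl_mul (h : Stb K x) {a b : G} (ha : ∃ z' : ∀ i : Fin 2, (Sf τ i)ˣ, a = hz x τ z') (hb : ∃ z' : ∀ i : Fin 2, (Sf τ i)ˣ, b = hz x τ z') :
    ∃ z' : ∀ i : Fin 2, (Sf τ i)ˣ, a * b = hz x τ z' := by
  obtain ⟨z, rfl⟩ := ha
  obtain ⟨w, rfl⟩ := hb
  exact ⟨z * w, (hzY_mul h z w).symm⟩

private theorem gl_nn (h : Stb K x) (r s : Root) {c : K} (hc : c ≠ 0) : ny x r * hh x s c * (ny x r)⁻¹ = hh x (wf r s) c := by
  unfold ny wf
  split_ifs with h1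
  · exact nn_hh h r s one_ne_zero hc
  · calc nn x r 1 * nn x (sr r) 1 * nn x (sr (sr r)) 1 * hh x s c * (nn x r 1 * nn x (sr r) 1 * nn x (sr (sr r)) 1)⁻¹
        = nn x r 1 * (nn x (sr r) 1 * (nn x (sr (sr r)) 1 * hh x s c * (nn x (sr (sr r)) 1)⁻¹) * (nn x (sr r) 1)⁻¹) * (nn x r 1)⁻¹ := by group
      _ = _ := by
        rw [nn_hh h (sr (sr r)) s one_ne_zero hc, nn_hh h (sr r) _ one_ne_zero hc, nn_hh h r _ one_ne_zero hc]

private theorem gl_hy (h : Stb K x) (r s : Root) {c : K} (hc : c ≠ 0) : ny x r * hy x τ s c * (ny x r)⁻¹ = hy x τ (wf r s) c := by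
  have hτc : τ c ≠ 0 := (map_ne_zero τ).2 hc
  have hττc : τ (τ c) ≠ 0 := (map_ne_zero τ).2 hτc
  unfold hy
  by_cases h1 : sr s = s
  · have h2 : sr (wf r s) = wf r s := by rw [← wf_sr, h1]
    rw [if_pos h1, if_pos h2, gl_nn h r s hc]
  · have h2 : ¬ sr (wf r s) = wf r s := by
      intro h3
      rw [← wf_sr] at h3
      apply h1
      rw [← wf_wf r (sr s), h3, wf_wf]
    rw [if_neg h1, if_neg h2, ← wf_sr, ← wf_sr]
    calc ny x r * (hh x s c * hh x (sr s) (τ c) * hh x (sr (sr s)) (τ (τ c))) * (ny x r)⁻¹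
        = (ny x r * hh x s c * (ny x r)⁻¹) * (ny x r * hh x (sr s) (τ c) * (ny x r)⁻¹) * (ny x r * hh x (sr (sr s)) (τ (τ c)) * (ny x r)⁻¹) := by group
      _ = _ := by rw [gl_nn h r s hc, gl_nn h r (sr s) hτc, gl_nn h r (sr (sr s)) hττc]

private theorem gl_neg (h : Stb K x) (s : Root) {c : K} (hc : c ≠ 0) : hy x τ (-s) c = hy x τ s c⁻¹ := by
  have hτc : τ c ≠ 0 := (map_ne_zero τ).2 hc
  have hττc : τ (τ c) ≠ 0 := (map_ne_zero τ).2 hτc
  unfold hy
  by_cases h1 : sr s = s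
  · have h2 : sr (-s) = -s := by rw [sr_neg, h1]
    rw [if_pos h1, if_pos h2, hh_neg h s hc]
  · have h2 : ¬ sr (-s) = -s := by
      intro h3
      apply h1
      rw [sr_neg] at h3
      rw [← neg_neg' (sr s), h3, neg_neg']
    rw [if_neg h1, if_neg h2, sr_neg, sr_neg, hh_neg h s hc, hh_neg h (sr s) hτc, hh_neg h (sr (sr s)) hττc, map_inv₀, map_inv₀]

private theorem gl_fix0 : sr (sn 0) = sn 0 := (sn_fix 0).2 (by decide)

private theorem gl_mov1 : ¬ sr (sn 1) = sn 1 := fun h => absurd ((sn_fix 1).1 h) (by decide)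

private theorem gl_hw (i j : Fin 2) : sr (wf (sn i) (sn j)) = wf (sn i) (sn j) ↔ sr (sn j) = sn j := by
  constructor
  · intro h3
    rw [← wf_sr] at h3
    rw [← wf_wf (sn i) (sr (sn j)), h3, wf_wf]
  · intro h3
    rw [← wf_sr, h3]

private theorem gl_step01 (h : Stb K x) {c : K} (hc : c ≠ 0) : hy x τ (wf (sn 0) (sn 1)) c = hy x τ (sn 1) c * hy x τ (sn 0) (c * τ c * τ (τ c)) := by
  have hτc : τ c ≠ 0 := (map_ne_zero τ).2 hc
  have hττc : τ (τ c) ≠ 0 := (map_ne_zero τ).2 hτc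
  have e := gl_val01
  have e2 : (sr (wf (sn 0) (sn 1))).1 = (sr (sn 1)).1 + (sn 0).1 := by
    rw [sr_val, e, sg_add, sr_val, ← sr_val (sn 0), gl_fix0]
  have e3 : (sr (sr (wf (sn 0) (sn 1)))).1 = (sr (sr (sn 1))).1 + (sn 0).1 := by
    rw [sr_val, e2, sg_add, sr_val (sr (sn 1)), ← sr_val (sn 0), gl_fix0]
  unfold hy
  rw [if_neg gl_mov1, if_pos gl_fix0, if_neg (fun h3 => gl_mov1 ((gl_hw 0 1).1 h3)), hh_add h e hc, hh_add h e2 hτc, hh_add h e3 hττc,
    h.tor (sn 0) (c * τ c) (τ (τ c)) (mul_ne_zero hc hτc) hττc, h.tor (sn 0) c (τ c) hc hτc]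
  have h4 := hh_comm h (sn 0) (sr (sn 1)) hc hτc
  have h5 := hh_comm h (sn 0) (sr (sr (sn 1))) hc hττc
  have h6 := hh_comm h (sn 0) (sr (sr (sn 1))) hτc hττc
  calc hh x (sn 1) c * hh x (sn 0) c * (hh x (sr (sn 1)) (τ c) * hh x (sn 0) (τ c)) * (hh x (sr (sr (sn 1))) (τ (τ c)) * hh x (sn 0) (τ (τ c)))
      = hh x (sn 1) c * (hh x (sn 0) c * hh x (sr (sn 1)) (τ c)) * (hh x (sn 0) (τ c) * hh x (sr (sr (sn 1))) (τ (τ c))) * hh x (sn 0) (τ (τ c)) := by group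
    _ = hh x (sn 1) c * hh x (sr (sn 1)) (τ c) * (hh x (sn 0) c * hh x (sr (sr (sn 1))) (τ (τ c))) * hh x (sn 0) (τ c) * hh x (sn 0) (τ (τ c)) := by
      rw [h4, h6]; group
    _ = _ := by rw [h5]; group

private theorem gl_step10 (h : Stb K x) {c : K} (hc : c ≠ 0) (ho : τ c = c) : hy x τ (wf (sn 1) (sn 0)) c = hy x τ (sn 0) c * hy x τ (sn 1) c := by
  obtain ⟨u, v, hu, hv, e⟩ := gl_val10
  unfold hy
  rw [if_neg gl_mov1, if_pos gl_fix0, if_pos ((gl_hw 1 0).2 gl_fix0), hh_add h e hc, hh_add h hv hc, hh_add h hu hc, ho, ho]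
  group

private theorem gl_step (h : Stb K x) (i j : Fin 2) {c : K} (hc : c ≠ 0) (hτ : ∀ a, τ (τ (τ a)) = a) (ho : Ok τ (sn j) c) :
    ∃ z' : ∀ i : Fin 2, (Sf τ i)ˣ, ny x (sn i) * hy x τ (sn j) c * (ny x (sn i))⁻¹ = hz x τ z' := by
  have hτc : τ c ≠ 0 := (map_ne_zero τ).2 hc
  have hττc : τ (τ c) ≠ 0 := (map_ne_zero τ).2 hτc
  rw [gl_hy h (sn i) (sn j) hc]
  have hneg : ∀ k : Fin 2, Ok τ (sn k) c → ∃ z' : ∀ i : Fin 2, (Sf τ i)ˣ, hy x τ (-sn k) c = hz x τ z' := by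
    intro k hk
    rw [gl_neg h (sn k) hc]
    refine gl_ok h k (inv_ne_zero hc) fun h1 => ?_
    rw [map_inv₀, hk h1]
  fin_cases i <;> fin_cases j
  · show ∃ z' : ∀ i : Fin 2, (Sf τ i)ˣ, hy x τ (wf (sn 0) (sn 0)) c = hz x τ z'
    rw [gl_val00]
    exact hneg 0 ho
  · show ∃ z' : ∀ i : Fin 2, (Sf τ i)ˣ, hy x τ (wf (sn 0) (sn 1)) c = hz x τ z'
    rw [gl_step01 h hc]
    refine gl_mul h (gl_ok h 1 hc ho) (gl_ok h 0 (mul_ne_zero (mul_ne_zero hc hτc) hττc) fun _ => ?_)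
    rw [map_mul, map_mul, hτ]
    ring
  · show ∃ z' : ∀ i : Fin 2, (Sf τ i)ˣ, hy x τ (wf (sn 1) (sn 0)) c = hz x τ z'
    rw [gl_step10 h hc (ho gl_fix0)]
    exact gl_mul h (gl_ok h 0 hc ho) (gl_ok h 1 hc fun h3 => absurd h3 gl_mov1)
  · show ∃ z' : ∀ i : Fin 2, (Sf τ i)ˣ, hy x τ (wf (sn 1) (sn 1)) c = hz x τ z'
    rw [gl_val11]
    exact hneg 1 ho

/-- MODULE gl. Port of row `gl` of `Pool.Agent.ThF.Grt`: `ny x (sn i) * hy x τ (sn j) c * (ny x (sn i))⁻¹ = hy x τ (wf (sn i) (sn j)) c` (`nn_hh`), `wf α β = α + β_0`: `hy (α + β_0) c = hh α (c τ c τ τ c) hy β c` (`hh_add`), `wf β α = α + β_0 + β_1 + β_2`: `hy .. c = hh α c hy β c` for `τ c = c` (`hh_add` three times),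
`wf a a = -a` (`hh_neg`). -/
theorem ny_hz (h : Stb K x) (hτ : ∀ a, τ (τ (τ a)) = a) (i : Fin 2) (z : ∀ i : Fin 2, (Sf τ i)ˣ) : ∃ z', ny x (sn i) * hz x τ z * (ny x (sn i))⁻¹ = hz x τ z' := by
  obtain ⟨z0, h0⟩ := gl_step (x := x) h i 0 (c := ((z 0 : Sf τ 0) : K)) (fun e => (z 0).ne_zero (Subtype.ext e)) hτ (Sf_ok 0 _)
  obtain ⟨z1, h1⟩ := gl_step (x := x) h i 1 (c := ((z 1 : Sf τ 1) : K)) (fun e => (z 1).ne_zero (Subtype.ext e)) hτ (Sf_ok 1 _)
  obtain ⟨z', h2⟩ := gl_mul h ⟨z0, h0⟩ ⟨z1, h1⟩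
  refine ⟨z', ?_⟩
  rw [← h2]
  unfold hz
  group
-- END gl

end ThT
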