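import Pool.Agent.ThT.Fin

/-! # Products of two conjugates in `G_2(3)` -/

namespace ThT

section
variable {F : Type*} [Field F]

/-- the trace of `M * diag (-1, 1)` -/
def tr' (M : ThG.SL2 F) : F := M.1 1 1 - M.1 0 0

-- BEGIN ea
/-- MODULE ea. THE FIELD WITH THREE ELEMENTS. -/
theorem three_of_card {K : Type*} [Field K] (hK : Nat.card K = 3) : (∀ a : K, a = 0 ∨ a = 1 ∨ a = -1) ∧ (3 : K) = 0 := by
  classical
  have : Finite K := Nat.finite_of_card_ne_zero (by rw [hK]; decide)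
  have : Fintype K := Fintype.ofFinite K
  have hc : Fintype.card K = 3 := by rw [← Nat.card_eq_fintype_card, hK]
  have h3 : (3 : K) = 0 := by
    have h := Nat.cast_card_eq_zero K
    rw [hc] at h
    exact_mod_cast h
  have h12 : (1 : K) ≠ -1 := by
    intro h
    apply one_ne_zero (α := K)
    linear_combination h3 - h
  have h10 : (0 : K) ≠ 1 := zero_ne_one
  have h20 : (0 : K) ≠ -1 := fun h => one_ne_zero (α := K) (by linear_combination h)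
  have hs : ({0, 1, -1} : Finset K).card = 3 := by
    rw [Finset.card_insert_of_notMem, Finset.card_insert_of_notMem, Finset.card_singleton]
    · simpa using h12
    · simp only [Finset.mem_insert, Finset.mem_singleton, not_or]
      exact ⟨h10, h20⟩
  have hu : ({0, 1, -1} : Finset K) = Finset.univ := Finset.eq_univ_of_card _ (by rw [hs, hc])
  refine ⟨fun a => ?_, h3⟩
  have ha : a ∈ ({0, 1, -1} : Finset K) := by rw [hu]; exact Finset.mem_univ a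
  simpa using ha

private theorem ea_ext {M N : ThG.SL2 F} (h0 : M.1 0 0 = N.1 0 0) (h1 : M.1 0 1 = N.1 0 1) (h2 : M.1 1 0 = N.1 1 0) (h3 : M.1 1 1 = N.1 1 1) : M = N := by
  apply Subtype.ext
  ext i j
  fin_cases i <;> fin_cases j
  · exact h0
  · exact h1
  · exact h2
  · exact h3

private theorem ea_P (c b e : F) (t : Fˣ) (he : e * e = 1) (hn : e * (b + c) - 1 ≠ 0) :
    ∃ M1 M2 : ThG.SL2 F, ThG.lo c * ThG.dg t * ThG.up b = M1 * ThG.cj (-1) M2 ∧ tr' M1 ≠ 0 ∧ tr' M2 ≠ 0 := by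
  have ht : (t : F) ≠ 0 := t.ne_zero
  have hti : (t : F) * ((t⁻¹ : Fˣ) : F) = 1 := Units.mul_inv t
  have d1 : Matrix.det !![(0 : F), e; -e, 1] = 1 := by
    rw [Matrix.det_fin_two_of]
    linear_combination he
  have d2 : Matrix.det !![(t : F) - e * c * t, -((t : F) * b - e * (c * t * b + ((t⁻¹ : Fˣ) : F))); -(e * t), e * t * b] = 1 := by
    rw [Matrix.det_fin_two_of]
    linear_combination he * (t : F) * ((t⁻¹ : Fˣ) : F) + hti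
  obtain ⟨M1, hM1⟩ : ∃ M1 : ThG.SL2 F, M1.1 = !![(0 : F), e; -e, 1] := ⟨⟨_, d1⟩, rfl⟩
  obtain ⟨M2, hM2⟩ : ∃ M2 : ThG.SL2 F, M2.1 = !![(t : F) - e * c * t, -((t : F) * b - e * (c * t * b + ((t⁻¹ : Fˣ) : F))); -(e * t), e * t * b] := ⟨⟨_, d2⟩, rfl⟩
  have e1 : (ThG.cj (-1) M2).1 = !![M2.1 0 0, ((-1 : Fˣ) : F) * M2.1 0 1; (((-1 : Fˣ)⁻¹ : Fˣ) : F) * M2.1 1 0, M2.1 1 1] := rfl
  refine ⟨M1, M2, ?_, ?_, ?_⟩
  · apply ea_ext <;> simp only [Matrix.SpecialLinearGroup.coe_mul, Matrix.mul_apply, Fin.sum_univ_two] <;> rw [e1, hM1, hM2] <;> simp [ThG.lo, ThG.up, ThG.dg]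
    · linear_combination -(t : F) * he
    · linear_combination -((t : F) * b) * he
    · linear_combination -((t : F) * c) * he
    · linear_combination -(((t : F) * c * b) + (t : F)⁻¹) * he
  · unfold tr'
    rw [hM1]
    simp
  · have e2 : tr' M2 = (t : F) * (e * (b + c) - 1) := by
      unfold tr'
      rw [hM2]
      simp
      ring
    rw [e2]
    exact mul_ne_zero ht hn

/-- `e = -(b + c)` if `b + c ≠ 0`, otherwise `e = 1`; `M1 = [[0, e], [-e, 1]]`, `cj (-1) M2 = M1⁻¹ * (lo c * dg t * up b)`, `tr' M2 = t (e (b + c) - 1)` (`cj` does not change the diagonal; `t = ± 1`, `e = ± 1`, `cj (-1) (cj (-1) N) = N`). -/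
theorem th_P1 (hF : ∀ a : F, a = 0 ∨ a = 1 ∨ a = -1) (h3 : (3 : F) = 0) (c b : F) (t : Fˣ) :
    ∃ M1 M2 : ThG.SL2 F, ThG.lo c * ThG.dg t * ThG.up b = M1 * ThG.cj (-1) M2 ∧ tr' M1 ≠ 0 ∧ tr' M2 ≠ 0 := by
  rcases hF (b + c) with h | h | h
  · refine ea_P c b 1 t (by ring) ?_
    rw [h]
    simp
  · refine ea_P c b (-1) t (by ring) ?_
    rw [h]
    intro h2
    exact one_ne_zero (α := F) (by linear_combination h3 + h2)
  · refine ea_P c b 1 t (by ring) ?_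
    rw [h]
    intro h2
    exact one_ne_zero (α := F) (by linear_combination h3 + h2)

theorem th_neg (M : ThG.SL2 F) : tr' (ThG.dg (-1) * M) = -tr' M := by
  unfold tr'
  simp only [Matrix.SpecialLinearGroup.coe_mul, Matrix.mul_apply, Fin.sum_univ_two]
  simp [ThG.dg]
  ring
-- END ea

-- BEGIN eb
private theorem eb_ext {M N : ThG.SL2 F} (h0 : M.1 0 0 = N.1 0 0) (h1 : M.1 0 1 = N.1 0 1) (h2 : M.1 1 0 = N.1 1 0) (h3 : M.1 1 1 = N.1 1 1) : M = N := by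
  apply Subtype.ext
  ext i j
  fin_cases i <;> fin_cases j
  · exact h0
  · exact h1
  · exact h2
  · exact h3

/-- the four entries of a product -/
private theorem eb_mul (M N : ThG.SL2 F) : (M * N).1 0 0 = M.1 0 0 * N.1 0 0 + M.1 0 1 * N.1 1 0 ∧ (M * N).1 0 1 = M.1 0 0 * N.1 0 1 + M.1 0 1 * N.1 1 1 ∧
    (M * N).1 1 0 = M.1 1 0 * N.1 0 0 + M.1 1 1 * N.1 1 0 ∧ (M * N).1 1 1 = M.1 1 0 * N.1 0 1 + M.1 1 1 * N.1 1 1 := by
  have h : ∀ i j, (M * N).1 i j = M.1 i 0 * N.1 0 j + M.1 i 1 * N.1 1 j := by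
    intro i j
    show (M.1 * N.1) i j = _
    rw [Matrix.mul_apply, Fin.sum_univ_two]
  exact ⟨h 0 0, h 0 1, h 1 0, h 1 1⟩

/-- the four entries of `cj (-1) M` -/
private theorem eb_cj (M : ThG.SL2 F) : (ThG.cj (-1) M).1 0 0 = M.1 0 0 ∧ (ThG.cj (-1) M).1 0 1 = -M.1 0 1 ∧ (ThG.cj (-1) M).1 1 0 = -M.1 1 0 ∧ (ThG.cj (-1) M).1 1 1 = M.1 1 1 := by
  refine ⟨rfl, ?_, ?_, rfl⟩
  · show (((-1 : Fˣ) : F)) * M.1 0 1 = _
    rw [Units.val_neg, Units.val_one, neg_one_mul]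
  · show ((((-1 : Fˣ)⁻¹ : Fˣ) : F)) * M.1 1 0 = _
    rw [inv_neg, inv_one, Units.val_neg, Units.val_one, neg_one_mul]

/-- the normal form -/
private theorem eb_nf (hF : ∀ a : F, a = 0 ∨ a = 1 ∨ a = -1) (h3 : (3 : F) = 0) (M C : ThG.SL2 F) (h0 : tr' M ≠ 0)
    (c0 : C.1 0 0 = 0) (c1 : C.1 0 1 = 1) (c2 : C.1 1 0 = -1) (c3 : C.1 1 1 = tr' M) : ∃ P : ThG.SL2 F, M * ThG.cj (-1) P = P * C := by
  have hd : M.1.det = 1 := M.2
  rw [Matrix.det_fin_two] at hd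
  have key : ∀ P : ThG.SL2 F, M.1 0 0 * P.1 0 0 - M.1 0 1 * P.1 1 0 = -P.1 0 1 →
      -(M.1 0 0 * P.1 0 1) + M.1 0 1 * P.1 1 1 = P.1 0 0 + P.1 0 1 * (M.1 1 1 - M.1 0 0) →
      M.1 1 0 * P.1 0 0 - M.1 1 1 * P.1 1 0 = -P.1 1 1 →
      -(M.1 1 0 * P.1 0 1) + M.1 1 1 * P.1 1 1 = P.1 1 0 + P.1 1 1 * (M.1 1 1 - M.1 0 0) →
      ∃ P : ThG.SL2 F, M * ThG.cj (-1) P = P * C := by
    intro P e0 e1 e2 e3
    refine ⟨P, ?_⟩
    obtain ⟨a0, a1, a2, a3⟩ := eb_mul M (ThG.cj (-1) P)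
    obtain ⟨b0, b1, b2, b3⟩ := eb_mul P C
    obtain ⟨d0, d1, d2, d3⟩ := eb_cj P
    rw [d0, d2] at a0 a2
    rw [d1, d3] at a1 a3
    rw [c0, c2] at b0 b2
    rw [c1, c3] at b1 b3
    unfold tr' at b1 b3
    apply eb_ext
    · rw [a0, b0]
      linear_combination e0
    · rw [a1, b1]
      linear_combination e1
    · rw [a2, b2]
      linear_combination e2
    · rw [a3, b3]
      linear_combination e3
  unfold tr' at h0
  rcases hF (M.1 1 0) with hc | hc | hc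
  · exfalso
    rw [hc] at hd
    rcases hF (M.1 0 0) with ha | ha | ha <;> rw [ha] at hd h0
    · exact one_ne_zero (by linear_combination -hd : (1 : F) = 0)
    · exact h0 (by linear_combination hd)
    · exact h0 (by linear_combination -hd)
  · rcases hF (M.1 0 1) with hb | hb | hb
    · exfalso
      rw [hb] at hd
      rcases hF (M.1 0 0) with ha | ha | ha <;> rw [ha] at hd h0
      · exact one_ne_zero (by linear_combination -hd : (1 : F) = 0)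
      · exact h0 (by linear_combination hd)
      · exact h0 (by linear_combination -hd)
    · rw [hb, hc] at hd
      have hs : M.1 0 0 + M.1 1 1 = 0 := by
        rcases hF (M.1 0 0) with ha | ha | ha <;> rw [ha] at hd ⊢
        · exact absurd (by linear_combination h3 + hd : (1 : F) = 0) one_ne_zero
        · linear_combination h3 + hd
        · linear_combination -h3 - hd
      refine key ⟨!![1, 1 - M.1 0 0; 1, M.1 1 1 - 1], ?_⟩ ?_ ?_ ?_ ?_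
      · rw [Matrix.det_fin_two_of]
        linear_combination hs - h3
      · show M.1 0 0 * 1 - M.1 0 1 * 1 = -(1 - M.1 0 0)
        rw [hb]
        ring
      · show -(M.1 0 0 * (1 - M.1 0 0)) + M.1 0 1 * (M.1 1 1 - 1) = 1 + (1 - M.1 0 0) * (M.1 1 1 - M.1 0 0)
        rw [hb]
        linear_combination hd
      · show M.1 1 0 * 1 - M.1 1 1 * 1 = -(M.1 1 1 - 1)
        rw [hc]
        ring
      · show -(M.1 1 0 * (1 - M.1 0 0)) + M.1 1 1 * (M.1 1 1 - 1) = 1 + (M.1 1 1 - 1) * (M.1 1 1 - M.1 0 0)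
        rw [hc]
        linear_combination hd
    · rw [hb] at hd
      refine key ⟨!![0, -1; 1, M.1 1 1], ?_⟩ ?_ ?_ ?_ ?_
      · rw [Matrix.det_fin_two_of]
        ring
      · show M.1 0 0 * 0 - M.1 0 1 * 1 = -(-1)
        rw [hb]
        ring
      · show -(M.1 0 0 * (-1)) + M.1 0 1 * M.1 1 1 = 0 + (-1) * (M.1 1 1 - M.1 0 0)
        rw [hb]
        ring
      · show M.1 1 0 * 0 - M.1 1 1 * 1 = -M.1 1 1
        ring
      · show -(M.1 1 0 * (-1)) + M.1 1 1 * M.1 1 1 = 1 + M.1 1 1 * (M.1 1 1 - M.1 0 0)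
        linear_combination hd
  · rw [hc] at hd
    refine key ⟨!![1, -M.1 0 0; 0, 1], ?_⟩ ?_ ?_ ?_ ?_
    · rw [Matrix.det_fin_two_of]
      ring
    · show M.1 0 0 * 1 - M.1 0 1 * 0 = -(-M.1 0 0)
      ring
    · show -(M.1 0 0 * (-M.1 0 0)) + M.1 0 1 * 1 = 1 + (-M.1 0 0) * (M.1 1 1 - M.1 0 0)
      linear_combination hd
    · show M.1 1 0 * 1 - M.1 1 1 * 0 = -1
      rw [hc]
      ring
    · show -(M.1 1 0 * (-M.1 0 0)) + M.1 1 1 * 1 = 0 + 1 * (M.1 1 1 - M.1 0 0)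
      rw [hc]
      ring

/-- MODULE eb. With `A = M * diag (-1, 1)` (determinant `-1`, trace `s = tr' M = ± 1`) the claim is `A' = Q A Q⁻¹` (`ThG.md_cj`).  Both are conjugate under `SL_2(F)` to `[[0, 1], [1, s]]`: `A` has a vector `v` with `det (v, A v) = 1` (one of `(1, 0)`, `(0, 1)`, `(1, 1)`, `(1, -1)`: the values are `c`, `-b`, `c + d - a - b`, `c - d + a - b`
for `A = [[a, b], [c, d]]`), `A² = s A + 1`, the matrix with columns `v`, `A v` conjugates.  (Or `good2` of `Pool.Agent.ThF.Fit`.) -/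
theorem th_P2 (hF : ∀ a : F, a = 0 ∨ a = 1 ∨ a = -1) (h3 : (3 : F) = 0) {M M' : ThG.SL2 F} (h : tr' M = tr' M') (h0 : tr' M ≠ 0) : ∃ Q : ThG.SL2 F, M' = Q * M * (ThG.cj (-1) Q)⁻¹ := by
  obtain ⟨C, c0, c1, c2, c3⟩ : ∃ C : ThG.SL2 F, C.1 0 0 = 0 ∧ C.1 0 1 = 1 ∧ C.1 1 0 = -1 ∧ C.1 1 1 = tr' M :=
    ⟨⟨!![0, 1; -1, tr' M], by rw [Matrix.det_fin_two_of]; ring⟩, rfl, rfl, rfl, rfl⟩
  obtain ⟨P, hP⟩ := eb_nf hF h3 M C h0 c0 c1 c2 c3
  obtain ⟨P', hP'⟩ := eb_nf hF h3 M' C (h ▸ h0) c0 c1 c2 (c3.trans h)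
  refine ⟨P' * P⁻¹, ?_⟩
  have h1 : M' = P' * C * (ThG.cj (-1) P')⁻¹ := by rw [← hP']; group
  have h2 : M = P * C * (ThG.cj (-1) P)⁻¹ := by rw [← hP]; group
  rw [h1, h2, map_mul, map_inv]
  group

/-- `A² = s A + 1`, `A⁴ = s² A² + 2 s A + 1 = 3 s A + 2 = -1` (`s² = 1`) -/
theorem th_P4 (hF : ∀ a : F, a = 0 ∨ a = 1 ∨ a = -1) (h3 : (3 : F) = 0) {M : ThG.SL2 F} (h0 : tr' M ≠ 0) : M * ThG.cj (-1) M * (M * ThG.cj (-1) M) = ThG.dg (-1) := by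
  have hd : M.1.det = 1 := M.2
  rw [Matrix.det_fin_two] at hd
  have hs : (M.1 1 1 - M.1 0 0) * (M.1 1 1 - M.1 0 0) = 1 := by
    unfold tr' at h0
    rcases hF (M.1 1 1 - M.1 0 0) with e | e | e
    · exact absurd e h0
    · rw [e, one_mul]
    · rw [e, neg_mul_neg, one_mul]
  obtain ⟨a0, a1, a2, a3⟩ := eb_mul M (ThG.cj (-1) M)
  obtain ⟨d0, d1, d2, d3⟩ := eb_cj M
  rw [d0, d2] at a0 a2
  rw [d1, d3] at a1 a3
  obtain ⟨b0, b1, b2, b3⟩ := eb_mul (M * ThG.cj (-1) M) (M * ThG.cj (-1) M)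
  rw [a0, a1, a2] at b0
  rw [a0, a1, a3] at b1
  rw [a0, a2, a3] at b2
  rw [a1, a2, a3] at b3
  apply eb_ext
  · rw [b0]
    show _ = (((-1 : Fˣ) : F))
    rw [Units.val_neg, Units.val_one]
    linear_combination (2 * M.1 0 0 ^ 2 - M.1 0 0 * M.1 1 1 + 1 - M.1 0 1 * M.1 1 0 + (M.1 1 1 - M.1 0 0) ^ 2) * hd +
      (1 - M.1 0 0 * (M.1 1 1 - M.1 0 0)) * hs + (1 - M.1 0 0 * (M.1 1 1 - M.1 0 0)) * h3
  · rw [b1]
    show _ = (0 : F)
    linear_combination M.1 0 1 * (M.1 1 1 - M.1 0 0) * hs + M.1 0 1 * (M.1 1 1 - M.1 0 0) * h3 + 2 * M.1 0 1 * (M.1 1 1 - M.1 0 0) * hd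
  · rw [b2]
    show _ = (0 : F)
    linear_combination -M.1 1 0 * (M.1 1 1 - M.1 0 0) * hs - M.1 1 0 * (M.1 1 1 - M.1 0 0) * h3 - 2 * M.1 1 0 * (M.1 1 1 - M.1 0 0) * hd
  · rw [b3]
    show _ = ((((-1 : Fˣ)⁻¹ : Fˣ) : F))
    rw [inv_neg, inv_one, Units.val_neg, Units.val_one]
    linear_combination (2 * M.1 1 1 ^ 2 - M.1 0 0 * M.1 1 1 + 1 - M.1 0 1 * M.1 1 0 + (M.1 1 1 - M.1 0 0) ^ 2) * hd +
      (1 + M.1 1 1 * (M.1 1 1 - M.1 0 0)) * hs + (1 + M.1 1 1 * (M.1 1 1 - M.1 0 0)) * h3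
-- END eb
end

variable {K : Type*} [Field K] {G : Type*} [Group G] {x : Root → K → G} {τ : K →+* K} {t : ThG.SL2 (Sf τ 0) →* G}

-- BEGIN ec
private theorem ec_ind {F : Type*} [Field F] {P : ThG.SL2 F → Prop} (hu : ∀ a, P (ThG.up a)) (hl : ∀ a, P (ThG.lo a)) (h1 : P 1) (hm : ∀ A B, P A → P B → P (A * B))
    (hi : ∀ A, P A → P A⁻¹) (M : ThG.SL2 F) : P M := by
  have hM : M ∈ Subgroup.closure {g : ThG.SL2 F | ∃ a, g = ThG.up a ∨ g = ThG.lo a} := by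
    rw [ThG.sl2_gen]
    exact Subgroup.mem_top M
  induction hM using Subgroup.closure_induction with
  | mem g hg =>
    obtain ⟨a, rfl | rfl⟩ := hg
    · exact hu a
    · exact hl a
  | one => exact h1
  | mul A B _ _ hA hB => exact hm A B hA hB
  | inv A _ hA => exact hi A hA

private theorem ec_fix : sr ra = ra := (sn_fix 0).2 Nat.one_pos

private theorem ec_ok (a : Sf τ 0) : Ok τ ra (a : K) := Sf_ok 0 a

private theorem ec_okn (a : Sf τ 0) : Ok τ (-ra) (-(a : K)) := fun _ => Ok.neg (ec_ok a) ec_fix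

/-- MODULE ec. `ThG.sl2_gen`: both sides are homomorphisms in `M` (or closure induction); `IsY`, `yt_nrm`, `mm_yt`, `hzY_conj` with `exists_z` (`chY_zero`: the value at `(1, -1)` is `-1`), `hy_one`. -/
theorem t_mem (ht : IsY x τ ra (Sf τ 0) t) (M : ThG.SL2 (Sf τ 0)) : t M ∈ Hh x τ := by
  refine ec_ind (P := fun M => t M ∈ Hh x τ) (fun a => ?_) (fun a => ?_) ?_ (fun A B hA hB => ?_) (fun A hA => ?_) M
  · rw [ht.up]
    exact yt_mem x τ (ec_ok a)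
  · rw [ht.lo]
    exact yt_mem x τ (ec_okn a)
  · rw [map_one]
    exact one_mem _
  · rw [map_mul]
    exact mul_mem hA hB
  · rw [map_inv]
    exact inv_mem hA

private theorem ec_nrm {H : Subgroup G} (hu : ∀ a : Sf τ 0, ∀ u ∈ H, t (ThG.up a) * u * (t (ThG.up a))⁻¹ ∈ H) (hl : ∀ a : Sf τ 0, ∀ u ∈ H, t (ThG.lo a) * u * (t (ThG.lo a))⁻¹ ∈ H)
    (nu : ∀ a : Sf τ 0, (t (ThG.up a))⁻¹ = t (ThG.up (-a))) (nl : ∀ a : Sf τ 0, (t (ThG.lo a))⁻¹ = t (ThG.lo (-a))) (M : ThG.SL2 (Sf τ 0)) : ∀ u ∈ H, t M * u * (t M)⁻¹ ∈ H := by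
  have key : (∀ u ∈ H, t M * u * (t M)⁻¹ ∈ H) ∧ ∀ u ∈ H, (t M)⁻¹ * u * t M ∈ H := by
    refine ec_ind (P := fun M => (∀ u ∈ H, t M * u * (t M)⁻¹ ∈ H) ∧ ∀ u ∈ H, (t M)⁻¹ * u * t M ∈ H) (fun a => ⟨hu a, fun u hu' => ?_⟩) (fun a => ⟨hl a, fun u hu' => ?_⟩) ⟨fun u hu' => ?_, fun u hu' => ?_⟩
      (fun A B hA hB => ⟨fun u hu' => ?_, fun u hu' => ?_⟩) (fun A hA => ⟨fun u hu' => ?_, fun u hu' => ?_⟩) M
    · have h1 := hu (-a) u hu'
      rwa [← nu, inv_inv] at h1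
    · have h1 := hl (-a) u hu'
      rwa [← nl, inv_inv] at h1
    · rw [map_one, inv_one, one_mul, mul_one]
      exact hu'
    · rw [map_one, inv_one, one_mul, mul_one]
      exact hu'
    · have e : t (A * B) * u * (t (A * B))⁻¹ = t A * (t B * u * (t B)⁻¹) * (t A)⁻¹ := by
        rw [map_mul]
        group
      rw [e]
      exact hA.1 _ (hB.1 u hu')
    · have e : (t (A * B))⁻¹ * u * t (A * B) = (t B)⁻¹ * ((t A)⁻¹ * u * t A) * t B := by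
        rw [map_mul]
        group
      rw [e]
      exact hB.2 _ (hA.2 u hu')
    · rw [map_inv, inv_inv]
      exact hA.2 u hu'
    · rw [map_inv, inv_inv]
      exact hA.1 u hu'
  exact key.1

theorem t_nrm (h : Stb K x) (hτ : ∀ a, τ (τ (τ a)) = a) (ht : IsY x τ ra (Sf τ 0) t) (M : ThG.SL2 (Sf τ 0)) :
    (∀ u ∈ Sy x τ (Pi' 0), t M * u * (t M)⁻¹ ∈ Sy x τ (Pi' 0)) ∧ ∀ u ∈ Sy (op x) τ (Pi' 0), t M * u * (t M)⁻¹ ∈ Sy (op x) τ (Pi' 0) := by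
  have nu : ∀ a : Sf τ 0, (t (ThG.up a))⁻¹ = t (ThG.up (-a)) := fun a => by
    rw [ht.up, ht.up, yt_inv h]
    rfl
  have nl : ∀ a : Sf τ 0, (t (ThG.lo a))⁻¹ = t (ThG.lo (-a)) := fun a => by
    rw [ht.lo, ht.lo, yt_inv h]
    rfl
  have okn : ∀ a : Sf τ 0, Ok τ (sn 0) (-(a : K)) := fun a => Ok.neg (Sf_ok 0 a)
  refine ⟨ec_nrm (fun a u hu => ?_) (fun a u hu => ?_) nu nl M, ec_nrm (fun a u hu => ?_) (fun a u hu => ?_) nu nl M⟩
  · rw [ht.up]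
    exact (yt_nrm h hτ 0 (Sf_ok 0 a)).1 u hu
  · rw [ht.lo]
    exact (yt_nrm h hτ 0 (okn a)).2.1 u hu
  · rw [ht.up]
    exact (yt_nrm h hτ 0 (Sf_ok 0 a)).2.2.1 u hu
  · rw [ht.lo]
    exact (yt_nrm h hτ 0 (okn a)).2.2.2 u hu

/-- two endomorphisms of `G` of the form conjugation, equal on the generators -/
private theorem ec_conj {F : Type*} [Field F] (t1 t2 : ThG.SL2 F →* G) (g : G) (hu : ∀ a, g * t1 (ThG.up a) * g⁻¹ = t2 (ThG.up a)) (hl : ∀ a, g * t1 (ThG.lo a) * g⁻¹ = t2 (ThG.lo a))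
    (M : ThG.SL2 F) : g * t1 M * g⁻¹ = t2 M := by
  refine ec_ind (P := fun M => g * t1 M * g⁻¹ = t2 M) hu hl ?_ (fun A B hA hB => ?_) (fun A hA => ?_) M
  · rw [map_one, map_one, mul_one, mul_inv_cancel]
  · have e : g * t1 (A * B) * g⁻¹ = (g * t1 A * g⁻¹) * (g * t1 B * g⁻¹) := by
      rw [map_mul]
      group
    rw [e, hA, hB, map_mul]
  · have e : g * t1 A⁻¹ * g⁻¹ = (g * t1 A * g⁻¹)⁻¹ := by
      rw [map_inv]
      group
    rw [e, hA, map_inv]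

theorem t_mm (h : Stb K x) (hτ : ∀ a, τ (τ (τ a)) = a) (ht : IsY x τ ra (Sf τ 0) t) (M : ThG.SL2 (Sf τ 0)) : mm x 0 * t M * (mm x 0)⁻¹ = t M := by
  refine ec_conj t t (mm x 0) (fun a => ?_) (fun a => ?_) M
  · rw [ht.up]
    exact (mm_yt h hτ 0 (Sf_ok 0 a)).1
  · rw [ht.lo]
    exact (mm_yt h hτ 0 (Ok.neg (Sf_ok 0 a))).2

theorem t_D (h : Stb K x) (hτ : ∀ a, τ (τ (τ a)) = a) (ht : IsY x τ ra (Sf τ 0) t) (M : ThG.SL2 (Sf τ 0)) : hk x τ 1 (-1) * t M * (hk x τ 1 (-1))⁻¹ = t (ThG.cj (-1) M) := by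
  obtain ⟨z, z0, z1⟩ := exists_z (τ := τ) (a := 1) (b := -1) one_ne_zero (neg_ne_zero.2 one_ne_zero) (map_one τ)
  have hz0 : hz x τ z = hk x τ 1 (-1) := by
    show hk x τ ((z 0 : Sf τ 0) : K) ((z 1 : Sf τ 1) : K) = _
    rw [z0, z1]
  have hch : chY τ ra.1 z = -1 := by
    have e := chY_zero z
    rw [z0, z1, map_neg, map_one, map_neg, map_one] at e
    refine e.trans ?_
    norm_num
  have hch' : chY τ (-ra : Root).1 z = -1 := by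
    have e : chY τ (-ra : Root).1 z = (chY τ ra.1 z)⁻¹ := chY_neg ra.1 z
    rw [e, hch, inv_neg, inv_one]
  rw [← hz0]
  refine ec_conj t (t.comp (ThG.cj (-1))) (hz x τ z) (fun a => ?_) (fun a => ?_) M
  · rw [MonoidHom.comp_apply, ThG.cj_up, ht.up, ht.up, hzY_conj h hτ, hch]
    congr 1
  · rw [MonoidHom.comp_apply, ThG.cj_lo, ht.lo, ht.lo, hzY_conj h hτ, hch']
    congr 1
    rw [inv_neg, inv_one, Units.val_neg, Units.val_one, Subfield.coe_mul, Subfield.coe_neg, Subfield.coe_one]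
    ring

theorem t_dg (h : Stb K x) (ht : IsY x τ ra (Sf τ 0) t) (c : (Sf τ 0)ˣ) : t (ThG.dg c) = hk x τ ((c : Sf τ 0) : K) 1 := by
  rw [ht.dg]
  unfold hk
  rw [hy_one h, mul_one]

/-- `t M` commutes with the `y_s(b)` for `s` orthogonal to `ra` (all images: `bf ra s = 0` is invariant) -/
theorem t_orth (h : Stb K x) (ht : IsY x τ ra (Sf τ 0) t) (M : ThG.SL2 (Sf τ 0)) {s : Root} (hs : bf ra.1 s.1 = 0) (b : K) : t M * yt x τ s b = yt x τ s b * t M := by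
  have s1 : bf ra.1 (sr s).1 = 0 := by
    have e := bf_sr ra s
    rw [ec_fix] at e
    rw [e, hs]
  have s2 : bf ra.1 (sr (sr s)).1 = 0 := by
    have e := bf_sr ra (sr s)
    rw [ec_fix] at e
    rw [e, s1]
  have n0 : ∀ s : Root, bf ra.1 s.1 = 0 → bf (-ra : Root).1 s.1 = 0 := fun s e => by rw [neg_val, bf_neg_left, e, neg_zero]
  refine ec_ind (P := fun M => t M * yt x τ s b = yt x τ s b * t M) (fun a => ?_) (fun a => ?_) ?_ (fun A B hA hB => ?_) (fun A hA => ?_) M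
  · rw [ht.up]
    exact yt_comm h τ hs.ge s1.ge s2.ge _ _
  · rw [ht.lo]
    exact yt_comm h τ (n0 s hs).ge (n0 _ s1).ge (n0 _ s2).ge _ _
  · rw [map_one, one_mul, mul_one]
  · rw [map_mul, mul_assoc, hB, ← mul_assoc, hA, mul_assoc]
  · rw [map_inv]
    exact ((show Commute (t A) (yt x τ s b) from hA).inv_left).eq
-- END ec

-- BEGIN ed
private theorem ed_it (j : Fin 2) (i : ℕ) (v : Vec) : lw j (sg^[i] v) = lw j v := by
  induction i with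
  | zero => rfl
  | succ n ih => rw [Function.iterate_succ_apply', (Lf_U j).ls, ih]

private theorem ed_neg (j : Fin 2) (v : Vec) : lw j (-v) = -lw j v := by
  have h := (Lf_U j).la v (-v)
  have h0 := (Lf_U j).la 0 0
  rw [add_neg_cancel] at h
  rw [add_zero] at h0
  omega

private theorem ed_cm (j : Fin 2) {r s t : Root} (hr : 0 ≤ lw j r.1) (hs : 0 ≤ lw j s.1) (h : Cm r s t) : lw j r.1 + lw j s.1 ≤ lw j t.1 := by
  induction h with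
  | base i i' t h =>
    rw [h, (Lf_U j).la, ed_it, ed_it]
  | left i t u h _ ih =>
    rw [h, (Lf_U j).la, ed_it]
    omega
  | right i t u h _ ih =>
    rw [h, (Lf_U j).la, ed_it]
    omega

/-- MODULE ed. THE GROUPS `k ≤ lw j`.  `Sy.conj`, `Sy.comm_gen` (`Cm r s t` gives `lw r + lw s ≤ lw t`), closure inductions; `lw_lv`: `all_rts`, `decide`. -/
theorem lw_conj (h : Stb K x) (hτ : ∀ a, τ (τ (τ a)) = a) (j : Fin 2) {k : ℤ} (hk : 1 ≤ k) {r : Root} (hr : 0 ≤ lw j r.1) {a : K} (ha : Ok τ r a) {g : G} (hg : g ∈ Sy x τ fun s => k ≤ lw j s.1) :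
    yt x τ r a * g * (yt x τ r a)⁻¹ ∈ Sy x τ fun s => k ≤ lw j s.1 := by
  refine Sy.conj h hτ (p := fun s => k ≤ lw j s.1) ?_ ?_ ?_ ?_ ha hg
  · intro s hs
    show k ≤ lw j (sg s.1)
    rw [(Lf_U j).ls]
    exact hs
  · intro s t u hs ht hu
    show k ≤ lw j u.1
    rw [hu, (Lf_U j).la]
    have h1 : k ≤ lw j s.1 := hs
    have h2 : k ≤ lw j t.1 := ht
    omega
  · intro s hs e
    have h1 : k ≤ lw j s.1 := hs
    rw [e, neg_val, ed_neg] at h1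
    omega
  · intro s t hs e
    show k ≤ lw j t.1
    rw [e, (Lf_U j).la]
    have h1 : k ≤ lw j s.1 := hs
    omega

theorem lw_comm (h : Stb K x) (hτ : ∀ a, τ (τ (τ a)) = a) (j : Fin 2) {k : ℤ} (hk : 1 ≤ k) {a b : G} (ha : a ∈ Sy x τ fun s => k ≤ lw j s.1) (hb : b ∈ Sy x τ fun s => k ≤ lw j s.1) :
    a * b * a⁻¹ * b⁻¹ ∈ Sy x τ fun s => 2 * k ≤ lw j s.1 := by
  have hn : ∀ a ∈ (Sy x τ fun s => k ≤ lw j s.1), ∀ q ∈ (Sy x τ fun s => 2 * k ≤ lw j s.1), a * q * a⁻¹ ∈ (Sy x τ fun s => 2 * k ≤ lw j s.1) := by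
    intro a ha q hq
    exact Sy.conj_all h (q := fun s => k ≤ lw j s.1) (p := fun s => 2 * k ≤ lw j s.1)
      (fun r hr c hc g hg => lw_conj h hτ j (by omega) (by have h1 : k ≤ lw j r.1 := hr; omega) hc hg) ha hq
  have hn' : ∀ a ∈ (Sy x τ fun s => k ≤ lw j s.1), ∀ q ∈ (Sy x τ fun s => 2 * k ≤ lw j s.1), a⁻¹ * q * a ∈ (Sy x τ fun s => 2 * k ≤ lw j s.1) := by
    intro a ha q hq
    have h1 := hn a⁻¹ (inv_mem ha) q hq
    rwa [inv_inv] at h1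
  -- the generators
  have hg : ∀ r s : Root, k ≤ lw j r.1 → k ≤ lw j s.1 → ∀ c d : K, Ok τ r c → Ok τ s d →
      yt x τ r c * yt x τ s d * (yt x τ r c)⁻¹ * (yt x τ s d)⁻¹ ∈ (Sy x τ fun s => 2 * k ≤ lw j s.1) := by
    intro r s hr hs c d hc hd
    have hne : ∀ r' : Root, lw j r'.1 = lw j r.1 → s ≠ -r' := by
      intro r' h1 e
      have h2 := hs
      rw [e, neg_val, ed_neg, h1] at h2
      omega
    refine Sy.comm_gen h hτ ⟨hne r rfl, hne (sr r) ?_, hne (sr (sr r)) ?_⟩ ?_ hc hd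
    · rw [sr_val, (Lf_U j).ls]
    · rw [sr_val, sr_val, (Lf_U j).ls, (Lf_U j).ls]
    · intro t ht
      show 2 * k ≤ lw j t.1
      have h1 := ed_cm j (by omega) (by omega) ht
      omega
  -- one generator and an arbitrary element
  have hg1 : ∀ r : Root, k ≤ lw j r.1 → ∀ c : K, Ok τ r c → ∀ b ∈ (Sy x τ fun s => k ≤ lw j s.1),
      yt x τ r c * b * (yt x τ r c)⁻¹ * b⁻¹ ∈ (Sy x τ fun s => 2 * k ≤ lw j s.1) := by
    intro r hr c hc b hb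
    induction hb using Subgroup.closure_induction with
    | mem y hy =>
      obtain ⟨s, d, hs, hd, rfl⟩ := hy
      exact hg r s hr hs c d hc hd
    | one =>
      have e : yt x τ r c * 1 * (yt x τ r c)⁻¹ * (1 : G)⁻¹ = 1 := by group
      rw [e]
      exact one_mem _
    | mul b1 b2 hb1 hb2 ih1 ih2 =>
      have e : yt x τ r c * (b1 * b2) * (yt x τ r c)⁻¹ * (b1 * b2)⁻¹
          = (yt x τ r c * b1 * (yt x τ r c)⁻¹ * b1⁻¹) * (b1 * (yt x τ r c * b2 * (yt x τ r c)⁻¹ * b2⁻¹) * b1⁻¹) := by group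
      rw [e]
      exact mul_mem ih1 (hn b1 hb1 _ ih2)
    | inv b1 hb1 ih1 =>
      have e : yt x τ r c * b1⁻¹ * (yt x τ r c)⁻¹ * (b1⁻¹)⁻¹ = b1⁻¹ * (yt x τ r c * b1 * (yt x τ r c)⁻¹ * b1⁻¹)⁻¹ * b1 := by group
      rw [e]
      exact hn' b1 hb1 _ (inv_mem ih1)
  induction ha using Subgroup.closure_induction with
  | mem y hy =>
    obtain ⟨r, c, hr, hc, rfl⟩ := hy
    exact hg1 r hr c hc b hb
  | one =>
    have e : (1 : G) * b * (1 : G)⁻¹ * b⁻¹ = 1 := by group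
    rw [e]
    exact one_mem _
  | mul a1 a2 ha1 ha2 ih1 ih2 =>
    have e : (a1 * a2) * b * (a1 * a2)⁻¹ * b⁻¹ = (a1 * (a2 * b * a2⁻¹ * b⁻¹) * a1⁻¹) * (a1 * b * a1⁻¹ * b⁻¹) := by group
    rw [e]
    exact mul_mem (hn a1 ha1 _ ih2) ih1
  | inv a1 ha1 ih1 =>
    have e : a1⁻¹ * b * (a1⁻¹)⁻¹ * b⁻¹ = a1⁻¹ * (a1 * b * a1⁻¹ * b⁻¹)⁻¹ * a1 := by group
    rw [e]
    exact hn' a1 ha1 _ (inv_mem ih1)

theorem lw_lv (r : Root) : (Pi' 0 r ↔ 1 ≤ lw 0 r.1) ∧ (1 ≤ lw 0 r.1 ↔ Lv (lw 0) (fu 0) 1 r) ∧ (2 ≤ lw 0 r.1 ↔ Lv (lw 0) (fu 0) 4 r) ∧ (3 ≤ lw 0 r.1 ↔ Lv (lw 0) (fu 0) 6 r) ∧ ¬ 6 ≤ lw 0 r.1 := by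
  refine ⟨(Pi_iff 0 r).trans ⟨fun h1 => by omega, fun h1 => by omega⟩, ?_⟩
  exact all_rts (p := fun v => (1 ≤ lw 0 v ↔ (0 < lw 0 v ∧ 1 ≤ fu 0 v)) ∧ (2 ≤ lw 0 v ↔ (0 < lw 0 v ∧ 4 ≤ fu 0 v)) ∧ (3 ≤ lw 0 v ↔ (0 < lw 0 v ∧ 6 ≤ fu 0 v)) ∧ ¬ 6 ≤ lw 0 v) (by decide) r

/-- `t M` normalizes the groups `k ≤ lw 0` (`lw_conj` for `ra`, `-ra`: `lw 0 ra = 0`) and so does the torus -/
theorem lw_t (h : Stb K x) (hτ : ∀ a, τ (τ (τ a)) = a) (ht : IsY x τ ra (Sf τ 0) t) (M : ThG.SL2 (Sf τ 0)) {k : ℤ} (hk : 1 ≤ k) {g : G} (hg : g ∈ Sy x τ fun s => k ≤ lw 0 s.1) :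
    t M * g * (t M)⁻¹ ∈ Sy x τ fun s => k ≤ lw 0 s.1 := by
  have hfix : ∀ a : Sf τ 0, τ (a : K) = a := fun a => Sf_fix (i := 0) (by decide) a
  have hlo : ∀ a : K, τ a = a → ∀ g ∈ (Sy x τ fun s => k ≤ lw 0 s.1), yt x τ (-ra) a * g * (yt x τ (-ra) a)⁻¹ ∈ (Sy x τ fun s => k ≤ lw 0 s.1) :=
    fun a ha g hg => lw_conj h hτ 0 hk (r := -ra) (by decide) (fun _ => ha) hg
  have hup : ∀ a : K, τ a = a → ∀ g ∈ (Sy x τ fun s => k ≤ lw 0 s.1), yt x τ ra a * g * (yt x τ ra a)⁻¹ ∈ (Sy x τ fun s => k ≤ lw 0 s.1) :=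
    fun a ha g hg => lw_conj h hτ 0 hk (r := ra) (by decide) (fun _ => ha) hg
  have key : (∀ g ∈ (Sy x τ fun s => k ≤ lw 0 s.1), t M * g * (t M)⁻¹ ∈ (Sy x τ fun s => k ≤ lw 0 s.1)) ∧
      (∀ g ∈ (Sy x τ fun s => k ≤ lw 0 s.1), (t M)⁻¹ * g * t M ∈ (Sy x τ fun s => k ≤ lw 0 s.1)) := by
    have hM : M ∈ Subgroup.closure {g : ThG.SL2 (Sf τ 0) | ∃ a, g = ThG.up a ∨ g = ThG.lo a} := by
      rw [ThG.sl2_gen]
      exact Subgroup.mem_top M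
    induction hM using Subgroup.closure_induction with
    | mem y hy =>
      obtain ⟨a, rfl | rfl⟩ := hy
      · rw [ht.up]
        refine ⟨hup a (hfix a), fun g hg => ?_⟩
        have h1 := hup (-(a : K)) (by rw [map_neg, hfix]) g hg
        rw [← yt_inv h, inv_inv] at h1
        exact h1
      · rw [ht.lo]
        refine ⟨hlo (-(a : K)) (by rw [map_neg, hfix]), fun g hg => ?_⟩
        have h1 := hlo (a : K) (hfix a) g hg
        have e : (yt x τ (-ra) (-(a : K)))⁻¹ = yt x τ (-ra) (a : K) := by rw [yt_inv h, neg_neg]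
        rw [e, ← inv_inv (yt x τ (-ra) (-(a : K))), e]
        exact h1
    | one =>
      rw [map_one]
      refine ⟨fun g hg => ?_, fun g hg => ?_⟩
      · have e : (1 : G) * g * (1 : G)⁻¹ = g := by group
        rw [e]
        exact hg
      · have e : (1 : G)⁻¹ * g * (1 : G) = g := by group
        rw [e]
        exact hg
    | mul M1 M2 _ _ ih1 ih2 =>
      rw [map_mul]
      refine ⟨fun g hg => ?_, fun g hg => ?_⟩
      · have e : t M1 * t M2 * g * (t M1 * t M2)⁻¹ = t M1 * (t M2 * g * (t M2)⁻¹) * (t M1)⁻¹ := by group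
        rw [e]
        exact ih1.1 _ (ih2.1 _ hg)
      · have e : (t M1 * t M2)⁻¹ * g * (t M1 * t M2) = (t M2)⁻¹ * ((t M1)⁻¹ * g * t M1) * t M2 := by group
        rw [e]
        exact ih2.2 _ (ih1.2 _ hg)
    | inv M1 _ ih1 =>
      rw [map_inv, inv_inv]
      exact ⟨ih1.2, ih1.1⟩
  exact key.1 g hg
-- END ed

-- BEGIN ee
private theorem ee_rt (r : Root) : 0 < lw 0 r.1 → (fu 0 r.1 < 4 → lw 0 r.1 = 1) ∧ (6 ≤ fu 0 r.1 → lw 0 r.1 = 3) ∧ fu 0 r.1 ≠ 4 ∧ (fu 0 r.1 = 5 → bf ra.1 r.1 = 0 ∧ r.1.1 = 1) := by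
  have h := all_rts (p := fun v => 0 < lw 0 v → (fu 0 v < 4 → lw 0 v = 1) ∧ (6 ≤ fu 0 v → lw 0 v = 3) ∧ fu 0 v ≠ 4 ∧ (fu 0 v = 5 → bf ra.1 v = 0 ∧ v.1 = 1)) (by decide) r
  exact h

private theorem ee_ra (v : Vec) : bf ra.1 v = 2 * v.1 - lw 0 v := by
  rw [bf_eq]
  unfold lw
  rw [if_pos rfl]
  show 2 * (1 * v.1) + 2 * (0 * v.2 0 + 0 * v.2 1 + 0 * v.2 2) - 1 * (v.2 0 + v.2 1 + v.2 2) - v.1 * (0 + 0 + 0) = _
  ring

private theorem ee_rb (v : Vec) : bf (sn 1).1 v + bf (sr (sn 1)).1 v + bf (sr (sr (sn 1))).1 v = 2 * lw 0 v - 3 * v.1 := by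
  rw [bf_eq, bf_eq, bf_eq]
  unfold lw
  rw [if_pos rfl]
  show 2 * (0 * v.1) + 2 * (1 * v.2 0 + 0 * v.2 1 + 0 * v.2 2) - 0 * (v.2 0 + v.2 1 + v.2 2) - v.1 * (1 + 0 + 0) +
    (2 * (0 * v.1) + 2 * (0 * v.2 0 + 1 * v.2 1 + 0 * v.2 2) - 0 * (v.2 0 + v.2 1 + v.2 2) - v.1 * (0 + 1 + 0)) +
    (2 * (0 * v.1) + 2 * (0 * v.2 0 + 0 * v.2 1 + 1 * v.2 2) - 0 * (v.2 0 + v.2 1 + v.2 2) - v.1 * (0 + 0 + 1)) = _
  ring

private theorem ee_ch2 {z : ∀ i : Fin 2, (Sf τ i)ˣ} (h0 : ((z 0 : Sf τ 0) : K) = -1) (h1 : ((z 1 : Sf τ 1) : K) = 1) {v : Vec} (hv : ¬ Even (lw 0 v)) : chY τ v z = -1 := by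
  have k1 : cy τ (sn 1) v 1 = 1 := by
    unfold cy
    split_ifs
    · exact one_zpow _
    · rw [map_one, map_one, one_zpow, one_zpow, one_zpow, one_mul, one_mul]
  have k0 : cy τ (sn 0) v (-1) = -1 := by
    unfold cy
    rw [if_pos ((sn_fix 0).2 (by norm_num))]
    have e : bf (sn 0).1 v = 2 * v.1 - lw 0 v := ee_ra v
    rw [e]
    refine Odd.neg_one_zpow ?_
    have h2 : Odd (lw 0 v) := Int.not_even_iff_odd.1 hv
    exact Even.sub_odd (even_two_mul _) h2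
  unfold chY
  rw [h0, h1, k0, k1, mul_one]

private theorem ee_ch1 (ht0 : ∀ a, τ a = a) {z : ∀ i : Fin 2, (Sf τ i)ˣ} (h0 : ((z 0 : Sf τ 0) : K) = 1) (h1 : ((z 1 : Sf τ 1) : K) = -1) {v : Vec} (hv : v.1 = 1) : chY τ v z = -1 := by
  have k0 : cy τ (sn 0) v 1 = 1 := by
    unfold cy
    rw [if_pos ((sn_fix 0).2 (by norm_num))]
    exact one_zpow _
  have k1 : cy τ (sn 1) v (-1) = -1 := by
    unfold cy
    rw [if_neg (fun h => absurd ((sn_fix 1).1 h) (by norm_num))]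
    rw [ht0, ht0]
    have hn : (-1 : K) ≠ 0 := neg_ne_zero.2 one_ne_zero
    rw [← zpow_add₀ hn, ← zpow_add₀ hn, ee_rb, hv]
    refine Odd.neg_one_zpow ?_
    exact Even.sub_odd (even_two_mul _) (by decide)
  unfold chY
  rw [h0, h1, k0, k1, one_mul]

private theorem ee_D2 (h : Stb K x) (τ : K →+* K) : hk x τ 1 (-1) * hk x τ 1 (-1) = 1 := by
  have h1 := hk_mul h τ (a := 1) (b := -1) (c := 1) (d := -1) one_ne_zero (neg_ne_zero.2 one_ne_zero) one_ne_zero (neg_ne_zero.2 one_ne_zero)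
  rw [← h1, one_mul, neg_mul_neg, one_mul, hk_one h]

private theorem ee_K (h3 : (3 : K) = 0) : (-1 : K) ≠ 1 := by
  intro h
  have h1 : (2 : K) = 0 := by linear_combination -h
  have h2 : (1 : K) = 0 := by linear_combination h3 - h1
  exact one_ne_zero h2

private theorem ee_sf (hK : ∀ a : K, a = 0 ∨ a = 1 ∨ a = -1) (h3 : (3 : K) = 0) : (∀ a : Sf τ 0, a = 0 ∨ a = 1 ∨ a = -1) ∧ (3 : Sf τ 0) = 0 := by
  refine ⟨fun a => ?_, Subtype.ext h3⟩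
  rcases hK (a : K) with h | h | h
  · exact Or.inl (Subtype.ext h)
  · exact Or.inr (Or.inl (Subtype.ext h))
  · exact Or.inr (Or.inr (Subtype.ext h))

private theorem ee_pow (h : Stb K x) (hτ : ∀ a, τ (τ (τ a)) = a) (hK : ∀ a : K, a = 0 ∨ a = 1 ∨ a = -1) (h3 : (3 : K) = 0) (ht : IsY x τ ra (Sf τ 0) t) {M : ThG.SL2 (Sf τ 0)} (hM : tr' M ≠ 0) :
    (t M * hk x τ 1 (-1)) ^ 4 = hk x τ (-1) 1 := by
  have hD := ee_D2 h τ
  have h1 := t_D h hτ ht M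
  have h2 : (t M * hk x τ 1 (-1)) * (t M * hk x τ 1 (-1)) = t (M * ThG.cj (-1) M) := by
    rw [map_mul, ← h1]
    have hD' : (hk x τ 1 (-1))⁻¹ = hk x τ 1 (-1) := inv_eq_of_mul_eq_one_right hD
    rw [hD']
    simp only [mul_assoc]
  have e4 : ∀ y : G, y ^ 4 = (y * y) * (y * y) := fun y => by simp only [pow_succ, pow_zero, one_mul, mul_assoc]
  obtain ⟨k1, k2⟩ := ee_sf (τ := τ) hK h3
  rw [e4, h2, ← map_mul, th_P4 k1 k2 hM, t_dg h ht]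
  congr 1

/-- MODULE ee. `w = t M * D`, `D = hk 1 (-1)`, `D² = 1` (`hk_mul`, `hk_one`), `w² = t (M * cj (-1) M)` (`t_D`), `w⁴ = t (dg (-1)) = hk (-1) 1` (`th_P4`, `t_dg`) `= hz z2`, whose characters are `-1` at the `v` with `m_0 + m_1 + m_2` odd (`chY_one`: `1 / (-1)`, `chY_zero`: `1`), so `≠ 1` (`2 ≠ 0`).
The groups `S k = {k ≤ lw 0}`: `S 1 → S 2`: `Stp.pow4` (`lw_comm`: `2 * 1 ≤ lw`), for `w ^ 4 = hz z2`: `Lv_chain` from `1` to `4` (`lw_lv`) with `Lv_step`, `e = chY ρ z2`; `S 2 → S 3`: `Lv_chain` from `4` to `6` with `Lv_step` for `w`: the roots with level `5` are `(1; 0, 1, 1)`, `(1; 1, 0, 1)`, `(1; 1, 1, 0)`, orthogonal to `ra` (`t_orth`), `e = -1` (`D`),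
`u = 1`; there is no root of level `4`; `S 3 → ⊥`: `Stp.pow4` (`lw_comm`: `6 ≤ lw`: no roots), `Lv_chain` from `6` to `9`, `Lv_top`. -/
theorem three_sur (h : Stb K x) (ht0 : ∀ a, τ a = a) (hK : ∀ a : K, a = 0 ∨ a = 1 ∨ a = -1) (h3 : (3 : K) = 0) (ht : IsY x τ ra (Sf τ 0) t) {M : ThG.SL2 (Sf τ 0)} (hM : tr' M ≠ 0) :
    Stp (t M * hk x τ 1 (-1)) (Sy x τ (Pi' 0)) ⊥ := by
  have hτ : ∀ a, τ (τ (τ a)) = a := fun a => by rw [ht0, ht0, ht0]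
  have hn : (-1 : K) ≠ 0 := neg_ne_zero.2 one_ne_zero
  have hn1 : (-1 : K) ≠ 1 := ee_K h3
  obtain ⟨z1, z10, z11⟩ := exists_z (τ := τ) (a := 1) (b := -1) one_ne_zero hn (ht0 1)
  obtain ⟨z2, z20, z21⟩ := exists_z (τ := τ) (a := -1) (b := 1) hn one_ne_zero (ht0 (-1))
  have hz1 : hk x τ 1 (-1) = hz x τ z1 := by
    show _ = hy x τ ra ((z1 0 : Sf τ 0) : K) * hy x τ rb ((z1 1 : Sf τ 1) : K)
    rw [z10, z11]
    rfl
  have hz2 : (t M * hk x τ 1 (-1)) ^ 4 = hz x τ z2 := by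
    rw [ee_pow h hτ hK h3 ht hM]
    show _ = hy x τ ra ((z2 0 : Sf τ 0) : K) * hy x τ rb ((z2 1 : Sf τ 1) : K)
    rw [z20, z21]
    rfl
  have L := Lf_U 0
  -- the levels
  have s1 : (Sy x τ fun s => 1 ≤ lw 0 s.1) = Sy x τ (Lv (lw 0) (fu 0) 1) := le_antisymm (Sy.mono x τ fun r hr => (lw_lv r).2.1.1 hr) (Sy.mono x τ fun r hr => (lw_lv r).2.1.2 hr)
  have s2 : (Sy x τ fun s => 2 ≤ lw 0 s.1) = Sy x τ (Lv (lw 0) (fu 0) 4) := le_antisymm (Sy.mono x τ fun r hr => (lw_lv r).2.2.1.1 hr) (Sy.mono x τ fun r hr => (lw_lv r).2.2.1.2 hr)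
  have s3 : (Sy x τ fun s => 3 ≤ lw 0 s.1) = Sy x τ (Lv (lw 0) (fu 0) 6) := le_antisymm (Sy.mono x τ fun r hr => (lw_lv r).2.2.2.1.1 hr) (Sy.mono x τ fun r hr => (lw_lv r).2.2.2.1.2 hr)
  have s6 : (Sy x τ fun s => 2 * 3 ≤ lw 0 s.1) = ⊥ := by
    rw [eq_bot_iff]
    unfold Sy
    rw [Subgroup.closure_le]
    rintro g ⟨r, a, hr, ha, rfl⟩
    exact absurd hr (lw_lv r).2.2.2.2
  have s0 : Sy x τ (Pi' 0) = Sy x τ fun s => 1 ≤ lw 0 s.1 := le_antisymm (Sy.mono x τ fun r hr => (lw_lv r).1.1 hr) (Sy.mono x τ fun r hr => (lw_lv r).1.2 hr)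
  -- `w` normalizes the groups
  have hw : ∀ k : ℤ, 1 ≤ k → ∀ v ∈ (Sy x τ fun s => k ≤ lw 0 s.1), (t M * hk x τ 1 (-1)) * v * (t M * hk x τ 1 (-1))⁻¹ ∈ Sy x τ fun s => k ≤ lw 0 s.1 := by
    intro k k1 v hv
    have e : (t M * hk x τ 1 (-1)) * v * (t M * hk x τ 1 (-1))⁻¹ = t M * (hk x τ 1 (-1) * v * (hk x τ 1 (-1))⁻¹) * (t M)⁻¹ := by group
    rw [e]
    refine lw_t h hτ ht M k1 ?_
    rw [hz1]
    exact (hz_nrm h hτ z1 _).1 v hv
  -- the torus element `w ^ 4`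
  have hstep : ∀ k : ℤ, (∀ ρ : Root, 0 < lw 0 ρ.1 → fu 0 ρ.1 = k → ¬ Even (lw 0 ρ.1)) → Stp ((t M * hk x τ 1 (-1)) ^ 4) (Sy x τ (Lv (lw 0) (fu 0) k)) (Sy x τ (Lv (lw 0) (fu 0) (k + 1))) := by
    intro k k1
    refine Lv_step h hτ L fun ρ h1 h2 => ⟨chY τ ρ.1 z2, ?_, fun _ => ht0 _, fun c hc => ⟨1, one_mem _, ?_⟩⟩
    · rw [ee_ch2 z20 z21 (k1 ρ h1 h2)]
      exact hn1
    · rw [hz2, hzY_conj h hτ, mul_one]
  have A : Stp (t M * hk x τ 1 (-1)) (Sy x τ fun s => 1 ≤ lw 0 s.1) (Sy x τ fun s => 2 ≤ lw 0 s.1) := by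
    refine Stp.pow4 (Sy.mono x τ fun r hr => le_trans (by norm_num) hr) (hw 1 le_rfl) (fun a ha b hb => ?_) ?_
    · exact Sy.mono x τ (fun r hr => by omega) (lw_comm h hτ 0 le_rfl ha hb)
    · rw [s1, s2]
      refine Lv_chain (by norm_num) fun k k1 k2 => hstep k fun ρ h1 h2 => ?_
      rw [(ee_rt ρ h1).1 (by omega)]
      decide
  have B : Stp (t M * hk x τ 1 (-1)) (Sy x τ fun s => 2 ≤ lw 0 s.1) (Sy x τ fun s => 3 ≤ lw 0 s.1) := by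
    rw [s2, s3]
    refine Lv_chain (by norm_num) fun k k1 k2 => ?_
    refine Lv_step h hτ L fun ρ h1 h2 => ?_
    have k5 : fu 0 ρ.1 = 5 := by
      have k6 := (ee_rt ρ h1).2.2.1
      omega
    obtain ⟨k7, k3⟩ := (ee_rt ρ h1).2.2.2 k5
    refine ⟨chY τ ρ.1 z1, ?_, fun _ => ht0 _, fun c hc => ⟨1, one_mem _, ?_⟩⟩
    · rw [ee_ch1 ht0 z10 z11 k3]
      exact hn1
    · have k4 := t_orth h ht M k7 (chY τ ρ.1 z1 * c)
      have e : (t M * hk x τ 1 (-1)) * yt x τ ρ c * (t M * hk x τ 1 (-1))⁻¹ = t M * (hk x τ 1 (-1) * yt x τ ρ c * (hk x τ 1 (-1))⁻¹) * (t M)⁻¹ := by group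
      rw [e, hz1, hzY_conj h hτ, k4, mul_one, mul_inv_cancel_right]
  have C : Stp (t M * hk x τ 1 (-1)) (Sy x τ fun s => 3 ≤ lw 0 s.1) ⊥ := by
    refine Stp.pow4 bot_le (hw 3 (by norm_num)) (fun a ha b hb => ?_) ?_
    · rw [← s6]
      exact lw_comm h hτ 0 (by norm_num) ha hb
    · rw [s3, ← Lv_top x τ L]
      refine Lv_chain (by norm_num) fun k k1 k2 => hstep k fun ρ h1 h2 => ?_
      rw [(ee_rt ρ h1).2.1 (by omega)]
      decide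
  rw [s0]
  exact Stp.trans (Sy.mono x τ fun r hr => le_trans (by norm_num) hr) A (Stp.trans (Sy.mono x τ fun r hr => le_trans (by norm_num) hr) B C)
-- END ee

-- BEGIN ef
/-- the matrix `[[0, 1], [-1, 0]]` -/
private def ef_n (F : Type*) [Field F] : ThG.SL2 F := ⟨!![0, 1; -1, 0], by simp [Matrix.det_fin_two]⟩

private theorem ef_ext {F : Type*} [Field F] {M N : ThG.SL2 F} (h0 : M.1 0 0 = N.1 0 0) (h1 : M.1 0 1 = N.1 0 1) (h2 : M.1 1 0 = N.1 1 0) (h3 : M.1 1 1 = N.1 1 1) : M = N := by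
  apply Subtype.ext
  ext i j
  fin_cases i <;> fin_cases j
  · exact h0
  · exact h1
  · exact h2
  · exact h3

private theorem ef_up {F : Type*} [Field F] (a : F) : ef_n F * ThG.up a * (ef_n F)⁻¹ = ThG.lo (-a) := by
  have h1 : ef_n F * ThG.up a = ThG.lo (-a) * ef_n F := by
    apply ef_ext <;> rw [Matrix.SpecialLinearGroup.coe_mul, Matrix.SpecialLinearGroup.coe_mul] <;> simp [ef_n, ThG.up, ThG.lo, Matrix.mul_apply, Fin.sum_univ_two]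
  rw [h1, mul_inv_cancel_right]

private theorem ef_lo {F : Type*} [Field F] (a : F) : ef_n F * ThG.lo a * (ef_n F)⁻¹ = ThG.up (-a) := by
  have h1 : ef_n F * ThG.lo a = ThG.up (-a) * ef_n F := by
    apply ef_ext <;> rw [Matrix.SpecialLinearGroup.coe_mul, Matrix.SpecialLinearGroup.coe_mul] <;> simp [ef_n, ThG.up, ThG.lo, Matrix.mul_apply, Fin.sum_univ_two]
  rw [h1, mul_inv_cancel_right]

private theorem ef_dg {F : Type*} [Field F] (c : Fˣ) : ef_n F * ThG.dg c * (ef_n F)⁻¹ = ThG.dg c⁻¹ := by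
  have h1 : ef_n F * ThG.dg c = ThG.dg c⁻¹ * ef_n F := by
    apply ef_ext <;> rw [Matrix.SpecialLinearGroup.coe_mul, Matrix.SpecialLinearGroup.coe_mul] <;> simp [ef_n, ThG.dg, Matrix.mul_apply, Fin.sum_univ_two]
  rw [h1, mul_inv_cancel_right]

private theorem ef_ex {F : Type*} [Field F] (M : ThG.SL2 F) : ∃ M' : ThG.SL2 F, ef_n F * M' * (ef_n F)⁻¹ = M ∧ tr' M' = -tr' M := by
  have h := M.2
  rw [Matrix.det_fin_two] at h
  have h2 : Matrix.det !![M.1 1 1, -M.1 1 0; -M.1 0 1, M.1 0 0] = 1 := by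
    rw [Matrix.det_fin_two_of]
    linear_combination h
  obtain ⟨M', hM'⟩ : ∃ M' : ThG.SL2 F, M'.1 = !![M.1 1 1, -M.1 1 0; -M.1 0 1, M.1 0 0] := ⟨⟨_, h2⟩, rfl⟩
  refine ⟨M', ?_, ?_⟩
  · have h3 : ef_n F * M' = M * ef_n F := by
      apply ef_ext <;> rw [Matrix.SpecialLinearGroup.coe_mul, Matrix.SpecialLinearGroup.coe_mul, hM'] <;> simp [ef_n, Matrix.mul_apply, Fin.sum_univ_two]
    rw [h3, mul_inv_cancel_right]
  · unfold tr'
    rw [hM']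
    simp

private theorem ef_hh (h : Stb K x) (r : Root) {c : K} (hc : c ≠ 0) : hh (op x) r c = hh x r c⁻¹ := by
  rw [← hh_neg h r hc]
  rfl

private theorem ef_hy (h : Stb K x) (τ : K →+* K) (r : Root) {c : K} (hc : c ≠ 0) : hy (op x) τ r c = hy x τ r c⁻¹ := by
  have h1 : τ c ≠ 0 := (map_ne_zero τ).2 hc
  have h2 : τ (τ c) ≠ 0 := (map_ne_zero τ).2 h1
  unfold hy
  split_ifs with hr
  · exact ef_hh h r hc
  · rw [ef_hh h r hc, ef_hh h _ h1, ef_hh h _ h2, map_inv₀, map_inv₀]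

private theorem ef_hk (h : Stb K x) (τ : K →+* K) : hk (op x) τ 1 (-1) = hk x τ 1 (-1) := by
  unfold hk
  rw [ef_hy h τ ra one_ne_zero, ef_hy h τ rb (neg_ne_zero.2 one_ne_zero), inv_neg, inv_one]

private theorem ef_isY (h : Stb K x) (ht : IsY x τ ra (Sf τ 0) t) : IsY (op x) τ ra (Sf τ 0) (t.comp (MulAut.conj (ef_n (Sf τ 0))).toMonoidHom) := by
  refine ⟨fun a => ?_, fun a => ?_, fun c => ?_⟩
  · show t (ef_n (Sf τ 0) * ThG.up a * (ef_n (Sf τ 0))⁻¹) = _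
    rw [ef_up, ht.lo, yt_op]
    simp
  · show t (ef_n (Sf τ 0) * ThG.lo a * (ef_n (Sf τ 0))⁻¹) = _
    rw [ef_lo, ht.up, yt_op]
    simp
  · show t (ef_n (Sf τ 0) * ThG.dg c * (ef_n (Sf τ 0))⁻¹) = _
    have hc : ((c : Sf τ 0) : K) ≠ 0 := fun e => c.ne_zero (Subtype.ext e)
    rw [ef_dg, ht.dg, ef_hy h τ ra hc]
    simp

/-- MODULE ef. `three_sur` for the opposite system: `h.op`, `t' = t ∘ φ`, `φ M = (M⁻¹)ᵀ` (`φ (up a) = lo (-a)`, `φ (lo a) = up (-a)`, `φ (dg c) = dg c⁻¹`): `IsY (op x) τ ra (Sf τ 0) t'` (`yt_op`; `hh (op x) r c = hh x (-r) c = (hh x r c)⁻¹`: `hh_neg`), `hk (op x) τ 1 (-1) = hk x τ 1 (-1)`, `tr' (φ M) = -tr' M`. -/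
theorem three_surV (h : Stb K x) (ht0 : ∀ a, τ a = a) (hK : ∀ a : K, a = 0 ∨ a = 1 ∨ a = -1) (h3 : (3 : K) = 0) (ht : IsY x τ ra (Sf τ 0) t) {M : ThG.SL2 (Sf τ 0)} (hM : tr' M ≠ 0) :
    Stp (t M * hk x τ 1 (-1)) (Sy (op x) τ (Pi' 0)) ⊥ := by
  obtain ⟨M', e1, e2⟩ := ef_ex M
  have h1 := three_sur h.op ht0 hK h3 (ef_isY h ht) (M := M') (by rw [e2]; exact neg_ne_zero.2 hM)
  rw [ef_hk h τ] at h1
  have h2 : (t.comp (MulAut.conj (ef_n (Sf τ 0))).toMonoidHom) M' = t M := by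
    show t (ef_n (Sf τ 0) * M' * (ef_n (Sf τ 0))⁻¹) = t M
    rw [e1]
  rw [h2] at h1
  exact h1
-- END ef

-- BEGIN eg
/-- MODULE eg. From `S 1 z`: update `z_1 := 1`.  From `S 0 z` with `z_1 ≠ 1`: update `z_0 := -1`, the character of `sn 1` is `z_1² / (-1) = -1 ≠ 1`: `S 1`; then `z_1 := 1`. -/
theorem comb_three (ht0 : ∀ a, τ a = a) (hK : ∀ a : K, a = 0 ∨ a = 1 ∨ a = -1) (h3 : (3 : K) = 0) {S : Fin 2 → (∀ i : Fin 2, (Sf τ i)ˣ) → Prop}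
    (h1 : ∀ i z t, S i z → S i (Function.update z i t)) (h2 : ∀ i j z, S i z → chY τ (sn j).1 z ≠ 1 → S j z) (i : Fin 2) (z : ∀ i : Fin 2, (Sf τ i)ˣ) (hS : S i z) :
    ∃ j z', S j z' ∧ ((z' 1 : Sf τ 1) : K) = 1 := by
  have fin : ∀ z : ∀ i : Fin 2, (Sf τ i)ˣ, S 1 z → ∃ j z', S j z' ∧ ((z' 1 : Sf τ 1) : K) = 1 := by
    intro z hz
    refine ⟨1, Function.update z 1 1, h1 1 z 1 hz, ?_⟩
    rw [Function.update_self, Units.val_one]
    rfl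
  have hi : i = 0 ∨ i = 1 := by omega
  rcases hi with rfl | rfl
  · have s1 := h1 0 z (-1) hS
    have e0 : (((Function.update z 0 (-1) : ∀ i : Fin 2, (Sf τ i)ˣ) 0 : Sf τ 0) : K) = -1 := by
      rw [Function.update_self, Units.val_neg, Units.val_one]
      rfl
    have e1 : (((Function.update z 0 (-1) : ∀ i : Fin 2, (Sf τ i)ˣ) 1 : Sf τ 1) : K) = ((z 1 : Sf τ 1) : K) := by
      rw [Function.update_of_ne (by decide)]
    have n1 : ((z 1 : Sf τ 1) : K) ≠ 0 := by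
      intro h0
      exact (z 1).ne_zero (Subtype.ext h0)
    have n2 : ((z 1 : Sf τ 1) : K) ^ 2 = 1 := by
      rcases hK ((z 1 : Sf τ 1) : K) with h | h | h
      · exact absurd h n1
      · rw [h, one_pow]
      · rw [h, neg_one_sq]
    refine fin _ (h2 0 1 _ s1 ?_)
    rw [chY_one, e0, e1, n2, one_mul]
    intro h
    have h4 : (-1 : K) = 1 := by
      have h5 := congrArg (fun a : K => a⁻¹) h
      simp only [inv_inv, inv_one] at h5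
      exact h5
    have h6 : (1 : K) = 0 := by linear_combination h3 + h4
    exact one_ne_zero h6
  · exact fin z hS

/-- `reachY`, `comb_three`; `Sy.mono`, `Sy_op`, `hy_one` -/
theorem reach_three (h : Stb K x) (ht0 : ∀ a, τ a = a) (hK : ∀ a : K, a = 0 ∨ a = 1 ∨ a = -1) (h3 : (3 : K) = 0) {g : G} (hg : g ∈ Hh x τ) (hc : ∃ u ∈ Hh x τ, u * g ≠ g * u) :
    ∃ c ∈ Hh x τ, ∃ v ∈ Sy (op x) τ (fun r => 0 < ht r.1), ∃ u ∈ Sy x τ (fun r => 0 < ht r.1), ∃ a : (Sf τ 0)ˣ, c * g * c⁻¹ = v * hk x τ ((a : Sf τ 0) : K) 1 * u := by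
  have hτ : ∀ a, τ (τ (τ a)) = a := fun a => by rw [ht0, ht0, ht0]
  obtain ⟨c, hcH, j, z, hz1, v, hv, u, hu, c', b, e, -⟩ := reachY h hτ hg hc (P := fun _ z => ((z 1 : Sf τ 1) : K) = 1) fun S k1 k2 i z hS => comb_three ht0 hK h3 k1 k2 i z hS
  have hpos : 0 < ht (sn j).1 := by
    rw [sn_ht]
    exact one_pos
  have mU : ∀ w ∈ Sy x τ (Pi' j), w ∈ Sy x τ (fun r => 0 < ht r.1) := fun w hw => Sy.mono x τ (fun r hr => hr.1) hw
  have mV : ∀ w ∈ Sy (op x) τ (Pi' j), w ∈ Sy (op x) τ (fun r => 0 < ht r.1) := fun w hw => Sy.mono (op x) τ (fun r hr => hr.1) hw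
  refine ⟨c, hcH, v * yt x τ (-sn j) (c' : K), ?_, yt x τ (sn j) (b : K) * u, ?_, z 0, ?_⟩
  · refine Subgroup.mul_mem _ (mV v hv) ?_
    rw [← yt_op]
    exact Sy.mem (p := fun r => 0 < ht r.1) hpos fun _ => ht0 _
  · exact Subgroup.mul_mem _ (Sy.mem (p := fun r => 0 < ht r.1) hpos fun _ => ht0 _) (mU u hu)
  · have e2 : hz x τ z = hk x τ ((z 0 : Sf τ 0) : K) 1 := by
      have e3 : hz x τ z = hk x τ ((z 0 : Sf τ 0) : K) ((z 1 : Sf τ 1) : K) := rfl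
      rw [e3, hz1]
    rw [e, e2]
    group
-- END eg

-- BEGIN eh
private theorem eh_D2 (h : Stb K x) (τ : K →+* K) : hk x τ 1 (-1) * hk x τ 1 (-1) = 1 := by
  have h1 := hk_mul h τ (a := 1) (b := -1) (c := 1) (d := -1) one_ne_zero (neg_ne_zero.2 one_ne_zero) one_ne_zero (neg_ne_zero.2 one_ne_zero)
  rw [← h1, one_mul, neg_mul_neg, one_mul, hk_one h]

private theorem eh_sf (hK : ∀ a : K, a = 0 ∨ a = 1 ∨ a = -1) (h3 : (3 : K) = 0) : (∀ a : Sf τ 0, a = 0 ∨ a = 1 ∨ a = -1) ∧ (3 : Sf τ 0) = 0 := by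
  refine ⟨fun a => ?_, Subtype.ext h3⟩
  rcases hK (a : K) with h | h | h
  · exact Or.inl (Subtype.ext h)
  · exact Or.inr (Or.inl (Subtype.ext h))
  · exact Or.inr (Or.inr (Subtype.ext h))

private theorem eh_cls (h : Stb K x) (ht0 : ∀ a, τ a = a) (hK : ∀ a : K, a = 0 ∨ a = 1 ∨ a = -1) (h3 : (3 : K) = 0) (ht : IsY x τ ra (Sf τ 0) t) {M M' : ThG.SL2 (Sf τ 0)} (hM : tr' M ≠ 0) (hM' : tr' M = tr' M') :
    ∃ a ∈ Hh x τ, t M' * hk x τ 1 (-1) = a * (t M * hk x τ 1 (-1)) * a⁻¹ := by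
  have hτ : ∀ a, τ (τ (τ a)) = a := fun a => by rw [ht0, ht0, ht0]
  obtain ⟨k1, k2⟩ := eh_sf (τ := τ) hK h3
  obtain ⟨Q, hQ⟩ := th_P2 k1 k2 hM' hM
  refine ⟨t Q, t_mem ht Q, ?_⟩
  rw [hQ, map_mul, map_mul, map_inv, ← t_D h hτ ht Q]
  group

private theorem eh_dg (M : ThG.SL2 (Sf τ 0)) : M * ThG.dg (-1) = ThG.dg (-1) * M := by
  apply Subtype.ext
  rw [Matrix.SpecialLinearGroup.coe_mul, Matrix.SpecialLinearGroup.coe_mul]
  ext i j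
  fin_cases i <;> fin_cases j <;> simp [ThG.dg, Matrix.mul_apply, Fin.sum_univ_two]

/-- MODULE eh. ALL ELEMENTS `t M * D` WITH `tr' M ≠ 0` ARE CONJUGATE.  `t Q * (t M * D) * (t Q)⁻¹ = t (Q * M * (cj (-1) Q)⁻¹) * D` (`t_D`, `D² = 1`): `th_P2` if `tr' M = tr' M'`.  Otherwise `tr' M' = -tr' M = tr' (dg (-1) * M)` (three elements; `th_neg`), and `mm x 0 * (t M * D) * (mm x 0)⁻¹ = t M * hk (-1) (-1) = t (M * dg (-1)) * D`
(`t_mm`, `mm0_three`, `t_dg`, `hk_mul`; `dg (-1)` is central). -/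
theorem three_cls (h : Stb K x) (ht0 : ∀ a, τ a = a) (hK : ∀ a : K, a = 0 ∨ a = 1 ∨ a = -1) (h3 : (3 : K) = 0) (ht : IsY x τ ra (Sf τ 0) t) {M M' : ThG.SL2 (Sf τ 0)} (hM : tr' M ≠ 0) (hM' : tr' M' ≠ 0) :
    ∃ a ∈ Hh x τ, t M' * hk x τ 1 (-1) = a * (t M * hk x τ 1 (-1)) * a⁻¹ := by
  have hτ : ∀ a, τ (τ (τ a)) = a := fun a => by rw [ht0, ht0, ht0]
  have hn : (-1 : K) ≠ 0 := neg_ne_zero.2 one_ne_zero
  obtain ⟨k1, k2⟩ := eh_sf (τ := τ) hK h3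
  by_cases he : tr' M = tr' M'
  · exact eh_cls h ht0 hK h3 ht hM he
  · have e1 : tr' (ThG.dg (-1) * M) = tr' M' := by
      rw [th_neg]
      rcases k1 (tr' M) with a | a | a
      · exact absurd a hM
      · rcases k1 (tr' M') with b | b | b
        · exact absurd b hM'
        · exact absurd (a.trans b.symm) he
        · rw [a, b]
      · rcases k1 (tr' M') with b | b | b
        · exact absurd b hM'
        · rw [a, b, neg_neg]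
        · exact absurd (a.trans b.symm) he
    have e2 : tr' (ThG.dg (-1) * M) ≠ 0 := by
      rw [e1]
      exact hM'
    obtain ⟨a, ha, e3⟩ := eh_cls h ht0 hK h3 ht e2 e1
    refine ⟨a * mm x 0, mul_mem ha (mm_mem h τ 0), ?_⟩
    have e4 : mm x 0 * (t M * hk x τ 1 (-1)) * (mm x 0)⁻¹ = t (ThG.dg (-1) * M) * hk x τ 1 (-1) := by
      have e5 : mm x 0 * (t M * hk x τ 1 (-1)) * (mm x 0)⁻¹ = (mm x 0 * t M * (mm x 0)⁻¹) * (mm x 0 * hk x τ 1 (-1) * (mm x 0)⁻¹) := by group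
      have e6 : hk x τ (-1) (-1) = t (ThG.dg (-1)) * hk x τ 1 (-1) := by
        have e7 := hk_mul h τ (a := -1) (b := 1) (c := 1) (d := -1) hn one_ne_zero one_ne_zero hn
        rw [mul_one, one_mul] at e7
        have e8 : t (ThG.dg (-1)) = hk x τ (-1) 1 := by
          rw [t_dg h ht]
          congr 1
        rw [e7, e8]
      rw [e5, t_mm h hτ ht, mm0_three h hτ, e6, ← mul_assoc, ← map_mul, eh_dg]
    rw [e3, ← e4]
    group

private theorem eh_nice (h : Stb K x) (ht0 : ∀ a, τ a = a) (hK : ∀ a : K, a = 0 ∨ a = 1 ∨ a = -1) (h3 : (3 : K) = 0) (ht : IsY x τ ra (Sf τ 0) t) {M M' : ThG.SL2 (Sf τ 0)} (hM : tr' M ≠ 0) (hM' : tr' M' ≠ 0) :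
    Nice x τ 0 (t M * hk x τ 1 (-1)) (t M' * hk x τ 1 (-1)) := by
  have hτ : ∀ a, τ (τ (τ a)) = a := fun a => by rw [ht0, ht0, ht0]
  obtain ⟨z1, z10, z11⟩ := exists_z (τ := τ) (a := 1) (b := -1) one_ne_zero (neg_ne_zero.2 one_ne_zero) (ht0 1)
  have hz1 : hk x τ 1 (-1) = hz x τ z1 := by
    show _ = hy x τ ra ((z1 0 : Sf τ 0) : K) * hy x τ rb ((z1 1 : Sf τ 1) : K)
    rw [z10, z11]
    rfl
  refine ⟨three_cls h ht0 hK h3 ht hM hM', three_sur h ht0 hK h3 ht hM', three_surV h ht0 hK h3 ht hM', fun u hu => ?_⟩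
  have e : (t M' * hk x τ 1 (-1)) * u * (t M' * hk x τ 1 (-1))⁻¹ = t M' * (hk x τ 1 (-1) * u * (hk x τ 1 (-1))⁻¹) * (t M')⁻¹ := by group
  rw [e]
  refine (t_nrm h hτ ht M').1 _ ?_
  rw [hz1]
  exact (hz_nrm h hτ z1 _).1 u hu

/-- `G_2(3)`.  `w = t M0 * D`, `M0 = [[0, 1], [-1, 1]]`.  `reach_three`: `g ~ v * hk a 1 * u`; `v = v' * y_(-ra)(c)`, `u = y_(ra)(b) * u'` (`Pi_split`, for `op x` too), `y_(-ra)(c) * hk a 1 * y_(ra)(b) = t (lo (-c) * dg a * up b) = t M1 * t (cj (-1) M2) = (t M1 * D) * (t M2 * D)` (`th_P1`, `t_D`, `D² = 1`); `Nice.prod` (`three_cls`, `three_sur`, `three_surV`, `t_nrm`,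
`hz_nrm`).  `w⁻¹ = D⁻¹ * t M0⁻¹ = t (cj (-1) M0⁻¹) * D` has `tr' ≠ 0`: `three_cls`. -/
theorem good_three (h : Stb K x) (ht0 : ∀ a, τ a = a) (hK : Nat.card K = 3) : Good x τ := by
  obtain ⟨hF, h3⟩ := three_of_card hK
  have hτ : ∀ a, τ (τ (τ a)) = a := fun a => by rw [ht0, ht0, ht0]
  have hn : (-1 : K) ≠ 0 := neg_ne_zero.2 one_ne_zero
  obtain ⟨k1, k2⟩ := eh_sf (τ := τ) hF h3
  obtain ⟨t, ht⟩ := exists_isY (τ := τ) h ra (Sf τ 0) fun _ a _ => ht0 a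
  have hD := eh_D2 h τ
  have hD' : (hk x τ 1 (-1))⁻¹ = hk x τ 1 (-1) := inv_eq_of_mul_eq_one_right hD
  have hDm : hk x τ 1 (-1) ∈ Hh x τ := hk_mem h one_ne_zero hn (ht0 1)
  obtain ⟨M0, hM0⟩ : ∃ M0 : ThG.SL2 (Sf τ 0), M0.1 = !![0, 1; -1, 1] := ⟨⟨!![0, 1; -1, 1], by rw [Matrix.det_fin_two_of]; ring⟩, rfl⟩
  have hM0t : tr' M0 ≠ 0 := by
    unfold tr'
    rw [hM0]
    simp
  have hM0i : tr' (ThG.cj (-1) M0⁻¹) ≠ 0 := by
    have e : tr' (ThG.cj (-1) M0⁻¹) = M0.1 0 0 - M0.1 1 1 := by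
      show (M0⁻¹).1 1 1 - (M0⁻¹).1 0 0 = _
      rw [Matrix.SpecialLinearGroup.SL2_inv_expl]
      rfl
    rw [e, hM0]
    simp
  refine ⟨t M0 * hk x τ 1 (-1), mul_mem (t_mem ht M0) hDm, fun g hg hc => ?_, ?_⟩
  · obtain ⟨c0, hc0, v, hv, u, hu, a, e1⟩ := reach_three h ht0 hF h3 hg hc
    obtain ⟨b, hb, u', hu', e2⟩ := Pi_split h hτ 0 hu
    obtain ⟨c, hc', v', hv', e3⟩ := Pi_split h.op hτ 0 (inv_mem hv)
    obtain ⟨b', hb'⟩ := Sf_of (τ := τ) (i := 0) hb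
    obtain ⟨c', hc''⟩ := Sf_of (τ := τ) (i := 0) hc'
    have e4 : v = v'⁻¹ * t (ThG.lo c') := by
      have e5 : t (ThG.lo c') = (yt (op x) τ (sn 0) c)⁻¹ := by
        rw [ht.lo, yt_op, yt_inv h, hc'']
        rfl
      rw [e5, ← mul_inv_rev, ← e3, inv_inv]
    have e6 : u = t (ThG.up b') * u' := by
      rw [ht.up, hb', e2]
      rfl
    obtain ⟨M1, M2, e7, hM1, hM2⟩ := th_P1 k1 k2 c' b' a
    have e8 : t (ThG.lo c') * hk x τ ((a : Sf τ 0) : K) 1 * t (ThG.up b') = (t M1 * hk x τ 1 (-1)) * (t M2 * hk x τ 1 (-1)) := by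
      rw [← t_dg h ht a, ← map_mul, ← map_mul, e7, map_mul, ← t_D h hτ ht M2, hD']
      simp only [mul_assoc]
    obtain ⟨a1, ha1, c1, hc1, e9⟩ := Nice.prod (eh_nice h ht0 hF h3 ht hM0t hM1) (eh_nice h ht0 hF h3 ht hM0t hM2) (inv_mem hv') hu'
    have e10 : c0 * g * c0⁻¹ = v'⁻¹ * ((t M1 * hk x τ 1 (-1)) * (t M2 * hk x τ 1 (-1))) * u' := by
      rw [e1, e4, e6, ← e8]
      simp only [mul_assoc]
    refine ⟨c0⁻¹ * a1, mul_mem (inv_mem hc0) ha1, c0⁻¹ * c1, mul_mem (inv_mem hc0) hc1, ?_⟩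
    have e11 : g = c0⁻¹ * (c0 * g * c0⁻¹) * c0 := by group
    rw [e11, e10, e9]
    group
  · obtain ⟨a, ha, e1⟩ := three_cls h ht0 hF h3 ht hM0t hM0i
    refine ⟨a, ha, ?_⟩
    rw [← e1, ← t_D h hτ ht, map_inv, mul_inv_rev, hD']
    rw [mul_assoc, hD, mul_one]
-- END eh

end ThT
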