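import Pool.Agent.ThT.Rel

/-! # The twisted root elements of `D_4` (triality): `G_2(K)` and `³D_4(K)`

`τ : K →+* K` with `τ (τ (τ a)) = a`.  `y_r(a) = x_r(a)` if `r` is fixed by the rotation `sr` (then `τ a = a` is required) and `y_r(a) = x_r(a) x_(sr r)(τ a) x_(sr (sr r))(τ (τ a))` otherwise.
-/

namespace ThT

variable {K : Type*} [Field K] {G : Type*} [Group G]

/-- `y_r(a)` -/
def yt (x : Root → K → G) (τ : K →+* K) (r : Root) (a : K) : G :=
  if sr r = r then x r a else x r a * x (sr r) (τ a) * x (sr (sr r)) (τ (τ a))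

/-- the admissible parameters -/
def Ok (τ : K →+* K) (r : Root) (a : K) : Prop := sr r = r → τ a = a

theorem yt_fix (x : Root → K → G) (τ : K →+* K) {r : Root} (h : sr r = r) (a : K) : yt x τ r a = x r a := if_pos h

theorem yt_mov (x : Root → K → G) (τ : K →+* K) {r : Root} (h : sr r ≠ r) (a : K) : yt x τ r a = x r a * x (sr r) (τ a) * x (sr (sr r)) (τ (τ a)) := if_neg h

/-- the sign as an element of the field -/
def eps (K : Type*) [Field K] (v w : Vec) : K := (ep K v w : K)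

theorem eps_sq (v w : Vec) : eps K v w * eps K v w = 1 := by
  unfold eps
  rw [← Units.val_mul, ep_sq, Units.val_one]

theorem eps_map (τ : K →+* K) (v w : Vec) : τ (eps K v w) = eps K v w := by
  unfold eps ep
  rcases Int.even_or_odd (bl v w) with h | h
  · rw [h.neg_one_zpow, Units.val_one, map_one]
  · rw [h.neg_one_zpow, Units.val_neg, Units.val_one, map_neg, map_one]

theorem eps_sg (v w : Vec) : eps K (sg v) (sg w) = eps K v w := by
  unfold eps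
  rw [ep_sg]

theorem eps_add_left (u v w : Vec) : eps K (u + v) w = eps K u w * eps K v w := by
  unfold eps
  rw [ep_add_left, Units.val_mul]

theorem eps_add_right (u v w : Vec) : eps K u (v + w) = eps K u v * eps K u w := by
  unfold eps
  rw [ep_add_right, Units.val_mul]

theorem eps_neg_left (u w : Vec) : eps K (-u) w = eps K u w := by
  unfold eps
  rw [ep_neg_left]

theorem eps_neg_right (u w : Vec) : eps K u (-w) = eps K u w := by
  unfold eps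
  rw [ep_neg_right]

/-- `ε(r, sr r) = 1` for the roots which are not fixed -/
theorem eps_self_sr {r : Root} (hr : sr r ≠ r) : eps K r.1 (sr r).1 = 1 ∧ eps K r.1 (sr (sr r)).1 = 1 := by
  have h := all_rts (p := fun v => sg v = v ∨ (bl v (sg v) % 2 = 0 ∧ bl v (sg (sg v)) % 2 = 0)) (by decide) r
  rcases h with h | ⟨h1, h2⟩
  · exact absurd (Subtype.ext h) hr
  · have e1 : Even (bl r.1 (sg r.1)) := Int.even_iff.2 h1
    have e2 : Even (bl r.1 (sg (sg r.1))) := Int.even_iff.2 h2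
    unfold eps ep
    rw [sr_val, sr_val, sr_val, e1.neg_one_zpow, e2.neg_one_zpow]
    exact ⟨Units.val_one, Units.val_one⟩

-- BEGIN ad
/-- MODULE ad. For `r` not fixed the roots `r`, `sr r`, `sr (sr r)` are orthogonal (`bf_self_sr`, `bf_sr`, `bf_sr_left`, `bf_comm`), so the three factors commute. -/
theorem bf_sr_sr {r : Root} (hr : sr r ≠ r) : bf r.1 (sr r).1 = 0 ∧ bf r.1 (sr (sr r)).1 = 0 ∧ bf (sr r).1 (sr (sr r)).1 = 0 := by
  have h1 : bf r.1 (sr r).1 = 0 := (bf_self_sr r).resolve_left hr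
  refine ⟨h1, ?_, ?_⟩
  · rw [← bf_sr_left, bf_comm]
    exact h1
  · rw [bf_sr]
    exact h1

theorem sr_ne {r : Root} (hr : sr r ≠ r) : sr (sr r) ≠ sr r := by
  intro h
  have h1 := congrArg (fun t => sr (sr t)) h
  simp only [sr_sr_sr] at h1
  exact hr h1

theorem yt_add {x : Root → K → G} (h : Stb K x) (τ : K →+* K) (r : Root) (a b : K) : yt x τ r (a + b) = yt x τ r a * yt x τ r b := by
  by_cases hr : sr r = r
  · rw [yt_fix x τ hr, yt_fix x τ hr, yt_fix x τ hr, h.add]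
  · obtain ⟨h1, h2, h3⟩ := bf_sr_sr hr
    have c1 : ∀ a b, Commute (x (sr r) a) (x r b) := fun a b => h.commute (by rw [bf_comm, h1]) a b
    have c2 : ∀ a b, Commute (x (sr (sr r)) a) (x r b) := fun a b => h.commute (by rw [bf_comm, h2]) a b
    have c3 : ∀ a b, Commute (x (sr (sr r)) a) (x (sr r) b) := fun a b => h.commute (by rw [bf_comm, h3]) a b
    rw [yt_mov x τ hr, yt_mov x τ hr, yt_mov x τ hr, map_add, map_add, h.add, h.add, h.add]
    have e1 := (c1 (τ a) b).eq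
    have e2 := (c2 (τ (τ a)) b).eq
    have e3 := (c3 (τ (τ a)) (τ b)).eq
    calc x r a * x r b * (x (sr r) (τ a) * x (sr r) (τ b)) * (x (sr (sr r)) (τ (τ a)) * x (sr (sr r)) (τ (τ b)))
        = x r a * (x r b * x (sr r) (τ a)) * (x (sr r) (τ b) * x (sr (sr r)) (τ (τ a))) * x (sr (sr r)) (τ (τ b)) := by group
      _ = x r a * (x (sr r) (τ a) * x r b) * (x (sr (sr r)) (τ (τ a)) * x (sr r) (τ b)) * x (sr (sr r)) (τ (τ b)) := by rw [e1, e3]
      _ = x r a * x (sr r) (τ a) * (x r b * x (sr (sr r)) (τ (τ a))) * x (sr r) (τ b) * x (sr (sr r)) (τ (τ b)) := by group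
      _ = x r a * x (sr r) (τ a) * (x (sr (sr r)) (τ (τ a)) * x r b) * x (sr r) (τ b) * x (sr (sr r)) (τ (τ b)) := by rw [e2]
      _ = _ := by group

theorem yt_zero {x : Root → K → G} (h : Stb K x) (τ : K →+* K) (r : Root) : yt x τ r 0 = 1 := by
  have h1 := yt_add h τ r 0 0
  rw [add_zero] at h1
  exact (mul_eq_left.mp h1.symm)

theorem yt_inv {x : Root → K → G} (h : Stb K x) (τ : K →+* K) (r : Root) (a : K) : (yt x τ r a)⁻¹ = yt x τ r (-a) := by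
  apply inv_eq_of_mul_eq_one_right
  rw [← yt_add h, add_neg_cancel, yt_zero h]

theorem yt_sr {x : Root → K → G} (h : Stb K x) {τ : K →+* K} (hτ : ∀ a, τ (τ (τ a)) = a) {r : Root} (hr : sr r ≠ r) (a : K) : yt x τ (sr r) (τ a) = yt x τ r a := by
  obtain ⟨h1, h2, h3⟩ := bf_sr_sr hr
  rw [yt_mov x τ (sr_ne hr), yt_mov x τ hr, sr_sr_sr, hτ]
  have e1 : x (sr r) (τ a) * x r a = x r a * x (sr r) (τ a) := h.commute (by rw [bf_comm, h1]) _ _
  have e2 : x (sr (sr r)) (τ (τ a)) * x r a = x r a * x (sr (sr r)) (τ (τ a)) := h.commute (by rw [bf_comm, h2]) _ _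
  calc x (sr r) (τ a) * x (sr (sr r)) (τ (τ a)) * x r a = x (sr r) (τ a) * (x (sr (sr r)) (τ (τ a)) * x r a) := by group
    _ = (x (sr r) (τ a) * x r a) * x (sr (sr r)) (τ (τ a)) := by rw [e2]; group
    _ = _ := by rw [e1]

theorem Ok.add {τ : K →+* K} {r : Root} {a b : K} (ha : Ok τ r a) (hb : Ok τ r b) : Ok τ r (a + b) := by
  intro hr
  rw [map_add, ha hr, hb hr]

theorem Ok.neg {τ : K →+* K} {r : Root} {a : K} (ha : Ok τ r a) : Ok τ r (-a) := by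
  intro hr
  rw [map_neg, ha hr]

theorem Ok.of_ne {τ : K →+* K} {r : Root} (h : sr r ≠ r) (a : K) : Ok τ r a := fun hr => absurd hr h
-- END ad

-- BEGIN ae
private theorem ae_comm {x : Root → K → G} (h : Stb K x) (τ : K →+* K) {r s : Root} (h0 : 0 ≤ bf r.1 s.1) (h1 : 0 ≤ bf r.1 (sr s).1) (h2 : 0 ≤ bf r.1 (sr (sr s)).1) (a b : K) :
    Commute (x r a) (yt x τ s b) := by
  unfold yt
  split_ifs with hs
  · exact h.commute h0 a b
  · exact Commute.mul_right (Commute.mul_right (h.commute h0 a b) (h.commute h1 a _)) (h.commute h2 a _)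

/-- MODULE ae. All pairs commute. -/
theorem yt_comm {x : Root → K → G} (h : Stb K x) (τ : K →+* K) {r s : Root} (h0 : 0 ≤ bf r.1 s.1) (h1 : 0 ≤ bf r.1 (sr s).1) (h2 : 0 ≤ bf r.1 (sr (sr s)).1) (a b : K) :
    yt x τ r a * yt x τ s b = yt x τ s b * yt x τ r a := by
  have k : ∀ a, Commute (x r a) (yt x τ s b) := fun a => ae_comm h τ h0 h1 h2 a b
  have e1 : bf (sr r).1 s.1 = bf r.1 (sr (sr s)).1 := bf_sr_left r s
  have e2 : bf (sr r).1 (sr s).1 = bf r.1 s.1 := bf_sr r s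
  have e3 : bf (sr r).1 (sr (sr s)).1 = bf r.1 (sr s).1 := bf_sr r (sr s)
  have k1 : ∀ a, Commute (x (sr r) a) (yt x τ s b) := fun a => ae_comm h τ (by rw [e1]; exact h2) (by rw [e2]; exact h0) (by rw [e3]; exact h1) a b
  have k2 : ∀ a, Commute (x (sr (sr r)) a) (yt x τ s b) := fun a => ae_comm h τ (by rw [bf_sr_left, e3]; exact h1) (by rw [bf_sr, e1]; exact h2) (by rw [bf_sr, e2]; exact h0) a b
  show Commute (yt x τ r a) (yt x τ s b)
  by_cases hr : sr r = r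
  · rw [yt_fix x τ hr]
    exact k a
  · rw [yt_mov x τ hr]
    exact Commute.mul_left (Commute.mul_left (k _) (k1 _)) (k2 _)

/-- both fixed: `Stb.conj_add` -/
theorem yt_c1 {x : Root → K → G} (h : Stb K x) (τ : K →+* K) {r s t : Root} (hr : sr r = r) (hs : sr s = s) (ht : t.1 = r.1 + s.1) (a b : K) :
    sr t = t ∧ yt x τ r a * yt x τ s b * (yt x τ r a)⁻¹ = yt x τ t (eps K r.1 s.1 * a * b) * yt x τ s b := by
  have h1 : sr t = t := by
    apply Subtype.ext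
    rw [sr_val, ht, sg_add, ← sr_val r, ← sr_val s, hr, hs]
  refine ⟨h1, ?_⟩
  rw [yt_fix x τ hr, yt_fix x τ hs, yt_fix x τ h1]
  exact h.conj_add ht a b
-- END ae

-- BEGIN af
private theorem af_mv {x : Root → K → G} (h : Stb K x) {r s t : Root} (ht : t.1 = r.1 + s.1) (a b : K) :
    x r a * x s b = x t (eps K r.1 s.1 * a * b) * x s b * x r a := by
  have e : x r a * x s b * (x r a)⁻¹ = x t (eps K r.1 s.1 * a * b) * x s b := h.conj_add ht a b
  rw [← e, inv_mul_cancel_right]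

private theorem af_word {t0 t1 t2 s0 s1 s2 u0 u1 u2 v v' : G} (e1 : s1 * t2 = u0 * t2 * s1) (e2 : s0 * t1 = u2 * t1 * s0) (e3 : s0 * u0 = v * u0 * s0)
    (e4 : s0 * t2 = u1 * t2 * s0) (e5 : u2 * t2 = v' * t2 * u2) (c1 : Commute t1 t2) (c2 : Commute v t2) (c3 : Commute u0 t2) (c4 : Commute u1 t2)
    (d1 : Commute v' t2) (d2 : Commute v' u2) (d3 : Commute v' t1) (d4 : Commute v' v) (d5 : Commute v' u0) (d6 : Commute v' u1) (f1 : Commute u2 t1) (f2 : Commute v u0) (f3 : Commute v u1) :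
    t0 * s0 * (t1 * s1) * (t2 * s2) = t0 * t1 * t2 * (u2 * u0 * u1) * v * v' * (s0 * s1 * s2) := by
  have k1 : t1 * v * u0 * u1 * t2 = t2 * (t1 * v * u0 * u1) := (((c1.mul_left c2).mul_left c3).mul_left c4).eq
  have k2 : v' * (t2 * u2 * (t1 * v * u0 * u1)) = t2 * u2 * (t1 * v * u0 * u1) * v' :=
    ((d1.mul_right d2).mul_right (((d3.mul_right d4).mul_right d5).mul_right d6)).eq
  have k3 : v * (u0 * u1) = u0 * u1 * v := (f2.mul_right f3).eq
  have key : u2 * t1 * v * u0 * u1 * t2 = t1 * t2 * (u2 * u0 * u1) * v * v' := by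
    calc u2 * t1 * v * u0 * u1 * t2 = u2 * (t1 * v * u0 * u1 * t2) := by group
      _ = (u2 * t2) * (t1 * v * u0 * u1) := by rw [k1]; group
      _ = v' * (t2 * u2 * (t1 * v * u0 * u1)) := by rw [e5]; group
      _ = t2 * (u2 * t1) * (v * (u0 * u1)) * v' := by rw [k2]; group
      _ = (t2 * t1) * u2 * (u0 * u1) * v * v' := by rw [f1.eq, k3]; group
      _ = _ := by rw [← c1.eq]; group
  calc t0 * s0 * (t1 * s1) * (t2 * s2) = t0 * (s0 * t1) * (s1 * t2) * s2 := by group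
    _ = t0 * (u2 * t1) * (s0 * u0) * t2 * s1 * s2 := by rw [e1, e2]; group
    _ = t0 * (u2 * t1) * (v * u0) * (s0 * t2) * s1 * s2 := by rw [e3]; group
    _ = t0 * (u2 * t1 * v * u0 * u1 * t2) * (s0 * s1 * s2) := by rw [e4]; group
    _ = _ := by rw [key]; group

/-- MODULE af. `r` fixed, `s` not, `(r, s) = -1`.  With `s_i = sr^i s`, `b_i = τ^i b`, `t_i = r + s_i`, `w_i = ε a b_i` (`ε = ε(r, s)`), `u_k = t_i + s_j` (`{i,j,k} = {0,1,2}`), `v = u_k + s_k`, `v' = r + v = t_k + u_k`: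
`x_r(a) x_(s_i)(b_i) x_r(a)⁻¹ = x_(t_i)(w_i) x_(s_i)(b_i)` (`conj_add`), so the left side is `t0 s0 t1 s1 t2 s2` (letters: `t0 = x_(t_0)(w_0)` ..).  Moves (all `conj_add`): `s1 t2 = u0 t2 s1`, `s0 t1 = u2 t1 s0`, `s0 u0 = v u0 s0`, `s0 t2 = u1 t2 s0`,
`u2 t2 = v' t2 u2`; the other pairs commute (form `≥ 0`).  With `ε' = ε(s, r)` (`ε(s_i, t_j) = ε'`, by `eps_self_sr`, `eps_sg`) the coefficients are `u_k : ε' ε a b_i b_j`, `v : ± a b_0 b_1 b_2`, `v' : ± a a b_0 b_1 b_2`. -/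
theorem yt_c2 {x : Root → K → G} (h : Stb K x) {τ : K →+* K} (hτ : ∀ a, τ (τ (τ a)) = a) {r s t u v v' : Root} (hr : sr r = r) (hs : sr s ≠ s) (ht : t.1 = r.1 + s.1)
    (hu : u.1 = t.1 + sg s.1) (hv : v.1 = u.1 + sg (sg s.1)) (hv' : v'.1 = r.1 + v.1) {a : K} (ha : τ a = a) (b : K) :
    sr t ≠ t ∧ sr u ≠ u ∧ sr v = v ∧ sr v' = v' ∧ ∃ c d e, τ d = d ∧ τ e = e ∧
      yt x τ r a * yt x τ s b * (yt x τ r a)⁻¹ = yt x τ t (eps K r.1 s.1 * a * b) * yt x τ u c * yt x τ v d * yt x τ v' e * yt x τ s b := by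
  have hr' : sg r.1 = r.1 := congrArg Subtype.val hr
  obtain ⟨o1, o2, o3⟩ := bf_sr_sr hs
  have rs0 : bf r.1 s.1 = -1 := bf_of_add ht
  have rs1 : bf r.1 (sr s).1 = -1 := by
    have e := bf_sr r s
    rw [hr] at e
    rw [e, rs0]
  have rs2 : bf r.1 (sr (sr s)).1 = -1 := by
    have e := bf_sr r (sr s)
    rw [hr] at e
    rw [e, rs1]
  have rr := bf_root r
  have ss := bf_root s
  have ss1 := bf_root (sr s)
  have ss2 := bf_root (sr (sr s))
  have c0 : bf s.1 r.1 = -1 := by rw [bf_comm, rs0]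
  have c1 : bf (sr s).1 r.1 = -1 := by rw [bf_comm, rs1]
  have c2 : bf (sr (sr s)).1 r.1 = -1 := by rw [bf_comm, rs2]
  have p1 : bf (sr s).1 s.1 = 0 := by rw [bf_comm, o1]
  have p2 : bf (sr (sr s)).1 s.1 = 0 := by rw [bf_comm, o2]
  have p3 : bf (sr (sr s)).1 (sr s).1 = 0 := by rw [bf_comm, o3]
  have q3 : sg (sg (sg s.1)) = s.1 := sg_sg_sg s.1
  have T1 : (sr t).1 = r.1 + (sr s).1 := by rw [sr_val, ht, sg_add, hr', sr_val]
  have T2 : (sr (sr t)).1 = r.1 + (sr (sr s)).1 := by rw [sr_val, T1, sg_add, hr', sr_val (sr s)]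
  have U2 : u.1 = r.1 + s.1 + (sr s).1 := by rw [hu, ht, sr_val]
  have U0 : (sr u).1 = r.1 + (sr s).1 + (sr (sr s)).1 := by
    rw [sr_val, U2, sg_add, sg_add, hr', sr_val (sr s), sr_val s]
  have U1 : (sr (sr u)).1 = r.1 + (sr (sr s)).1 + s.1 := by
    rw [sr_val, U0, sg_add, sg_add, hr', sr_val (sr s), sr_val s, q3]
  have V0 : v.1 = r.1 + s.1 + (sr s).1 + (sr (sr s)).1 := by rw [hv, U2, sr_val (sr s), sr_val s]
  have V1 : v'.1 = r.1 + r.1 + s.1 + (sr s).1 + (sr (sr s)).1 := by rw [hv', V0]; abel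
  have htm : sr t ≠ t := by
    intro e
    have e2 := bf_root t
    rw [← e] at e2
    nth_rewrite 2 [e] at e2
    rw [T1, ht] at e2
    simp only [bf_add_left, bf_add_right, rr, rs0, rs1, c0, c1, p1] at e2
    norm_num at e2
  have hum : sr u ≠ u := by
    intro e
    have e2 := bf_root u
    rw [← e] at e2
    nth_rewrite 2 [e] at e2
    rw [U0, U2] at e2
    simp only [bf_add_left, bf_add_right, rr, rs0, rs1, rs2, c0, c1, c2, p1, p2, p3, ss1] at e2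
    norm_num at e2
  have hvf : sr v = v := by
    apply Subtype.ext
    rw [sr_val, V0, sg_add, sg_add, sg_add, hr', sr_val (sr s), sr_val s, q3]
    abel
  have hvf' : sr v' = v' := by
    apply Subtype.ext
    rw [sr_val, V1, sg_add, sg_add, sg_add, sg_add, hr', sr_val (sr s), sr_val s, q3]
    abel
  refine ⟨htm, hum, hvf, hvf', ?_⟩
  -- the signs
  have g1 : eps K r.1 (sr s).1 = eps K r.1 s.1 := by
    have e := eps_sg (K := K) r.1 s.1
    rw [hr'] at e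
    rw [sr_val, e]
  have g2 : eps K r.1 (sr (sr s)).1 = eps K r.1 s.1 := by
    have e := eps_sg (K := K) r.1 (sr s).1
    rw [hr'] at e
    rw [sr_val (sr s), e, g1]
  have g3 : eps K (sr s).1 (sr (sr t)).1 = eps K s.1 (sr t).1 := eps_sg s.1 (sr t).1
  have g4 : eps K s.1 (sr (sr t)).1 = eps K s.1 (sr t).1 := by
    rw [T1, T2, eps_add_right, eps_add_right, (eps_self_sr hs).1, (eps_self_sr hs).2]
  obtain ⟨w, hw⟩ : ∃ w, w = eps K r.1 s.1 * a * b := ⟨_, rfl⟩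
  have w1 : eps K r.1 (sr s).1 * a * τ b = τ w := by rw [hw, map_mul, map_mul, eps_map, ha, g1]
  have w2 : eps K r.1 (sr (sr s)).1 * a * τ (τ b) = τ (τ w) := by rw [← w1, map_mul, map_mul, eps_map, ha, g1, g2]
  obtain ⟨c, hc⟩ : ∃ c, c = eps K s.1 (sr t).1 * b * τ w := ⟨_, rfl⟩
  have hc1 : eps K (sr s).1 (sr (sr t)).1 * τ b * τ (τ w) = τ c := by rw [hc, map_mul, map_mul, eps_map, g3]
  have hw2 : τ (τ w) = eps K r.1 s.1 * a * τ (τ b) := by rw [← w2, g2]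
  have hc2 : eps K s.1 (sr (sr t)).1 * b * τ (τ w) = τ (τ c) := by
    rw [← hc1, map_mul, map_mul, eps_map, g3, g4, hτ, hw2, hw]
    ring
  refine ⟨c, eps K s.1 (sr u).1 * b * τ c, eps K u.1 (sr (sr t)).1 * c * τ (τ w), ?_, ?_, ?_⟩
  · rw [map_mul, map_mul, eps_map, ← hc2, ← hc1, g3, g4, hw2]
    have e : τ (τ b) = τ (τ b) := rfl
    have hw1 : τ w = eps K r.1 s.1 * a * τ b := by rw [← w1, g1]
    ring
  · have hw1 : τ w = eps K r.1 s.1 * a * τ b := by rw [← w1, g1]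
    rw [map_mul, map_mul, eps_map, hτ, hc, map_mul, map_mul, eps_map, hw2, hw1, hw]
    ring
  · rw [yt_fix x τ hr, yt_mov x τ hs, yt_mov x τ htm, yt_mov x τ hum, yt_fix x τ hvf, yt_fix x τ hvf', ← hw]
    have l0 : x r a * x s b * (x r a)⁻¹ = x t w * x s b := by
      rw [hw]
      exact h.conj_add ht a b
    have l1 : x r a * x (sr s) (τ b) * (x r a)⁻¹ = x (sr t) (τ w) * x (sr s) (τ b) := by
      rw [← w1]
      exact h.conj_add T1 a _
    have l2 : x r a * x (sr (sr s)) (τ (τ b)) * (x r a)⁻¹ = x (sr (sr t)) (τ (τ w)) * x (sr (sr s)) (τ (τ b)) := by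
      rw [← w2]
      exact h.conj_add T2 a _
    have e1 := af_mv h (r := sr s) (s := sr (sr t)) (t := sr u) (by rw [U0, T2]; abel) (τ b) (τ (τ w))
    rw [hc1] at e1
    have e2 := af_mv h (r := s) (s := sr t) (t := u) (by rw [U2, T1]; abel) b (τ w)
    rw [← hc] at e2
    have e3 := af_mv h (r := s) (s := sr u) (t := v) (by rw [V0, U0]; abel) b (τ c)
    have e4 := af_mv h (r := s) (s := sr (sr t)) (t := sr (sr u)) (by rw [U1, T2]; abel) b (τ (τ w))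
    rw [hc2] at e4
    have e5 := af_mv h (r := u) (s := sr (sr t)) (t := v') (by rw [V1, U2, T2]; abel) c (τ (τ w))
    have b0 : ∀ y z : Root, (0 : ℤ) ≤ bf y.1 z.1 → ∀ a b, Commute (x y a) (x z b) := fun y z hyz a b => h.commute hyz a b
    have key := af_word (t0 := x t w) (s2 := x (sr (sr s)) (τ (τ b))) e1 e2 e3 e4 e5
      (b0 _ _ (by rw [T1, T2]; simp only [bf_add_left, bf_add_right, rr, rs0, rs1, rs2, c0, c1, c2, p1, p2, p3, o1, o2, o3, ss, ss1, ss2]; norm_num) _ _)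
      (b0 _ _ (by rw [V0, T2]; simp only [bf_add_left, bf_add_right, rr, rs0, rs1, rs2, c0, c1, c2, p1, p2, p3, o1, o2, o3, ss, ss1, ss2]; norm_num) _ _)
      (b0 _ _ (by rw [U0, T2]; simp only [bf_add_left, bf_add_right, rr, rs0, rs1, rs2, c0, c1, c2, p1, p2, p3, o1, o2, o3, ss, ss1, ss2]; norm_num) _ _)
      (b0 _ _ (by rw [U1, T2]; simp only [bf_add_left, bf_add_right, rr, rs0, rs1, rs2, c0, c1, c2, p1, p2, p3, o1, o2, o3, ss, ss1, ss2]; norm_num) _ _)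
      (b0 _ _ (by rw [V1, T2]; simp only [bf_add_left, bf_add_right, rr, rs0, rs1, rs2, c0, c1, c2, p1, p2, p3, o1, o2, o3, ss, ss1, ss2]; norm_num) _ _)
      (b0 _ _ (by rw [V1, U2]; simp only [bf_add_left, bf_add_right, rr, rs0, rs1, rs2, c0, c1, c2, p1, p2, p3, o1, o2, o3, ss, ss1, ss2]; norm_num) _ _)
      (b0 _ _ (by rw [V1, T1]; simp only [bf_add_left, bf_add_right, rr, rs0, rs1, rs2, c0, c1, c2, p1, p2, p3, o1, o2, o3, ss, ss1, ss2]; norm_num) _ _)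
      (b0 _ _ (by rw [V1, V0]; simp only [bf_add_left, bf_add_right, rr, rs0, rs1, rs2, c0, c1, c2, p1, p2, p3, o1, o2, o3, ss, ss1, ss2]; norm_num) _ _)
      (b0 _ _ (by rw [V1, U0]; simp only [bf_add_left, bf_add_right, rr, rs0, rs1, rs2, c0, c1, c2, p1, p2, p3, o1, o2, o3, ss, ss1, ss2]; norm_num) _ _)
      (b0 _ _ (by rw [V1, U1]; simp only [bf_add_left, bf_add_right, rr, rs0, rs1, rs2, c0, c1, c2, p1, p2, p3, o1, o2, o3, ss, ss1, ss2]; norm_num) _ _)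
      (b0 _ _ (by rw [U2, T1]; simp only [bf_add_left, bf_add_right, rr, rs0, rs1, rs2, c0, c1, c2, p1, p2, p3, o1, o2, o3, ss, ss1, ss2]; norm_num) _ _)
      (b0 _ _ (by rw [V0, U0]; simp only [bf_add_left, bf_add_right, rr, rs0, rs1, rs2, c0, c1, c2, p1, p2, p3, o1, o2, o3, ss, ss1, ss2]; norm_num) _ _)
      (b0 _ _ (by rw [V0, U1]; simp only [bf_add_left, bf_add_right, rr, rs0, rs1, rs2, c0, c1, c2, p1, p2, p3, o1, o2, o3, ss, ss1, ss2]; norm_num) _ _)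
    calc x r a * (x s b * x (sr s) (τ b) * x (sr (sr s)) (τ (τ b))) * (x r a)⁻¹
        = (x r a * x s b * (x r a)⁻¹) * (x r a * x (sr s) (τ b) * (x r a)⁻¹) * (x r a * x (sr (sr s)) (τ (τ b)) * (x r a)⁻¹) := by group
      _ = x t w * x s b * (x (sr t) (τ w) * x (sr s) (τ b)) * (x (sr (sr t)) (τ (τ w)) * x (sr (sr s)) (τ (τ b))) := by rw [l0, l1, l2]
      _ = _ := key
-- END af

-- BEGIN ag
private theorem ag_word {y0 y1 y2 s0 s1 s2 z0 z1 z2 : G} (e0 : y0 * s0 = z0 * s0 * y0) (e1 : y1 * s1 = z1 * s1 * y1) (e2 : y2 * s2 = z2 * s2 * y2)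
    (c1 : Commute y2 (s0 * s1)) (c2 : Commute y1 s0) (c3 : Commute y1 (z2 * s2)) (c4 : Commute y0 (z1 * s1 * (z2 * s2))) (c5 : Commute s0 z1) (c6 : Commute (s0 * s1) z2) :
    y0 * y1 * y2 * (s0 * s1 * s2) * (y0 * y1 * y2)⁻¹ = z0 * z1 * z2 * (s0 * s1 * s2) := by
  rw [mul_inv_eq_iff_eq_mul]
  calc y0 * y1 * y2 * (s0 * s1 * s2) = y0 * y1 * (y2 * (s0 * s1)) * s2 := by group
    _ = y0 * y1 * (s0 * s1) * (y2 * s2) := by rw [c1.eq]; group
    _ = y0 * (y1 * s0) * s1 * z2 * s2 * y2 := by rw [e2]; group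
    _ = y0 * s0 * (y1 * s1) * z2 * s2 * y2 := by rw [c2.eq]; group
    _ = y0 * s0 * z1 * s1 * (y1 * (z2 * s2)) * y2 := by rw [e1]; group
    _ = (y0 * s0) * z1 * s1 * (z2 * s2) * y1 * y2 := by rw [c3.eq]; group
    _ = z0 * s0 * (y0 * (z1 * s1 * (z2 * s2))) * y1 * y2 := by rw [e0]; group
    _ = z0 * (s0 * z1) * s1 * z2 * s2 * (y0 * y1 * y2) := by rw [c4.eq]; group
    _ = z0 * z1 * ((s0 * s1) * z2) * s2 * (y0 * y1 * y2) := by rw [c5.eq]; group
    _ = _ := by rw [c6.eq]; group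

/-- MODULE ag. `r`, `s` not fixed, `(r, s) = -1`, `(r, sr s) = (r, sr (sr s)) = 1`: `t = r + s` is fixed; the pairs `(r_i, s_i)` give `x_t(ε a_i b_i)`, all other pairs commute, `x_t` commutes with everything. -/
theorem yt_c4 {x : Root → K → G} (h : Stb K x) {τ : K →+* K} {r s t : Root} (hr : sr r ≠ r) (hs : sr s ≠ s) (ht : t.1 = r.1 + s.1)
    (h1 : bf r.1 (sr s).1 = 1) (h2 : bf r.1 (sr (sr s)).1 = 1) (a b : K) :
    sr t = t ∧ yt x τ r a * yt x τ s b * (yt x τ r a)⁻¹ = yt x τ t (eps K r.1 s.1 * (a * b + τ (a * b) + τ (τ (a * b)))) * yt x τ s b := by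
  have h0 : bf r.1 s.1 = -1 := bf_of_add ht
  obtain ⟨o1, o2, o3⟩ := bf_sr_sr hr
  obtain ⟨u1, u2, u3⟩ := bf_sr_sr hs
  have T1 : (sr t).1 = (sr r).1 + (sr s).1 := by rw [sr_val, ht, sg_add, sr_val, sr_val]
  have a11 : bf (sr r).1 (sr s).1 = -1 := by rw [bf_sr, h0]
  have a12 : bf (sr r).1 (sr (sr s)).1 = 1 := by rw [bf_sr, h1]
  have a10 : bf (sr r).1 s.1 = 1 := by rw [bf_sr_left, h2]
  have a20 : bf (sr (sr r)).1 s.1 = 1 := by rw [bf_sr_left, a12]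
  have a21 : bf (sr (sr r)).1 (sr s).1 = 1 := by rw [bf_sr, a10]
  have a22 : bf (sr (sr r)).1 (sr (sr s)).1 = -1 := by rw [bf_sr, a11]
  have p1 : bf s.1 (sr r).1 = 1 := by rw [bf_comm, a10]
  have htt : bf t.1 (sr t).1 = 2 := by
    rw [T1, ht]
    simp only [bf_add_left, bf_add_right, o1, u1, h1, p1]
    norm_num
  have h3 : sr t = t := (bf_le t (sr t)).2 htt
  have T2 : t.1 = (sr r).1 + (sr s).1 := by rw [← T1, h3]
  have T3 : t.1 = (sr (sr r)).1 + (sr (sr s)).1 := by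
    have e : (sr (sr t)).1 = (sr (sr r)).1 + (sr (sr s)).1 := by rw [sr_val, T1, sg_add, sr_val (sr r), sr_val (sr s)]
    rw [← e, h3, h3]
  have C : ∀ y z : Root, (0 : ℤ) ≤ bf y.1 z.1 → ∀ a b, Commute (x y a) (x z b) := fun y z hyz a b => h.commute hyz a b
  have rt0 : (0 : ℤ) ≤ bf r.1 t.1 := by rw [ht, bf_add_right, bf_root, h0]; norm_num
  have rt1 : (0 : ℤ) ≤ bf (sr r).1 t.1 := by rw [T2, bf_add_right, bf_root, a11]; norm_num
  have st0 : (0 : ℤ) ≤ bf s.1 t.1 := by rw [ht, bf_add_right, bf_root, bf_comm, h0]; norm_num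
  have st1 : (0 : ℤ) ≤ bf (sr s).1 t.1 := by rw [T2, bf_add_right, bf_root, bf_comm, a11]; norm_num
  have z1 : (0 : ℤ) ≤ 1 := by norm_num
  have e0 : x r a * x s b = x t (eps K r.1 s.1 * (a * b)) * x s b * x r a := by
    have e : x r a * x s b * (x r a)⁻¹ = x t (eps K r.1 s.1 * a * b) * x s b := h.conj_add ht a b
    rw [← mul_assoc (eps K r.1 s.1), ← e, inv_mul_cancel_right]
  have e1 : x (sr r) (τ a) * x (sr s) (τ b) = x t (eps K r.1 s.1 * τ (a * b)) * x (sr s) (τ b) * x (sr r) (τ a) := by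
    have e : x (sr r) (τ a) * x (sr s) (τ b) * (x (sr r) (τ a))⁻¹ = x t (eps K (sr r).1 (sr s).1 * τ a * τ b) * x (sr s) (τ b) := h.conj_add T2 _ _
    rw [map_mul, ← mul_assoc (eps K r.1 s.1), ← eps_sg r.1 s.1, ← sr_val, ← sr_val, ← e, inv_mul_cancel_right]
  have e2 : x (sr (sr r)) (τ (τ a)) * x (sr (sr s)) (τ (τ b)) = x t (eps K r.1 s.1 * τ (τ (a * b))) * x (sr (sr s)) (τ (τ b)) * x (sr (sr r)) (τ (τ a)) := by
    have e : x (sr (sr r)) (τ (τ a)) * x (sr (sr s)) (τ (τ b)) * (x (sr (sr r)) (τ (τ a)))⁻¹ = x t (eps K (sr (sr r)).1 (sr (sr s)).1 * τ (τ a) * τ (τ b)) * x (sr (sr s)) (τ (τ b)) :=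
      h.conj_add T3 _ _
    have e3 : eps K (sr (sr r)).1 (sr (sr s)).1 = eps K r.1 s.1 := (eps_sg (sr r).1 (sr s).1).trans (eps_sg r.1 s.1)
    rw [map_mul, map_mul, ← mul_assoc (eps K r.1 s.1), ← e3, ← e, inv_mul_cancel_right]
  refine ⟨h3, ?_⟩
  rw [yt_mov x τ hr, yt_mov x τ hs, yt_fix x τ h3, mul_add, mul_add, h.add, h.add]
  exact ag_word e0 e1 e2 (Commute.mul_right (C _ _ (by rw [a20]; exact z1) _ _) (C _ _ (by rw [a21]; exact z1) _ _)) (C _ _ (by rw [a10]; exact z1) _ _)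
    (Commute.mul_right (C _ _ rt1 _ _) (C _ _ (by rw [a12]; exact z1) _ _))
    (Commute.mul_right (Commute.mul_right (C _ _ rt0 _ _) (C _ _ (by rw [h1]; exact z1) _ _)) (Commute.mul_right (C _ _ rt0 _ _) (C _ _ (by rw [h2]; exact z1) _ _)))
    (C _ _ st0 _ _) (Commute.mul_left (C _ _ st0 _ _) (C _ _ st1 _ _))
-- END ag

-- BEGIN ah
private theorem ah_k {r s : Root} (hr : sr r ≠ r) (hs : sr s ≠ s) (h0 : bf r.1 s.1 = 1)
    (h1 : bf r.1 (sr s).1 = -1) (h2 : bf r.1 (sr (sr s)).1 = -1) : sg (s.1 - r.1) = s.1 - r.1 := by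
  have e1 : bf (sr r).1 (sr s).1 = 1 := by rw [bf_sr, h0]
  have e2 : bf (sr r).1 s.1 = -1 := by rw [bf_sr_left, h2]
  have o1 := (bf_self_sr r).resolve_left hr
  have o2 := (bf_self_sr s).resolve_left hs
  have f0 : bf s.1 r.1 = 1 := by rw [bf_comm, h0]
  have f1 : bf (sr s).1 r.1 = -1 := by rw [bf_comm, h1]
  have f2 : bf s.1 (sr r).1 = -1 := by rw [bf_comm, e2]
  have f3 : bf (sr s).1 (sr r).1 = 1 := by rw [bf_comm, e1]
  have p1 : bf (sr r).1 r.1 = 0 := by rw [bf_comm, o1]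
  have p2 : bf (sr s).1 s.1 = 0 := by rw [bf_comm, o2]
  have n : bf (sg (s.1 - r.1) - (s.1 - r.1)) (sg (s.1 - r.1) - (s.1 - r.1)) = 0 := by
    rw [sg_sub, ← sr_val, ← sr_val]
    simp only [bf_sub_left, bf_sub_right, bf_root, h0, h1, e1, e2, o1, o2, f0, f1, f2, f3, p1, p2]
    norm_num
  exact sub_eq_zero.1 ((bf_pos _).2 n)

private theorem ah_word1 {y0 y1 y2 s t1 t2 p : G} (e1 : y2 * s * y2⁻¹ = t1 * s) (e2 : y1 * t1 * y1⁻¹ = p * t1) (e3 : y1 * s * y1⁻¹ = t2 * s)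
    (c1 : Commute y0 p) (c2 : Commute y0 t1) (c3 : Commute y0 t2) (c4 : Commute y0 s) : y0 * y1 * y2 * s * (y0 * y1 * y2)⁻¹ = p * t1 * t2 * s := by
  calc y0 * y1 * y2 * s * (y0 * y1 * y2)⁻¹ = y0 * (y1 * (y2 * s * y2⁻¹) * y1⁻¹) * y0⁻¹ := by group
    _ = y0 * ((y1 * t1 * y1⁻¹) * (y1 * s * y1⁻¹)) * y0⁻¹ := by rw [e1]; group
    _ = y0 * (p * t1 * t2 * s) * y0⁻¹ := by rw [e2, e3]; group
    _ = p * t1 * t2 * s := by rw [(((c1.mul_right c2).mul_right c3).mul_right c4).eq, mul_inv_cancel_right]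

private theorem ah_word2 {p0 p1 p2 q1 q2 q3 u1 u2 v2 v0 w0 w1 s0 s1 s2 : G}
    (a1 : Commute p1 (u1 * u2 * s0)) (a2 : Commute p2 (u1 * u2 * s0 * (v2 * v0 * s1)))
    (e1 : Commute s0 v2) (e2 : s0 * v0 = q1 * v0 * s0) (e3 : s0 * w0 = q2 * w0 * s0) (e4 : Commute s1 w0) (e5 : s1 * w1 = q3 * w1 * s1) (e6 : Commute s0 w1)
    (b1 : Commute v0 q2) (b2 : Commute (v0 * w0 * s0) q3) (b3 : Commute (u1 * u2 * v2) (v0 * w0)) (b4 : Commute (u2 * v2) w1)
    (b5 : Commute (q1 * q2 * q3) (v0 * w0 * w1)) (b6 : Commute (p0 * p1 * p2) (v0 * w0 * (u1 * w1) * (u2 * v2))) :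
    p0 * u1 * u2 * s0 * (p1 * v2 * v0 * s1) * (p2 * w0 * w1 * s2) = v0 * w0 * (u1 * w1) * (u2 * v2) * (p0 * p1 * p2) * (q1 * q2 * q3) * (s0 * s1 * s2) := by
  have k1 : u1 * u2 * s0 * (v2 * v0 * s1) * (w0 * w1 * s2) = (u1 * u2 * v2) * (q1 * q2 * q3) * (v0 * w0 * w1) * (s0 * s1 * s2) := by
    calc u1 * u2 * s0 * (v2 * v0 * s1) * (w0 * w1 * s2) = u1 * u2 * (s0 * v2) * v0 * (s1 * w0) * w1 * s2 := by group
      _ = u1 * u2 * v2 * (s0 * v0) * w0 * (s1 * w1) * s2 := by rw [e1.eq, e4.eq]; group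
      _ = u1 * u2 * v2 * q1 * v0 * (s0 * w0) * q3 * w1 * s1 * s2 := by rw [e2, e5]; group
      _ = u1 * u2 * v2 * q1 * (v0 * q2) * w0 * s0 * q3 * w1 * s1 * s2 := by rw [e3]; group
      _ = u1 * u2 * v2 * q1 * q2 * (v0 * w0 * s0 * q3) * w1 * s1 * s2 := by rw [b1.eq]; group
      _ = u1 * u2 * v2 * q1 * q2 * q3 * v0 * w0 * (s0 * w1) * s1 * s2 := by rw [b2.eq]; group
      _ = _ := by rw [e6.eq]; group
  calc p0 * u1 * u2 * s0 * (p1 * v2 * v0 * s1) * (p2 * w0 * w1 * s2) = p0 * (u1 * u2 * s0 * p1) * v2 * v0 * s1 * (p2 * w0 * w1 * s2) := by group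
    _ = p0 * p1 * (u1 * u2 * s0 * (v2 * v0 * s1) * p2) * (w0 * w1 * s2) := by rw [← a1.eq]; group
    _ = (p0 * p1 * p2) * (u1 * u2 * s0 * (v2 * v0 * s1) * (w0 * w1 * s2)) := by rw [← a2.eq]; group
    _ = (p0 * p1 * p2) * (u1 * u2 * v2) * ((q1 * q2 * q3) * (v0 * w0 * w1)) * (s0 * s1 * s2) := by rw [k1]; group
    _ = (p0 * p1 * p2) * (u1 * u2 * v2 * (v0 * w0)) * w1 * (q1 * q2 * q3) * (s0 * s1 * s2) := by rw [b5.eq]; group
    _ = (p0 * p1 * p2) * (v0 * w0) * u1 * (u2 * v2 * w1) * (q1 * q2 * q3) * (s0 * s1 * s2) := by rw [b3.eq]; group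
    _ = (p0 * p1 * p2) * (v0 * w0 * (u1 * w1) * (u2 * v2)) * (q1 * q2 * q3) * (s0 * s1 * s2) := by rw [b4.eq]; group
    _ = _ := by rw [b6.eq]

private theorem ah_one {x : Root → K → G} (h : Stb K x) (τ : K →+* K) {r s t k p : Root} (hr : sr r ≠ r) (hk : sg k.1 = k.1) (hb : bf r.1 k.1 = -1)
    (hs : s.1 = r.1 + k.1) (ht : t.1 = (sr r).1 + (sr (sr r)).1 + k.1) (hp : p.1 = r.1 + (sr r).1 + (sr (sr r)).1 + k.1) (a b : K) :
    yt x τ r a * x s b * (yt x τ r a)⁻¹ = x p (eps K r.1 t.1 * τ a * (eps K r.1 k.1 * τ (τ a) * b)) * x (sr t) (eps K r.1 k.1 * τ (τ a) * b) *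
      x (sr (sr t)) (eps K r.1 k.1 * τ a * b) * x s b := by
  obtain ⟨o1, o2, o3⟩ := bf_sr_sr hr
  have q3 : sg (sg (sg r.1)) = r.1 := sg_sg_sg r.1
  have T1 : (sr t).1 = (sr (sr r)).1 + r.1 + k.1 := by rw [sr_val, ht, sg_add, sg_add, hk, sr_val (sr r), sr_val r, q3]
  have T2 : (sr (sr t)).1 = r.1 + (sr r).1 + k.1 := by rw [sr_val, T1, sg_add, sg_add, hk, sr_val (sr r), sr_val r, q3]
  have p1 : bf (sr r).1 r.1 = 0 := by rw [bf_comm, o1]
  have p2 : bf (sr (sr r)).1 r.1 = 0 := by rw [bf_comm, o2]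
  have b1 : bf (sr r).1 k.1 = -1 := by
    have e := bf_sg r.1 k.1
    rw [hk, hb] at e
    exact e
  have b2 : bf (sr (sr r)).1 k.1 = -1 := by
    have e := bf_sg (sr r).1 k.1
    rw [hk, b1] at e
    exact e
  obtain ⟨s1, s2⟩ := eps_self_sr (K := K) hr
  have s3 : eps K (sr r).1 (sr (sr r)).1 = 1 := by
    rw [← s1]
    exact eps_sg r.1 (sr r).1
  have s4 : eps K (sr r).1 r.1 = 1 := by
    have e := eps_sg (K := K) r.1 (sg (sg r.1))
    rw [q3] at e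
    exact e.trans s2
  have s5 : eps K (sr (sr r)).1 r.1 = 1 := by
    have e := eps_sg (K := K) (sg r.1) (sg (sg r.1))
    rw [q3] at e
    exact e.trans s3
  have x1 : eps K (sr r).1 k.1 = eps K r.1 k.1 := by
    have e := eps_sg (K := K) r.1 k.1
    rw [hk] at e
    exact e
  have x2 : eps K (sr (sr r)).1 k.1 = eps K r.1 k.1 := by
    have e := eps_sg (K := K) (sr r).1 k.1
    rw [hk, x1] at e
    exact e
  have y1 : eps K (sr r).1 s.1 = eps K r.1 k.1 := by rw [hs, eps_add_right, s4, x1, one_mul]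
  have y2 : eps K (sr (sr r)).1 s.1 = eps K r.1 k.1 := by rw [hs, eps_add_right, s5, x2, one_mul]
  have y3 : eps K (sr r).1 (sr t).1 = eps K r.1 t.1 := eps_sg r.1 t.1
  rw [yt_mov x τ hr]
  refine ah_word1 ?_ ?_ ?_ ?_ ?_ ?_ ?_
  · rw [h.conj_add (t := sr t) (by rw [T1, hs]; abel)]
    show x (sr t) (eps K (sr (sr r)).1 s.1 * τ (τ a) * b) * x s b = _
    rw [y2]
  · rw [h.conj_add (t := p) (by rw [hp, T1]; abel)]
    show x p (eps K (sr r).1 (sr t).1 * τ a * _) * x (sr t) _ = _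
    rw [y3]
  · rw [h.conj_add (t := sr (sr t)) (by rw [T2, hs]; abel)]
    show x (sr (sr t)) (eps K (sr r).1 s.1 * τ a * b) * x s b = _
    rw [y1]
  · refine h.commute ?_ _ _
    rw [hp]
    simp only [bf_add_right, bf_root, o1, o2, hb]
    norm_num
  · refine h.commute ?_ _ _
    rw [T1]
    simp only [bf_add_right, bf_root, o1, o2, hb]
    norm_num
  · refine h.commute ?_ _ _
    rw [T2]
    simp only [bf_add_right, bf_root, o1, o2, hb]
    norm_num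
  · refine h.commute ?_ _ _
    rw [hs]
    simp only [bf_add_right, bf_root, o1, o2, hb]
    norm_num

/-- MODULE ah. `r`, `s` not fixed, `(r, s) = 1`, `(r, sr s) = (r, sr (sr s)) = -1`.  `t_k = r_i + s_j = r_j + s_i` (`{i,j,k} = {0,1,2}`), `γ = t_k + r_k`, `δ = t_k + s_k` (the same for all `k`).  With `Y_r = y_r(a)`:
`Y_r x_(s_j)(b_j) Y_r⁻¹ = x_γ(g_j) x_(t_k)(ε a_i b_j) x_(t_i)(ε a_k b_j) x_(s_j)(b_j)` where `(i, k) = (j + 1, j + 2)`, `ε = ε(r, sr s) = ε(r, sr (sr s))` (`eps_self_sr`: `r_1 - r_0 = s_1 - s_0`), `g_j = ± a_(j+1) a_(j+2) b_j` with a sign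
independent of `j` (`eps_sg`); then move the `x_(s_j)` to the right: `x_(s_j)` and `x_(t_j)` give `x_δ`.  Result: the coefficients are `t_0 : ε (a_1 b_2 + a_2 b_1)`, `γ : ± ∑ a_(j+1) a_(j+2) b_j`, `δ : ± ∑ a_j b_(j+1) b_(j+2)`; everything but `s` commutes. -/
theorem yt_c5 {x : Root → K → G} (h : Stb K x) {τ : K →+* K} (hτ : ∀ a, τ (τ (τ a)) = a) {r s t p q : Root} (hr : sr r ≠ r) (hs : sr s ≠ s) (h0 : bf r.1 s.1 = 1)
    (h1 : bf r.1 (sr s).1 = -1) (h2 : bf r.1 (sr (sr s)).1 = -1) (ht : t.1 = sg r.1 + sg (sg s.1)) (hp : p.1 = t.1 + r.1) (hq : q.1 = t.1 + s.1) (a b : K) :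
    sr t ≠ t ∧ sr p = p ∧ sr q = q ∧ ∃ c d, τ c = c ∧ τ d = d ∧
      yt x τ r a * yt x τ s b * (yt x τ r a)⁻¹ = yt x τ t (eps K r.1 (sr s).1 * (τ a * τ (τ b) + τ (τ a) * τ b)) * yt x τ p c * yt x τ q d * yt x τ s b := by
  obtain ⟨k, hk0⟩ := root_sub h0
  have hk : sg k.1 = k.1 := by rw [hk0]; exact ah_k hr hs h0 h1 h2
  have S0 : s.1 = r.1 + k.1 := by rw [hk0]; abel
  have hb : bf r.1 k.1 = -1 := by rw [hk0, bf_sub_right, h0, bf_root]; norm_num
  obtain ⟨o1, o2, o3⟩ := bf_sr_sr hr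
  have q3 : sg (sg (sg r.1)) = r.1 := sg_sg_sg r.1
  have S1 : (sr s).1 = (sr r).1 + k.1 := by rw [sr_val, S0, sg_add, hk, sr_val]
  have S2 : (sr (sr s)).1 = (sr (sr r)).1 + k.1 := by rw [sr_val, S1, sg_add, hk, sr_val (sr r)]
  have T0 : t.1 = (sr r).1 + (sr (sr r)).1 + k.1 := by
    have e : sg (sg s.1) = (sr (sr r)).1 + k.1 := S2
    rw [ht, e, sr_val r, add_assoc]
  have T1 : (sr t).1 = (sr (sr r)).1 + r.1 + k.1 := by rw [sr_val, T0, sg_add, sg_add, hk, sr_val (sr r), sr_val r, q3]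
  have T2 : (sr (sr t)).1 = r.1 + (sr r).1 + k.1 := by rw [sr_val, T1, sg_add, sg_add, hk, sr_val (sr r), sr_val r, q3]
  have P0 : p.1 = r.1 + (sr r).1 + (sr (sr r)).1 + k.1 := by rw [hp, T0]; abel
  have Q0 : q.1 = r.1 + (sr r).1 + (sr (sr r)).1 + k.1 + k.1 := by rw [hq, T0, S0]; abel
  have p1 : bf (sr r).1 r.1 = 0 := by rw [bf_comm, o1]
  have p2 : bf (sr (sr r)).1 r.1 = 0 := by rw [bf_comm, o2]
  have p3 : bf (sr (sr r)).1 (sr r).1 = 0 := by rw [bf_comm, o3]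
  have b1 : bf (sr r).1 k.1 = -1 := by
    have e := bf_sg r.1 k.1
    rw [hk, hb] at e
    exact e
  have b2 : bf (sr (sr r)).1 k.1 = -1 := by
    have e := bf_sg (sr r).1 k.1
    rw [hk, b1] at e
    exact e
  have c0 : bf k.1 r.1 = -1 := by rw [bf_comm, hb]
  have c1 : bf k.1 (sr r).1 = -1 := by rw [bf_comm, b1]
  have c2 : bf k.1 (sr (sr r)).1 = -1 := by rw [bf_comm, b2]
  have r0 := bf_root r
  have r1 := bf_root (sr r)
  have r2 := bf_root (sr (sr r))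
  have rk := bf_root k
  have htm : sr t ≠ t := by
    intro e
    have e2 := bf_root t
    rw [← e] at e2
    nth_rewrite 2 [e] at e2
    rw [T1, T0] at e2
    simp only [bf_add_left, bf_add_right, r0, r1, r2, rk, o1, o2, o3, p1, p2, p3, hb, b1, b2, c0, c1, c2] at e2
    norm_num at e2
  have hpf : sr p = p := by
    apply Subtype.ext
    rw [sr_val, P0, sg_add, sg_add, sg_add, hk, sr_val (sr r), sr_val r, q3]
    abel
  have hqf : sr q = q := by
    apply Subtype.ext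
    rw [sr_val, Q0, sg_add, sg_add, sg_add, sg_add, hk, sr_val (sr r), sr_val r, q3]
    abel
  refine ⟨htm, hpf, hqf, ?_⟩
  have hr1 : sr (sr r) ≠ sr r := sr_ne hr
  have hr2 : sr (sr (sr r)) ≠ sr (sr r) := sr_ne hr1
  -- the signs
  have x0 : eps K r.1 (sr s).1 = eps K r.1 k.1 := by rw [S1, eps_add_right, (eps_self_sr hr).1, one_mul]
  have x1 : eps K (sr r).1 k.1 = eps K r.1 k.1 := by
    have e := eps_sg (K := K) r.1 k.1
    rw [hk] at e
    exact e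
  have x2 : eps K (sr (sr r)).1 k.1 = eps K r.1 k.1 := by
    have e := eps_sg (K := K) (sr r).1 k.1
    rw [hk, x1] at e
    exact e
  have m1 : eps K (sr r).1 (sr t).1 = eps K r.1 t.1 := eps_sg r.1 t.1
  have m2 : eps K (sr (sr r)).1 (sr (sr t)).1 = eps K r.1 t.1 := (eps_sg (sr r).1 (sr t).1).trans m1
  have n1 : eps K (sr s).1 (sr t).1 = eps K s.1 t.1 := eps_sg s.1 t.1
  -- the three conjugates
  have G0 := ah_one h τ hr hk hb S0 T0 P0 a b
  have G1 := ah_one h τ (r := sr r) (s := sr s) (t := sr t) (p := p) hr1 hk b1 S1 (by rw [sr_sr_sr, T1]) (by rw [sr_sr_sr, P0]; abel) (τ a) (τ b)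
  have G2 := ah_one h τ (r := sr (sr r)) (s := sr (sr s)) (t := sr (sr t)) (p := p) hr2 hk b2 S2 (by rw [sr_sr_sr, T2]) (by rw [sr_sr_sr, P0]; abel) (τ (τ a)) (τ (τ b))
  rw [yt_sr h hτ hr, sr_sr_sr, hτ, m1, x1] at G1
  rw [yt_sr h hτ hr1, yt_sr h hτ hr, sr_sr_sr, hτ, m2, x2] at G2
  obtain ⟨E, hE⟩ : ∃ E, E = eps K r.1 k.1 := ⟨_, rfl⟩
  obtain ⟨M, hM⟩ : ∃ M, M = eps K r.1 t.1 := ⟨_, rfl⟩
  obtain ⟨N, hN⟩ : ∃ N, N = eps K s.1 t.1 := ⟨_, rfl⟩
  have hE1 : τ E = E := by rw [hE, eps_map]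
  have hM1 : τ M = M := by rw [hM, eps_map]
  have hN1 : τ N = N := by rw [hN, eps_map]
  rw [← hE, ← hM] at G0 G1 G2
  rw [x0, ← hE]
  have C : ∀ y z : Root, (0 : ℤ) ≤ bf y.1 z.1 → ∀ a b, Commute (x y a) (x z b) := fun y z hyz a b => h.commute hyz a b
  -- the forms
  have g00 : (0 : ℤ) ≤ bf t.1 t.1 := by rw [bf_root]; norm_num
  have g01 : (0 : ℤ) ≤ bf (sr t).1 t.1 := by
    rw [T0, T1]; simp only [bf_add_left, bf_add_right, r0, r1, r2, rk, o1, o2, o3, p1, p2, p3, hb, b1, b2, c0, c1, c2]; norm_num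
  have g02 : (0 : ℤ) ≤ bf (sr (sr t)).1 t.1 := by
    rw [T0, T2]; simp only [bf_add_left, bf_add_right, r0, r1, r2, rk, o1, o2, o3, p1, p2, p3, hb, b1, b2, c0, c1, c2]; norm_num
  have g21 : (0 : ℤ) ≤ bf (sr (sr t)).1 (sr t).1 := by
    rw [T1, T2]; simp only [bf_add_left, bf_add_right, r0, r1, r2, rk, o1, o2, o3, p1, p2, p3, hb, b1, b2, c0, c1, c2]; norm_num
  have pt0 : (0 : ℤ) ≤ bf p.1 t.1 := by
    rw [T0, P0]; simp only [bf_add_left, bf_add_right, r0, r1, r2, rk, o1, o2, o3, p1, p2, p3, hb, b1, b2, c0, c1, c2]; norm_num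
  have pt1 : (0 : ℤ) ≤ bf p.1 (sr t).1 := by
    rw [T1, P0]; simp only [bf_add_left, bf_add_right, r0, r1, r2, rk, o1, o2, o3, p1, p2, p3, hb, b1, b2, c0, c1, c2]; norm_num
  have pt2 : (0 : ℤ) ≤ bf p.1 (sr (sr t)).1 := by
    rw [T2, P0]; simp only [bf_add_left, bf_add_right, r0, r1, r2, rk, o1, o2, o3, p1, p2, p3, hb, b1, b2, c0, c1, c2]; norm_num
  have ps0 : (0 : ℤ) ≤ bf p.1 s.1 := by
    rw [S0, P0]; simp only [bf_add_left, bf_add_right, r0, r1, r2, rk, o1, o2, o3, p1, p2, p3, hb, b1, b2, c0, c1, c2]; norm_num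
  have ps1 : (0 : ℤ) ≤ bf p.1 (sr s).1 := by
    rw [S1, P0]; simp only [bf_add_left, bf_add_right, r0, r1, r2, rk, o1, o2, o3, p1, p2, p3, hb, b1, b2, c0, c1, c2]; norm_num
  have qt0 : (0 : ℤ) ≤ bf q.1 t.1 := by
    rw [T0, Q0]; simp only [bf_add_left, bf_add_right, r0, r1, r2, rk, o1, o2, o3, p1, p2, p3, hb, b1, b2, c0, c1, c2]; norm_num
  have qt1 : (0 : ℤ) ≤ bf q.1 (sr t).1 := by
    rw [T1, Q0]; simp only [bf_add_left, bf_add_right, r0, r1, r2, rk, o1, o2, o3, p1, p2, p3, hb, b1, b2, c0, c1, c2]; norm_num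
  have qs0 : (0 : ℤ) ≤ bf q.1 s.1 := by
    rw [S0, Q0]; simp only [bf_add_left, bf_add_right, r0, r1, r2, rk, o1, o2, o3, p1, p2, p3, hb, b1, b2, c0, c1, c2]; norm_num
  have st2 : (0 : ℤ) ≤ bf s.1 (sr (sr t)).1 := by
    rw [S0, T2]; simp only [bf_add_left, bf_add_right, r0, r1, r2, rk, o1, o2, o3, p1, p2, p3, hb, b1, b2, c0, c1, c2]; norm_num
  have st1 : (0 : ℤ) ≤ bf s.1 (sr t).1 := by
    rw [S0, T1]; simp only [bf_add_left, bf_add_right, r0, r1, r2, rk, o1, o2, o3, p1, p2, p3, hb, b1, b2, c0, c1, c2]; norm_num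
  have st10 : (0 : ℤ) ≤ bf (sr s).1 t.1 := by
    rw [S1, T0]; simp only [bf_add_left, bf_add_right, r0, r1, r2, rk, o1, o2, o3, p1, p2, p3, hb, b1, b2, c0, c1, c2]; norm_num
  have M1 : ∀ a b, x s a * x t b = x q (N * a * b) * x t b * x s a := by
    intro a b
    have e : x s a * x t b * (x s a)⁻¹ = x q (eps K s.1 t.1 * a * b) * x t b := h.conj_add (by rw [hq, add_comm]) a b
    rw [hN, ← e, inv_mul_cancel_right]
  have M2 : ∀ a b, x (sr s) a * x (sr t) b = x q (N * a * b) * x (sr t) b * x (sr s) a := by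
    intro a b
    have e : x (sr s) a * x (sr t) b * (x (sr s) a)⁻¹ = x q (eps K (sr s).1 (sr t).1 * a * b) * x (sr t) b := h.conj_add (by rw [Q0, S1, T1]; abel) a b
    rw [hN, ← n1, ← e, inv_mul_cancel_right]
  refine ⟨M * τ a * (E * τ (τ a) * b) + M * τ (τ a) * (E * a * τ b) + M * a * (E * τ a * τ (τ b)),
    N * b * (E * τ (τ a) * τ b) + N * b * (E * τ a * τ (τ b)) + N * τ b * (E * a * τ (τ b)), ?_, ?_, ?_⟩
  · simp only [map_add, map_mul, hM1, hE1, hτ]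
    ring
  · simp only [map_add, map_mul, hN1, hE1, hτ]
    ring
  · have key := ah_word2 (p0 := x p (M * τ a * (E * τ (τ a) * b))) (p1 := x p (M * τ (τ a) * (E * a * τ b))) (p2 := x p (M * a * (E * τ a * τ (τ b))))
      (q1 := x q (N * b * (E * τ (τ a) * τ b))) (q2 := x q (N * b * (E * τ a * τ (τ b)))) (q3 := x q (N * τ b * (E * a * τ (τ b))))
      (u1 := x (sr t) (E * τ (τ a) * b)) (u2 := x (sr (sr t)) (E * τ a * b)) (v2 := x (sr (sr t)) (E * a * τ b)) (v0 := x t (E * τ (τ a) * τ b))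
      (w0 := x t (E * τ a * τ (τ b))) (w1 := x (sr t) (E * a * τ (τ b))) (s0 := x s b) (s1 := x (sr s) (τ b)) (s2 := x (sr (sr s)) (τ (τ b)))
      (Commute.mul_right (Commute.mul_right (C _ _ pt1 _ _) (C _ _ pt2 _ _)) (C _ _ ps0 _ _))
      (Commute.mul_right (Commute.mul_right (Commute.mul_right (C _ _ pt1 _ _) (C _ _ pt2 _ _)) (C _ _ ps0 _ _)) (Commute.mul_right (Commute.mul_right (C _ _ pt2 _ _) (C _ _ pt0 _ _)) (C _ _ ps1 _ _)))
      (C _ _ st2 _ _) (M1 _ _) (M1 _ _) (C _ _ st10 _ _) (M2 _ _) (C _ _ st1 _ _)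
      (C _ _ qt0 _ _).symm (Commute.mul_left (Commute.mul_left (C _ _ qt0 _ _).symm (C _ _ qt0 _ _).symm) (C _ _ qs0 _ _).symm)
      (Commute.mul_right (Commute.mul_left (Commute.mul_left (C _ _ g01 _ _) (C _ _ g02 _ _)) (C _ _ g02 _ _)) (Commute.mul_left (Commute.mul_left (C _ _ g01 _ _) (C _ _ g02 _ _)) (C _ _ g02 _ _)))
      (Commute.mul_left (C _ _ g21 _ _) (C _ _ g21 _ _))
      (by
        have L : ∀ c, Commute (x q c) (x t (E * τ (τ a) * τ b) * x t (E * τ a * τ (τ b)) * x (sr t) (E * a * τ (τ b))) := fun c =>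
          Commute.mul_right (Commute.mul_right (C _ _ qt0 _ _) (C _ _ qt0 _ _)) (C _ _ qt1 _ _)
        exact Commute.mul_left (Commute.mul_left (L _) (L _)) (L _))
      (by
        have L : ∀ c, Commute (x p c) (x t (E * τ (τ a) * τ b) * x t (E * τ a * τ (τ b)) * (x (sr t) (E * τ (τ a) * b) * x (sr t) (E * a * τ (τ b))) *
            (x (sr (sr t)) (E * τ a * b) * x (sr (sr t)) (E * a * τ b))) := fun c =>
          Commute.mul_right (Commute.mul_right (Commute.mul_right (C _ _ pt0 _ _) (C _ _ pt0 _ _)) (Commute.mul_right (C _ _ pt1 _ _) (C _ _ pt1 _ _)))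
            (Commute.mul_right (C _ _ pt2 _ _) (C _ _ pt2 _ _))
        exact Commute.mul_left (Commute.mul_left (L _) (L _)) (L _))
    have l0 : yt x τ t (E * (τ a * τ (τ b) + τ (τ a) * τ b)) = x t (E * τ (τ a) * τ b) * x t (E * τ a * τ (τ b)) * (x (sr t) (E * τ (τ a) * b) * x (sr t) (E * a * τ (τ b))) *
        (x (sr (sr t)) (E * τ a * b) * x (sr (sr t)) (E * a * τ b)) := by
      rw [yt_mov x τ htm, ← h.add, ← h.add, ← h.add]
      refine congrArg₂ (· * ·) (congrArg₂ (· * ·) (congrArg _ ?_) (congrArg _ ?_)) (congrArg _ ?_)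
      · ring
      · simp only [map_add, map_mul, hE1, hτ]
        ring
      · simp only [map_add, map_mul, hE1, hτ]
        ring
    rw [l0, yt_fix x τ hpf, yt_fix x τ hqf, h.add, h.add, h.add, h.add, yt_mov x τ hs, ← key, ← G0, ← G1, ← G2]
    group
-- END ah

/-- the subgroup generated by the `y_r(a)` with `p r` -/
def Sy (x : Root → K → G) (τ : K →+* K) (p : Root → Prop) : Subgroup G := Subgroup.closure {g | ∃ r a, p r ∧ Ok τ r a ∧ g = yt x τ r a}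

theorem Sy.mem {x : Root → K → G} {τ : K →+* K} {p : Root → Prop} {r : Root} (h : p r) {a : K} (ha : Ok τ r a) : yt x τ r a ∈ Sy x τ p :=
  Subgroup.subset_closure ⟨r, a, h, ha, rfl⟩

theorem Sy.mono (x : Root → K → G) (τ : K →+* K) {p q : Root → Prop} (h : ∀ r, p r → q r) : Sy x τ p ≤ Sy x τ q := by
  refine Subgroup.closure_mono ?_
  rintro g ⟨r, a, hr, ha, rfl⟩
  exact ⟨r, a, h r hr, ha, rfl⟩

/-- the smallest set of roots which contains the `y`-roots of the commutator of `y_r` and `y_s` (`r_i + s_j`, and the sums of these with `r_k`, `s_k`, and so on): closed under `r' + t` (`t` in the set, `r' ∈ {r_i, s_i}`) and under sums -/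
inductive Cm (r s : Root) : Root → Prop
  | base (i j : ℕ) (t : Root) (h : t.1 = sg^[i] r.1 + sg^[j] s.1) : Cm r s t
  | left (i : ℕ) (t u : Root) (h : u.1 = sg^[i] r.1 + t.1) : Cm r s t → Cm r s u
  | right (i : ℕ) (t u : Root) (h : u.1 = sg^[i] s.1 + t.1) : Cm r s t → Cm r s u

-- BEGIN ai
private theorem ai_one {A B D : G} (h : A * B * A⁻¹ = D * B) : A * B * A⁻¹ * B⁻¹ = D := by
  rw [h, mul_inv_cancel_right]

private theorem ai_c2 {x : Root → K → G} (h : Stb K x) {τ : K →+* K} (hτ : ∀ a, τ (τ (τ a)) = a) {q : Root → Prop} {r s : Root} (hr : sr r = r) (hs : sr s ≠ s)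
    (hA : bf r.1 s.1 = -1) (k1 : ∀ t : Root, t.1 = r.1 + s.1 → q t) (k2 : ∀ t u : Root, t.1 = r.1 + s.1 → u.1 = t.1 + sg s.1 → q u)
    (k3 : ∀ t u v : Root, t.1 = r.1 + s.1 → u.1 = t.1 + sg s.1 → v.1 = u.1 + sg (sg s.1) → q v)
    (k4 : ∀ t u v w : Root, t.1 = r.1 + s.1 → u.1 = t.1 + sg s.1 → v.1 = u.1 + sg (sg s.1) → w.1 = r.1 + v.1 → q w) {a : K} (ha : τ a = a) (b : K) :
    yt x τ r a * yt x τ s b * (yt x τ r a)⁻¹ * (yt x τ s b)⁻¹ ∈ Sy x τ q := by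
  obtain ⟨z1, z2, z3⟩ := bf_sr_sr hs
  have hA1 : bf r.1 (sr s).1 = -1 := by
    rw [← hA, ← bf_sr r s, hr]
  have hA2 : bf r.1 (sr (sr s)).1 = -1 := by
    rw [← hA1, ← bf_sr r (sr s), hr]
  obtain ⟨t, ht⟩ := root_add hA
  have e1 : bf t.1 (sr s).1 = -1 := by
    rw [ht, bf_add_left, hA1, z1, add_zero]
  obtain ⟨u, hu⟩ := root_add e1
  have e2 : bf u.1 (sr (sr s)).1 = -1 := by
    rw [hu, bf_add_left, ht, bf_add_left, hA2, z2, z3, add_zero, add_zero]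
  obtain ⟨v, hv⟩ := root_add e2
  have e3 : bf r.1 v.1 = -1 := by
    rw [hv, bf_add_right, hu, bf_add_right, ht, bf_add_right, bf_root, hA, hA1, hA2]
    norm_num
  obtain ⟨w, hw⟩ := root_add e3
  obtain ⟨f1, f2, f3, f4, c, d, e, hd, he, key⟩ := yt_c2 h hτ hr hs ht hu hv hw ha b
  rw [ai_one key]
  exact mul_mem (mul_mem (mul_mem (Sy.mem (k1 t ht) (Ok.of_ne f1 _)) (Sy.mem (k2 t u ht hu) (Ok.of_ne f2 _))) (Sy.mem (k3 t u v ht hu hv) fun _ => hd))
    (Sy.mem (k4 t u v w ht hu hv hw) fun _ => he)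

private theorem ai_c4 {x : Root → K → G} (h : Stb K x) {τ : K →+* K} (hτ : ∀ a, τ (τ (τ a)) = a) {q : Root → Prop} {r s : Root} (hr : sr r ≠ r) (hs : sr s ≠ s)
    (hA : bf r.1 s.1 = -1) (h1 : bf r.1 (sr s).1 = 1) (h2 : bf r.1 (sr (sr s)).1 = 1) (k1 : ∀ t : Root, t.1 = r.1 + s.1 → q t) (a b : K) :
    yt x τ r a * yt x τ s b * (yt x τ r a)⁻¹ * (yt x τ s b)⁻¹ ∈ Sy x τ q := by
  obtain ⟨t, ht⟩ := root_add hA
  obtain ⟨f1, key⟩ := yt_c4 h (τ := τ) hr hs ht h1 h2 a b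
  rw [ai_one key]
  refine Sy.mem (k1 t ht) fun _ => ?_
  rw [map_mul, eps_map, map_add, map_add, hτ]
  ring

private theorem ai_c5 {x : Root → K → G} (h : Stb K x) {τ : K →+* K} (hτ : ∀ a, τ (τ (τ a)) = a) {q : Root → Prop} {r s : Root} (hr : sr r ≠ r) (hs : sr s ≠ s)
    (h0 : bf r.1 s.1 = 1) (h1 : bf r.1 (sr s).1 = -1) (h2 : bf r.1 (sr (sr s)).1 = -1) (k1 : ∀ t : Root, t.1 = sg r.1 + sg (sg s.1) → q t)
    (k2 : ∀ t u : Root, t.1 = sg r.1 + sg (sg s.1) → u.1 = t.1 + r.1 → q u) (k3 : ∀ t u : Root, t.1 = sg r.1 + sg (sg s.1) → u.1 = t.1 + s.1 → q u) (a b : K) :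
    yt x τ r a * yt x τ s b * (yt x τ r a)⁻¹ * (yt x τ s b)⁻¹ ∈ Sy x τ q := by
  obtain ⟨z1, z2, z3⟩ := bf_sr_sr hs
  obtain ⟨y1, y2, y3⟩ := bf_sr_sr hr
  have e0 : bf (sr r).1 (sr (sr s)).1 = -1 := by rw [bf_sr, h1]
  obtain ⟨t, ht⟩ := root_add e0
  have ht' : t.1 = sg r.1 + sg (sg s.1) := ht
  have e1 : bf t.1 r.1 = -1 := by
    rw [ht, bf_add_left, bf_comm (sr r).1, y1, bf_comm (sr (sr s)).1, h2, zero_add]
  have e2 : bf t.1 s.1 = -1 := by
    rw [ht, bf_add_left, bf_sr_left, h2, bf_comm (sr (sr s)).1, z2, add_zero]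
  obtain ⟨u, hu⟩ := root_add e1
  obtain ⟨v, hv⟩ := root_add e2
  obtain ⟨f1, f2, f3, c, d, hc, hd, key⟩ := yt_c5 h hτ hr hs h0 h1 h2 ht' hu hv a b
  rw [ai_one key]
  exact mul_mem (mul_mem (Sy.mem (k1 t ht') (Ok.of_ne f1 _)) (Sy.mem (k2 t u ht' hu) fun _ => hc)) (Sy.mem (k3 t v ht' hv) fun _ => hd)

private theorem ai_list : ∀ v ∈ rts, ∀ w ∈ rts, sg v = v ∨ sg w = w ∨ bf v w = -2 ∨ bf v (sg w) = -2 ∨ bf v (sg (sg w)) = -2 ∨
    (0 ≤ bf v w ∧ 0 ≤ bf v (sg w) ∧ 0 ≤ bf v (sg (sg w))) ∨ (bf v w = -1 ∧ bf v (sg w) = 1 ∧ bf v (sg (sg w)) = 1) ∨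
    (bf v w = 1 ∧ bf v (sg w) = -1 ∧ bf v (sg (sg w)) = 1) ∨ (bf v w = 1 ∧ bf v (sg w) = 1 ∧ bf v (sg (sg w)) = -1) ∨
    (bf v w = 1 ∧ bf v (sg w) = -1 ∧ bf v (sg (sg w)) = -1) ∨ (bf v w = -1 ∧ bf v (sg w) = 1 ∧ bf v (sg (sg w)) = -1) ∨
    (bf v w = -1 ∧ bf v (sg w) = -1 ∧ bf v (sg (sg w)) = 1) := by
  decide +kernel

private theorem ai_two (r s : Root) (h : bf r.1 s.1 = -2) : s = -r := (bf_ge r s).2 h

/-- MODULE ai. COMMUTATORS OF GENERATORS, `q` contains all roots of `Cm r s`.  Cases: forms `bf r s`, `bf r (sr s)`, `bf r (sr (sr s))` all `≥ 0`: `yt_comm`.  Both fixed: `yt_c1`.  `r` fixed, `s` not: all three forms are equal, `= -1`: `yt_c2`; `r` not fixed, `s` fixed: the inverse of the commutator `[y_s, y_r]`, `yt_c2`.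
Both not fixed: by a `decide` on the list of roots (`all_rts` twice) the three forms are a permutation of `(-1, 1, 1)` or of `(1, -1, -1)` or all `≥ 0` if `s ≠ -r, -sr r, -sr (sr r)`; replace `s`, `b` by `sr s`, `τ b` or `sr (sr s)`, `τ (τ b)` (`yt_sr`), then `yt_c4`, `yt_c5`. -/
theorem Sy.comm_gen {x : Root → K → G} (h : Stb K x) {τ : K →+* K} (hτ : ∀ a, τ (τ (τ a)) = a) {q : Root → Prop} {r s : Root} (h1 : s ≠ -r ∧ s ≠ -sr r ∧ s ≠ -sr (sr r))
    (h2 : ∀ t, Cm r s t → q t) {a b : K} (ha : Ok τ r a) (hb : Ok τ s b) :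
    yt x τ r a * yt x τ s b * (yt x τ r a)⁻¹ * (yt x τ s b)⁻¹ ∈ Sy x τ q := by
  have triv : 0 ≤ bf r.1 s.1 → 0 ≤ bf r.1 (sr s).1 → 0 ≤ bf r.1 (sr (sr s)).1 →
      yt x τ r a * yt x τ s b * (yt x τ r a)⁻¹ * (yt x τ s b)⁻¹ ∈ Sy x τ q := by
    intro g0 g1 g2
    have k := yt_comm h τ (r := r) (s := s) g0 g1 g2 a b
    have k2 : yt x τ r a * yt x τ s b * (yt x τ r a)⁻¹ * (yt x τ s b)⁻¹ = 1 := by
      rw [k]
      group
    rw [k2]
    exact one_mem _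
  have g1 : -1 ≤ bf r.1 s.1 := by
    have k1 := (bf_ge r s).1
    have : bf r.1 s.1 ≠ -2 := fun e => h1.1 (ai_two r s e)
    omega
  by_cases hr : sr r = r
  · have hA1 : bf r.1 (sr s).1 = bf r.1 s.1 := by
      rw [← bf_sr r s, hr]
    have hA2 : bf r.1 (sr (sr s)).1 = bf r.1 s.1 := by
      rw [← hA1, ← bf_sr r (sr s), hr]
    by_cases hA : bf r.1 s.1 = -1
    · by_cases hs : sr s = s
      · obtain ⟨t, ht⟩ := root_add hA
        obtain ⟨f1, key⟩ := yt_c1 h τ hr hs ht a b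
        rw [ai_one key]
        refine Sy.mem (h2 t (Cm.base 0 0 t ht)) fun _ => ?_
        rw [map_mul, map_mul, eps_map, ha hr, hb hs]
      · refine ai_c2 h hτ hr hs hA (fun t ht => h2 t (Cm.base 0 0 t ht)) (fun t u ht hu => h2 u (Cm.right 1 t u (by rw [hu, add_comm]; rfl) (Cm.base 0 0 t ht)))
          (fun t u v ht hu hv => h2 v (Cm.right 2 u v (by rw [hv, add_comm]; rfl) (Cm.right 1 t u (by rw [hu, add_comm]; rfl) (Cm.base 0 0 t ht))))
          (fun t u v w ht hu hv hw => h2 w (Cm.left 0 v w hw (Cm.right 2 u v (by rw [hv, add_comm]; rfl) (Cm.right 1 t u (by rw [hu, add_comm]; rfl) (Cm.base 0 0 t ht)))))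
          (ha hr) b
    · exact triv (by omega) (by omega) (by omega)
  · by_cases hs : sr s = s
    · have hA1 : bf r.1 (sr s).1 = bf r.1 s.1 := by rw [hs]
      have hA2 : bf r.1 (sr (sr s)).1 = bf r.1 s.1 := by rw [hs, hs]
      by_cases hA : bf r.1 s.1 = -1
      · have b0 : ∀ t : Root, t.1 = s.1 + r.1 → Cm r s t := fun t ht => Cm.base 0 0 t (by rw [ht, add_comm]; rfl)
        have b1 : ∀ t u : Root, t.1 = s.1 + r.1 → u.1 = t.1 + sg r.1 → Cm r s u := fun t u ht hu => Cm.left 1 t u (by rw [hu, add_comm]; rfl) (b0 t ht)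
        have b2 : ∀ t u v : Root, t.1 = s.1 + r.1 → u.1 = t.1 + sg r.1 → v.1 = u.1 + sg (sg r.1) → Cm r s v :=
          fun t u v ht hu hv => Cm.left 2 u v (by rw [hv, add_comm]; rfl) (b1 t u ht hu)
        have key := ai_c2 h hτ (q := q) hs hr (by rw [bf_comm, hA]) (fun t ht => h2 t (b0 t ht)) (fun t u ht hu => h2 u (b1 t u ht hu))
          (fun t u v ht hu hv => h2 v (b2 t u v ht hu hv)) (fun t u v w ht hu hv hw => h2 w (Cm.right 0 v w hw (b2 t u v ht hu hv))) (hb hs) a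
        have key2 := inv_mem key
        have e : (yt x τ s b * yt x τ r a * (yt x τ s b)⁻¹ * (yt x τ r a)⁻¹)⁻¹ = yt x τ r a * yt x τ s b * (yt x τ r a)⁻¹ * (yt x τ s b)⁻¹ := by
          group
        rwa [e] at key2
      · exact triv (by omega) (by omega) (by omega)
    · have n1 : bf r.1 s.1 ≠ -2 := fun e => h1.1 (ai_two r s e)
      have n2 : bf r.1 (sr s).1 ≠ -2 := by
        intro e
        have k := ai_two r (sr s) e
        have k2 := congrArg (fun t => sr (sr t)) k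
        simp only [sr_sr_sr, sr_neg] at k2
        exact h1.2.2 k2
      have n3 : bf r.1 (sr (sr s)).1 ≠ -2 := by
        intro e
        have k := ai_two r (sr (sr s)) e
        have k2 := congrArg sr k
        simp only [sr_sr_sr, sr_neg] at k2
        exact h1.2.1 k2
      have hs' := sr_ne hs
      have hs'' := sr_ne hs'
      have E1 : yt x τ (sr s) (τ b) = yt x τ s b := yt_sr h hτ hs b
      have E2 : yt x τ (sr (sr s)) (τ (τ b)) = yt x τ s b := by rw [yt_sr h hτ hs', E1]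
      rcases ai_list r.1 (mem_rts r) s.1 (mem_rts s) with c | c | c | c | c | ⟨c0, c1, c2⟩ | ⟨c0, c1, c2⟩ | ⟨c0, c1, c2⟩ | ⟨c0, c1, c2⟩ | ⟨c0, c1, c2⟩ | ⟨c0, c1, c2⟩ | ⟨c0, c1, c2⟩
      · exact absurd (Subtype.ext c) hr
      · exact absurd (Subtype.ext c) hs
      · exact absurd c n1
      · exact absurd c n2
      · exact absurd c n3
      · exact triv c0 c1 c2
      · exact ai_c4 h hτ hr hs c0 c1 c2 (fun t ht => h2 t (Cm.base 0 0 t ht)) a b
      · rw [← E1]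
        exact ai_c4 h hτ hr hs' c1 c2 (by rw [sr_sr_sr]; exact c0) (fun t ht => h2 t (Cm.base 0 1 t ht)) a (τ b)
      · rw [← E2]
        exact ai_c4 h hτ hr hs'' c2 (by rw [sr_sr_sr]; exact c0) (by rw [sr_sr_sr]; exact c1) (fun t ht => h2 t (Cm.base 0 2 t ht)) a (τ (τ b))
      · exact ai_c5 h hτ hr hs c0 c1 c2 (fun t ht => h2 t (Cm.base 1 2 t ht)) (fun t u ht hu => h2 u (Cm.left 0 t u (by rw [hu, add_comm]; rfl) (Cm.base 1 2 t ht)))
          (fun t u ht hu => h2 u (Cm.right 0 t u (by rw [hu, add_comm]; rfl) (Cm.base 1 2 t ht))) a b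
      · rw [← E1]
        exact ai_c5 h hτ hr hs' c1 c2 (by rw [sr_sr_sr]; exact c0) (fun t ht => h2 t (Cm.base 1 3 t ht)) (fun t u ht hu => h2 u (Cm.left 0 t u (by rw [hu, add_comm]; rfl) (Cm.base 1 3 t ht)))
          (fun t u ht hu => h2 u (Cm.right 1 t u (by rw [hu, add_comm]; rfl) (Cm.base 1 3 t ht))) a (τ b)
      · rw [← E2]
        exact ai_c5 h hτ hr hs'' c2 (by rw [sr_sr_sr]; exact c0) (by rw [sr_sr_sr]; exact c1) (fun t ht => h2 t (Cm.base 1 4 t ht)) (fun t u ht hu => h2 u (Cm.left 0 t u (by rw [hu, add_comm]; rfl) (Cm.base 1 4 t ht)))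
          (fun t u ht hu => h2 u (Cm.right 2 t u (by rw [hu, add_comm]; rfl) (Cm.base 1 4 t ht))) a (τ (τ b))
-- END ai

-- BEGIN aj
private theorem aj_iter {p : Root → Prop} (hp : ∀ s, p s → p (sr s)) {s : Root} (hs : p s) (j : ℕ) : ∃ s' : Root, s'.1 = sg^[j] s.1 ∧ p s' := by
  induction j with
  | zero => exact ⟨s, rfl, hs⟩
  | succ j ih =>
    obtain ⟨s', h1, h2⟩ := ih
    exact ⟨sr s', by rw [sr_val, h1, Function.iterate_succ_apply'], hp s' h2⟩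

private theorem aj_rot {p : Root → Prop} (hp : ∀ s, p s → p (sr s)) {r : Root} (h2 : ∀ s t : Root, p s → t.1 = r.1 + s.1 → p t) (i : ℕ) :
    ∀ s t : Root, p s → t.1 = sg^[i] r.1 + s.1 → p t := by
  induction i with
  | zero => exact fun s t hs ht => h2 s t hs ht
  | succ i ih =>
    intro s t hs ht
    rw [Function.iterate_succ_apply'] at ht
    have e : (sr (sr t)).1 = sg^[i] r.1 + (sr (sr s)).1 := by
      rw [sr_val, sr_val, ht, sg_add, sg_add, sg_sg_sg]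
      rfl
    have k := hp _ (ih _ _ (hp _ (hp _ hs)) e)
    rwa [sr_sr_sr] at k

private theorem aj_cm {p : Root → Prop} (hp : ∀ s, p s → p (sr s)) (h3 : ∀ s t u : Root, p s → p t → u.1 = s.1 + t.1 → p u) {r : Root}
    (h2 : ∀ s t : Root, p s → t.1 = r.1 + s.1 → p t) {s : Root} (hs : p s) {t : Root} (ht : Cm r s t) : p t := by
  induction ht with
  | base i j t h =>
    obtain ⟨s', e1, e2⟩ := aj_iter hp hs j
    exact aj_rot hp h2 i s' t e2 (by rw [h, e1])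
  | left i t u h _ ih => exact aj_rot hp h2 i t u ih h
  | right i t u h _ ih =>
    obtain ⟨s', e1, e2⟩ := aj_iter hp hs i
    exact h3 s' t u e2 ih (by rw [h, e1])

/-- MODULE aj. CONJUGATION (as `Pool.Agent.ThF.Sy.conj`): `Cm r s t` implies `p t` if `p s` (induction on `Cm`; `left` with `h2`, `right` with `h3`). -/
theorem Sy.conj {x : Root → K → G} (h : Stb K x) {τ : K →+* K} (hτ : ∀ a, τ (τ (τ a)) = a) {p : Root → Prop} (hp : ∀ s, p s → p (sr s))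
    (h3 : ∀ s t u : Root, p s → p t → u.1 = s.1 + t.1 → p u) {r : Root} (h1 : ∀ s, p s → s ≠ -r)
    (h2 : ∀ s t : Root, p s → t.1 = r.1 + s.1 → p t) {a : K} (ha : Ok τ r a) {g : G} (hg : g ∈ Sy x τ p) :
    yt x τ r a * g * (yt x τ r a)⁻¹ ∈ Sy x τ p := by
  unfold Sy at hg
  induction hg using Subgroup.closure_induction with
  | mem g hg =>
    obtain ⟨s, b, hs, hb, rfl⟩ := hg
    have h4 : yt x τ r a * yt x τ s b * (yt x τ r a)⁻¹ * (yt x τ s b)⁻¹ ∈ Sy x τ p := by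
      refine Sy.comm_gen h hτ ⟨h1 s hs, fun e => ?_, fun e => ?_⟩ (fun t ht => aj_cm hp h3 h2 hs ht) ha hb
      · refine h1 _ (hp _ (hp _ hs)) ?_
        rw [e, sr_neg, sr_neg, sr_sr_sr]
      · refine h1 _ (hp _ hs) ?_
        rw [e, sr_neg, sr_sr_sr]
    have h5 := mul_mem h4 (Sy.mem (x := x) (τ := τ) (p := p) hs hb)
    have h6 : yt x τ r a * yt x τ s b * (yt x τ r a)⁻¹ * (yt x τ s b)⁻¹ * yt x τ s b = yt x τ r a * yt x τ s b * (yt x τ r a)⁻¹ := by group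
    rwa [h6] at h5
  | one =>
    have h6 : yt x τ r a * 1 * (yt x τ r a)⁻¹ = 1 := by group
    rw [h6]
    exact one_mem _
  | mul g g' _ _ hg hg' =>
    have h6 : yt x τ r a * (g * g') * (yt x τ r a)⁻¹ = (yt x τ r a * g * (yt x τ r a)⁻¹) * (yt x τ r a * g' * (yt x τ r a)⁻¹) := by group
    rw [h6]
    exact mul_mem hg hg'
  | inv g _ hg =>
    have h6 : yt x τ r a * g⁻¹ * (yt x τ r a)⁻¹ = (yt x τ r a * g * (yt x τ r a)⁻¹)⁻¹ := by group
    rw [h6]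
    exact inv_mem hg

/-- from the generators to the whole group (`yt_inv`) -/
theorem Sy.conj_all {x : Root → K → G} (h : Stb K x) {τ : K →+* K} {p q : Root → Prop}
    (h1 : ∀ r, q r → ∀ a, Ok τ r a → ∀ g ∈ Sy x τ p, yt x τ r a * g * (yt x τ r a)⁻¹ ∈ Sy x τ p) {u g : G} (hu : u ∈ Sy x τ q) (hg : g ∈ Sy x τ p) :
    u * g * u⁻¹ ∈ Sy x τ p := by
  have key : (∀ g ∈ Sy x τ p, u * g * u⁻¹ ∈ Sy x τ p) ∧ ∀ g ∈ Sy x τ p, u⁻¹ * g * u ∈ Sy x τ p := by
    clear hg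
    unfold Sy at hu
    induction hu using Subgroup.closure_induction with
    | mem u hu =>
      obtain ⟨r, a, hr, ha, rfl⟩ := hu
      refine ⟨h1 r hr a ha, fun g hg => ?_⟩
      have h4 := h1 r hr (-a) ha.neg g hg
      rw [← yt_inv h, inv_inv] at h4
      exact h4
    | one =>
      refine ⟨fun g hg => ?_, fun g hg => ?_⟩
      · simpa using hg
      · simpa using hg
    | mul v w _ _ hv hw =>
      refine ⟨fun g hg => ?_, fun g hg => ?_⟩
      · have h6 : v * w * g * (v * w)⁻¹ = v * (w * g * w⁻¹) * v⁻¹ := by group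
        rw [h6]
        exact hv.1 _ (hw.1 g hg)
      · have h6 : (v * w)⁻¹ * g * (v * w) = w⁻¹ * (v⁻¹ * g * v) * w := by group
        rw [h6]
        exact hw.2 _ (hv.2 g hg)
    | inv v _ hv =>
      refine ⟨fun g hg => ?_, fun g hg => ?_⟩
      · have h6 := hv.2 g hg
        rwa [inv_inv]
      · have h6 := hv.1 g hg
        rwa [inv_inv]
  exact key.1 g hg
-- END aj

end ThT
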